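import Pool.Agent.Mg.Fc6d393p.Gd22e41

set_option linter.all false

section

/-!
The concrete blocks.
-/

set_option autoImplicit false

open Finset

noncomputable section

namespace Pool.Agent.MP_cebb75_nt.X

open MP_fdd1d3_nt

theorem geo_le (ρ c : ℝ) (hρ : 0 ≤ ρ) (hc : 0 ≤ c) (h : ρ * (c + 1) ≤ c) (m : ℕ) :
    ∑ j ∈ range m, ρ ^ (m - j) ≤ c := by
  induction m with
  | zero => simpa using hc
  | succ m ih =>
    have h1 : ∑ j ∈ range m, ρ ^ (m + 1 - j) = ρ * ∑ j ∈ range m, ρ ^ (m - j) := by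
      rw [mul_sum]
      refine sum_congr rfl fun j hj => ?_
      rw [← pow_succ', show m + 1 - j = m - j + 1 by have := mem_range.1 hj; omega]
    rw [sum_range_succ, h1, show m + 1 - m = 1 by omega, pow_one]
    nlinarith [mul_le_mul_of_nonneg_left ih hρ]

theorem geo_up (κ : ℝ) (hκ : 3 / 2 ≤ κ) (m : ℕ) :
    ∑ j ∈ range m, κ ^ (m - j) + 3 ≤ 3 * κ ^ m := by
  induction m with
  | zero => simp
  | succ m ih =>
    have h1 : ∑ j ∈ range m, κ ^ (m + 1 - j) = κ * ∑ j ∈ range m, κ ^ (m - j) := by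
      rw [mul_sum]
      refine sum_congr rfl fun j hj => ?_
      rw [← pow_succ', show m + 1 - j = m - j + 1 by have := mem_range.1 hj; omega]
    rw [sum_range_succ, h1, show m + 1 - m = 1 by omega, pow_one, pow_succ']
    nlinarith [mul_le_mul_of_nonneg_left ih (show 0 ≤ κ by linarith)]

theorem block_mass (w : ℕ) (hw : 2 ≤ w) : ∑ p ∈ PP w (w ^ 2), 1 / (p : ℝ) ≤ 4 := by
  have hw1 : (2 : ℝ) ≤ w := by exact_mod_cast hw
  have hl : Real.log 2 ≤ Real.log w := Real.log_le_log (by norm_num) hw1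
  have hl2 : 0 < Real.log 2 := Real.log_pos (by norm_num)
  have h1 := mertens_a (w ^ 2) (by positivity)
  have h2 : Real.log w * ∑ p ∈ PP w (w ^ 2), 1 / (p : ℝ) ≤
      ∑ p ∈ PP 0 (w ^ 2), Real.log p * (1 / (p : ℝ)) := by
    rw [mul_sum]
    refine le_trans (sum_le_sum fun p hp => ?_) (sum_le_sum_of_subset_of_nonneg
      (s := PP w (w ^ 2)) (fun p hp => ?_)
      fun p _ _ => mul_nonneg (Real.log_natCast_nonneg p) (by positivity))
    · refine mul_le_mul_of_nonneg_right (Real.log_le_log (by linarith) ?_) (by positivity)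
      exact_mod_cast ((mem_PP _ _ _).1 hp).1.1.le
    · have := (mem_PP _ _ _).1 hp
      exact (mem_PP _ _ _).2 ⟨⟨this.2.pos, this.1.2⟩, this.2⟩
  rw [Nat.cast_pow, Real.log_pow, show (4 : ℝ) = 2 ^ 2 by norm_num, Real.log_pow] at h1
  push_cast at h1
  by_contra hh
  push Not at hh
  nlinarith

/-- number of active shifts -/
def KK (η : ℝ) (m j : ℕ) : ℕ := ⌊((2 : ℝ) ^ (1 - η)) ^ (m - j)⌋₊

/-- the blocks -/
def BB (y j : ℕ) : Finset ℕ := PP (y ^ 2 ^ j) (y ^ 2 ^ (j + 1))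

theorem kappa_ge {η : ℝ} (h1 : η ≤ 1 / 10) : 3 / 2 ≤ (2 : ℝ) ^ (1 - η) := by
  rw [Real.rpow_def_of_pos (by norm_num)]
  nlinarith [Real.add_one_le_exp (Real.log 2 * (1 - η)), Real.log_two_gt_d9]

theorem BB_mem {y j p : ℕ} (hy : 2 ≤ y) (hp : p ∈ BB y j) : p.Prime ∧ y < p := by
  have h := (mem_PP _ _ _).1 hp
  exact ⟨h.2, lt_of_le_of_lt (Nat.le_self_pow (by positivity) y) h.1.1⟩

theorem BB_disj {y : ℕ} (hy : 2 ≤ y) {i j : ℕ} (h : i ≠ j) : Disjoint (BB y i) (BB y j) := by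
  wlog hij : i < j generalizing i j
  · exact (this h.symm (by omega)).symm
  refine disjoint_left.2 fun p hp hq => ?_
  have h1 := ((mem_PP _ _ _).1 hp).1.2
  have h2 := ((mem_PP _ _ _).1 hq).1.1
  have h3 : y ^ 2 ^ (i + 1) ≤ y ^ 2 ^ j :=
    Nat.pow_le_pow_right (by omega) (Nat.pow_le_pow_right (by norm_num) hij)
  omega

theorem BB_mass {y : ℕ} (hy : 2 ≤ y) (j K : ℕ) {B : Finset ℕ} (hB : B ⊆ BB y j) :
    ∑ p ∈ B, (K : ℝ) / p ≤ 4 * K := by
  have h1 := block_mass (y ^ 2 ^ j) (hy.trans (Nat.le_self_pow (by positivity) y))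
  rw [← pow_mul, ← pow_succ] at h1
  calc _ = K * ∑ p ∈ B, 1 / (p : ℝ) := by rw [mul_sum]; exact sum_congr rfl fun p _ => by ring
    _ ≤ K * 4 := mul_le_mul_of_nonneg_left
        ((sum_le_sum_of_subset_of_nonneg hB fun p _ _ => by positivity).trans h1) (by positivity)
    _ = _ := by ring

variable {η : ℝ} {y m : ℕ}

theorem KK_le (j : ℕ) : (KK η m j : ℝ) ≤ ((2 : ℝ) ^ (1 - η)) ^ (m - j) :=
  Nat.floor_le (by positivity)

theorem KK_le' (h1 : η ≤ 1 / 10) (hK : ((2 : ℝ) ^ (1 - η)) ^ m ≤ η * y) (j : ℕ) :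
    (KK η m j : ℝ) ≤ η * y :=
  (KK_le j).trans ((pow_le_pow_right₀ (by linarith [kappa_ge h1]) (Nat.sub_le m j)).trans hK)

open scoped Classical in
theorem conc (h0 : 0 < η) (h1 : η ≤ 1 / 10) (hy : 2 ≤ y) (hK : ((2 : ℝ) ^ (1 - η)) ^ m ≤ η * y)
    (B : ℕ → Finset ℕ) (M a x : ℕ) (hM : 0 < M) (hB : ∀ j, B j ⊆ BB y j)
    (hBM : ∀ j, ∀ p ∈ B j, ¬ p ∣ M) :
    (((range x).filter fun n => n ≡ a [MOD M] ∧ Sv (range m) B (KK η m) n).card : ℝ) ≤
        2 * (x / M * VV (range m) B (KK η m)) + Real.exp (300 / η * (2 ^ m * Real.log y)) ∧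
      x / M * VV (range m) B (KK η m) / 2 - (1 + m) * Real.exp (300 / η * (2 ^ m * Real.log y)) ≤
        (((range x).filter fun n => n ≡ a [MOD M] ∧ Sv (range m) B (KK η m) n).card : ℝ) := by
  have hyR : (2 : ℝ) ≤ y := by exact_mod_cast hy
  have hκ := kappa_ge h1
  set κ := (2 : ℝ) ^ (1 - η) with hκd
  have hKy : ∀ j, (KK η m j : ℝ) ≤ y / 10 := fun j => by nlinarith [KK_le' h1 hK j]
  have hY : ∀ j, (y : ℝ) ≤ (y : ℝ) ^ 2 ^ (j + 1) := fun j =>
    le_self_pow₀ (by linarith) (by positivity)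
  have hs := sieve (range m) B (KK η m) (fun j => 2 * (10 * KK η m j + (m - j)))
    (fun j => (1 / 2) ^ (m - j) / 2) (fun j => ((y : ℝ) ^ 2 ^ (j + 1)) ^ 2) M a x hM
    (fun j _ p hp => ⟨(BB_mem hy (hB j hp)).1, by
      have h2 : (y : ℝ) < p := by exact_mod_cast (BB_mem hy (hB j hp)).2
      have h3 : ((2 * KK η m j : ℕ) : ℝ) < p := by push_cast; linarith [hKy j]
      exact_mod_cast h3, hBM j p hp⟩)
    (fun i _ j _ hij => (BB_disj hy hij).mono (hB i) (hB j)) (fun j _ => even_two_mul _)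
    (fun j _ => by
      have h2 := BB_mass hy j (KK η m j) (hB j)
      have h3 : Real.exp (-1) ≤ 1 / 2 := by
        rw [Real.exp_neg, inv_eq_one_div]
        exact one_div_le_one_div_of_le (by norm_num) (by linarith [Real.add_one_le_exp 1])
      calc _ ≤ Real.exp (((m - j : ℕ) : ℝ) * (-1) + -1) := by
            rw [Real.exp_le_exp]
            have : (0 : ℝ) ≤ ((m - j : ℕ) : ℝ) := by positivity
            push_cast
            linarith
        _ = Real.exp (-1) ^ (m - j) * Real.exp (-1) := by rw [Real.exp_add, Real.exp_nat_mul]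
        _ ≤ (1 / 2) ^ (m - j) * (1 / 2) := by gcongr
        _ = _ := by ring)
    (by
      rw [← sum_div]
      linarith [geo_le (1 / 2) 1 (by norm_num) (by norm_num) (by norm_num) m])
    (fun j _ => one_le_pow₀ (by linarith [hY j]))
    (fun j _ => by
      rw [sq]
      refine mul_le_mul ?_ (by linarith [hKy j, hY j]) (by positivity) (by positivity)
      have h2 : B j ⊆ Ioc 0 (y ^ 2 ^ (j + 1)) := fun p hp =>
        mem_Ioc.2 ⟨(BB_mem hy (hB j hp)).1.pos, ((mem_PP _ _ _).1 (hB j hp)).1.2⟩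
      have h3 := card_le_card h2
      rw [Nat.card_Ioc, Nat.sub_zero] at h3
      exact_mod_cast h3)
  have hly : 0 < Real.log y := Real.log_pos (by linarith)
  have hE : ∏ j ∈ range m, (2 * ((y : ℝ) ^ 2 ^ (j + 1)) ^ 2) ^ (2 * (10 * KK η m j + (m - j)) + 1) ≤
      Real.exp (300 / η * (2 ^ m * Real.log y)) := by
    have h2 : ∀ j ∈ range m,
        (2 * ((y : ℝ) ^ 2 ^ (j + 1)) ^ 2) ^ (2 * (10 * KK η m j + (m - j)) + 1) ≤
        Real.exp (150 * (2 ^ m * Real.log y) * (κ / 2) ^ (m - j)) := by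
      intro j hj
      have h3 : 2 * ((y : ℝ) ^ 2 ^ (j + 1)) ^ 2 ≤ Real.exp (3 * (2 ^ (j + 1) * Real.log y)) := by
        have h4 : (y : ℝ) ^ 2 ^ (j + 1) = Real.exp (2 ^ (j + 1) * Real.log y) := by
          rw [show (2 : ℝ) ^ (j + 1) = ((2 ^ (j + 1) : ℕ) : ℝ) by push_cast; rfl, Real.exp_nat_mul,
            Real.exp_log (by linarith)]
        rw [show (3 : ℝ) = ((3 : ℕ) : ℝ) by norm_num, Real.exp_nat_mul, ← h4, pow_succ' _ 2]
        exact mul_le_mul_of_nonneg_right (by linarith [hY j]) (by positivity)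
      refine (pow_le_pow_left₀ (by positivity) h3 _).trans ?_
      rw [← Real.exp_nat_mul, Real.exp_le_exp]
      have h4 : (2 : ℝ) ^ m = 2 ^ j * 2 ^ (m - j) := by
        rw [← pow_add]; congr 1; have := mem_range.1 hj; omega
      have h5 := one_add_mul_le_pow (a := κ - 1) (by linarith) (m - j)
      rw [add_sub_cancel] at h5
      have h6 : (0 : ℝ) ≤ ((m - j : ℕ) : ℝ) := by positivity
      have h7 : ((2 * (10 * KK η m j + (m - j)) + 1 : ℕ) : ℝ) ≤ 25 * κ ^ (m - j) := by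
        have := KK_le (η := η) (m := m) j
        push_cast
        nlinarith
      have h8 : 150 * (2 ^ m * Real.log y) * (κ / 2) ^ (m - j) =
          25 * κ ^ (m - j) * (3 * (2 ^ (j + 1) * Real.log y)) := by
        rw [h4, div_pow]
        field_simp
        ring
      rw [h8]
      exact mul_le_mul_of_nonneg_right h7 (by positivity)
    refine (prod_le_prod (fun j _ => by positivity) h2).trans ?_
    rw [← Real.exp_sum, ← mul_sum, Real.exp_le_exp]
    have h3 := geo_le (κ / 2) (2 / η) (by positivity) (by positivity) (by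
      have h4 : κ / 2 * (2 : ℝ) ^ η = 1 := by
        rw [hκd, div_mul_eq_mul_div, ← Real.rpow_add (by norm_num)]; simp
      have h5 : 1 + η / 2 ≤ (2 : ℝ) ^ η := by
        rw [Real.rpow_def_of_pos (by norm_num)]
        nlinarith [Real.add_one_le_exp (Real.log 2 * η), Real.log_two_gt_d9]
      have h6 : 2 / η + 1 = 2 / η * (1 + η / 2) := by field_simp
      calc _ = 2 / η * (κ / 2 * (1 + η / 2)) := by rw [h6]; ring
        _ ≤ 2 / η * (κ / 2 * 2 ^ η) := by gcongr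
        _ = _ := by rw [h4, mul_one]) m
    refine (mul_le_mul_of_nonneg_left h3 (by positivity)).trans (le_of_eq ?_)
    ring
  rw [card_range] at hs
  refine ⟨hs.1.trans (by linarith), le_trans ?_ hs.2⟩
  have := mul_le_mul_of_nonneg_left hE (show (0 : ℝ) ≤ 1 + m by positivity)
  linarith

end Pool.Agent.MP_cebb75_nt.X

end
end

section

/-!
The sifted set and its properties.
-/

set_option autoImplicit false

open Finset

noncomputable section

namespace Pool.Agent.MP_cebb75_nt.X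

open MP_fdd1d3_nt

open scoped Classical in
/-- the sifted set -/
def SS (η : ℝ) (y m x : ℕ) : Finset ℕ :=
  (range x).filter fun n => n ≡ 0 [MOD primorial y] ∧ Sv (range m) (BB y) (KK η m) n

/-- its expected size -/
def Qm (η : ℝ) (y m x : ℕ) : ℝ := x / (primorial y : ℕ) * VV (range m) (BB y) (KK η m)

variable {η : ℝ} {y m : ℕ}

theorem Kp_le (h0 : 0 < η) (h1 : η ≤ 1 / 10) (hy : 2 ≤ y)
    (hK : ((2 : ℝ) ^ (1 - η)) ^ m ≤ η * y) {j p : ℕ} (hp : p ∈ BB y j) :
    0 ≤ (KK η m j : ℝ) / p ∧ (KK η m j : ℝ) / p ≤ η := by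
  have h2 : (y : ℝ) < p := by exact_mod_cast (BB_mem hy hp).2
  have h3 : (0 : ℝ) ≤ y := by positivity
  refine ⟨by positivity, ?_⟩
  rw [div_le_iff₀ (by linarith)]
  nlinarith [KK_le' h1 hK j]

theorem SS_lower (h0 : 0 < η) (h1 : η ≤ 1 / 10) (hy : 2 ≤ y)
    (hK : ((2 : ℝ) ^ (1 - η)) ^ m ≤ η * y) (x : ℕ) :
    Qm η y m x / 2 - (1 + m) * Real.exp (300 / η * (2 ^ m * Real.log y)) ≤ (SS η y m x).card :=
  (conc h0 h1 hy hK (BB y) (primorial y) 0 x (primorial_pos y) (fun _ => Subset.refl _)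
    fun j p hp hd => by
      have := BB_mem hy hp
      have := this.1.dvd_primorial_iff.1 hd
      omega).2

theorem Qm_lower (h0 : 0 < η) (h1 : η ≤ 1 / 10) (hy : 2 ≤ y)
    (hK : ((2 : ℝ) ^ (1 - η)) ^ m ≤ η * y) (x : ℕ) :
    x * Real.exp (-(5 * y)) ≤ Qm η y m x := by
  have h2 : Real.exp (-(3 * y)) ≤ VV (range m) (BB y) (KK η m) := by
    have h3 : ∀ j ∈ range m, Real.exp (-(8 * ((2 : ℝ) ^ (1 - η)) ^ (m - j))) ≤
        ∏ p ∈ BB y j, (1 - (KK η m j : ℝ) / p) := fun j _ => by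
      refine le_trans (Real.exp_le_exp.2 ?_) (prod_ge_exp (fun p => (KK η m j : ℝ) / p)
        fun p hp => ⟨(Kp_le h0 h1 hy hK hp).1, by linarith [(Kp_le h0 h1 hy hK hp).2]⟩)
      linarith [BB_mass hy j (KK η m j) (Subset.refl _), KK_le (η := η) (m := m) j]
    refine le_trans ?_ (prod_le_prod (fun j _ => (Real.exp_pos _).le) h3)
    rw [← Real.exp_sum, Real.exp_le_exp, sum_neg_distrib, ← mul_sum]
    have h4 := geo_up _ (kappa_ge h1) m
    have h5 : (0 : ℝ) ≤ y := by positivity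
    nlinarith
  have h3 : ((primorial y : ℕ) : ℝ) ≤ Real.exp (2 * y) := by
    have h4 : ((primorial y : ℕ) : ℝ) ≤ 4 ^ y := by exact_mod_cast primorial_le_four_pow y
    refine h4.trans ?_
    rw [mul_comm, Real.exp_nat_mul]
    refine pow_le_pow_left₀ (by norm_num) ?_ _
    have := Real.quadratic_le_exp_of_nonneg (show (0 : ℝ) ≤ 2 by norm_num)
    linarith
  have h4 : (0 : ℝ) < (primorial y : ℕ) := by exact_mod_cast primorial_pos y
  calc _ = x / Real.exp (2 * y) * Real.exp (-(3 * y)) := by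
        rw [div_eq_mul_inv, ← Real.exp_neg, mul_assoc, ← Real.exp_add]; congr 2; ring
    _ ≤ _ := by unfold Qm; gcongr

theorem VV_omit (h0 : 0 < η) (h1 : η ≤ 1 / 10) (hy : 2 ≤ y)
    (hK : ((2 : ℝ) ^ (1 - η)) ^ m ≤ η * y) {d : ℕ} (hd : 0 < d) :
    VV (range m) (fun j => (BB y j).filter fun p => ¬ p ∣ d) (KK η m) ≤
      VV (range m) (BB y) (KK η m) * (1 + 2 * η) ^ d.primeFactors.card := by
  have h2 : ∀ j ∈ range m, ∏ p ∈ (BB y j).filter (fun p => ¬ p ∣ d), (1 - (KK η m j : ℝ) / p) ≤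
      (∏ p ∈ BB y j, (1 - (KK η m j : ℝ) / p)) *
        (1 + 2 * η) ^ ((BB y j).filter fun p => p ∣ d).card := by
    intro j _
    rw [← prod_filter_mul_prod_filter_not (BB y j) (fun p => p ∣ d), mul_right_comm, ← prod_const,
      ← prod_mul_distrib]
    refine le_mul_of_one_le_left (prod_nonneg fun p hp => ?_) (one_le_prod fun p hp => ?_)
    · linarith [(Kp_le h0 h1 hy hK (mem_filter.1 hp).1).2]
    · obtain ⟨h3, h4⟩ := Kp_le h0 h1 hy hK (mem_filter.1 hp).1
      nlinarith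
  refine (prod_le_prod (fun j _ => prod_nonneg fun p hp => ?_) h2).trans ?_
  · linarith [(Kp_le h0 h1 hy hK (mem_filter.1 hp).1).2]
  rw [prod_mul_distrib, prod_pow_eq_pow_sum]
  refine mul_le_mul_of_nonneg_left (pow_le_pow_right₀ (by linarith) ?_)
    (prod_nonneg fun j _ => prod_nonneg fun p hp => by linarith [(Kp_le h0 h1 hy hK hp).2])
  rw [← card_biUnion fun i _ j _ hij =>
    (BB_disj hy hij).mono (filter_subset _ _) (filter_subset _ _)]
  refine card_le_card fun p hp => ?_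
  obtain ⟨j, _, hj⟩ := mem_biUnion.1 hp
  exact Nat.mem_primeFactors.2 ⟨(BB_mem hy (mem_filter.1 hj).1).1, (mem_filter.1 hj).2, hd.ne'⟩

theorem VV_nonneg (h0 : 0 < η) (h1 : η ≤ 1 / 10) (hy : 2 ≤ y)
    (hK : ((2 : ℝ) ^ (1 - η)) ^ m ≤ η * y) : 0 ≤ VV (range m) (BB y) (KK η m) :=
  prod_nonneg fun j _ => prod_nonneg fun p hp => by linarith [(Kp_le h0 h1 hy hK hp).2]

theorem SS_upper (h0 : 0 < η) (h1 : η ≤ 1 / 10) (hy : 2 ≤ y)
    (hK : ((2 : ℝ) ^ (1 - η)) ^ m ≤ η * y) (x : ℕ) {d : ℕ} (hd : 0 < d) (k : ℕ) (g : ℝ)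
    (hg0 : 0 ≤ g) (hg : (primorial y).gcd d ∣ k → ((primorial y).gcd d : ℝ) ≤ g) :
    (((SS η y m x).filter fun n => n ≡ k [MOD d]).card : ℝ) ≤
      2 * Qm η y m x * (g * (1 + 2 * η) ^ d.primeFactors.card / d) +
        Real.exp (300 / η * (2 ^ m * Real.log y)) := by
  classical
  have hW := primorial_pos y
  have hV := VV_nonneg h0 h1 hy hK
  have hQ : 0 ≤ Qm η y m x := mul_nonneg (by positivity) hV
  rcases ((SS η y m x).filter fun n => n ≡ k [MOD d]).eq_empty_or_nonempty with he | ⟨a, ha⟩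
  · rw [he, card_empty, Nat.cast_zero]
    positivity
  obtain ⟨ha1, ha2⟩ := mem_filter.1 ha
  have ha3 := (mem_filter.1 ha1).2.1
  have hgk : (primorial y).gcd d ∣ k := by
    have h2 := (ha3.of_dvd (Nat.gcd_dvd_left _ d)).symm.trans (ha2.of_dvd (Nat.gcd_dvd_right _ d))
    exact (Nat.modEq_zero_iff_dvd).1 h2.symm
  have hc := (conc h0 h1 hy hK (fun j => (BB y j).filter fun p => ¬ p ∣ d)
    ((primorial y).lcm d) a x (Nat.lcm_pos hW hd) (fun _ => filter_subset _ _) fun j p hp hdv => by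
      obtain ⟨h2, h3⟩ := mem_filter.1 hp
      have h4 := BB_mem hy h2
      rcases (h4.1.dvd_mul).1 (hdv.trans (Nat.lcm_dvd_mul _ _)) with h | h
      · have := h4.1.dvd_primorial_iff.1 h
        omega
      · exact h3 h).1
  refine le_trans (Nat.cast_le.2 (card_le_card fun n hn => ?_)) (hc.trans ?_)
  · obtain ⟨h2, h3⟩ := mem_filter.1 hn
    obtain ⟨h4, h5, h6⟩ := mem_filter.1 h2
    exact mem_filter.2 ⟨h4, Nat.mod_lcm (h5.trans ha3.symm) (h3.trans ha2.symm),
      fun j hj p hp => h6 j hj p (mem_filter.1 hp).1⟩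
  · have h2 := VV_omit h0 h1 hy hK hd
    have h3 : (((primorial y).gcd d : ℕ) : ℝ) * ((primorial y).lcm d : ℕ) =
        (primorial y : ℕ) * (d : ℝ) := by exact_mod_cast Nat.gcd_mul_lcm _ _
    have h4 : (0 : ℝ) < ((primorial y).lcm d : ℕ) := by exact_mod_cast Nat.lcm_pos hW hd
    have h5 : (0 : ℝ) < (primorial y : ℕ) := by exact_mod_cast hW
    have h6 : (0 : ℝ) < d := by exact_mod_cast hd
    have h7 : (x : ℝ) / ((primorial y).lcm d : ℕ) ≤ x / (primorial y : ℕ) * (g / d) := by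
      rw [div_mul_div_comm, ← h3, div_le_div_iff₀ h4 (by rw [h3]; positivity)]
      have := mul_le_mul_of_nonneg_left (hg hgk)
        (show (0 : ℝ) ≤ x * ((primorial y).lcm d : ℕ) by positivity)
      nlinarith
    have h8 := mul_le_mul h7 h2 (prod_nonneg fun j _ => prod_nonneg fun p hp => by
      linarith [(Kp_le h0 h1 hy hK (mem_filter.1 hp).1).2]) (by positivity)
    have h9 : x / (primorial y : ℕ) * (g / d) *
        (VV (range m) (BB y) (KK η m) * (1 + 2 * η) ^ d.primeFactors.card) =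
        Qm η y m x * (g * (1 + 2 * η) ^ d.primeFactors.card / d) := by unfold Qm; ring
    linarith

theorem SS_primes (h0 : 0 < η) (h1 : η ≤ 1 / 10) (hy : 2 ≤ y)
    (hK : ((2 : ℝ) ^ (1 - η)) ^ m ≤ η * y) {x n k p : ℕ} (hn : n ∈ SS η y m x) (hk : 1 ≤ k)
    (hkn : k < n) (hp : p.Prime) (hd : p ∣ n - k) :
    p ∣ k ∨ (y < p ∧ 2 ^ m * Real.log y / (k : ℝ) ^ (1 + 2 * η) < Real.log p) := by
  classical
  obtain ⟨-, h2, h3⟩ := mem_filter.1 hn
  by_cases hpy : p ≤ y
  · left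
    have h4 : p ∣ n := (hp.dvd_primorial_iff.2 hpy).trans ((Nat.modEq_zero_iff_dvd).1 h2)
    exact (Nat.dvd_sub_iff_right hkn.le h4).1 hd
  right
  push Not at hpy
  refine ⟨hpy, ?_⟩
  have hyR : (2 : ℝ) ≤ y := by exact_mod_cast hy
  have hly : 0 < Real.log y := Real.log_pos (by linarith)
  have hkR : (1 : ℝ) ≤ k := by exact_mod_cast hk
  have hk1 : (1 : ℝ) ≤ (k : ℝ) ^ (1 + 2 * η) := Real.one_le_rpow hkR (by linarith)
  have hlog : ∀ j, y ^ 2 ^ j < p → 2 ^ j * Real.log y < Real.log p := fun j hj => by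
    have h4 : ((y ^ 2 ^ j : ℕ) : ℝ) < p := by exact_mod_cast hj
    have h5 := Real.log_lt_log (by positivity) h4
    rw [Nat.cast_pow, Real.log_pow] at h5
    exact_mod_cast h5
  by_cases hpm : y ^ 2 ^ m < p
  · exact lt_of_le_of_lt (div_le_self (by positivity) hk1) (hlog m hpm)
  have hex : ∃ j, p ≤ y ^ 2 ^ j := ⟨m, by omega⟩
  have hj0 : Nat.find hex ≠ 0 := fun h => by
    have := Nat.find_spec hex
    rw [h] at this
    simp at this
    omega
  obtain ⟨j, hj⟩ := Nat.exists_eq_succ_of_ne_zero hj0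
  have hj1 : p ≤ y ^ 2 ^ (j + 1) := by have := Nat.find_spec hex; rwa [hj] at this
  have hj2 : y ^ 2 ^ j < p := by have := Nat.find_min hex (m := j) (by omega); omega
  have hj3 : j < m := by have := Nat.find_min' hex (m := m) (by omega); omega
  have hpB : p ∈ BB y j := (mem_PP _ _ _).2 ⟨⟨hj2, hj1⟩, hp⟩
  have hkK : KK η m j < k := by
    by_contra hh
    push Not at hh
    apply h3 j (mem_range.2 hj3) p hpB
    have h4 : (KK η m j : ℝ) < p := by
      have h5 : (y : ℝ) < p := by exact_mod_cast hpy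
      nlinarith [KK_le' h1 hK j]
    have h5 : KK η m j < p := by exact_mod_cast h4
    have h6 : n % p = k := by
      have h7 : k ≡ n [MOD p] := (Nat.modEq_iff_dvd' hkn.le).2 hd
      rw [← h7, Nat.mod_eq_of_lt (by omega)]
    rw [h6]
    exact mem_Icc.2 ⟨hk, hh⟩
  have h4 : ((2 : ℝ) ^ (1 - η)) ^ (m - j) < k := (Nat.floor_lt (by positivity)).1 hkK
  have h5 : (2 : ℝ) ^ (m - j) ≤ (k : ℝ) ^ (1 + 2 * η) := by
    refine le_trans ?_ (Real.rpow_le_rpow (by positivity) h4.le (by linarith))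
    rw [← Real.rpow_natCast, ← Real.rpow_natCast, ← Real.rpow_mul (x := 2) (by norm_num),
      ← Real.rpow_mul (x := 2) (by norm_num)]
    refine Real.rpow_le_rpow_of_exponent_le (by norm_num) ?_
    have h6 : (0 : ℝ) ≤ ((m - j : ℕ) : ℝ) := by positivity
    nlinarith [mul_nonneg h6 (show 0 ≤ η * (1 - 2 * η) by nlinarith)]
  refine lt_of_le_of_lt ?_ (hlog j hj2)
  rw [div_le_iff₀ (by linarith), show (2 : ℝ) ^ m = 2 ^ j * 2 ^ (m - j) by
    rw [← pow_add]; congr 1; omega]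
  have := mul_le_mul_of_nonneg_left h5 (show 0 ≤ 2 ^ j * Real.log y by positivity)
  linarith

end Pool.Agent.MP_cebb75_nt.X

end
end
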