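import Pool.Agent.Mg.Fc6d393p.G023a19

set_option linter.all false

/-!
The block sieve with arbitrary forbidden classes.
-/

set_option autoImplicit false

open Finset

noncomputable section

namespace Pool.Agent.MP_cebb75_nt.Y

open MP_fdd1d3_nt X

/-- indicator of the forbidden classes -/
def chiO (Ω : ℕ → Finset ℕ) (p n : ℕ) : ℝ := if n % p ∈ Ω p then 1 else 0

/-- number of primes of the block at which the class is forbidden -/
def wO (B : Finset ℕ) (Ω : ℕ → Finset ℕ) (n : ℕ) : ℕ := (B.filter fun p => n % p ∈ Ω p).card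

variable {B : Finset ℕ} {K : ℕ} {Ω : ℕ → Finset ℕ}

theorem per_chiO (Ω : ℕ → Finset ℕ) (p : ℕ) : Per p (chiO Ω p) := fun n => by
  simp only [chiO, Nat.mod_mod]

theorem chiO_eq {p : ℕ} (h : Ω p ⊆ range p) : chiO Ω p = ∑ c ∈ Ω p, ind p c := by
  funext n
  rw [Finset.sum_apply]
  have : ∀ c ∈ Ω p, ind p c n = if n % p = c then 1 else 0 := fun c hc =>
    if_congr (by rw [Nat.ModEq, Nat.mod_eq_of_lt (mem_range.1 (h hc))]) rfl rfl
  rw [sum_congr rfl this, sum_ite_eq, chiO]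

theorem av_chiO {p : ℕ} (hp : 0 < p) (h : Ω p ⊆ range p) (hK : (Ω p).card = K) :
    av p (chiO Ω p) = K / p := by
  have h1 := av_sum p (Ω p) fun c => ind p c
  have h2 : chiO Ω p = fun n => ∑ c ∈ Ω p, ind p c n := by
    rw [chiO_eq h]; funext n; rw [Finset.sum_apply]
  rw [h2, h1, sum_congr rfl fun c _ => av_ind hp c]
  simp [div_eq_mul_inv, hK]

theorem wO_per (B : Finset ℕ) (Ω : ℕ → Finset ℕ) (n : ℕ) :
    wO B Ω (n % ∏ p ∈ B, p) = wO B Ω n := by
  unfold wO
  congr 1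
  refine filter_congr fun p hp => ?_
  rw [Nat.mod_mod_of_dvd _ (dvd_prod_of_mem _ hp)]

theorem choose_wO (B : Finset ℕ) (Ω : ℕ → Finset ℕ) (j n : ℕ) :
    ((wO B Ω n).choose j : ℝ) = ∑ D ∈ powersetCard j B, ∏ p ∈ D, chiO Ω p n := by
  rw [wO, ← card_powersetCard]
  have h1 : powersetCard j (B.filter fun p => n % p ∈ Ω p) =
      (powersetCard j B).filter fun D => ∀ p ∈ D, n % p ∈ Ω p := by
    ext D
    simp only [mem_powersetCard, mem_filter, subset_iff]
    exact ⟨fun h => ⟨⟨fun _ hy => (h.1 hy).1, h.2⟩, fun _ hy => (h.1 hy).2⟩,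
      fun h => ⟨fun y hy => ⟨h.1.1 hy, h.2 y hy⟩, h.1.2⟩⟩
  rw [h1, card_filter]
  push_cast
  refine sum_congr rfl fun D _ => ?_
  simp only [chiO]
  rw [prod_boole]

theorem av_chooseO (hB : ∀ p ∈ B, p.Prime ∧ Ω p ⊆ range p ∧ (Ω p).card = K) (j : ℕ) :
    av (∏ p ∈ B, p) (fun n => ((wO B Ω n).choose j : ℝ)) =
      ∑ D ∈ powersetCard j B, ∏ p ∈ D, (K : ℝ) / p := by
  simp only [choose_wO]
  rw [av_sum]
  refine sum_congr rfl fun D hD => ?_
  have hDB := (mem_powersetCard.1 hD).1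
  have h1 := av_primes (fun p hp => (hB p hp).1)
    (fun p => if p ∈ D then chiO Ω p else fun _ => 1) fun p _ => by
      split_ifs
      · exact per_chiO Ω p
      · exact fun _ => rfl
  have h2 : ∀ n, ∏ p ∈ B, (if p ∈ D then chiO Ω p else fun _ => 1) n = ∏ p ∈ D, chiO Ω p n := by
    intro n
    simp only [ite_apply]
    rw [prod_ite_mem, inter_eq_right.2 hDB]
  have h3 : ∏ p ∈ B, av p (if p ∈ D then chiO Ω p else fun _ => 1) = ∏ p ∈ D, (K : ℝ) / p := by
    have : ∀ p ∈ B, av p (if p ∈ D then chiO Ω p else fun _ => 1) =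
        if p ∈ D then (K : ℝ) / p else 1 := fun p hp => by
      split_ifs
      · exact av_chiO (hB p hp).1.pos (hB p hp).2.1 (hB p hp).2.2
      · exact av_one (hB p hp).1.pos
    rw [prod_congr rfl this, prod_ite_mem, inter_eq_right.2 hDB]
  simp only [h2] at h1
  rw [h1, h3]

theorem av_XXO (hB : ∀ p ∈ B, p.Prime ∧ Ω p ⊆ range p ∧ (Ω p).card = K) :
    av (∏ p ∈ B, p) (fun n => XX (wO B Ω n)) = ∏ p ∈ B, (1 - (K : ℝ) / p) := by
  have h1 := av_primes (fun p hp => (hB p hp).1) (fun p n => 1 - chiO Ω p n)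
    fun p _ n => by simp only [per_chiO Ω p n]
  have h2 : ∀ n, ∏ p ∈ B, (1 - chiO Ω p n) = XX (wO B Ω n) := by
    intro n
    have : ∀ p ∈ B, 1 - chiO Ω p n = if n % p ∉ Ω p then 1 else 0 := fun p _ => by
      unfold chiO; split_ifs <;> simp_all
    rw [prod_congr rfl this, prod_boole, XX, wO]
    refine if_congr ?_ rfl rfl
    rw [card_eq_zero, filter_eq_empty_iff]
  simp only [h2] at h1
  rw [h1]
  refine prod_congr rfl fun p hp => ?_
  have h3 := av_add p (fun n => 1 - chiO Ω p n) (chiO Ω p)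
  simp only [sub_add_cancel] at h3
  rw [av_one (hB p hp).1.pos, av_chiO (hB p hp).1.pos (hB p hp).2.1 (hB p hp).2.2] at h3
  linarith

variable {N x : ℕ}

theorem mult_choose_wO (hB : ∀ p ∈ B, (Ω p ⊆ range p ∧ (Ω p).card = K) ∧ p ∣ N) (j : ℕ) :
    Mult N x (fun n => ((wO B Ω n).choose j : ℝ)) (((B.card : ℝ) * K) ^ j) := by
  have h0 : (fun n => ((wO B Ω n).choose j : ℝ)) =
      ∑ D ∈ powersetCard j B, ∏ p ∈ D, chiO Ω p := by
    funext n
    rw [choose_wO, Finset.sum_apply]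
    exact sum_congr rfl fun D _ => (Finset.prod_apply _ _ _).symm
  rw [h0]
  refine (Mult.sum _ _ (fun _ => (K : ℝ) ^ j) fun D hD => ?_).mono ?_
  · have := Mult.prod (N := N) (x := x) D (fun p => chiO Ω p) (fun _ => K) fun p hp => by
      have h1 := hB p ((mem_powersetCard.1 hD).1 hp)
      rw [chiO_eq h1.1.1]
      have := Mult.sum (N := N) (x := x) (Ω p) (fun c => ind p c) (fun _ => 1) fun c _ =>
        Mult.atom (Or.inr ⟨p, c, h1.2, rfl⟩)
      simpa [h1.1.2] using this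
    rwa [prod_const, (mem_powersetCard.1 hD).2] at this
  · rw [sum_const, card_powersetCard, nsmul_eq_mul, mul_pow]
    refine mul_le_mul_of_nonneg_right ?_ (by positivity)
    exact_mod_cast Nat.choose_le_pow _ _

theorem mult_UUO (hB : ∀ p ∈ B, (Ω p ⊆ range p ∧ (Ω p).card = K) ∧ p ∣ N) (h : ℕ) (G : ℝ) (hG1 : 1 ≤ G)
    (hG : (B.card : ℝ) * K ≤ G) :
    Mult N x (fun n => UU h (wO B Ω n)) ((2 * G) ^ (h + 1)) := by
  have h1 : (fun n => UU h (wO B Ω n)) = ∑ j ∈ range (h + 1),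
      ((-1 : ℝ) ^ j) • fun n => ((wO B Ω n).choose j : ℝ) := by
    funext n
    simp only [UU, Finset.sum_apply, Pi.smul_apply, smul_eq_mul]
  rw [h1]
  refine (Mult.sum _ _ _ fun j _ => (mult_choose_wO hB j).smul _).mono ?_
  have h2 := sum_le_card_nsmul (range (h + 1))
    (fun j => |(-1 : ℝ) ^ j| * ((B.card : ℝ) * K) ^ j) (G ^ (h + 1)) (fun j hj => by
      rw [abs_neg_one_pow, one_mul]
      exact (pow_le_pow_left₀ (by positivity) hG j).trans
        (pow_le_pow_right₀ hG1 (mem_range.1 hj).le))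
  refine h2.trans ?_
  rw [card_range, nsmul_eq_mul, mul_pow]
  refine mul_le_mul_of_nonneg_right ?_ (by positivity)
  exact_mod_cast (Nat.lt_two_pow_self (n := h + 1)).le

/-- no forbidden class in any block -/
def SvO (I : Finset ℕ) (B : ℕ → Finset ℕ) (O : ℕ → ℕ → Finset ℕ) (n : ℕ) : Prop :=
  ∀ i ∈ I, ∀ p ∈ B i, n % p ∉ O i p

open scoped Classical in
theorem sieveO (I : Finset ℕ) (B : ℕ → Finset ℕ) (O : ℕ → ℕ → Finset ℕ) (K h : ℕ → ℕ)
    (δ G : ℕ → ℝ) (M a x : ℕ)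
    (hM : 0 < M) (hB : ∀ i ∈ I, ∀ p ∈ B i, p.Prime ∧ 2 * K i < p ∧ ¬ p ∣ M)
    (hO : ∀ i ∈ I, ∀ p ∈ B i, O i p ⊆ range p ∧ (O i p).card = K i)
    (hd : ∀ i ∈ I, ∀ j ∈ I, i ≠ j → Disjoint (B i) (B j)) (he : ∀ i ∈ I, Even (h i))
    (hδ : ∀ i ∈ I, Real.exp (5 * ∑ p ∈ B i, (K i : ℝ) / p - (h i + 1)) ≤ δ i)
    (hδs : ∑ i ∈ I, δ i ≤ 1 / 2) (hG1 : ∀ i ∈ I, 1 ≤ G i)
    (hG : ∀ i ∈ I, ((B i).card : ℝ) * K i ≤ G i) :
    (((range x).filter fun n => n ≡ a [MOD M] ∧ SvO I B O n).card : ℝ) ≤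
        2 * (x / M * VV I B K) + ∏ i ∈ I, (2 * G i) ^ (h i + 1) ∧
      x / M * VV I B K / 2 - (1 + I.card) * ∏ i ∈ I, (2 * G i) ^ (h i + 1) ≤
        (((range x).filter fun n => n ≡ a [MOD M] ∧ SvO I B O n).card : ℝ) := by
  set q : ℕ → ℕ := fun i => ∏ p ∈ B i, p with hq
  set N := M * ∏ i ∈ I, q i with hN
  have hq0 : ∀ i ∈ I, 0 < q i := fun i hi => prod_pos fun p hp => (hB i hi p hp).1.pos
  have hQ0 : 0 < ∏ i ∈ I, q i := prod_pos hq0
  have hN0 : 0 < N := Nat.mul_pos hM hQ0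
  have hco : ∀ i ∈ I, ∀ j ∈ I, i ≠ j → (q i).Coprime (q j) := fun i hi j hj hij =>
    Nat.Coprime.prod_left fun p hp => Nat.Coprime.prod_right fun r hr =>
      (Nat.coprime_primes (hB i hi p hp).1 (hB j hj r hr).1).2 fun hpr =>
        disjoint_left.1 (hd i hi j hj hij) hp (hpr ▸ hr)
  have hcoM : M.Coprime (∏ i ∈ I, q i) := Nat.Coprime.prod_right fun i hi =>
    Nat.Coprime.prod_right fun p hp =>
      ((Nat.Prime.coprime_iff_not_dvd (hB i hi p hp).1).2 (hB i hi p hp).2.2).symm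
  have hB1 : ∀ i ∈ I, ∀ p ∈ B i, p.Prime ∧ O i p ⊆ range p ∧ (O i p).card = K i :=
    fun i hi p hp => ⟨(hB i hi p hp).1, hO i hi p hp⟩
  have hB2 : ∀ i ∈ I, ∀ p ∈ B i, (O i p ⊆ range p ∧ (O i p).card = K i) ∧ p ∣ N :=
    fun i hi p hp =>
    ⟨(hB1 i hi p hp).2, ((dvd_prod_of_mem _ hp).trans (dvd_prod_of_mem q hi)).mul_left M⟩
  have hav : ∀ F : ℕ → ℕ → ℝ, av N (fun n => ind M a n * ∏ i ∈ I, F i (wO (B i) (O i) n)) =
      1 / M * ∏ i ∈ I, av (q i) fun n => F i (wO (B i) (O i) n) := by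
    intro F
    have hp : ∀ i ∈ I, Per (q i) fun n => F i (wO (B i) (O i) n) := fun i _ n => by
      simp only [hq, wO_per]
    rw [hN, av_mul hcoM hM hQ0 (per_ind M a)
      (g := fun n => ∏ i ∈ I, F i (wO (B i) (O i) n)) fun n => prod_congr rfl fun i hi =>
        (hp i hi).of_dvd (dvd_prod_of_mem _ hi) n, av_ind hM, av_prod I q _ hq0 hco hp]
  have hmu : ∀ (F : ℕ → ℕ → ℝ), (∀ i ∈ I, Mult N x (fun n => F i (wO (B i) (O i) n))
      ((2 * G i) ^ (h i + 1))) →
      |∑ n ∈ range x, ind M a n * ∏ i ∈ I, F i (wO (B i) (O i) n) -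
        x * (1 / M * ∏ i ∈ I, av (q i) fun n => F i (wO (B i) (O i) n))| ≤
        ∏ i ∈ I, (2 * G i) ^ (h i + 1) := by
    intro F hF
    have h1 := (Mult.atom (x := x) (Or.inr ⟨M, a, Dvd.intro _ hN.symm, rfl⟩ : Atom N (ind M a))).mul
      (Mult.prod I _ _ hF)
    have h2 := Mult_abs hN0 h1
    rw [one_mul] at h2
    have h3 : (ind M a * ∏ i ∈ I, fun n => F i (wO (B i) (O i) n)) =
        fun n => ind M a n * ∏ i ∈ I, F i (wO (B i) (O i) n) := by
      funext n; simp [Finset.prod_apply]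
    rwa [h3, hav F] at h2
  set V : ℕ → ℝ := fun i => ∏ p ∈ B i, (1 - (K i : ℝ) / p) with hV
  set u : ℕ → ℝ := fun i => av (q i) fun n => UU (h i) (wO (B i) (O i) n) with hu
  set c : ℕ → ℝ := fun i => av (q i) fun n => ((wO (B i) (O i) n).choose (h i + 1) : ℝ) with hc
  have hKp : ∀ i ∈ I, ∀ p ∈ B i, 0 ≤ (K i : ℝ) / p ∧ (K i : ℝ) / p ≤ 1 / 2 := fun i hi p hp => by
    have h1 : ((2 * K i : ℕ) : ℝ) < p := by exact_mod_cast (hB i hi p hp).2.1
    push_cast at h1
    have h2 : (0 : ℝ) ≤ K i := by positivity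
    exact ⟨by positivity, by rw [div_le_div_iff₀ (by linarith) (by norm_num)]; linarith⟩
  have hV0 : ∀ i ∈ I, 0 ≤ V i := fun i hi => prod_nonneg fun p hp => by linarith [(hKp i hi p hp).2]
  have hδ0 : ∀ i ∈ I, 0 ≤ δ i := fun i hi => (Real.exp_pos _).le.trans (hδ i hi)
  have hcV : ∀ i ∈ I, c i ≤ δ i * V i := fun i hi => by
    have h1 := esymm_le (B := B i) (fun p => (K i : ℝ) / p) (fun p hp => (hKp i hi p hp).1) (h i + 1)
    have h2 := prod_ge_exp (B := B i) (fun p => (K i : ℝ) / p) (hKp i hi)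
    simp only [hc, hq]
    rw [av_chooseO (hB1 i hi)]
    refine h1.trans (le_trans (le_of_eq ?_)
      (mul_le_mul (hδ i hi) h2 (Real.exp_pos _).le (hδ0 i hi)))
    rw [← Real.exp_add]
    congr 1
    push_cast
    ring
  have hVu : ∀ i ∈ I, V i ≤ u i := fun i hi => by
    simp only [hV, hu, hq]
    rw [← av_XXO (hB1 i hi)]
    exact av_mono fun n => (UU_bounds (he i hi) _).1
  have huV : ∀ i ∈ I, u i ≤ V i + c i := fun i hi => by
    simp only [hV, hu, hc, hq]
    rw [← av_XXO (hB1 i hi), ← av_add]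
    exact av_mono fun n => (UU_bounds (he i hi) _).2
  have hcard : (((range x).filter fun n => n ≡ a [MOD M] ∧ SvO I B O n).card : ℝ) =
      ∑ n ∈ range x, ind M a n * ∏ i ∈ I, XX (wO (B i) (O i) n) := by
    rw [card_filter]
    push_cast
    refine sum_congr rfl fun n _ => ?_
    simp only [XX, ind]
    rw [prod_boole, ite_zero_mul_ite_zero, one_mul]
    refine if_congr (and_congr_right fun _ => forall₂_congr fun i _ => ?_) rfl rfl
    rw [wO, card_eq_zero, filter_eq_empty_iff]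
  have hind : ∀ n, 0 ≤ ind M a n := fun n => by unfold ind; split_ifs <;> norm_num
  have hU := hmu (fun i w => UU (h i) w) fun i hi => mult_UUO (hB2 i hi) _ _ (hG1 i hi) (hG i hi)
  have hxM : (0 : ℝ) ≤ x / M := by positivity
  have hu0 : ∀ i ∈ I, 0 ≤ u i := fun i hi => (hV0 i hi).trans (hVu i hi)
  rw [hcard]
  constructor
  · have h1 : ∑ n ∈ range x, ind M a n * ∏ i ∈ I, XX (wO (B i) (O i) n) ≤
        ∑ n ∈ range x, ind M a n * ∏ i ∈ I, UU (h i) (wO (B i) (O i) n) :=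
      sum_le_sum fun n _ => mul_le_mul_of_nonneg_left
        (prod_le_prod (fun i _ => XX_nonneg _) fun i hi => (UU_bounds (he i hi) _).1) (hind n)
    have h2 : ∏ i ∈ I, u i ≤ 2 * VV I B K := by
      calc _ ≤ ∏ i ∈ I, (Real.exp (δ i) * V i) := prod_le_prod hu0 fun i hi => by
            nlinarith [huV i hi, hcV i hi, Real.add_one_le_exp (δ i), hV0 i hi]
        _ = Real.exp (∑ i ∈ I, δ i) * VV I B K := by rw [prod_mul_distrib, Real.exp_sum]; rfl
        _ ≤ _ := by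
            refine mul_le_mul_of_nonneg_right ?_ (prod_nonneg hV0)
            rw [← Real.le_log_iff_exp_le (by norm_num)]
            linarith [Real.log_two_gt_d9]
    have h3 := mul_le_mul_of_nonneg_left h2 hxM
    have h4 := (abs_le.1 hU).2
    have h5 : (x : ℝ) * (1 / M * ∏ i ∈ I, u i) = x / M * ∏ i ∈ I, u i := by ring
    simp only [← hu] at h4
    linarith
  · set E := ∏ i ∈ I, (2 * G i) ^ (h i + 1) with hE
    have h1 : ∀ l ∈ I, ∑ n ∈ range x, ind M a n * (((wO (B l) (O l) n).choose (h l + 1) : ℝ) *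
        ∏ i ∈ I.erase l, UU (h i) (wO (B i) (O i) n)) ≤ x / M * (δ l * ∏ i ∈ I, u i) + E := by
      intro l hl
      have h2 := hmu (fun i w => if i = l then (w.choose (h l + 1) : ℝ) else UU (h i) w)
        fun i hi => by
          split_ifs with hil
          · subst hil
            refine (mult_choose_wO (hB2 i hi) _).mono (pow_le_pow_left₀ (by positivity) ?_ _)
            linarith [hG i hi, hG1 i hi]
          · exact mult_UUO (hB2 i hi) _ _ (hG1 i hi) (hG i hi)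
      simp only [← mul_prod_erase I _ hl, if_true] at h2
      have h3 : ∀ n, ∏ i ∈ I.erase l, (if i = l then ((wO (B i) (O i) n).choose (h l + 1) : ℝ)
          else UU (h i) (wO (B i) (O i) n)) = ∏ i ∈ I.erase l, UU (h i) (wO (B i) (O i) n) :=
        fun n => prod_congr rfl fun i hi => if_neg (ne_of_mem_erase hi)
      have h4 : ∏ i ∈ I.erase l, av (q i) (fun n => if i = l then
          ((wO (B i) (O i) n).choose (h l + 1) : ℝ) else UU (h i) (wO (B i) (O i) n)) =
          ∏ i ∈ I.erase l, u i := prod_congr rfl fun i hi => by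
        simp only [if_neg (ne_of_mem_erase hi), hu]
      simp only [h3, h4] at h2
      have h5 := (abs_le.1 h2).2
      have h6 : c l * ∏ i ∈ I.erase l, u i ≤ δ l * ∏ i ∈ I, u i := by
        rw [← mul_prod_erase I _ hl, ← mul_assoc]
        exact mul_le_mul_of_nonneg_right ((hcV l hl).trans
          (mul_le_mul_of_nonneg_left (hVu l hl) (hδ0 l hl)))
          (prod_nonneg fun i hi => hu0 i (mem_of_mem_erase hi))
      have h7 := mul_le_mul_of_nonneg_left h6 hxM
      have h8 : (x : ℝ) * (1 / M * (c l * ∏ i ∈ I.erase l, u i)) =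
          x / M * (c l * ∏ i ∈ I.erase l, u i) := by ring
      have h9 : E = (2 * G l) ^ (h l + 1) * ∏ i ∈ I.erase l, (2 * G i) ^ (h i + 1) :=
        (mul_prod_erase I _ hl).symm
      simp only [hc] at h7 h8
      linarith
    have h2 := sum_le_sum h1
    rw [sum_comm, sum_add_distrib, ← mul_sum, ← sum_mul, sum_const, nsmul_eq_mul] at h2
    have h3 : ∑ n ∈ range x, (ind M a n * ∏ i ∈ I, UU (h i) (wO (B i) (O i) n) -
        ∑ l ∈ I, ind M a n * (((wO (B l) (O l) n).choose (h l + 1) : ℝ) *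
        ∏ i ∈ I.erase l, UU (h i) (wO (B i) (O i) n))) ≤
        ∑ n ∈ range x, ind M a n * ∏ i ∈ I, XX (wO (B i) (O i) n) := by
      refine sum_le_sum fun n _ => ?_
      rw [← mul_sum, ← mul_sub]
      exact mul_le_mul_of_nonneg_left (prod_lower I _ _ _ (fun i _ => XX_nonneg _)
        (fun i hi => (UU_bounds (he i hi) _).1) fun i hi => (UU_bounds (he i hi) _).2) (hind n)
    rw [sum_sub_distrib] at h3
    have h4 := (abs_le.1 hU).1
    simp only [← hu] at h4
    have h5 : (x : ℝ) * (1 / M * ∏ i ∈ I, u i) = x / M * ∏ i ∈ I, u i := by ring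
    have h6 : VV I B K ≤ ∏ i ∈ I, u i := prod_le_prod hV0 hVu
    have h7 := mul_le_mul_of_nonneg_left h6 hxM
    have h8 := mul_le_mul_of_nonneg_left
      (mul_le_mul_of_nonneg_right hδs (prod_nonneg hu0)) hxM
    linarith

variable {η : ℝ} {y m : ℕ}

open scoped Classical in
theorem concO (h0 : 0 < η) (h1 : η ≤ 1 / 10) (hy : 2 ≤ y) (hK : ((2 : ℝ) ^ (1 - η)) ^ m ≤ η * y)
    (B : ℕ → Finset ℕ) (O : ℕ → ℕ → Finset ℕ) (M a x : ℕ) (hM : 0 < M) (hB : ∀ j, B j ⊆ BB y j)
    (hBM : ∀ j, ∀ p ∈ B j, ¬ p ∣ M)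
    (hO : ∀ j, ∀ p ∈ BB y j, O j p ⊆ range p ∧ (O j p).card = KK η m j) :
    (((range x).filter fun n => n ≡ a [MOD M] ∧ SvO (range m) B O n).card : ℝ) ≤
        2 * (x / M * VV (range m) B (KK η m)) + Real.exp (300 / η * (2 ^ m * Real.log y)) ∧
      x / M * VV (range m) B (KK η m) / 2 - (1 + m) * Real.exp (300 / η * (2 ^ m * Real.log y)) ≤
        (((range x).filter fun n => n ≡ a [MOD M] ∧ SvO (range m) B O n).card : ℝ) := by
  have hyR : (2 : ℝ) ≤ y := by exact_mod_cast hy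
  have hκ := kappa_ge h1
  set κ := (2 : ℝ) ^ (1 - η) with hκd
  have hKy : ∀ j, (KK η m j : ℝ) ≤ y / 10 := fun j => by nlinarith [KK_le' h1 hK j]
  have hY : ∀ j, (y : ℝ) ≤ (y : ℝ) ^ 2 ^ (j + 1) := fun j =>
    le_self_pow₀ (by linarith) (by positivity)
  have hs := sieveO (range m) B O (KK η m) (fun j => 2 * (10 * KK η m j + (m - j)))
    (fun j => (1 / 2) ^ (m - j) / 2) (fun j => ((y : ℝ) ^ 2 ^ (j + 1)) ^ 2) M a x hM
    (fun j _ p hp => ⟨(BB_mem hy (hB j hp)).1, by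
      have h2 : (y : ℝ) < p := by exact_mod_cast (BB_mem hy (hB j hp)).2
      have h3 : ((2 * KK η m j : ℕ) : ℝ) < p := by push_cast; linarith [hKy j]
      exact_mod_cast h3, hBM j p hp⟩)
    (fun j _ p hp => hO j p (hB j hp))
    (fun i _ j _ hij => (BB_disj hy hij).mono (hB i) (hB j)) (fun j _ => even_two_mul _)
    (fun j _ => by
      have h2 := BB_mass hy j (KK η m j) (hB j)
      have h3 : Real.exp (-1) ≤ 1 / 2 := by
        rw [Real.exp_neg, inv_eq_one_div]
        exact one_div_le_one_div_of_le (by norm_num) (by linarith [Real.add_one_le_exp 1])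
      calc _ ≤ Real.exp (((m - j : ℕ) : ℝ) * (-1) + -1) := by
            rw [Real.exp_le_exp]
            have : (0 : ℝ) ≤ ((m - j : ℕ) : ℝ) := by positivity
            push_cast
            linarith
        _ = Real.exp (-1) ^ (m - j) * Real.exp (-1) := by rw [Real.exp_add, Real.exp_nat_mul]
        _ ≤ (1 / 2) ^ (m - j) * (1 / 2) := by gcongr
        _ = _ := by ring)
    (by
      rw [← sum_div]
      linarith [geo_le (1 / 2) 1 (by norm_num) (by norm_num) (by norm_num) m])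
    (fun j _ => one_le_pow₀ (by linarith [hY j]))
    (fun j _ => by
      rw [sq]
      refine mul_le_mul ?_ (by linarith [hKy j, hY j]) (by positivity) (by positivity)
      have h2 : B j ⊆ Ioc 0 (y ^ 2 ^ (j + 1)) := fun p hp =>
        mem_Ioc.2 ⟨(BB_mem hy (hB j hp)).1.pos, ((mem_PP _ _ _).1 (hB j hp)).1.2⟩
      have h3 := card_le_card h2
      rw [Nat.card_Ioc, Nat.sub_zero] at h3
      exact_mod_cast h3)
  have hly : 0 < Real.log y := Real.log_pos (by linarith)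
  have hE : ∏ j ∈ range m, (2 * ((y : ℝ) ^ 2 ^ (j + 1)) ^ 2) ^ (2 * (10 * KK η m j + (m - j)) + 1) ≤
      Real.exp (300 / η * (2 ^ m * Real.log y)) := by
    have h2 : ∀ j ∈ range m,
        (2 * ((y : ℝ) ^ 2 ^ (j + 1)) ^ 2) ^ (2 * (10 * KK η m j + (m - j)) + 1) ≤
        Real.exp (150 * (2 ^ m * Real.log y) * (κ / 2) ^ (m - j)) := by
      intro j hj
      have h3 : 2 * ((y : ℝ) ^ 2 ^ (j + 1)) ^ 2 ≤ Real.exp (3 * (2 ^ (j + 1) * Real.log y)) := by
        have h4 : (y : ℝ) ^ 2 ^ (j + 1) = Real.exp (2 ^ (j + 1) * Real.log y) := by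
          rw [show (2 : ℝ) ^ (j + 1) = ((2 ^ (j + 1) : ℕ) : ℝ) by push_cast; rfl, Real.exp_nat_mul,
            Real.exp_log (by linarith)]
        rw [show (3 : ℝ) = ((3 : ℕ) : ℝ) by norm_num, Real.exp_nat_mul, ← h4, pow_succ' _ 2]
        exact mul_le_mul_of_nonneg_right (by linarith [hY j]) (by positivity)
      refine (pow_le_pow_left₀ (by positivity) h3 _).trans ?_
      rw [← Real.exp_nat_mul, Real.exp_le_exp]
      have h4 : (2 : ℝ) ^ m = 2 ^ j * 2 ^ (m - j) := by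
        rw [← pow_add]; congr 1; have := mem_range.1 hj; omega
      have h5 := one_add_mul_le_pow (a := κ - 1) (by linarith) (m - j)
      rw [add_sub_cancel] at h5
      have h6 : (0 : ℝ) ≤ ((m - j : ℕ) : ℝ) := by positivity
      have h7 : ((2 * (10 * KK η m j + (m - j)) + 1 : ℕ) : ℝ) ≤ 25 * κ ^ (m - j) := by
        have := KK_le (η := η) (m := m) j
        push_cast
        nlinarith
      have h8 : 150 * (2 ^ m * Real.log y) * (κ / 2) ^ (m - j) =
          25 * κ ^ (m - j) * (3 * (2 ^ (j + 1) * Real.log y)) := by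
        rw [h4, div_pow]
        field_simp
        ring
      rw [h8]
      exact mul_le_mul_of_nonneg_right h7 (by positivity)
    refine (prod_le_prod (fun j _ => by positivity) h2).trans ?_
    rw [← Real.exp_sum, ← mul_sum, Real.exp_le_exp]
    have h3 := geo_le (κ / 2) (2 / η) (by positivity) (by positivity) (by
      have h4 : κ / 2 * (2 : ℝ) ^ η = 1 := by
        rw [hκd, div_mul_eq_mul_div, ← Real.rpow_add (by norm_num)]; simp
      have h5 : 1 + η / 2 ≤ (2 : ℝ) ^ η := by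
        rw [Real.rpow_def_of_pos (by norm_num)]
        nlinarith [Real.add_one_le_exp (Real.log 2 * η), Real.log_two_gt_d9]
      have h6 : 2 / η + 1 = 2 / η * (1 + η / 2) := by field_simp
      calc _ = 2 / η * (κ / 2 * (1 + η / 2)) := by rw [h6]; ring
        _ ≤ 2 / η * (κ / 2 * 2 ^ η) := by gcongr
        _ = _ := by rw [h4, mul_one]) m
    refine (mul_le_mul_of_nonneg_left h3 (by positivity)).trans (le_of_eq ?_)
    ring
  rw [card_range] at hs
  refine ⟨hs.1.trans (by linarith), le_trans ?_ hs.2⟩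
  have := mul_le_mul_of_nonneg_left hE (show (0 : ℝ) ≤ 1 + m by positivity)
  linarith

end Pool.Agent.MP_cebb75_nt.Y
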