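import Pool.Agent.MP_cebb75_nt.X.Sums
import Pool.Agent.Mg.Fc7a479.G6d35dc
import Pool.Agent.Mg.Fc6d393p.G023a19

set_option linter.all false

section

/-!
The bad events.
-/

set_option autoImplicit false

open Finset

noncomputable section

namespace Pool.Agent.MP_cebb75_nt.X

open MP_fdd1d3_nt

theorem card_le_sum_ind {ι : Type*} (S : Finset ℕ) (A : ℕ → Prop) [DecidablePred A] (I : Finset ι)
    (c : ι → ℝ) (E : ι → ℕ → Prop) [∀ i, DecidablePred (E i)] (hc : ∀ i ∈ I, 0 ≤ c i)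
    (h : ∀ n ∈ S, A n → 1 ≤ ∑ i ∈ I, if E i n then c i else 0) :
    ((S.filter A).card : ℝ) ≤ ∑ i ∈ I, c i * (S.filter (E i)).card := by
  simp only [card_filter]
  push_cast
  simp only [mul_sum]
  rw [sum_comm]
  refine sum_le_sum fun n hn => ?_
  have h1 : ∑ i ∈ I, c i * (if E i n then (1 : ℝ) else 0) = ∑ i ∈ I, if E i n then c i else 0 :=
    sum_congr rfl fun i _ => by split_ifs <;> simp
  rw [h1]
  split_ifs with hA
  · exact h n hn hA
  · exact sum_nonneg fun i hi => by split_ifs; exacts [hc i hi, le_rfl]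

theorem bad1 (S P : Finset ℕ) (k : ℕ) (Q θ X J : ℝ) (hQ : 0 ≤ Q) (hθ0 : 1 ≤ θ) (hθ : θ ≤ 2)
    (hX : 0 < X) (hP : ∀ p ∈ P, p.Prime ∧ Real.log p ≤ X / 20)
    (hcnt : ∀ T ⊆ P, ∑ p ∈ T, Real.log p ≤ X / 10 →
      ((S.filter fun n => n ≡ k [MOD ∏ p ∈ T, p]).card : ℝ) ≤
        Q * (θ ^ T.card / ((∏ p ∈ T, p : ℕ) : ℝ))) :
    ((S.filter fun n => k < n ∧ J ≤ ((P.filter fun p => p ∣ n - k).card : ℝ)).card : ℝ) ≤
      Q * (Real.exp (-J) * ∑ T ∈ P.powerset, ((Real.exp 1 - 1) * θ) ^ T.card /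
          ((∏ p ∈ T, p : ℕ) : ℝ) +
        ∑ T ∈ P.powerset, (if X / 20 ≤ ∑ p ∈ T, Real.log p then
          2 ^ T.card / ((∏ p ∈ T, p : ℕ) : ℝ) else 0)) := by
  classical
  have he : 0 ≤ Real.exp 1 - 1 := by linarith [Real.add_one_le_exp 1]
  set c : Finset ℕ → ℝ := fun T => Real.exp (-J) * (Real.exp 1 - 1) ^ T.card +
    if X / 20 ≤ ∑ p ∈ T, Real.log p then 1 else 0 with hc
  have hc0 : ∀ T, 0 ≤ c T := fun T => by
    simp only [hc]
    split_ifs <;> positivity
  set I := P.powerset.filter fun T : Finset ℕ => ∑ p ∈ T, Real.log p ≤ X / 10 with hI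
  refine (card_le_sum_ind S _ I c (fun T n => n ≡ k [MOD ∏ p ∈ T, p]) (fun T _ => hc0 T)
    fun n _ hn => ?_).trans ?_
  · obtain ⟨hkn, hJ⟩ := hn
    set R := P.filter fun p => p ∣ n - k with hR
    have hsub : ∀ T ⊆ R, n ≡ k [MOD ∏ p ∈ T, p] := fun T hT =>
      ((Nat.modEq_iff_dvd' hkn.le).2 (Finset.prod_primes_dvd _
        (fun p hp => (hP p (mem_filter.1 (hT hp)).1).1.prime)
        fun p hp => (mem_filter.1 (hT hp)).2)).symm
    have hnn : ∀ T ∈ I, 0 ≤ if n ≡ k [MOD ∏ p ∈ T, p] then c T else 0 := fun T _ => by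
      split_ifs; exacts [hc0 T, le_rfl]
    by_cases hs : ∑ p ∈ R, Real.log p ≤ X / 10
    · have h1 : R.powerset ⊆ I := fun T hT => mem_filter.2
        ⟨mem_powerset.2 ((mem_powerset.1 hT).trans (filter_subset _ _)),
          (sum_le_sum_of_subset_of_nonneg (mem_powerset.1 hT)
            fun p _ _ => Real.log_natCast_nonneg p).trans hs⟩
      refine le_trans ?_ (sum_le_sum_of_subset_of_nonneg h1 fun T hT _ => hnn T hT)
      calc (1 : ℝ) ≤ Real.exp (-J) * (1 + (Real.exp 1 - 1)) ^ R.card := by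
            rw [add_sub_cancel, ← Real.exp_nat_mul, ← Real.exp_add]
            exact Real.one_le_exp (by linarith)
        _ = ∑ T ∈ R.powerset, Real.exp (-J) * (Real.exp 1 - 1) ^ T.card := by
            rw [← prod_const, prod_one_add, mul_sum]
            simp only [prod_const]
        _ ≤ _ := sum_le_sum fun T hT => by
            rw [if_pos (hsub T (mem_powerset.1 hT))]
            simp only [hc]
            split_ifs <;> linarith
    · push Not at hs
      obtain ⟨T, hT, h1, h2⟩ := exists_sub R (fun p => Real.log p / (X / 20)) (fun p hp => by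
        rw [div_le_one (by positivity)]
        exact (hP p (mem_filter.1 hp).1).2) 1 zero_le_one (by
          rw [← sum_div, le_div_iff₀ (by positivity)]
          linarith)
      rw [← sum_div] at h1 h2
      rw [le_div_iff₀ (by positivity)] at h1
      rw [div_le_iff₀ (by positivity)] at h2
      have h3 : T ∈ I := mem_filter.2 ⟨mem_powerset.2 (hT.trans (filter_subset _ _)), by linarith⟩
      refine le_trans ?_ (single_le_sum hnn h3)
      rw [if_pos (hsub T hT)]
      simp only [hc]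
      rw [if_pos (by linarith)]
      exact le_add_of_nonneg_left (by positivity)
  · rw [mul_sum, ← sum_add_distrib, mul_sum]
    refine le_trans (sum_le_sum fun T hT => mul_le_mul_of_nonneg_left
      (hcnt T (mem_powerset.1 (mem_filter.1 hT).1) (mem_filter.1 hT).2) (hc0 T))
      ((sum_le_sum_of_subset_of_nonneg (filter_subset _ _) fun T _ _ =>
        mul_nonneg (hc0 T) (by positivity)).trans (sum_le_sum fun T _ => ?_))
    rw [mul_left_comm]
    refine mul_le_mul_of_nonneg_left ?_ hQ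
    simp only [hc]
    rw [add_mul]
    refine add_le_add (le_of_eq (by rw [mul_pow]; ring)) ?_
    split_ifs
    · rw [one_mul]
      gcongr
    · simp

open scoped Classical in
theorem bad2 (S : Finset ℕ) (x k : ℕ) (Q X R C Z : ℝ) (hQ : 0 ≤ Q) (hR : 0 < R) (hC0 : 0 ≤ C)
    (hS : S ⊆ range x) (hC : ∀ n : ℕ, (n.divisors.card : ℝ) ≤ C * (n : ℝ) ^ (1 / 2 : ℝ))
    (hZ : ∑ r ∈ Ioc 0 x, (r : ℝ) ^ (-(5 / 4) : ℝ) ≤ Z)
    (hcnt : ∀ r : ℕ, 0 < r → Real.log r ≤ X / 5 →
      ((S.filter fun n => n ≡ k [MOD r ^ 2]).card : ℝ) ≤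
        Q * (k * 2 ^ r.primeFactors.card / (r : ℝ) ^ 2)) :
    ((S.filter fun n => k < n ∧ ∃ r : ℕ, R < r ∧ r ^ 2 ∣ n - k).card : ℝ) ≤
      (Q * k * C * R ^ (-(1 / 4) : ℝ) + 2 * x * Real.exp (-(3 / 20 * X))) * Z := by
  set I := (Ioc 0 x).filter fun r : ℕ => R < r ∧ r ^ 2 ≤ x with hI
  refine (card_le_sum_ind S _ I (fun _ => 1) (fun r n => n ≡ k [MOD r ^ 2]) (fun _ _ => zero_le_one)
    fun n hn hb => ?_).trans ?_
  · obtain ⟨hkn, r, h1, h2⟩ := hb
    have h3 := mem_range.1 (hS hn)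
    have h4 := Nat.le_of_dvd (by omega) h2
    have h5 : 0 < r := by exact_mod_cast hR.trans h1
    have h6 : r ∈ I := mem_filter.2 ⟨mem_Ioc.2 ⟨h5, by
      have := Nat.le_self_pow (two_ne_zero) r
      omega⟩, h1, by omega⟩
    refine le_trans ?_ (single_le_sum (f := fun r => if n ≡ k [MOD r ^ 2] then (1 : ℝ) else 0)
      (fun r _ => by split_ifs <;> norm_num) h6)
    rw [if_pos ((Nat.modEq_iff_dvd' hkn.le).2 h2).symm]
  refine le_trans ?_ (mul_le_mul_of_nonneg_left hZ (by positivity))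
  rw [mul_sum]
  refine le_trans (sum_le_sum fun r hr => ?_) (sum_le_sum_of_subset_of_nonneg (filter_subset _ _)
    fun r _ _ => by positivity)
  obtain ⟨h1, h2, h3⟩ := mem_filter.1 hr
  have hr0 := (mem_Ioc.1 h1).1
  have hrR : (0 : ℝ) < r := by exact_mod_cast hr0
  rw [one_mul, add_mul]
  by_cases hl : Real.log r ≤ X / 5
  · refine (hcnt r hr0 hl).trans (le_add_of_le_of_nonneg ?_ (by positivity))
    have h4 : (2 : ℝ) ^ r.primeFactors.card ≤ C * (r : ℝ) ^ (1 / 2 : ℝ) :=
      le_trans (by exact_mod_cast two_pow_le_tau hr0.ne') (hC r)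
    have h5 : (r : ℝ) ^ (-(1 / 4) : ℝ) ≤ R ^ (-(1 / 4) : ℝ) :=
      Real.rpow_le_rpow_of_nonpos hR h2.le (by norm_num)
    have h6 : (r : ℝ) ^ (1 / 2 : ℝ) / (r : ℝ) ^ 2 =
        (r : ℝ) ^ (-(1 / 4) : ℝ) * (r : ℝ) ^ (-(5 / 4) : ℝ) := by
      rw [← Real.rpow_natCast, ← Real.rpow_sub hrR, ← Real.rpow_add hrR]; norm_num
    calc _ ≤ Q * (k * (C * (r : ℝ) ^ (1 / 2 : ℝ)) / (r : ℝ) ^ 2) := by gcongr
      _ = Q * k * C * ((r : ℝ) ^ (1 / 2 : ℝ) / (r : ℝ) ^ 2) := by ring
      _ = Q * k * C * (r : ℝ) ^ (-(1 / 4) : ℝ) * (r : ℝ) ^ (-(5 / 4) : ℝ) := by rw [h6]; ring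
      _ ≤ _ := by gcongr
  · push Not at hl
    refine le_add_of_nonneg_of_le (by positivity) ?_
    have h4 : ((S.filter fun n => n ≡ k [MOD r ^ 2]).card : ℝ) ≤ x / (r : ℝ) ^ 2 + 1 := by
      have h5 := sum_ind (r ^ 2) k x (by positivity)
      have h6 : (((range x).filter fun n => n ≡ k [MOD r ^ 2]).card : ℝ) =
          ∑ n ∈ range x, ind (r ^ 2) k n := by
        simp only [ind]
        rw [Finset.sum_boole]
      have h7 : ((x / r ^ 2 : ℕ) : ℝ) ≤ x / (r : ℝ) ^ 2 := by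
        have := Nat.cast_div_le (α := ℝ) (m := x) (n := r ^ 2)
        rwa [Nat.cast_pow] at this
      refine (Nat.cast_le.2 (card_le_card (filter_subset_filter _ hS))).trans ?_
      rw [h6, h5]
      split_ifs <;> linarith
    have h5 : 1 ≤ x / (r : ℝ) ^ 2 := by
      rw [one_le_div (by positivity)]
      exact_mod_cast h3
    have h6 : (r : ℝ) ^ (-(3 / 4) : ℝ) ≤ Real.exp (-(3 / 20 * X)) := by
      rw [Real.rpow_def_of_pos hrR, Real.exp_le_exp]
      linarith
    have h7 : 1 / (r : ℝ) ^ 2 = (r : ℝ) ^ (-(3 / 4) : ℝ) * (r : ℝ) ^ (-(5 / 4) : ℝ) := by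
      rw [← Real.rpow_add hrR, one_div, ← Real.rpow_natCast, ← Real.rpow_neg hrR.le]; norm_num
    calc _ ≤ 2 * x * (1 / (r : ℝ) ^ 2) := by rw [mul_assoc, mul_one_div]; linarith
      _ = 2 * x * (r : ℝ) ^ (-(3 / 4) : ℝ) * (r : ℝ) ^ (-(5 / 4) : ℝ) := by rw [h7]; ring
      _ ≤ _ := by gcongr

end Pool.Agent.MP_cebb75_nt.X

end
end

section

/-!
One shift: the bad integers are a small part of the sifted set.
-/

set_option autoImplicit false

open Finset

noncomputable section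

namespace Pool.Agent.MP_cebb75_nt.X

open MP_fdd1d3_nt

theorem expo_le (η : ℝ) (h0 : 0 < η) (h1 : η ≤ 1 / 10) :
    (1 + 11 * η + (Real.exp 1 - 1) * (1 + 2 * η) * (1 + 2 * η)) * Real.log 2 + 2 * η ≤
      Real.exp 1 * Real.log 2 + 16 * η := by
  have h8 : (Real.exp 1 - 1) * (1 + 2 * η) * (1 + 2 * η) ≤ Real.exp 1 - 1 + 8 * η := by
    have h9 : (1 + 2 * η) * (1 + 2 * η) ≤ 1 + 4.4 * η := by nlinarith
    have h10 : Real.exp 1 - 1 ≤ 1.8 := by linarith [Real.exp_one_lt_d9]
    have h11 : 0 ≤ Real.exp 1 - 1 := by linarith [Real.add_one_le_exp 1]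
    rw [mul_assoc]
    nlinarith [mul_le_mul_of_nonneg_left h9 h11]
  nlinarith [Real.log_two_lt_d9, Real.log_two_gt_d9]

open scoped Classical in
theorem one_shift (η ε : ℝ) (h0 : 0 < η) (h1 : η ≤ 1 / 10) (hε0 : 0 < ε) (hε1 : ε ≤ 1) :
    ∃ C X₀ : ℝ, 0 < C ∧ ∀ (x y : ℕ) (S : Finset ℕ) (W : ℕ) (Q : ℝ), X₀ ≤ Real.log x →
      S ⊆ range x → x * Real.exp (-(Real.log x / 40)) ≤ Q →
      (∀ p : ℕ, p.Prime → y < p → ¬ p ∣ W) →
      (∀ d k : ℕ, ∀ g : ℝ, 0 < d → Real.log d ≤ 2 / 5 * Real.log x → 1 ≤ g →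
        (W.gcd d ∣ k → (W.gcd d : ℝ) ≤ g) →
        ((S.filter fun n => n ≡ k [MOD d]).card : ℝ) ≤
          3 * Q * (g * (1 + 2 * η) ^ d.primeFactors.card / d)) →
      (∀ n ∈ S, ∀ k p : ℕ, 1 ≤ k → k < n → p.Prime → p ∣ n - k → p ∣ k ∨
        (y < p ∧ η / 6000 * Real.log x / (k : ℝ) ^ (1 + 2 * η) < Real.log p)) →
      ∀ k : ℕ, 1 ≤ k → Real.log k ≤ Real.log x / 20 →
        ((S.filter fun n => k < n ∧ C * (k : ℝ) ^ (Real.exp 1 * Real.log 2 + 16 * η) <
          ((n - k).divisors.card : ℝ)).card : ℝ) ≤ 12 * Q * ε * (k : ℝ) ^ (-(1 + η)) := by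
  obtain ⟨C2, hC21, hC2⟩ := MP_2a1f0e_nt.divisor_bound (ε := 1 / 2) (by norm_num)
  obtain ⟨C4, hC41, hC4⟩ := MP_2a1f0e_nt.divisor_bound (ε := η / 24) (by positivity)
  obtain ⟨C5, hC51, hC5⟩ := MP_2a1f0e_nt.divisor_bound h0
  have hsum : Summable fun r : ℕ => (r : ℝ) ^ (-(5 / 4) : ℝ) :=
    Real.summable_nat_rpow.2 (by norm_num)
  set Z := ∑' r : ℕ, (r : ℝ) ^ (-(5 / 4) : ℝ) + 1 with hZ
  have hZ1 : 1 ≤ Z := le_add_of_nonneg_left (tsum_nonneg fun r => by positivity)
  set c3 := Real.log (315 * (6000 / η)) with hc3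
  have hη' : 1 ≤ 6000 / η := by rw [le_div_iff₀ h0]; linarith
  have hc30 : 0 ≤ c3 := Real.log_nonneg (by linarith)
  set e := -Real.log ε with he
  have he0 : 0 ≤ e := by have := Real.log_nonpos hε0.le hε1; linarith
  have heε : Real.exp (-e) = ε := by rw [he, neg_neg, Real.exp_log hε0]
  set θ := 1 + 2 * η with hθ
  set cc := (Real.exp 1 - 1) * θ with hcc
  have hcc1 : 1 ≤ cc := one_le_mul_of_one_le_of_one_le (by linarith only [Real.add_one_le_exp 1])
    (by linarith only [hθ, h0])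
  set c := 10 / η with hc
  have hc2 : 2 ≤ c := by rw [hc, le_div_iff₀ h0]; linarith
  set u0 := 2 + 12 * Real.exp c + 2 * c3 + e with hu0
  have hu2 : 2 ≤ u0 := by linarith [Real.exp_pos c]
  set a := C2 * Z / ε with ha
  have ha0 : 0 < a := by positivity
  refine ⟨C4 * a ^ (η / 3) * C5 * Real.exp ((cc * c3 + e + 10 * u0) * Real.log 2),
    max (20 * u0) (40 * (Z / ε)), by positivity, ?_⟩
  intro x y S W Q hX hS hQ hW hcnt hpr k hk hkX
  have hX1 : 20 * u0 ≤ Real.log x := (le_max_left _ _).trans hX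
  have hX2 : 40 * (Z / ε) ≤ Real.log x := (le_max_right _ _).trans hX
  have hx2 : 2 ≤ x := by
    by_contra hh
    have : x = 0 ∨ x = 1 := by omega
    rcases this with h | h <;> simp [h] at hX1 <;> linarith
  set X := Real.log x with hXd
  have hX0 : 0 < X := by linarith
  have hQ0 : 0 ≤ Q := le_trans (by positivity) hQ
  have hkR : (1 : ℝ) ≤ k := by exact_mod_cast hk
  set L := Real.log k with hL
  have hL0 : 0 ≤ L := Real.log_nonneg hkR
  have hpow : ∀ s : ℝ, (k : ℝ) ^ s = Real.exp (s * L) := fun s => by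
    rw [Real.rpow_def_of_pos (by linarith), mul_comm]
  set u := η * L + u0 with hu
  have hηL : 0 ≤ η * L := by positivity
  have hηL' : η * L ≤ 1 / 10 * L := mul_le_mul_of_nonneg_right h1 hL0
  have hu3 : 2 ≤ u := by linarith only [hu, hηL, hu2]
  have hu4 : 10 * u ≤ X := by linarith only [hu, hηL', hkX, hX1, hX0]
  set l := X / (10 * u) with hl
  have hl1 : 1 ≤ l := by rw [hl, le_div_iff₀ (by linarith)]; linarith
  have hl2 : l ≤ X / 20 := div_le_div_of_nonneg_left hX0.le (by norm_num) (by linarith)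
  set t := η / 6000 * X / (k : ℝ) ^ θ with ht
  have hkθ : 1 ≤ (k : ℝ) ^ θ := Real.one_le_rpow hkR (by linarith)
  set P := (PP y x).filter fun p : ℕ => t < Real.log p ∧ Real.log p ≤ l with hP
  have hPm : ∀ p ∈ P, ((y < p ∧ p ≤ x) ∧ p.Prime) ∧ t < Real.log p ∧ Real.log p ≤ l :=
    fun p hp => ⟨(mem_PP _ _ _).1 (mem_filter.1 hp).1, (mem_filter.1 hp).2⟩
  have hPi : ∏ p ∈ P, (1 + 1 / (p : ℝ)) ≤ Real.exp (c3 + θ * L) := by
    refine (prodP x hx2 t (by positivity) ((div_le_self (by positivity) hkθ).trans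
      (mul_le_of_le_one_left hX0.le (by linarith only [h1])))
      P fun p hp => ⟨(hPm p hp).1.2, (hPm p hp).1.1.2, (hPm p hp).2.1⟩).trans (le_of_eq ?_)
    rw [Real.exp_add, ← hpow, hc3, Real.exp_log (by positivity), ht, ← hXd]
    field_simp
  have hPi0 : 0 ≤ ∏ p ∈ P, (1 + 1 / (p : ℝ)) := prod_nonneg fun p _ => by positivity
  set J := (1 + η) * L + cc * (c3 + θ * L) + e with hJ
  set R := (a * k ^ 3) ^ 4 with hR
  have hak : 0 < a * (k : ℝ) ^ 3 := by positivity
  have hb1 := bad1 S P k (3 * Q) θ X J (by positivity) (by linarith) (by linarith) hX0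
    (fun p hp => ⟨(hPm p hp).1.2, (hPm p hp).2.2.trans hl2⟩) fun T hT hTs => by
      have h2 : ∀ p ∈ T, p.Prime := fun p hp => (hPm p (hT hp)).1.2
      have h3 := hcnt (∏ p ∈ T, p) k 1 (prod_pos fun p hp => (h2 p hp).pos) (by
        rw [Nat.cast_prod, Real.log_prod fun p hp => by exact_mod_cast (h2 p hp).ne_zero]
        linarith) le_rfl fun _ => by
          rw [Nat.Coprime.prod_right fun p hp => ((Nat.Prime.coprime_iff_not_dvd (h2 p hp)).2
            (hW p (h2 p hp) (hPm p (hT hp)).1.1.1)).symm]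
          simp
      rwa [Nat.primeFactors_prod h2, one_mul] at h3
  have hb2 := bad2 S x k (3 * Q) X R C2 Z (by positivity) (by positivity) (by linarith) hS hC2
    ((hsum.sum_le_tsum _ fun r _ => by positivity).trans (by linarith)) fun r hr hrX => by
      have h3 := hcnt (r ^ 2) k k (by positivity) (by
        rw [Nat.cast_pow, Real.log_pow]; push_cast; linarith) hkR
        fun h => by exact_mod_cast Nat.le_of_dvd hk h
      rw [Nat.primeFactors_pow r two_ne_zero, Nat.cast_pow] at h3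
      refine h3.trans ?_
      gcongr
      linarith
  set w := ε * (k : ℝ) ^ (-(1 + η)) with hw
  have hw' : w = Real.exp (-e - (1 + η) * L) := by
    rw [hw, hpow, ← heε, ← Real.exp_add]; congr 1; ring
  have s1 : Real.exp (-J) * ∑ T ∈ P.powerset, cc ^ T.card / ((∏ p ∈ T, p : ℕ) : ℝ) ≤ w := by
    refine (mul_le_mul_of_nonneg_left ((tilt P cc hcc1).trans
      (Real.rpow_le_rpow hPi0 hPi (by linarith))) (Real.exp_pos _).le).trans (le_of_eq ?_)
    rw [← Real.exp_mul, ← Real.exp_add, hw', hJ]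
    congr 1
    ring
  have s2 := (rankin P l c (X / 20) hl1 (by linarith)
    fun p hp => ⟨(hPm p hp).1.2, (hPm p hp).2.2⟩).trans
    (show _ ≤ w by
      refine (mul_le_mul_of_nonneg_left (pow_le_pow_left₀ hPi0 hPi 2) (Real.exp_pos _).le).trans ?_
      have h2 : c * (X / 20) / l = 5 * L + c * u0 / 2 := by
        rw [hl, hu, hc]
        field_simp
        ring
      rw [← Real.exp_nat_mul, ← Real.exp_add, hw', Real.exp_le_exp, h2, hu0]
      push_cast
      have h3 := mul_nonneg (show 0 ≤ c - 2 by linarith only [hc2])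
        (show 0 ≤ 2 * c3 + e by linarith only [hc30, he0])
      have h4 : θ * L = L + 2 * (η * L) := by rw [hθ]; ring
      linarith only [h3, h4, hηL', hL0, hc2])
  have hw2 : ε / (k : ℝ) ^ 2 ≤ w := by
    rw [hw, div_eq_mul_inv, ← Real.rpow_natCast, ← Real.rpow_neg (by linarith)]
    exact mul_le_mul_of_nonneg_left
      (Real.rpow_le_rpow_of_exponent_le hkR (by push_cast; linarith)) hε0.le
  have s3 : 3 * Q * k * C2 * R ^ (-(1 / 4) : ℝ) * Z ≤ 3 * Q * w := by
    have h2 : R ^ (-(1 / 4) : ℝ) = (a * k ^ 3)⁻¹ := by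
      rw [hR, ← Real.rpow_natCast, ← Real.rpow_mul hak.le, ← Real.rpow_neg_one]; norm_num
    refine le_trans (le_of_eq ?_) (mul_le_mul_of_nonneg_left hw2 (by positivity))
    rw [h2, ha]
    field_simp
  have s4 : 2 * x * Real.exp (-(3 / 20 * X)) * Z ≤ 3 * Q * w := by
    have h2 : Z ≤ ε * Real.exp (X / 40) := by
      rw [← div_le_iff₀' hε0]
      linarith [Real.add_one_le_exp (X / 40)]
    have h3 : ε * Real.exp (-(X / 10)) ≤ w := by
      rw [hw, hpow]
      refine mul_le_mul_of_nonneg_left (Real.exp_le_exp.2 ?_) hε0.le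
      linarith only [hηL', hkX, hL0]
    calc _ ≤ 3 * x * Real.exp (-(3 / 20 * X)) * (ε * Real.exp (X / 40)) := by gcongr; norm_num
      _ = 3 * (x * Real.exp (-(X / 40))) * (ε * Real.exp (-(X / 10))) := by
          have : Real.exp (-(3 / 20 * X)) * Real.exp (X / 40) =
              Real.exp (-(X / 40)) * Real.exp (-(X / 10)) := by
            rw [← Real.exp_add, ← Real.exp_add]; congr 1; ring
          linear_combination 3 * x * ε * this
      _ ≤ _ := by gcongr
  refine le_trans (Nat.cast_le.2 ((card_le_card (t :=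
    (S.filter fun n => k < n ∧ J ≤ ((P.filter fun p => p ∣ n - k).card : ℝ)) ∪
      S.filter fun n => k < n ∧ ∃ r : ℕ, R < r ∧ r ^ 2 ∣ n - k) fun n hn => ?_).trans
    (card_union_le _ _))) ?_
  · obtain ⟨hnS, hkn, hbad⟩ := mem_filter.1 hn
    by_contra hh
    simp only [mem_union, mem_filter, hnS, hkn, true_and, not_or, not_le, not_exists,
      not_and] at hh
    have hnx := mem_range.1 (hS hnS)
    have h2 := tau_pt (n - k) k (by omega) hk P X l J R C4 (η / 24) (by linarith) (by positivity)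
      (by linarith) hC4 (Real.log_le_log (by exact_mod_cast (by omega : 0 < n - k))
        (by exact_mod_cast (by omega : n - k ≤ x)))
      (fun r hr => by by_contra h; exact hh.2 r (not_le.1 h) hr)
      (fun p hp hd => by
        rcases hpr n hnS k p hk hkn hp hd with h | h
        · exact Or.inl h
        · right
          by_cases h3 : Real.log p ≤ l
          · exact Or.inl (mem_filter.2 ⟨(mem_PP _ _ _).2 ⟨⟨h.1, by
              have := Nat.le_of_dvd (by omega) hd
              omega⟩, hp⟩, h.2, h3⟩)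
          · exact Or.inr (not_le.1 h3)) hh.1.le
    refine absurd (hbad.trans_le h2) (not_lt.2 ?_)
    have h3 : (R ^ 2) ^ (η / 24) = a ^ (η / 3) * Real.exp (η * L) := by
      rw [hR, ← pow_mul, ← Real.rpow_natCast, ← Real.rpow_mul hak.le,
        Real.mul_rpow ha0.le (by positivity), ← Real.rpow_natCast (k : ℝ),
        ← Real.rpow_mul (by linarith), hpow]
      congr 2 <;> push_cast <;> ring
    have h4 : X / l = 10 * u := by rw [hl]; field_simp
    have h5 := hC5 k
    rw [hpow] at h5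
    rw [h3, h4, hpow]
    have h6 : η * L + η * L + (J + 10 * u) * Real.log 2 ≤
        (cc * c3 + e + 10 * u0) * Real.log 2 + (Real.exp 1 * Real.log 2 + 16 * η) * L := by
      have h8 := mul_le_mul_of_nonneg_right (expo_le η h0 h1) hL0
      rw [hJ, hu, hcc, hθ]
      linarith only [h8]
    calc C4 * (a ^ (η / 3) * Real.exp (η * L)) *
          (k.divisors.card * Real.exp ((J + 10 * u) * Real.log 2))
        ≤ C4 * (a ^ (η / 3) * Real.exp (η * L)) *
          (C5 * Real.exp (η * L) * Real.exp ((J + 10 * u) * Real.log 2)) := by gcongr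
      _ = C4 * a ^ (η / 3) * C5 * Real.exp (η * L + η * L + (J + 10 * u) * Real.log 2) := by
          rw [Real.exp_add, Real.exp_add]; ring
      _ ≤ C4 * a ^ (η / 3) * C5 * Real.exp ((cc * c3 + e + 10 * u0) * Real.log 2 +
          (Real.exp 1 * Real.log 2 + 16 * η) * L) := by gcongr
      _ = _ := by rw [Real.exp_add]; ring
  · push_cast
    have h2 := mul_le_mul_of_nonneg_left (add_le_add s1 s2) (show 0 ≤ 3 * Q by positivity)
    rw [add_mul] at hb2
    have h3 : 12 * Q * ε * (k : ℝ) ^ (-(1 + η)) = 12 * Q * w := by rw [hw]; ring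
    rw [h3]
    linarith only [hb1, hb2, h2, s3, s4]

end Pool.Agent.MP_cebb75_nt.X

end
end

section

/-!
Choice of the parameters and the union bound.
-/

set_option autoImplicit false

open Finset Filter

noncomputable section

namespace Pool.Agent.MP_cebb75_nt.X

theorem params (η X : ℝ) (h0 : 0 < η) (h1 : η ≤ 1 / 10) (hX : 1 < X)
    (hXη : 6000 / η ≤ X ^ (η / 2)) :
    ∃ y m : ℕ, 2 ≤ y ∧ ((2 : ℝ) ^ (1 - η)) ^ m ≤ η * y ∧ 200 * (y : ℝ) ≤ X ∧
      η / 6000 * X ≤ 2 ^ m * Real.log y ∧ 2 ^ m * Real.log y ≤ η / 3000 * X := by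
  have hX0 : 0 < X := by linarith
  set A := X ^ (1 - η / 2) with hA
  set B := X ^ (η / 2) with hB
  have hA1 : 1 < A := Real.one_lt_rpow hX (by linarith)
  have hAB : A * B = X := by rw [hA, hB, ← Real.rpow_add hX0]; simp
  have hB1 : 6000 ≤ η * B := by rwa [div_le_iff₀' h0] at hXη
  have hB0 : 0 < B := Real.rpow_pos_of_pos hX0 _
  set y := ⌈A⌉₊ with hy
  have hy1 : A ≤ y := Nat.le_ceil A
  have hy2 : (y : ℝ) ≤ 2 * A := by linarith [Nat.ceil_lt_add_one (show 0 ≤ A by linarith)]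
  have hy3 : 2 ≤ y := by
    have : (1 : ℝ) < y := by linarith
    exact_mod_cast this
  have hyR : (2 : ℝ) ≤ y := by exact_mod_cast hy3
  have hl1 : 1 / 2 ≤ Real.log y :=
    le_trans (by linarith [Real.log_two_gt_d9]) (Real.log_le_log (by norm_num) hyR)
  have hl2 : Real.log y ≤ y := (Real.log_le_sub_one_of_pos (by linarith)).trans (by linarith)
  have hAX : 6000 * A ≤ η * X := by
    rw [← hAB]
    nlinarith
  obtain ⟨m, hm1, hm2⟩ := exists_nat_pow_near (x := η / 3000 * X / Real.log y) (y := 2)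
    (by rw [le_div_iff₀ (by linarith)]; linarith) (by norm_num)
  rw [le_div_iff₀ (by linarith)] at hm1
  rw [div_lt_iff₀ (by linarith), pow_succ] at hm2
  refine ⟨y, m, hy3, ?_, by nlinarith, by linarith, hm1⟩
  have h2 : (2 : ℝ) ^ m ≤ X := by
    have h3 : (0 : ℝ) < 2 ^ m := by positivity
    nlinarith
  have h3 : ((2 : ℝ) ^ (1 - η)) ^ m = ((2 : ℝ) ^ m) ^ (1 - η) := by
    rw [← Real.rpow_natCast, ← Real.rpow_natCast, ← Real.rpow_mul (x := 2) (by norm_num),
      ← Real.rpow_mul (x := 2) (by norm_num), mul_comm]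
  have h4 : X ^ (1 - η) * B = A := by rw [hA, hB, ← Real.rpow_add hX0]; congr 1; ring
  have h5 : 0 < X ^ (1 - η) := Real.rpow_pos_of_pos hX0 _
  rw [h3]
  refine (Real.rpow_le_rpow (by positivity) h2 (by linarith)).trans ?_
  nlinarith [mul_le_mul_of_nonneg_left hy1 h0.le]

theorem exists_good (η : ℝ) (h0 : 0 < η) (h1 : η ≤ 1 / 10) :
    ∃ C : ℝ, 0 < C ∧ ∀ N : ℕ, ∃ n : ℕ, N < n ∧ ∀ k : ℕ, 1 ≤ k → k < n →
      ((n - k).divisors.card : ℝ) ≤ C * (k : ℝ) ^ (Real.exp 1 * Real.log 2 + 16 * η) := by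
  classical
  have hsum : Summable fun r : ℕ => (r : ℝ) ^ (-(1 + η)) :=
    Real.summable_nat_rpow.2 (by linarith)
  set Z := ∑' r : ℕ, (r : ℝ) ^ (-(1 + η)) + 1 with hZ
  have hZ1 : 1 ≤ Z := le_add_of_nonneg_left (tsum_nonneg fun r => by positivity)
  obtain ⟨C, X₀, hC0, hC⟩ := one_shift η (1 / (96 * Z)) h0 h1 (by positivity)
    (by rw [div_le_one (by positivity)]; linarith)
  obtain ⟨C1, hC11, hC1⟩ := MP_2a1f0e_nt.divisor_bound (ε := 1 / 20) (by norm_num)
  refine ⟨max C C1, lt_max_of_lt_left hC0, fun N => ?_⟩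
  have hX : Tendsto (fun x : ℕ => Real.log x) atTop atTop :=
    Real.tendsto_log_atTop.comp tendsto_natCast_atTop_atTop
  obtain ⟨x, hx1, hx2, hx3, hx4⟩ := ((hX.eventually_ge_atTop X₀).and
    ((hX.eventually_ge_atTop 40).and ((hX.eventually_ge_atTop (16 * (N + 2))).and
    (((tendsto_rpow_atTop (show 0 < η / 2 by positivity)).comp hX).eventually_ge_atTop
      (6000 / η))))).exists
  set X := Real.log x with hXd
  have hx0 : (0 : ℝ) < x := by
    rcases Nat.eq_zero_or_pos x with h | h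
    · rw [h] at hXd
      simp at hXd
      linarith
    · exact_mod_cast h
  have hxe : (x : ℝ) = Real.exp X := (Real.exp_log hx0).symm
  obtain ⟨y, m, hy, hK, hyX, ht1, ht2⟩ := params η X h0 h1 (by linarith) hx4
  set S := SS η y m x with hS
  set Q := Qm η y m x with hQ
  have hQ1 : x * Real.exp (-(X / 40)) ≤ Q :=
    le_trans (mul_le_mul_of_nonneg_left (Real.exp_le_exp.2 (by linarith)) hx0.le)
      (Qm_lower h0 h1 hy hK x)
  have hQ2 : Real.exp (39 / 40 * X) ≤ Q := by
    refine le_trans (le_of_eq ?_) hQ1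
    rw [hxe, ← Real.exp_add]; congr 1; ring
  have hQ0 : 0 < Q := (Real.exp_pos _).trans_le hQ2
  have hE : Real.exp (300 / η * (2 ^ m * Real.log y)) ≤ Real.exp (X / 10) := by
    rw [Real.exp_le_exp]
    refine (mul_le_mul_of_nonneg_left ht2 (by positivity)).trans (le_of_eq ?_)
    field_simp
    norm_num
  have hlow : Q / 4 ≤ S.card := by
    refine le_trans ?_ (SS_lower h0 h1 hy hK x)
    have hyR : (2 : ℝ) ≤ y := by exact_mod_cast hy
    have hl1 : 1 / 2 ≤ Real.log y :=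
      le_trans (by linarith [Real.log_two_gt_d9]) (Real.log_le_log (by norm_num) hyR)
    have h2 : (m : ℝ) ≤ 2 ^ m := by exact_mod_cast (Nat.lt_two_pow_self (n := m)).le
    have h3 : (m : ℝ) ≤ X / 10 := by
      have h4 := mul_le_mul_of_nonneg_left hl1 (show (0 : ℝ) ≤ 2 ^ m by positivity)
      have h5 := mul_le_mul_of_nonneg_right h1 (show 0 ≤ X by linarith)
      linarith only [h2, h4, h5, ht2, hx2]
    have h4 : (1 + m : ℝ) ≤ Real.exp (X / 10) := by linarith [Real.add_one_le_exp (X / 10)]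
    have h5 := mul_le_mul h4 hE (Real.exp_pos _).le (Real.exp_pos _).le
    have h6 : Real.exp (39 / 40 * X) =
        Real.exp (31 / 40 * X) * (Real.exp (X / 10) * Real.exp (X / 10)) := by
      rw [← Real.exp_add, ← Real.exp_add]; congr 1; ring
    have h7 := mul_le_mul_of_nonneg_right (show 4 ≤ Real.exp (31 / 40 * X) by
      linarith only [Real.add_one_le_exp (31 / 40 * X), hx2])
      (show 0 ≤ Real.exp (X / 10) * Real.exp (X / 10) by positivity)
    linarith only [h5, h6, h7, hQ2]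
  have hSx : S ⊆ range x := filter_subset _ _
  have hk := hC x y S (primorial y) Q hx1 hSx hQ1
    (fun p hp hyp hd => by have := hp.dvd_primorial_iff.1 hd; omega)
    (fun d k g hd hdX hg hgk => by
      refine (SS_upper h0 h1 hy hK x hd k g (by linarith only [hg]) hgk).trans ?_
      have hdR : (0 : ℝ) < d := by exact_mod_cast hd
      have h2 : (d : ℝ) ≤ Real.exp (2 / 5 * X) := (Real.log_le_iff_le_exp hdR).1 hdX
      have h3 : 1 ≤ g * (1 + 2 * η) ^ d.primeFactors.card :=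
        one_le_mul_of_one_le_of_one_le hg (one_le_pow₀ (by linarith only [h0]))
      have h4 : Real.exp (X / 10) ≤ Q * (g * (1 + 2 * η) ^ d.primeFactors.card / d) := by
        rw [← mul_div_assoc, le_div_iff₀ hdR]
        calc _ ≤ Real.exp (X / 10) * Real.exp (2 / 5 * X) := by gcongr
          _ ≤ Real.exp (39 / 40 * X) := by
              rw [← Real.exp_add, Real.exp_le_exp]; linarith only [hx2]
          _ ≤ _ := hQ2.trans (le_mul_of_one_le_right hQ0.le h3)
      linarith only [h4, hE])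
    fun n hn k p hk hkn hp hd => (SS_primes h0 h1 hy hK hn hk hkn hp hd).imp_right fun h =>
      ⟨h.1, lt_of_le_of_lt (div_le_div_of_nonneg_right ht1 (by positivity)) h.2⟩
  set T := (Icc 1 x).filter fun k : ℕ => Real.log k ≤ X / 20 with hT
  set Bd := T.biUnion fun k => S.filter fun n => k < n ∧
    C * (k : ℝ) ^ (Real.exp 1 * Real.log 2 + 16 * η) < ((n - k).divisors.card : ℝ) with hBd
  have hbad : (Bd.card : ℝ) ≤ Q / 8 := by
    refine (Nat.cast_le.2 card_biUnion_le).trans ?_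
    push_cast
    refine (sum_le_sum fun k hkT => hk k (mem_Icc.1 (mem_filter.1 hkT).1).1
      (mem_filter.1 hkT).2).trans ?_
    rw [← mul_sum]
    have h2 : ∑ k ∈ T, (k : ℝ) ^ (-(1 + η)) ≤ Z :=
      (hsum.sum_le_tsum _ fun r _ => by positivity).trans (by linarith only [hZ])
    refine (mul_le_mul_of_nonneg_left h2 (by positivity)).trans (le_of_eq ?_)
    field_simp
    norm_num
  have hex : ¬ S ⊆ Bd ∪ range (N + 1) := fun h => by
    have h2 := (card_le_card h).trans (card_union_le _ _)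
    rw [card_range] at h2
    have h3 : (S.card : ℝ) ≤ Bd.card + (N + 1) := by exact_mod_cast h2
    linarith only [h3, hbad, hlow, hQ2, hx3, Real.add_one_le_exp (39 / 40 * X), hx2]
  obtain ⟨n, hnS, hn⟩ := not_subset.1 hex
  rw [mem_union, not_or, mem_range] at hn
  refine ⟨n, by omega, fun k hk1 hkn => ?_⟩
  have hnx := mem_range.1 (hSx hnS)
  have hkR : (1 : ℝ) ≤ k := by exact_mod_cast hk1
  by_cases hkX : Real.log k ≤ X / 20
  · refine le_trans (not_lt.1 fun h => hn.1 (mem_biUnion.2 ⟨k, mem_filter.2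
      ⟨mem_Icc.2 ⟨hk1, by omega⟩, hkX⟩, mem_filter.2 ⟨hnS, hkn, h⟩⟩)) ?_
    exact mul_le_mul_of_nonneg_right (le_max_left _ _) (by positivity)
  · refine (hC1 _).trans (mul_le_mul (le_max_right _ _) ?_ (by positivity) (by positivity))
    have h2 : ((n - k : ℕ) : ℝ) ≤ x := by exact_mod_cast (by omega : n - k ≤ x)
    refine (Real.rpow_le_rpow (by positivity) h2 (by norm_num)).trans ?_
    rw [Real.rpow_def_of_pos hx0, Real.rpow_def_of_pos (by linarith only [hkR]), Real.exp_le_exp,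
      ← hXd]
    have h3 : 1 ≤ Real.exp 1 * Real.log 2 + 16 * η := by
      have := mul_le_mul_of_nonneg_right (Real.add_one_le_exp 1)
        (Real.log_nonneg (show (1 : ℝ) ≤ 2 by norm_num))
      linarith only [this, h0, Real.log_two_gt_d9]
    have h4 := le_mul_of_one_le_right (Real.log_nonneg hkR) h3
    linarith only [h4, not_le.1 hkX]

end Pool.Agent.MP_cebb75_nt.X

end
end
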