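import Mathlib

set_option linter.all false

section

set_option autoImplicit false

namespace Pool.Agent.MP_c6d393_nt.R

open Finset

/-- Counting by labels: every element has a label, every label has at most one element. -/
theorem card_le_of_label {α β : Type*} [Nonempty β] (S : Finset α) (L : Finset β) (R : α → β → Prop)
    (h1 : ∀ a ∈ S, ∃ l ∈ L, R a l)
    (h2 : ∀ l ∈ L, ∀ a ∈ S, ∀ b ∈ S, R a l → R b l → a = b) : S.card ≤ L.card := by
  classical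
  choose! g hg using h1
  refine card_le_card_of_injOn g (fun a ha => (hg a ha).1) ?_
  intro a ha b hb hab
  exact h2 (g a) (hg a ha).1 a ha b hb (hg a ha).2 (hab ▸ (hg b hb).2)

theorem eq_of_div_of_dvd {n m q : ℕ} (h1 : n / q = m / q) (h2 : (q : ℤ) ∣ (n : ℤ) - m) :
    n = m := by
  have h3 : n % q = m % q := by
    have : m ≡ n [MOD q] := (Nat.modEq_iff_dvd).2 h2
    exact this.symm
  rw [← Nat.div_add_mod n q, ← Nat.div_add_mod m q, h1, h3]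

/-- A monotone path with steps `0` or `1`. -/
structure Path (f : ℕ → ℕ) : Prop where
  mono : Monotone f
  lip : ∀ n, f (n + 1) ≤ f n + 1

theorem Path.step {f : ℕ → ℕ} (hf : Path f) (n a : ℕ) : ∃ i, i ≤ a ∧ f (n + a) = f n + i := by
  have h1 : f (n + a) ≤ f n + a := by
    induction a with
    | zero => simp
    | succ a ih => have := hf.lip (n + a); rw [← add_assoc]; omega
  have h2 : f n ≤ f (n + a) := hf.mono (Nat.le_add_right _ _)
  exact ⟨f (n + a) - f n, by omega, by omega⟩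

theorem b_unique {a b c i i' j j' Q : ℕ} (ha : 1 ≤ a) (hi : i ≤ a) (hi' : i' ≤ b) (hj : j ≤ a)
    (h1 : a * b * (a + b) + a * i' = Q + b * i) (h2 : a * c * (a + c) + a * j' = Q + c * j) :
    c ≤ b := by
  by_contra hlt
  push Not at hlt
  obtain ⟨d, rfl⟩ : ∃ d, c = b + 1 + d := ⟨c - b - 1, by omega⟩
  have e1 : a * i' ≤ a * b := Nat.mul_le_mul_left _ hi'
  have e2 : (b + 1 + d) * j ≤ (b + 1 + d) * a := Nat.mul_le_mul_left _ hj
  nlinarith [Nat.zero_le (a * j'), Nat.zero_le (b * i), Nat.zero_le (a * d), Nat.zero_le (a * a * d),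
    Nat.zero_le (a * b * d), Nat.zero_le (a * d * d), Nat.mul_le_mul ha ha]

/-- Three hits at `n, n + a, n + a + b`. -/
theorem triple {f : ℕ → ℕ} (hf : Path f) {q n a b : ℕ} (ha : 1 ≤ a) (hb : 1 ≤ b)
    (h0 : q ∣ n ^ 2 + f n) (h1 : q ∣ (n + a) ^ 2 + f (n + a))
    (h2 : q ∣ (n + a + b) ^ 2 + f (n + a + b)) :
    ∃ i i' u, i ≤ a ∧ i' ≤ b ∧ 1 ≤ u ∧ q ∣ a * (2 * n + a) + i ∧
      a * b * (a + b) + a * i' = q * u + b * i := by
  obtain ⟨i, hi, e1⟩ := hf.step n a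
  obtain ⟨i', hi', e2⟩ := hf.step (n + a) b
  have d1 : q ∣ a * (2 * n + a) + i := by
    have : (n + a) ^ 2 + f (n + a) = (n ^ 2 + f n) + (a * (2 * n + a) + i) := by rw [e1]; ring
    rw [this] at h1
    exact (Nat.dvd_add_right h0).1 h1
  have d2 : q ∣ b * (2 * (n + a) + b) + i' := by
    have : (n + a + b) ^ 2 + f (n + a + b) =
        ((n + a) ^ 2 + f (n + a)) + (b * (2 * (n + a) + b) + i') := by rw [e2]; ring
    rw [this] at h2
    exact (Nat.dvd_add_right h1).1 h2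
  have hlt : b * i < a * b * (a + b) + a * i' := by
    have : b * i ≤ b * a := Nat.mul_le_mul_left _ hi
    have h3 : 1 ≤ a * b := Nat.mul_le_mul ha hb
    nlinarith [Nat.zero_le (a * i'), Nat.mul_le_mul_left (a * b) (show 2 ≤ a + b by omega)]
  have d3 : q ∣ a * b * (a + b) + a * i' - b * i := by
    have e : a * (b * (2 * (n + a) + b) + i') =
        b * (a * (2 * n + a) + i) + (a * b * (a + b) + a * i' - b * i) := by
      zify [hlt.le]; ring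
    have := Dvd.dvd.mul_left d2 a
    rw [e] at this
    exact (Nat.dvd_add_right (Dvd.dvd.mul_left d1 b)).1 this
  obtain ⟨u, hu⟩ := d3
  refine ⟨i, i', u, hi, hi', ?_, d1, by omega⟩
  rcases Nat.eq_zero_or_pos u with rfl | h
  · omega
  · exact h

/-- Hits without two later hits in their block. -/
theorem card_last (T : ℕ → Prop) (S : Finset ℕ) (x H : ℕ) (hS : ∀ n ∈ S, n < x ∧ T n)
    (hno : ∀ n ∈ S, ¬ ∃ a b, 1 ≤ a ∧ 1 ≤ b ∧ a + b < H ∧ T (n + a) ∧ T (n + a + b))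
    (hH : 0 < H) : S.card ≤ (x / H + 1) * 2 := by
  classical
  have key : ∀ n m, n / H = m / H → n < m → m - n < H := by
    intro n m h hlt
    have h1 := Nat.div_add_mod n H
    have h2 := Nat.div_add_mod m H
    have h3 := Nat.mod_lt m hH
    rw [h] at h1
    omega
  have := card_le_of_label S ((range (x / H + 1)) ×ˢ (univ : Finset Bool))
    (fun n l => n / H = l.1 ∧ (l.2 = true ↔ ∃ m, n < m ∧ m / H = n / H ∧ T m)) ?_ ?_
  · simpa using this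
  · intro n hn
    refine ⟨(n / H, decide (∃ m, n < m ∧ m / H = n / H ∧ T m)), ?_, rfl, by simp⟩
    simp only [mem_product, mem_range, mem_univ, and_true]
    exact Nat.lt_succ_of_le (Nat.div_le_div_right (hS n hn).1.le)
  · have main : ∀ l : ℕ × Bool, ∀ n ∈ S, ∀ m ∈ S,
        (n / H = l.1 ∧ (l.2 = true ↔ ∃ m, n < m ∧ m / H = n / H ∧ T m)) →
        (m / H = l.1 ∧ (l.2 = true ↔ ∃ k, m < k ∧ k / H = m / H ∧ T k)) → ¬ n < m := by
      rintro l n hn m hm ⟨h1, h2⟩ ⟨h3, h4⟩ hlt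
      obtain ⟨k, hk1, hk2, hk3⟩ := h4.1 (h2.2 ⟨m, hlt, by rw [h1, h3], (hS m hm).2⟩)
      have := key n k (by rw [hk2, h1, h3]) (hlt.trans hk1)
      refine hno n hn ⟨m - n, k - m, by omega, by omega, by omega, ?_, ?_⟩
      · rw [show n + (m - n) = m by omega]; exact (hS m hm).2
      · rw [show n + (m - n) + (k - m) = k by omega]; exact hk3
    intro l _ n hn m hm h1 h2
    have := main l n hn m hm h1 h2
    have := main l m hm n hn h2 h1
    omega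

theorem dvd_sub_of_two {q a i n m : ℕ} (h1 : q ∣ a * (2 * n + a) + i)
    (h2 : q ∣ a * (2 * m + a) + i) : (q : ℤ) ∣ (2 * a : ℕ) * ((n : ℤ) - m) := by
  have h3 : (q : ℤ) ∣ ((a * (2 * n + a) + i : ℕ) : ℤ) - ((a * (2 * m + a) + i : ℕ) : ℤ) :=
    dvd_sub (Int.natCast_dvd_natCast.2 h1) (Int.natCast_dvd_natCast.2 h2)
  have e : ((a * (2 * n + a) + i : ℕ) : ℤ) - ((a * (2 * m + a) + i : ℕ) : ℤ) =
      (2 * a : ℕ) * ((n : ℤ) - m) := by push_cast; ring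
  rwa [e] at h3

theorem cop_two_mul {p a k : ℕ} (hp : p.Prime) (hp2 : p ≠ 2) (ha : ¬ p ∣ a) :
    IsCoprime ((p ^ k : ℕ) : ℤ) ((2 * a : ℕ) : ℤ) := by
  rw [Nat.isCoprime_iff_coprime]
  refine Nat.Coprime.pow_left _ ((Nat.Prime.coprime_iff_not_dvd hp).2 fun h => ?_)
  rcases (Nat.Prime.dvd_mul hp).1 h with h | h
  · exact hp2 ((Nat.prime_dvd_prime_iff_eq hp Nat.prime_two).1 h)
  · exact ha h

/-- First offset divisible by `p`. -/
theorem card_div {p w x : ℕ} (hp : p.Prime) (hp2 : p ≠ 2) (hw : w ≤ p) (S : Finset ℕ)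
    (hS : ∀ n ∈ S, n < x ∧ ∃ a i, 1 ≤ a ∧ a < p * w ∧ i ≤ a ∧ p ∣ a ∧
      p ^ 3 ∣ a * (2 * n + a) + i) : S.card ≤ w * w * (x / p ^ 2 + 1) := by
  have := card_le_of_label S (((range w) ×ˢ (range w)) ×ˢ range (x / p ^ 2 + 1))
    (fun n l => n / p ^ 2 = l.2 ∧ 1 ≤ l.1.1 ∧ l.1.1 < p ∧
      p ^ 3 ∣ (p * l.1.1) * (2 * n + p * l.1.1) + p * l.1.2) ?_ ?_
  · simpa using this
  · intro n hn
    obtain ⟨hx, a, i, h1, h2, h3, ⟨a', rfl⟩, h5⟩ := hS n hn
    have hi : p ∣ i := by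
      have h6 : p ∣ p * a' * (2 * n + p * a') + i := (dvd_pow_self p (by norm_num)).trans h5
      exact (Nat.dvd_add_right (Dvd.dvd.mul_right (Dvd.intro _ rfl) _)).1 h6
    obtain ⟨i', rfl⟩ := hi
    have ha' : a' < w := Nat.lt_of_mul_lt_mul_left h2
    have hi' : i' ≤ a' := Nat.le_of_mul_le_mul_left h3 hp.pos
    refine ⟨((a', i'), n / p ^ 2), ?_, rfl, ?_, by simp; omega, h5⟩
    · simp only [mem_product, mem_range]
      exact ⟨⟨ha', by omega⟩, Nat.lt_succ_of_le (Nat.div_le_div_right hx.le)⟩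
    · rcases Nat.eq_zero_or_pos a' with rfl | h
      · simp at h1
      · exact h
  · rintro ⟨⟨a', i'⟩, k⟩ _ n _ m _ ⟨h1, h2, h3, h4⟩ ⟨h5, _, _, h8⟩
    simp only at h1 h2 h3 h4 h5 h8
    refine eq_of_div_of_dvd (h1.trans h5.symm) ?_
    have h9 := dvd_sub_of_two h4 h8
    have e : ((2 * (p * a') : ℕ) : ℤ) * ((n : ℤ) - m) =
        (p : ℤ) * (((2 * a' : ℕ) : ℤ) * ((n : ℤ) - m)) := by push_cast; ring
    have e2 : ((p ^ 3 : ℕ) : ℤ) = (p : ℤ) * ((p ^ 2 : ℕ) : ℤ) := by push_cast; ring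
    rw [e, e2] at h9
    have h10 := Int.dvd_of_mul_dvd_mul_left (by exact_mod_cast hp.ne_zero) h9
    exact (cop_two_mul hp hp2 (Nat.not_dvd_of_pos_of_lt h2 h3)).dvd_of_dvd_mul_left h10

/-- First offset prime to `p`. -/
theorem card_cop {p w x : ℕ} (hp : p.Prime) (hp2 : p ≠ 2) (S : Finset ℕ)
    (hS : ∀ n ∈ S, n < x ∧ ∃ a b i i' u, 1 ≤ a ∧ 1 ≤ b ∧ a + b < p * w ∧ i ≤ a ∧ i' ≤ b ∧
      1 ≤ u ∧ ¬ p ∣ a ∧ p ^ 3 ∣ a * (2 * n + a) + i ∧
      a * b * (a + b) + a * i' = p ^ 3 * u + b * i) :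
    S.card ≤ (p * w) * (w ^ 3 + 1) * (w ^ 3 + 1) * (x / p ^ 3 + 1) := by
  have := card_le_of_label S
    ((((range (p * w)) ×ˢ (range (w ^ 3 + 1))) ×ˢ range (w ^ 3 + 1)) ×ˢ range (x / p ^ 3 + 1))
    (fun n l => n / p ^ 3 = l.2 ∧ 1 ≤ l.1.1.1 ∧ ¬ p ∣ l.1.1.1 ∧ ∃ b i i', i ≤ l.1.1.1 ∧ i' ≤ b ∧
      p ^ 3 ∣ l.1.1.1 * (2 * n + l.1.1.1) + i ∧
      l.1.1.1 * b * (l.1.1.1 + b) + l.1.1.1 * i' = p ^ 3 * l.1.1.2 + b * i ∧
      i / (l.1.1.1 / Nat.gcd l.1.1.1 b) = l.1.2) ?_ ?_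
  · simpa using this
  · intro n hn
    obtain ⟨hx, a, b, i, i', u, h1, h2, h3, h4, h5, h6, h7, h8, h9⟩ := hS n hn
    have hu : u ≤ w ^ 3 := by
      have e1 : a * i' ≤ a * b := Nat.mul_le_mul_left _ h5
      have e2 : a * b ≤ (p * w) * (p * w) := Nat.mul_le_mul (by omega) (by omega)
      have e3 : a * b * (a + b + 1) ≤ (p * w) * (p * w) * (p * w) := Nat.mul_le_mul e2 h3
      have e4 : p ^ 3 * u ≤ p ^ 3 * w ^ 3 := by nlinarith [Nat.zero_le (b * i)]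
      exact Nat.le_of_mul_le_mul_left e4 (pow_pos hp.pos 3)
    have hg : Nat.gcd a b ∣ u := by
      have g1 : Nat.gcd a b ∣ a * b * (a + b) + a * i' :=
        dvd_add (((Nat.gcd_dvd_left a b).mul_right _).mul_right _) ((Nat.gcd_dvd_left a b).mul_right _)
      rw [h9] at g1
      have g2 : Nat.gcd a b ∣ p ^ 3 * u :=
        (Nat.dvd_add_left ((Nat.gcd_dvd_right a b).mul_right _)).1 g1
      refine Nat.Coprime.dvd_of_dvd_mul_left ?_ g2
      refine (Nat.Coprime.pow_left _ ((Nat.Prime.coprime_iff_not_dvd hp).2 fun h => ?_)).symm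
      exact h7 (h.trans (Nat.gcd_dvd_left a b))
    have hgu : Nat.gcd a b ≤ u := Nat.le_of_dvd h6 hg
    have hq : i / (a / Nat.gcd a b) ≤ Nat.gcd a b := by
      refine (Nat.div_le_div_right h4).trans (le_of_eq ?_)
      exact Nat.div_div_self (Nat.gcd_dvd_left a b) (by omega)
    refine ⟨(((a, u), i / (a / Nat.gcd a b)), n / p ^ 3), ?_, rfl, h1, h7, b, i, i', h4, h5, h8,
      h9, rfl⟩
    simp only [mem_product, mem_range]
    exact ⟨⟨⟨by omega, by omega⟩, by omega⟩, Nat.lt_succ_of_le (Nat.div_le_div_right hx.le)⟩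
  · rintro ⟨⟨⟨a, u⟩, t⟩, k⟩ _ n _ m _ ⟨h1, h2, h3, b, i, i', h4, h5, h6, h7, h8⟩
      ⟨g1, _, _, c, j, j', g4, g5, g6, g7, g8⟩
    simp only at h1 h2 h3 h4 h5 h6 h7 h8 g1 g4 g5 g6 g7 g8
    obtain rfl : b = c := le_antisymm (b_unique h2 g4 g5 h4 g7 h7) (b_unique h2 h4 h5 g4 h7 g7)
    have hij : i = j := by
      refine eq_of_div_of_dvd (h8.trans g8.symm) ?_
      have hg : 0 < Nat.gcd a b := Nat.gcd_pos_of_pos_left _ h2
      obtain ⟨a', ha'⟩ := Nat.gcd_dvd_left a b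
      obtain ⟨b', hb'⟩ := Nat.gcd_dvd_right a b
      have hc : Nat.Coprime a' b' := by
        have := Nat.coprime_div_gcd_div_gcd hg
        rwa [Nat.div_eq_of_eq_mul_right hg ha', Nat.div_eq_of_eq_mul_right hg hb'] at this
      rw [Nat.div_eq_of_eq_mul_right hg ha']
      have e : (b : ℤ) * ((i : ℤ) - j) = a * ((i' : ℤ) - j') := by
        zify at h7 g7; linarith
      have e2 : (b' : ℤ) * ((i : ℤ) - j) = a' * ((i' : ℤ) - j') := by
        have hg' : ((Nat.gcd a b : ℕ) : ℤ) ≠ 0 := by exact_mod_cast hg.ne'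
        refine mul_left_cancel₀ hg' ?_
        have f1 : (a : ℤ) = (Nat.gcd a b : ℕ) * a' := by exact_mod_cast ha'
        have f2 : (b : ℤ) = (Nat.gcd a b : ℕ) * b' := by exact_mod_cast hb'
        rw [← mul_assoc, ← mul_assoc, ← f1, ← f2, e]
      exact (Nat.isCoprime_iff_coprime.2 hc).dvd_of_dvd_mul_left ⟨_, e2⟩
    subst hij
    refine eq_of_div_of_dvd (h1.trans g1.symm) ?_
    exact (cop_two_mul hp hp2 h3).dvd_of_dvd_mul_left (dvd_sub_of_two h6 g6)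

/-- The number of hits of the path on the parabola modulo `p ^ 3`. -/
theorem card_hits {f : ℕ → ℕ} (hf : Path f) {p w : ℕ} (x : ℕ) (hp : p.Prime) (hp2 : p ≠ 2)
    (hw1 : 1 ≤ w) (hw : w ≤ p) :
    ((range x).filter (fun n => p ^ 3 ∣ n ^ 2 + f n)).card ≤
      (x / (p * w) + 1) * 2 + w * w * (x / p ^ 2 + 1) +
        (p * w) * (w ^ 3 + 1) * (w ^ 3 + 1) * (x / p ^ 3 + 1) := by
  classical
  set S := (range x).filter (fun n => p ^ 3 ∣ n ^ 2 + f n) with hS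
  let A : ℕ → Prop := fun n => ∃ a i, 1 ≤ a ∧ a < p * w ∧ i ≤ a ∧ p ∣ a ∧
      p ^ 3 ∣ a * (2 * n + a) + i
  let B : ℕ → Prop := fun n => ∃ a b i i' u, 1 ≤ a ∧ 1 ≤ b ∧ a + b < p * w ∧ i ≤ a ∧ i' ≤ b ∧
      1 ≤ u ∧ ¬ p ∣ a ∧ p ^ 3 ∣ a * (2 * n + a) + i ∧
      a * b * (a + b) + a * i' = p ^ 3 * u + b * i
  have hmem : ∀ n ∈ S, n < x ∧ p ^ 3 ∣ n ^ 2 + f n := fun n hn => by
    simpa [hS] using hn
  have c1 := card_last (fun n => p ^ 3 ∣ n ^ 2 + f n) (S.filter fun n => ¬ (A n ∨ B n)) x (p * w)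
    (fun n hn => hmem n (mem_filter.1 hn).1) ?_ (Nat.mul_pos hp.pos hw1)
  · have c2 := card_div (x := x) hp hp2 hw (S.filter A)
      (fun n hn => ⟨(hmem n (mem_filter.1 hn).1).1, (mem_filter.1 hn).2⟩)
    have c3 := card_cop (w := w) (x := x) hp hp2 (S.filter B)
      (fun n hn => ⟨(hmem n (mem_filter.1 hn).1).1, (mem_filter.1 hn).2⟩)
    have c4 := card_filter_add_card_filter_not (s := S) (fun n => A n ∨ B n)
    have c5 : (S.filter fun n => A n ∨ B n).card ≤ (S.filter A).card + (S.filter B).card := by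
      rw [filter_or]; exact card_union_le _ _
    omega
  · rintro n hn ⟨a, b, ha, hb, hab, h1, h2⟩
    obtain ⟨hn1, hn2⟩ := mem_filter.1 hn
    obtain ⟨i, i', u, e1, e2, e3, e4, e5⟩ := triple hf ha hb (hmem n hn1).2 h1 h2
    by_cases hd : p ∣ a
    · exact hn2 (Or.inl ⟨a, i, ha, by omega, e1, hd, e4⟩)
    · exact hn2 (Or.inr ⟨a, b, i, i', u, ha, hb, hab, e1, e2, e3, hd, e4, e5⟩)

end Pool.Agent.MP_c6d393_nt.R

end

section

set_option autoImplicit false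

namespace Pool.Agent.MP_c6d393_nt.R

open Finset

variable {f : ℕ → ℕ}

theorem card_jump (hf : Path f) (L K : ℕ) :
    ((range K).filter fun k => f (k * L) ≠ f ((k + 1) * L)).card ≤ f (K * L) := by
  induction K with
  | zero => simp
  | succ K ih =>
    rw [range_add_one, filter_insert]
    have h : f (K * L) ≤ f ((K + 1) * L) := hf.mono (Nat.mul_le_mul_right _ (Nat.le_succ _))
    split_ifs with h1
    · refine (card_insert_le _ _).trans ?_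
      omega
    · omega

theorem const_block (hf : Path f) {L n : ℕ} (hL : 0 < L)
    (h : f (n / L * L) = f ((n / L + 1) * L)) : f n = f (n / L * L) := by
  have h1 : f (n / L * L) ≤ f n := hf.mono (Nat.div_mul_le_self _ _)
  have h2 : f n ≤ f ((n / L + 1) * L) := hf.mono (by
    have := Nat.lt_div_mul_add (a := n) hL
    rw [add_mul, one_mul]; omega)
  omega

theorem card_large (hf : Path f) (h0 : f 0 = 0) {q : ℕ} (hq : 0 < q) (x : ℕ) :
    ((range x).filter fun n => n ≠ 0 ∧ q ∣ n ^ 2 + f n).card ≤ 2 * x ^ 2 / q := by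
  have := card_le_of_label ((range x).filter fun n => n ≠ 0 ∧ q ∣ n ^ 2 + f n)
    (Icc 1 (2 * x ^ 2 / q)) (fun n l => n ^ 2 + f n = q * l) ?_ ?_
  · simpa using this
  · intro n hn
    obtain ⟨h1, h2, l, hl⟩ := mem_filter.1 hn
    rw [mem_range] at h1
    refine ⟨l, mem_Icc.2 ⟨?_, (Nat.le_div_iff_mul_le hq).2 ?_⟩, hl⟩
    · rcases Nat.eq_zero_or_pos l with rfl | h
      · have := pow_pos (Nat.pos_of_ne_zero h2) 2
        omega
      · exact h
    · obtain ⟨i, hi, e⟩ := hf.step 0 n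
      rw [zero_add, h0, zero_add] at e
      nlinarith
  · intro l _ n _ m _ e1 e2
    have key : ∀ a b : ℕ, a < b → a ^ 2 + f a < b ^ 2 + f b := fun a b h =>
      Nat.add_lt_add_of_lt_of_le (Nat.pow_lt_pow_left h (by norm_num)) (hf.mono h.le)
    rcases lt_trichotomy n m with h | h | h
    · have := key n m h; omega
    · exact h
    · have := key m n h; omega

/-- A residue class on which `n ^ 2 + m` has no small prime factor. -/
def res (z m : ℕ) : ℕ := ∏ p ∈ (range (z + 1)).filter (fun p => p.Prime ∧ ¬ p ∣ m), p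

theorem not_dvd_of_res {z m n p : ℕ} (hp : p.Prime) (hz : p ≤ z)
    (h : n ≡ res z m [MOD z.factorial]) : ¬ p ∣ n ^ 2 + m := by
  have h1 : n ≡ res z m [MOD p] := h.of_dvd ((Nat.Prime.dvd_factorial hp).2 hz)
  have h2 : p ∣ n ↔ p ∣ res z m := h1.dvd_iff dvd_rfl
  intro hd
  by_cases hm : p ∣ m
  · have h3 : p ∣ n := hp.dvd_of_dvd_pow ((Nat.dvd_add_left hm).1 hd)
    obtain ⟨q, hq, hpq⟩ := (Prime.dvd_finsetProd_iff hp.prime _).1 (h2.1 h3)
    obtain ⟨_, hq1, hq2⟩ := mem_filter.1 hq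
    exact hq2 ((Nat.prime_dvd_prime_iff_eq hp hq1).1 hpq ▸ hm)
  · have h3 : p ∣ n := h2.2 (dvd_prod_of_mem _ (mem_filter.2 ⟨mem_range.2 (by omega), hp, hm⟩))
    exact hm ((Nat.dvd_add_right (h3.trans (dvd_pow_self n (by norm_num)))).1 hd)

end Pool.Agent.MP_c6d393_nt.R

end

section

set_option autoImplicit false

namespace Pool.Agent.MP_c6d393_nt.R

open Finset Filter

variable {f : ℕ → ℕ}

/-- The number of `n < x` with `p ^ 3 ∣ n ^ 2 + f n`. -/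
def hits (f : ℕ → ℕ) (x p : ℕ) : ℕ := ((range x).filter fun n => p ^ 3 ∣ n ^ 2 + f n).card

theorem cast_div_le' (a b : ℕ) : ((a / b : ℕ) : ℝ) ≤ (a : ℝ) / b := Nat.cast_div_le

theorem hits_real (hf : Path f) {p w : ℕ} (x : ℕ) (hp : p.Prime) (hp2 : p ≠ 2)
    (hw1 : 1 ≤ w) (hw : w ≤ p) :
    (hits f x p : ℝ) ≤ ((x : ℝ) / (p * w) + 1) * 2 + w * w * ((x : ℝ) / p ^ 2 + 1) +
      (p * w) * (4 * w ^ 6) * ((x : ℝ) / p ^ 3 + 1) := by
  have h := card_hits hf x hp hp2 hw1 hw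
  have h1 : (hits f x p : ℝ) ≤ (((x / (p * w) : ℕ) : ℝ) + 1) * 2 +
      w * w * (((x / p ^ 2 : ℕ) : ℝ) + 1) +
      (p * w) * (((w : ℝ) ^ 3 + 1) * (w ^ 3 + 1)) * (((x / p ^ 3 : ℕ) : ℝ) + 1) := by
    have h2 : ((hits f x p : ℕ) : ℝ) ≤ (((x / (p * w) + 1) * 2 + w * w * (x / p ^ 2 + 1) +
        (p * w) * (w ^ 3 + 1) * (w ^ 3 + 1) * (x / p ^ 3 + 1) : ℕ) : ℝ) := Nat.cast_le.2 h
    refine h2.trans (le_of_eq ?_)
    simp only [Nat.cast_add, Nat.cast_mul, Nat.cast_one, Nat.cast_ofNat, Nat.cast_pow]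
    ring
  have a1 := cast_div_le' x (p * w)
  have a2 := cast_div_le' x (p ^ 2)
  have a3 := cast_div_le' x (p ^ 3)
  rw [Nat.cast_mul] at a1
  rw [Nat.cast_pow] at a2 a3
  have hw' : (1 : ℝ) ≤ w := by exact_mod_cast hw1
  have a4 : ((w : ℝ) ^ 3 + 1) * (w ^ 3 + 1) ≤ 4 * w ^ 6 := by
    have := one_le_pow₀ (n := 3) hw'
    nlinarith
  refine h1.trans ?_
  gcongr

theorem hits_mid (hf : Path f) {p w x : ℕ} (hp : p.Prime) (hp2 : p ≠ 2)
    (hw1 : 1 ≤ w) (h1 : w ^ 8 ≤ p) (h2 : w ^ 8 * p ^ 2 ≤ x) :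
    (hits f x p : ℝ) ≤ 14 * ((x : ℝ) / (p * w)) := by
  have hw : w ≤ p := (Nat.le_self_pow (by norm_num) w).trans h1
  refine (hits_real hf x hp hp2 hw1 hw).trans ?_
  have hw' : (1 : ℝ) ≤ w := by exact_mod_cast hw1
  have hp' : (1 : ℝ) ≤ p := by exact_mod_cast hp.one_le
  have g1 : (w : ℝ) ^ 8 ≤ p := by exact_mod_cast h1
  have g2 : (w : ℝ) ^ 8 * (p : ℝ) ^ 2 ≤ x := by exact_mod_cast h2
  have hx : (0 : ℝ) ≤ x := Nat.cast_nonneg x
  set T : ℝ := (x : ℝ) / (p * w) with hT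
  have b1 : (p : ℝ) * w ^ 7 ≤ T := by
    rw [hT, le_div_iff₀ (by positivity)]
    exact le_trans (le_of_eq (by ring)) g2
  have b2 : (w : ℝ) ^ 7 * (x / p ^ 2) ≤ T := by
    have : (w : ℝ) ^ 7 * (x / p ^ 2) = T * (w ^ 8 / p) := by rw [hT]; field_simp
    rw [this]
    exact mul_le_of_le_one_right (by positivity) ((div_le_one (by positivity)).2 g1)
  have b3 : (w : ℝ) * w ≤ w ^ 7 := by
    rw [← sq]; exact pow_le_pow_right₀ hw' (by norm_num)
  have b4 : (1 : ℝ) ≤ w ^ 7 := one_le_pow₀ hw'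
  have b5 : (w : ℝ) ^ 7 ≤ p * w ^ 7 := le_mul_of_one_le_left (by positivity) hp'
  have b6 : (w : ℝ) * w * (x / p ^ 2) ≤ w ^ 7 * (x / p ^ 2) :=
    mul_le_mul_of_nonneg_right b3 (by positivity)
  have e : (p : ℝ) * w * (4 * w ^ 6) * ((x : ℝ) / p ^ 3 + 1) =
      4 * ((w : ℝ) ^ 7 * (x / p ^ 2)) + 4 * (p * w ^ 7) := by field_simp
  rw [e]
  linarith

theorem hits_top (hf : Path f) {p s v : ℕ} (hp : p.Prime) (hp2 : p ≠ 2) (hv : 1 ≤ v)
    (hs : 1 ≤ s) (h1 : s < p * v) (h2 : p ≤ v * s) :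
    (hits f (s ^ 2) p : ℝ) ≤ 14 * ((v : ℝ) * s) := by
  refine (hits_real hf (s ^ 2) hp hp2 le_rfl hp.one_le).trans ?_
  have hp' : (1 : ℝ) ≤ p := by exact_mod_cast hp.one_le
  have hv' : (1 : ℝ) ≤ v := by exact_mod_cast hv
  have hs' : (1 : ℝ) ≤ s := by exact_mod_cast hs
  have g1 : (s : ℝ) ≤ p * v := by exact_mod_cast h1.le
  have g2 : (p : ℝ) ≤ v * s := by exact_mod_cast h2
  have b1 : (s : ℝ) ^ 2 / p ≤ v * s := by
    rw [div_le_iff₀ (by positivity)]; nlinarith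
  have b2 : (s : ℝ) ^ 2 / p ^ 2 ≤ v * s :=
    (div_le_div_of_nonneg_left (by positivity) (by positivity) (by nlinarith)).trans b1
  have b3 : (1 : ℝ) ≤ v * s := by nlinarith
  have e : (p : ℝ) * ((s : ℝ) ^ 2 / p ^ 3) = (s : ℝ) ^ 2 / p ^ 2 := by field_simp
  push_cast
  simp only [mul_one, one_pow, one_mul]
  nlinarith

theorem hits_mid' (hf : Path f) {p s : ℕ} (hp : p.Prime) (hp2 : p ≠ 2) (h : p ≤ s) :
    (hits f (s ^ 2) p : ℝ) ≤ 28 * (s : ℝ) ^ 2 * (((p : ℝ) ^ (9 / 8 : ℝ))⁻¹ +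
      (p : ℝ) ^ (1 / 4 : ℝ) / p / (s : ℝ) ^ (1 / 4 : ℝ)) := by
  have hp' : (1 : ℝ) ≤ p := by exact_mod_cast hp.one_le
  have hp0 : (0 : ℝ) < p := by linarith
  have hs : (p : ℝ) ≤ s := by exact_mod_cast h
  have hs0 : (0 : ℝ) < s := by linarith
  set a : ℝ := (p : ℝ) ^ (1 / 8 : ℝ) with ha
  set b : ℝ := (s : ℝ) ^ (1 / 4 : ℝ) / (p : ℝ) ^ (1 / 4 : ℝ) with hb
  have a8 : a ^ 8 = p := by
    rw [ha, ← Real.rpow_natCast, ← Real.rpow_mul hp0.le]; norm_num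
  have b4 : b ^ 4 = s / p := by
    rw [hb, div_pow, ← Real.rpow_natCast, ← Real.rpow_natCast, ← Real.rpow_mul hp0.le,
      ← Real.rpow_mul hs0.le]; norm_num
  have a1 : 1 ≤ a := Real.one_le_rpow hp' (by norm_num)
  have b1 : 1 ≤ b := (one_le_div (by positivity)).2 (Real.rpow_le_rpow hp0.le hs (by norm_num))
  have m1 : 1 ≤ min a b := le_min a1 b1
  set w := ⌊min a b⌋₊ with hw
  have w1 : 1 ≤ w := Nat.le_floor (by exact_mod_cast m1)
  have w1' : (1 : ℝ) ≤ w := by exact_mod_cast w1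
  have w2 : (w : ℝ) ≤ min a b := Nat.floor_le (by linarith)
  have w3 : min a b < w + 1 := Nat.lt_floor_add_one _
  have c1 : w ^ 8 ≤ p := by
    have : (w : ℝ) ^ 8 ≤ p := a8 ▸ pow_le_pow_left₀ (by positivity) (w2.trans (min_le_left _ _)) 8
    exact_mod_cast this
  have c2 : w ^ 8 * p ^ 2 ≤ s ^ 2 := by
    have h1 : (w : ℝ) ^ 4 ≤ s / p :=
      b4 ▸ pow_le_pow_left₀ (by positivity) (w2.trans (min_le_right _ _)) 4
    rw [le_div_iff₀ hp0] at h1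
    have h2 : ((w : ℝ) ^ 4 * p) ^ 2 ≤ (s : ℝ) ^ 2 := pow_le_pow_left₀ (by positivity) h1 2
    have h3 : (w : ℝ) ^ 8 * (p : ℝ) ^ 2 ≤ (s : ℝ) ^ 2 := by nlinarith
    exact_mod_cast h3
  refine (hits_mid hf hp hp2 w1 c1 c2).trans ?_
  have d1 : (w : ℝ)⁻¹ ≤ 2 * (a⁻¹ + b⁻¹) := by
    have h1 : (w : ℝ)⁻¹ ≤ 2 * (min a b)⁻¹ := by
      rw [← div_eq_mul_inv, inv_eq_one_div, div_le_div_iff₀ (by positivity) (by positivity)]
      linarith
    have h2 : (min a b)⁻¹ ≤ a⁻¹ + b⁻¹ := by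
      rcases min_choice a b with h | h <;> rw [h]
      · exact le_add_of_nonneg_right (by positivity)
      · exact le_add_of_nonneg_left (by positivity)
    linarith
  have e1 : (p : ℝ) ^ (9 / 8 : ℝ) = p * a := by
    rw [ha, show (9 / 8 : ℝ) = 1 + 1 / 8 by norm_num, Real.rpow_add hp0, Real.rpow_one]
  have e2 : (p : ℝ) ^ (1 / 4 : ℝ) / p / (s : ℝ) ^ (1 / 4 : ℝ) = (p : ℝ)⁻¹ * b⁻¹ := by
    rw [hb]; field_simp
  rw [e1, e2]
  push_cast
  calc 14 * ((s : ℝ) ^ 2 / (p * w)) = 14 * (s : ℝ) ^ 2 * (p : ℝ)⁻¹ * (w : ℝ)⁻¹ := by field_simp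
    _ ≤ 14 * (s : ℝ) ^ 2 * (p : ℝ)⁻¹ * (2 * (a⁻¹ + b⁻¹)) :=
        mul_le_mul_of_nonneg_left d1 (by positivity)
    _ = _ := by field_simp; ring

theorem sum_quarter (Z : ℕ) :
    ∑ n ∈ range (Z + 1), (n : ℝ) ^ (1 / 4 : ℝ) / n ≤ 4 * (Z : ℝ) ^ (1 / 4 : ℝ) := by
  induction Z with
  | zero => simp
  | succ Z ih =>
    rw [sum_range_succ]
    set a : ℝ := ((Z + 1 : ℕ) : ℝ) ^ (1 / 4 : ℝ) with ha
    set b : ℝ := (Z : ℝ) ^ (1 / 4 : ℝ) with hb
    have a4 : a ^ 4 = ((Z + 1 : ℕ) : ℝ) := by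
      rw [ha, ← Real.rpow_natCast, ← Real.rpow_mul (by positivity)]; norm_num
    have b4 : b ^ 4 = Z := by
      rw [hb, ← Real.rpow_natCast, ← Real.rpow_mul (by positivity)]; norm_num
    have a0 : 0 < a := by positivity
    have b0 : 0 ≤ b := by positivity
    have ab : b ≤ a := Real.rpow_le_rpow (by positivity) (by push_cast; linarith) (by norm_num)
    have h1 : a ^ 4 - b ^ 4 = 1 := by rw [a4, b4]; push_cast; ring
    have h2 : a / ((Z + 1 : ℕ) : ℝ) ≤ 4 * (a - b) := by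
      rw [← a4, div_le_iff₀ (by positivity)]
      have h3 : a ^ 3 + a ^ 2 * b + a * b ^ 2 + b ^ 3 ≤ 4 * a ^ 3 := by
        have := pow_le_pow_left₀ b0 ab 3
        have := mul_le_mul_of_nonneg_left ab (pow_pos a0 2).le
        have := mul_le_mul_of_nonneg_left (pow_le_pow_left₀ b0 ab 2) a0.le
        nlinarith
      have h4 := mul_le_mul_of_nonneg_left h3 (sub_nonneg.2 ab)
      have h5 : 1 ≤ (a - b) * (4 * a ^ 3) := by nlinarith
      nlinarith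
    linarith

theorem sum_inv_sq (k M : ℕ) (hk : k ≠ 0) : ∑ p ∈ Ioc k M, ((p : ℝ) ^ 2)⁻¹ ≤ (k : ℝ)⁻¹ := by
  rcases le_or_gt k M with h | h
  · exact (sum_Ioc_inv_sq_le_sub hk h).trans (sub_le_self _ (by positivity))
  · rw [Ioc_eq_empty (by omega)]; simp

theorem path_pi : Path Nat.primeCounting := by
  refine ⟨Nat.monotone_primeCounting, fun n => ?_⟩
  simp only [Nat.primeCounting, Nat.primeCounting']
  rw [Nat.count_succ Nat.Prime (n + 1)]
  split_ifs <;> omega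

end Pool.Agent.MP_c6d393_nt.R

end
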