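import Pool.Agent.Mg.Fc6d393p.Gd22e41
import Pool.Agent.Mg.Fc6d393p.G639451
import Pool.Agent.MP_cebb75_nt.X.Sums

set_option linter.all false

section

set_option autoImplicit false

open Finset

noncomputable section

namespace Pool.Agent.MP_c6d393_nt.R

open MP_cebb75_nt MP_cebb75_nt.X

/-- indicator of the forbidden classes -/
def chiA (A : ℕ → Finset ℕ) (p n : ℕ) : ℝ := if n % p ∈ A p then 1 else 0

/-- number of primes of the block at which the class is forbidden -/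
def wA (B : Finset ℕ) (A : ℕ → Finset ℕ) (n : ℕ) : ℕ := (B.filter fun p => n % p ∈ A p).card

/-- two forbidden classes -/
def Two (A : ℕ → Finset ℕ) (p : ℕ) : Prop := A p ⊆ range p ∧ (A p).card = 2

variable {A : ℕ → Finset ℕ} {B : Finset ℕ}

theorem per_chiA (p : ℕ) : Per p (chiA A p) := fun n => by simp only [chiA, Nat.mod_mod]

theorem chiA_eq {p : ℕ} (h : Two A p) : chiA A p = ∑ c ∈ A p, ind p c := by
  funext n
  rw [Finset.sum_apply]
  have : ∀ c ∈ A p, ind p c n = if n % p = c then 1 else 0 := fun c hc =>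
    if_congr (by rw [Nat.ModEq, Nat.mod_eq_of_lt (mem_range.1 (h.1 hc))]) rfl rfl
  rw [sum_congr rfl this, sum_ite_eq, chiA]

theorem av_chiA {p : ℕ} (hp : 0 < p) (h : Two A p) : av p (chiA A p) = 2 / p := by
  have h1 := av_sum p (A p) fun c => ind p c
  have h2 : chiA A p = fun n => ∑ c ∈ A p, ind p c n := by
    rw [chiA_eq h]; funext n; rw [Finset.sum_apply]
  rw [h2, h1, sum_congr rfl fun c _ => av_ind hp c, sum_const, h.2]
  simp [div_eq_mul_inv]

theorem wA_per (n : ℕ) : wA B A (n % ∏ p ∈ B, p) = wA B A n := by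
  unfold wA
  congr 1
  refine filter_congr fun p hp => ?_
  rw [Nat.mod_mod_of_dvd _ (dvd_prod_of_mem _ hp)]

theorem choose_wA (j n : ℕ) :
    ((wA B A n).choose j : ℝ) = ∑ D ∈ powersetCard j B, ∏ p ∈ D, chiA A p n := by
  rw [wA, ← card_powersetCard]
  have h1 : powersetCard j (B.filter fun p => n % p ∈ A p) =
      (powersetCard j B).filter fun D => ∀ p ∈ D, n % p ∈ A p := by
    ext D
    simp only [mem_powersetCard, mem_filter, subset_iff]
    exact ⟨fun h => ⟨⟨fun _ hy => (h.1 hy).1, h.2⟩, fun _ hy => (h.1 hy).2⟩,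
      fun h => ⟨fun y hy => ⟨h.1.1 hy, h.2 y hy⟩, h.1.2⟩⟩
  rw [h1, card_filter]
  push_cast
  refine sum_congr rfl fun D _ => ?_
  simp only [chiA]
  rw [prod_boole]

theorem av_chooseA (hB : ∀ p ∈ B, p.Prime ∧ Two A p) (j : ℕ) :
    av (∏ p ∈ B, p) (fun n => ((wA B A n).choose j : ℝ)) =
      ∑ D ∈ powersetCard j B, ∏ p ∈ D, (2 : ℝ) / p := by
  simp only [choose_wA]
  rw [av_sum]
  refine sum_congr rfl fun D hD => ?_
  have hDB := (mem_powersetCard.1 hD).1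
  have h1 := av_primes (fun p hp => (hB p hp).1)
    (fun p => if p ∈ D then chiA A p else fun _ => 1) fun p _ => by
      split_ifs
      · exact per_chiA p
      · exact fun _ => rfl
  have h2 : ∀ n, ∏ p ∈ B, (if p ∈ D then chiA A p else fun _ => 1) n = ∏ p ∈ D, chiA A p n := by
    intro n
    simp only [ite_apply]
    rw [prod_ite_mem, inter_eq_right.2 hDB]
  have h3 : ∏ p ∈ B, av p (if p ∈ D then chiA A p else fun _ => 1) = ∏ p ∈ D, (2 : ℝ) / p := by
    have : ∀ p ∈ B, av p (if p ∈ D then chiA A p else fun _ => 1) =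
        if p ∈ D then (2 : ℝ) / p else 1 := fun p hp => by
      split_ifs
      · exact av_chiA (hB p hp).1.pos (hB p hp).2
      · exact av_one (hB p hp).1.pos
    rw [prod_congr rfl this, prod_ite_mem, inter_eq_right.2 hDB]
  simp only [h2] at h1
  rw [h1, h3]

theorem av_XXA (hB : ∀ p ∈ B, p.Prime ∧ Two A p) :
    av (∏ p ∈ B, p) (fun n => XX (wA B A n)) = ∏ p ∈ B, (1 - (2 : ℝ) / p) := by
  have h1 := av_primes (fun p hp => (hB p hp).1) (fun p n => 1 - chiA A p n)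
    fun p _ n => by simp only [per_chiA p n]
  have h2 : ∀ n, ∏ p ∈ B, (1 - chiA A p n) = XX (wA B A n) := by
    intro n
    have : ∀ p ∈ B, 1 - chiA A p n = if n % p ∉ A p then 1 else 0 := fun p _ => by
      unfold chiA; split_ifs <;> simp_all
    rw [prod_congr rfl this, prod_boole, XX, wA]
    refine if_congr ?_ rfl rfl
    rw [card_eq_zero, filter_eq_empty_iff]
  simp only [h2] at h1
  rw [h1]
  refine prod_congr rfl fun p hp => ?_
  have h3 := av_add p (fun n => 1 - chiA A p n) (chiA A p)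
  simp only [sub_add_cancel] at h3
  rw [av_one (hB p hp).1.pos, av_chiA (hB p hp).1.pos (hB p hp).2] at h3
  linarith

variable {N x : ℕ}

theorem mult_choose_wA (hB : ∀ p ∈ B, Two A p ∧ p ∣ N) (j : ℕ) :
    Mult N x (fun n => ((wA B A n).choose j : ℝ)) (((B.card : ℝ) * 2) ^ j) := by
  have h0 : (fun n => ((wA B A n).choose j : ℝ)) =
      ∑ D ∈ powersetCard j B, ∏ p ∈ D, chiA A p := by
    funext n
    rw [choose_wA, Finset.sum_apply]
    exact sum_congr rfl fun D _ => (Finset.prod_apply _ _ _).symm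
  rw [h0]
  refine (Mult.sum _ _ (fun _ => (2 : ℝ) ^ j) fun D hD => ?_).mono ?_
  · have := Mult.prod (N := N) (x := x) D (fun p => chiA A p) (fun _ => 2) fun p hp => by
      have h1 := hB p ((mem_powersetCard.1 hD).1 hp)
      rw [chiA_eq h1.1]
      have := Mult.sum (N := N) (x := x) (A p) (fun c => ind p c) (fun _ => 1) fun c _ =>
        Mult.atom (Or.inr ⟨p, c, h1.2, rfl⟩)
      simpa [h1.1.2] using this
    rwa [prod_const, (mem_powersetCard.1 hD).2] at this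
  · rw [sum_const, card_powersetCard, nsmul_eq_mul, mul_pow]
    refine mul_le_mul_of_nonneg_right ?_ (by positivity)
    exact_mod_cast Nat.choose_le_pow _ _

theorem mult_UUA (hB : ∀ p ∈ B, Two A p ∧ p ∣ N) (h : ℕ) (G : ℝ) (hG1 : 1 ≤ G)
    (hG : (B.card : ℝ) * 2 ≤ G) :
    Mult N x (fun n => UU h (wA B A n)) ((2 * G) ^ (h + 1)) := by
  have h1 : (fun n => UU h (wA B A n)) = ∑ j ∈ range (h + 1),
      ((-1 : ℝ) ^ j) • fun n => ((wA B A n).choose j : ℝ) := by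
    funext n
    simp only [UU, Finset.sum_apply, Pi.smul_apply, smul_eq_mul]
  rw [h1]
  refine (Mult.sum _ _ _ fun j _ => (mult_choose_wA hB j).smul _).mono ?_
  have h2 := sum_le_card_nsmul (range (h + 1))
    (fun j => |(-1 : ℝ) ^ j| * ((B.card : ℝ) * 2) ^ j) (G ^ (h + 1)) (fun j hj => by
      rw [abs_neg_one_pow, one_mul]
      exact (pow_le_pow_left₀ (by positivity) hG j).trans
        (pow_le_pow_right₀ hG1 (mem_range.1 hj).le))
  refine h2.trans ?_
  rw [card_range, nsmul_eq_mul, mul_pow]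
  refine mul_le_mul_of_nonneg_right ?_ (by positivity)
  exact_mod_cast (Nat.lt_two_pow_self (n := h + 1)).le

open scoped Classical in
theorem sieveA (A : ℕ → Finset ℕ) (I : Finset ℕ) (B : ℕ → Finset ℕ) (h : ℕ → ℕ) (δ G : ℕ → ℝ)
    (M a x : ℕ) (hM : 0 < M) (hB : ∀ i ∈ I, ∀ p ∈ B i, p.Prime ∧ 4 < p ∧ ¬ p ∣ M ∧ Two A p)
    (hd : ∀ i ∈ I, ∀ j ∈ I, i ≠ j → Disjoint (B i) (B j)) (he : ∀ i ∈ I, Even (h i))
    (hδ : ∀ i ∈ I, Real.exp (5 * ∑ p ∈ B i, (2 : ℝ) / p - (h i + 1)) ≤ δ i)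
    (hδs : ∑ i ∈ I, δ i ≤ 1 / 2) (hG1 : ∀ i ∈ I, 1 ≤ G i)
    (hG : ∀ i ∈ I, ((B i).card : ℝ) * 2 ≤ G i) :
      x / M * (∏ i ∈ I, ∏ p ∈ B i, (1 - (2 : ℝ) / p)) / 2 -
        (1 + I.card) * ∏ i ∈ I, (2 * G i) ^ (h i + 1) ≤
        (((range x).filter fun n => n ≡ a [MOD M] ∧ ∀ i ∈ I, ∀ p ∈ B i, n % p ∉ A p).card : ℝ) := by
  set q : ℕ → ℕ := fun i => ∏ p ∈ B i, p with hq
  set N := M * ∏ i ∈ I, q i with hN
  have hq0 : ∀ i ∈ I, 0 < q i := fun i hi => prod_pos fun p hp => (hB i hi p hp).1.pos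
  have hQ0 : 0 < ∏ i ∈ I, q i := prod_pos hq0
  have hN0 : 0 < N := Nat.mul_pos hM hQ0
  have hco : ∀ i ∈ I, ∀ j ∈ I, i ≠ j → (q i).Coprime (q j) := fun i hi j hj hij =>
    Nat.Coprime.prod_left fun p hp => Nat.Coprime.prod_right fun r hr =>
      (Nat.coprime_primes (hB i hi p hp).1 (hB j hj r hr).1).2 fun hpr =>
        disjoint_left.1 (hd i hi j hj hij) hp (hpr ▸ hr)
  have hcoM : M.Coprime (∏ i ∈ I, q i) := Nat.Coprime.prod_right fun i hi =>
    Nat.Coprime.prod_right fun p hp =>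
      ((Nat.Prime.coprime_iff_not_dvd (hB i hi p hp).1).2 (hB i hi p hp).2.2.1).symm
  have hB1 : ∀ i ∈ I, ∀ p ∈ B i, p.Prime ∧ Two A p := fun i hi p hp =>
    ⟨(hB i hi p hp).1, (hB i hi p hp).2.2.2⟩
  have hB2 : ∀ i ∈ I, ∀ p ∈ B i, Two A p ∧ p ∣ N := fun i hi p hp =>
    ⟨(hB1 i hi p hp).2, ((dvd_prod_of_mem _ hp).trans (dvd_prod_of_mem q hi)).mul_left M⟩
  have hav : ∀ F : ℕ → ℕ → ℝ, av N (fun n => ind M a n * ∏ i ∈ I, F i (wA (B i) A n)) =
      1 / M * ∏ i ∈ I, av (q i) fun n => F i (wA (B i) A n) := by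
    intro F
    have hp : ∀ i ∈ I, Per (q i) fun n => F i (wA (B i) A n) := fun i _ n => by
      simp only [hq, wA_per]
    rw [hN, av_mul hcoM hM hQ0 (per_ind M a)
      (g := fun n => ∏ i ∈ I, F i (wA (B i) A n)) fun n => prod_congr rfl fun i hi =>
        (hp i hi).of_dvd (dvd_prod_of_mem _ hi) n, av_ind hM, av_prod I q _ hq0 hco hp]
  have hmu : ∀ (F : ℕ → ℕ → ℝ), (∀ i ∈ I, Mult N x (fun n => F i (wA (B i) A n))
      ((2 * G i) ^ (h i + 1))) →
      |∑ n ∈ range x, ind M a n * ∏ i ∈ I, F i (wA (B i) A n) -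
        x * (1 / M * ∏ i ∈ I, av (q i) fun n => F i (wA (B i) A n))| ≤
        ∏ i ∈ I, (2 * G i) ^ (h i + 1) := by
    intro F hF
    have h1 := (Mult.atom (x := x) (Or.inr ⟨M, a, Dvd.intro _ hN.symm, rfl⟩ : Atom N (ind M a))).mul
      (Mult.prod I _ _ hF)
    have h2 := Mult_abs hN0 h1
    rw [one_mul] at h2
    have h3 : (ind M a * ∏ i ∈ I, fun n => F i (wA (B i) A n)) =
        fun n => ind M a n * ∏ i ∈ I, F i (wA (B i) A n) := by
      funext n; simp [Finset.prod_apply]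
    rwa [h3, hav F] at h2
  set V : ℕ → ℝ := fun i => ∏ p ∈ B i, (1 - (2 : ℝ) / p) with hV
  set u : ℕ → ℝ := fun i => av (q i) fun n => UU (h i) (wA (B i) A n) with hu
  set c : ℕ → ℝ := fun i => av (q i) fun n => ((wA (B i) A n).choose (h i + 1) : ℝ) with hc
  have hKp : ∀ i ∈ I, ∀ p ∈ B i, 0 ≤ (2 : ℝ) / p ∧ (2 : ℝ) / p ≤ 1 / 2 := fun i hi p hp => by
    have h1 : (4 : ℝ) < p := by exact_mod_cast (hB i hi p hp).2.1
    exact ⟨by positivity, by rw [div_le_div_iff₀ (by linarith) (by norm_num)]; linarith⟩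
  have hV0 : ∀ i ∈ I, 0 ≤ V i := fun i hi => prod_nonneg fun p hp => by linarith [(hKp i hi p hp).2]
  have hδ0 : ∀ i ∈ I, 0 ≤ δ i := fun i hi => (Real.exp_pos _).le.trans (hδ i hi)
  have hcV : ∀ i ∈ I, c i ≤ δ i * V i := fun i hi => by
    have h1 := esymm_le (B := B i) (fun p => (2 : ℝ) / p) (fun p hp => (hKp i hi p hp).1) (h i + 1)
    have h2 := prod_ge_exp (B := B i) (fun p => (2 : ℝ) / p) (hKp i hi)
    simp only [hc, hq]
    rw [av_chooseA (hB1 i hi)]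
    refine h1.trans (le_trans (le_of_eq ?_)
      (mul_le_mul (hδ i hi) h2 (Real.exp_pos _).le (hδ0 i hi)))
    rw [← Real.exp_add]
    congr 1
    push_cast
    ring
  have hVu : ∀ i ∈ I, V i ≤ u i := fun i hi => by
    simp only [hV, hu, hq]
    rw [← av_XXA (hB1 i hi)]
    exact av_mono fun n => (UU_bounds (he i hi) _).1
  have huV : ∀ i ∈ I, u i ≤ V i + c i := fun i hi => by
    simp only [hV, hu, hc, hq]
    rw [← av_XXA (hB1 i hi), ← av_add]
    exact av_mono fun n => (UU_bounds (he i hi) _).2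
  have hcard : (((range x).filter fun n => n ≡ a [MOD M] ∧ ∀ i ∈ I, ∀ p ∈ B i, n % p ∉ A p).card : ℝ) =
      ∑ n ∈ range x, ind M a n * ∏ i ∈ I, XX (wA (B i) A n) := by
    rw [card_filter]
    push_cast
    refine sum_congr rfl fun n _ => ?_
    simp only [XX, ind]
    rw [prod_boole, ite_zero_mul_ite_zero, one_mul]
    refine if_congr (and_congr_right fun _ => forall₂_congr fun i _ => ?_) rfl rfl
    rw [wA, card_eq_zero, filter_eq_empty_iff]
  have hind : ∀ n, 0 ≤ ind M a n := fun n => by unfold ind; split_ifs <;> norm_num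
  have hU := hmu (fun i w => UU (h i) w) fun i hi => mult_UUA (hB2 i hi) _ _ (hG1 i hi) (hG i hi)
  have hxM : (0 : ℝ) ≤ x / M := by positivity
  have hu0 : ∀ i ∈ I, 0 ≤ u i := fun i hi => (hV0 i hi).trans (hVu i hi)
  rw [hcard]
  set E := ∏ i ∈ I, (2 * G i) ^ (h i + 1) with hE
  have h1 : ∀ l ∈ I, ∑ n ∈ range x, ind M a n * (((wA (B l) A n).choose (h l + 1) : ℝ) *
      ∏ i ∈ I.erase l, UU (h i) (wA (B i) A n)) ≤ x / M * (δ l * ∏ i ∈ I, u i) + E := by
    intro l hl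
    have h2 := hmu (fun i w => if i = l then (w.choose (h l + 1) : ℝ) else UU (h i) w)
      fun i hi => by
        split_ifs with hil
        · subst hil
          refine (mult_choose_wA (hB2 i hi) _).mono (pow_le_pow_left₀ (by positivity) ?_ _)
          linarith [hG i hi, hG1 i hi]
        · exact mult_UUA (hB2 i hi) _ _ (hG1 i hi) (hG i hi)
    simp only [← mul_prod_erase I _ hl, if_true] at h2
    have h3 : ∀ n, ∏ i ∈ I.erase l, (if i = l then ((wA (B i) A n).choose (h l + 1) : ℝ)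
        else UU (h i) (wA (B i) A n)) = ∏ i ∈ I.erase l, UU (h i) (wA (B i) A n) :=
      fun n => prod_congr rfl fun i hi => if_neg (ne_of_mem_erase hi)
    have h4 : ∏ i ∈ I.erase l, av (q i) (fun n => if i = l then
        ((wA (B i) A n).choose (h l + 1) : ℝ) else UU (h i) (wA (B i) A n)) =
        ∏ i ∈ I.erase l, u i := prod_congr rfl fun i hi => by
      simp only [if_neg (ne_of_mem_erase hi), hu]
    simp only [h3, h4] at h2
    have h5 := (abs_le.1 h2).2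
    have h6 : c l * ∏ i ∈ I.erase l, u i ≤ δ l * ∏ i ∈ I, u i := by
      rw [← mul_prod_erase I _ hl, ← mul_assoc]
      exact mul_le_mul_of_nonneg_right ((hcV l hl).trans
        (mul_le_mul_of_nonneg_left (hVu l hl) (hδ0 l hl)))
        (prod_nonneg fun i hi => hu0 i (mem_of_mem_erase hi))
    have h7 := mul_le_mul_of_nonneg_left h6 hxM
    have h8 : (x : ℝ) * (1 / M * (c l * ∏ i ∈ I.erase l, u i)) =
        x / M * (c l * ∏ i ∈ I.erase l, u i) := by ring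
    have h9 : E = (2 * G l) ^ (h l + 1) * ∏ i ∈ I.erase l, (2 * G i) ^ (h i + 1) :=
      (mul_prod_erase I _ hl).symm
    simp only [hc] at h7 h8
    linarith
  have h2 := sum_le_sum h1
  rw [sum_comm, sum_add_distrib, ← mul_sum, ← sum_mul, sum_const, nsmul_eq_mul] at h2
  have h3 : ∑ n ∈ range x, (ind M a n * ∏ i ∈ I, UU (h i) (wA (B i) A n) -
      ∑ l ∈ I, ind M a n * (((wA (B l) A n).choose (h l + 1) : ℝ) *
      ∏ i ∈ I.erase l, UU (h i) (wA (B i) A n))) ≤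
      ∑ n ∈ range x, ind M a n * ∏ i ∈ I, XX (wA (B i) A n) := by
    refine sum_le_sum fun n _ => ?_
    rw [← mul_sum, ← mul_sub]
    exact mul_le_mul_of_nonneg_left (prod_lower I _ _ _ (fun i _ => XX_nonneg _)
      (fun i hi => (UU_bounds (he i hi) _).1) fun i hi => (UU_bounds (he i hi) _).2) (hind n)
  rw [sum_sub_distrib] at h3
  have h4 := (abs_le.1 hU).1
  simp only [← hu] at h4
  have h5 : (x : ℝ) * (1 / M * ∏ i ∈ I, u i) = x / M * ∏ i ∈ I, u i := by ring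
  have h6 : ∏ i ∈ I, V i ≤ ∏ i ∈ I, u i := prod_le_prod hV0 hVu
  have h7 := mul_le_mul_of_nonneg_left h6 hxM
  have h8 := mul_le_mul_of_nonneg_left
    (mul_le_mul_of_nonneg_right hδs (prod_nonneg hu0)) hxM
  linarith

end Pool.Agent.MP_c6d393_nt.R

end
end

section

set_option autoImplicit false

open Finset

namespace Pool.Agent.MP_c6d393_nt.R

open MP_cebb75_nt MP_cebb75_nt.X

theorem exists_two {p : ℕ} (hp : p.Prime) (m n : ℕ) :
    ∃ A : Finset ℕ, (A ⊆ range p ∧ A.card = 2) ∧ ∀ t, p ∣ (n + t) ^ 2 + m → t % p ∈ A := by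
  have hc := card_le_of_label ((range p).filter fun t => p ∣ (n + t) ^ 2 + m)
    (univ : Finset Bool) (fun t l => l = true ↔ 2 * ((n + t) % p) < p)
    (fun t _ => ⟨decide (2 * ((n + t) % p) < p), mem_univ _, by simp⟩) ?_
  · obtain ⟨A, h1, h2, h3⟩ := exists_subsuperset_card_eq (n := 2)
      (filter_subset (fun t => p ∣ (n + t) ^ 2 + m) (range p)) (by simpa using hc)
      (by simpa using hp.two_le)
    refine ⟨A, ⟨h2, h3⟩, fun t ht => h1 (mem_filter.2 ⟨mem_range.2 (Nat.mod_lt _ hp.pos), ?_⟩)⟩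
    have : (n + t % p) ^ 2 + m ≡ (n + t) ^ 2 + m [MOD p] :=
      (((Nat.mod_modEq t p).add_left n).pow 2).add_right m
    exact (this.dvd_iff dvd_rfl).2 ht
  · intro l _ s hs t ht e1 e2
    obtain ⟨s1, s2⟩ := mem_filter.1 hs
    obtain ⟨t1, t2⟩ := mem_filter.1 ht
    rw [mem_range] at s1 t1
    have d2 : (p : ℤ) ∣ (((n + s : ℕ) : ℤ) - (n + t : ℕ)) * (((n + s : ℕ) : ℤ) + (n + t : ℕ)) := by
      have : (p : ℤ) ∣ (((n + s) ^ 2 + m : ℕ) : ℤ) - (((n + t) ^ 2 + m : ℕ) : ℤ) :=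
        dvd_sub (Int.natCast_dvd_natCast.2 s2) (Int.natCast_dvd_natCast.2 t2)
      refine this.trans (dvd_of_eq ?_)
      push_cast; ring
    have d3 : n + s ≡ n + t [MOD p] := by
      rcases (Nat.prime_iff_prime_int.1 hp).dvd_or_dvd d2 with h | h
      · exact ((Nat.modEq_iff_dvd).2 h).symm
      · have h7 : p ∣ (n + s) + (n + t) := by exact_mod_cast h
        have h8 : p ∣ (n + s) % p + (n + t) % p := by
          rw [Nat.dvd_iff_mod_eq_zero] at h7 ⊢
          rwa [← Nat.add_mod]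
        have h9 := Nat.mod_lt (n + s) hp.pos
        have h10 := Nat.mod_lt (n + t) hp.pos
        obtain ⟨c, hc⟩ := h8
        have h11 : c < 2 := Nat.lt_of_mul_lt_mul_left (a := p) (by omega)
        have h12 := e1.symm.trans e2
        unfold Nat.ModEq
        interval_cases c <;> omega
    exact Nat.ModEq.eq_of_lt_of_lt (Nat.ModEq.add_left_cancel' n d3) s1 t1

theorem sum_le_prod (P : Finset ℕ) : 1 + ∑ p ∈ P, 1 / (p : ℝ) ≤ ∏ p ∈ P, (1 + 1 / (p : ℝ)) := by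
  induction P using Finset.induction_on with
  | empty => simp
  | insert a s ha ih =>
    rw [sum_insert ha, prod_insert ha]
    have h1 : 0 ≤ ∑ p ∈ s, 1 / (p : ℝ) := sum_nonneg fun p _ => by positivity
    have h2 : 0 ≤ 1 / (a : ℝ) := by positivity
    nlinarith [mul_le_mul_of_nonneg_left ih (add_nonneg zero_le_one h2), mul_nonneg h1 h2]

theorem sum_geo (a : ℝ) (J : ℕ) :
    ∑ i ∈ range J, (a + 2 * i) / 2 ^ i = 2 * a + 4 - (2 * a + 4 * J + 4) / 2 ^ J := by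
  induction J with
  | zero => simp
  | succ J ih => rw [sum_range_succ, ih]; push_cast; field_simp; ring

theorem one_lt_log {p : ℕ} (h : 4 < p) : 1 < Real.log p := by
  have h1 : (4 : ℝ) < p := by exact_mod_cast h
  rw [Real.lt_log_iff_exp_lt (by linarith)]
  linarith [Real.exp_one_lt_d9]

theorem dens_lower {z : ℕ} (hz : 4 < z) :
    Real.exp (-2) / (315 * Real.log z) ^ 2 ≤
      ∏ p ∈ (Ioc 4 z).filter Nat.Prime, (1 - (2 : ℝ) / p) := by
  set P := (Ioc 4 z).filter Nat.Prime with hP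
  have hm : ∀ p ∈ P, p.Prime ∧ 4 < p ∧ p ≤ z := fun p hp => by
    obtain ⟨h1, h2⟩ := mem_filter.1 hp
    exact ⟨h2, mem_Ioc.1 h1⟩
  have hr : ∀ p ∈ P, (4 : ℝ) < p := fun p hp => by exact_mod_cast (hm p hp).2.1
  have hl := one_lt_log hz
  have h1 := prodP z (by omega) 1 one_pos hl.le P
    fun p hp => ⟨(hm p hp).1, (hm p hp).2.2, one_lt_log (hm p hp).2.1⟩
  rw [div_one] at h1
  have h2 := prod_ge_exp (B := P) (fun p => 4 * ((p : ℝ) ^ 2)⁻¹) fun p hp => by
    have := hr p hp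
    refine ⟨by positivity, ?_⟩
    rw [← div_eq_mul_inv, div_le_div_iff₀ (by positivity) (by norm_num)]
    nlinarith
  have h3 : ∑ p ∈ P, 4 * ((p : ℝ) ^ 2)⁻¹ ≤ 1 := by
    rw [← mul_sum]
    have h4 : ∑ p ∈ P, ((p : ℝ) ^ 2)⁻¹ ≤ ∑ p ∈ Ioc 4 z, ((p : ℝ) ^ 2)⁻¹ :=
      sum_le_sum_of_subset_of_nonneg (filter_subset _ _) fun p _ _ => by positivity
    have h5 := sum_Ioc_inv_sq_le_sub (α := ℝ) (k := 4) (n := z) (by norm_num) hz.le
    have h6 : (0 : ℝ) ≤ (z : ℝ)⁻¹ := by positivity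
    push_cast at h5
    linarith
  have h4 : ∏ p ∈ P, (1 - 4 * ((p : ℝ) ^ 2)⁻¹) ≤
      (∏ p ∈ P, (1 - (2 : ℝ) / p)) * (∏ p ∈ P, (1 + 1 / (p : ℝ))) ^ 2 := by
    rw [← prod_pow, ← prod_mul_distrib]
    refine prod_le_prod (fun p hp => ?_) fun p hp => ?_
    · have := hr p hp
      rw [sub_nonneg, ← div_eq_mul_inv, div_le_one (by positivity)]
      nlinarith
    · have := hr p hp
      have h5 : (1 - (2 : ℝ) / p) * (1 + 1 / (p : ℝ)) ^ 2 - (1 - 4 * ((p : ℝ) ^ 2)⁻¹) =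
          (p - 2) / p ^ 3 := by field_simp; ring
      have h6 : 0 ≤ ((p : ℝ) - 2) / p ^ 3 := div_nonneg (by linarith) (by positivity)
      linarith
  have h5 : 0 ≤ ∏ p ∈ P, (1 - (2 : ℝ) / p) := prod_nonneg fun p hp => by
    have := hr p hp
    rw [sub_nonneg, div_le_one (by positivity)]; linarith
  have h6 : (∏ p ∈ P, (1 + 1 / (p : ℝ))) ^ 2 ≤ (315 * Real.log z) ^ 2 :=
    pow_le_pow_left₀ (prod_nonneg fun p _ => by positivity) h1 2
  rw [div_le_iff₀ (by positivity)]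
  exact ((Real.exp_le_exp.2 (by linarith)).trans h2).trans
    (h4.trans (mul_le_mul_of_nonneg_left h6 h5))

open scoped Classical in
/-- Values of `n ^ 2 + m` without small prime factors, in every interval of length `z ^ 50445`. -/
theorem sift : ∃ c : ℝ, 0 < c ∧ ∃ z₀ : ℕ, ∀ z, z₀ ≤ z → ∀ m n : ℕ,
    c * (z : ℝ) ^ 50445 / (Real.log z) ^ 2 ≤ (((range (z ^ 50445)).filter fun t =>
      ∀ p : ℕ, p.Prime → p ≤ z → ¬ p ∣ (n + t) ^ 2 + m).card : ℝ) := by
  set c₀ : ℝ := Real.exp (-2) / 315 ^ 2 with hc₀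
  have hc₀0 : 0 < c₀ := by positivity
  refine ⟨c₀ / 24, by positivity, max 5 ⌈96 / c₀⌉₊, fun z hz m n => ?_⟩
  have hz4 : 4 < z := lt_of_lt_of_le (by norm_num) ((le_max_left _ _).trans hz)
  have hzc : 96 / c₀ ≤ z := (Nat.le_ceil _).trans (by exact_mod_cast (le_max_right _ _).trans hz)
  have hz0 : (4 : ℝ) < z := by exact_mod_cast hz4
  set l := Real.log z with hl
  have hl1 : 1 < l := one_lt_log hz4
  have hlz : l ≤ z := (Real.log_le_sub_one_of_pos (by linarith)).trans (by linarith)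
  have hA : ∀ p : ℕ, ∃ A : Finset ℕ, p.Prime →
      (A ⊆ range p ∧ A.card = 2) ∧ ∀ t, p ∣ (n + t) ^ 2 + m → t % p ∈ A := fun p => by
    by_cases hp : p.Prime
    · obtain ⟨A, h⟩ := exists_two hp m n
      exact ⟨A, fun _ => h⟩
    · exact ⟨∅, fun h => absurd h hp⟩
  choose A hA using hA
  set J := Nat.log 2 ⌈l⌉₊ + 1 with hJ
  have hJ1 : l < 2 ^ J := by
    have h1 : ((⌈l⌉₊ : ℕ) : ℝ) < ((2 ^ J : ℕ) : ℝ) :=
      Nat.cast_lt.2 (Nat.lt_pow_succ_log_self (by norm_num) _)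
    push_cast at h1
    exact (Nat.le_ceil l).trans_lt h1
  have hJ2 : (2 : ℝ) ^ J ≤ 4 * l := by
    have h1 : ((2 ^ Nat.log 2 ⌈l⌉₊ : ℕ) : ℝ) ≤ ((⌈l⌉₊ : ℕ) : ℝ) :=
      Nat.cast_le.2 (Nat.pow_log_le_self 2 (Nat.ceil_pos.2 (by linarith)).ne')
    push_cast at h1
    have h2 := Nat.ceil_lt_add_one (show 0 ≤ l by linarith)
    rw [hJ, pow_succ]
    linarith
  set P := (Ioc 4 z).filter Nat.Prime with hP
  have hm : ∀ p ∈ P, p.Prime ∧ 4 < p ∧ p ≤ z := fun p hp => by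
    obtain ⟨h1, h2⟩ := mem_filter.1 hp
    exact ⟨h2, mem_Ioc.1 h1⟩
  have hidx : ∀ p : ℕ, ∃ i, p ∈ P →
      i < J ∧ l / 2 ^ (i + 1) < Real.log p ∧ Real.log p ≤ l / 2 ^ i := fun p => by
    by_cases hp : p ∈ P
    · have h1 := one_lt_log (hm p hp).2.1
      have h2 : l / 2 ^ (Nat.log 2 ⌈l⌉₊ + 1) < Real.log p :=
        ((div_lt_one (by positivity)).2 hJ1).trans h1
      have hex : ∃ i : ℕ, l / 2 ^ (i + 1) < Real.log p := ⟨_, h2⟩
      refine ⟨Nat.find hex, fun _ => ⟨Nat.lt_succ_of_le (Nat.find_min' hex h2),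
        Nat.find_spec hex, ?_⟩⟩
      rcases h : Nat.find hex with _ | k
      · rw [pow_zero, div_one]
        exact Real.log_le_log (by exact_mod_cast (hm p hp).1.pos) (by exact_mod_cast (hm p hp).2.2)
      · exact not_lt.1 (Nat.find_min hex (by omega))
    · exact ⟨0, fun h => absurd h hp⟩
  choose ix hix using hidx
  set B : ℕ → Finset ℕ := fun i => P.filter fun p => ix p = i with hB
  have hBm : ∀ i, ∀ p ∈ B i, p ∈ P ∧ l / 2 ^ (i + 1) < Real.log p ∧ p ≤ ⌊Real.exp (l / 2 ^ i)⌋₊ :=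
    fun i p hp => by
      obtain ⟨h1, rfl⟩ := mem_filter.1 hp
      exact ⟨h1, (hix p h1).2.1, Nat.le_floor ((Real.log_le_iff_le_exp
        (by exact_mod_cast (hm p h1).1.pos)).1 (hix p h1).2.2)⟩
  have hsum : ∀ i, ∑ p ∈ B i, (2 : ℝ) / p ≤ 1260 := fun i => by
    rcases (B i).eq_empty_or_nonempty with h | ⟨q, hq⟩
    · rw [h]; simp
    obtain ⟨q1, q2, q3⟩ := hBm i q hq
    have q4 := (hm q q1).2.1
    have q5 : Real.log q ≤ Real.log (⌊Real.exp (l / 2 ^ i)⌋₊ : ℕ) :=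
      Real.log_le_log (by exact_mod_cast (hm q q1).1.pos) (by exact_mod_cast q3)
    have h1 := prodP ⌊Real.exp (l / 2 ^ i)⌋₊ (by omega) (l / 2 ^ (i + 1)) (by positivity)
      (q2.le.trans q5) (B i) fun p hp => ⟨(hm p (hBm i p hp).1).1, (hBm i p hp).2.2, (hBm i p hp).2.1⟩
    have h2 : Real.log (⌊Real.exp (l / 2 ^ i)⌋₊ : ℕ) ≤ l / 2 ^ i :=
      (Real.log_le_iff_le_exp (by exact_mod_cast (show 0 < ⌊Real.exp (l / 2 ^ i)⌋₊ by omega))).2
        (Nat.floor_le (Real.exp_pos _).le)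
    have h3 : 315 * Real.log (⌊Real.exp (l / 2 ^ i)⌋₊ : ℕ) / (l / 2 ^ (i + 1)) ≤ 630 := by
      rw [div_le_iff₀ (by positivity)]
      have : l / 2 ^ i = 2 * (l / 2 ^ (i + 1)) := by field_simp; ring
      linarith
    have h4 := sum_le_prod (B i)
    have h5 : ∑ p ∈ B i, (2 : ℝ) / p = 2 * ∑ p ∈ B i, 1 / (p : ℝ) := by
      rw [mul_sum]; exact sum_congr rfl fun p _ => by ring
    linarith
  have hs := sieveA A (range J) B (fun i => 2 * (3151 + i)) (fun i => 1 / 4 * (1 / 2) ^ i)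
    (fun i => 2 * Real.exp (l / 2 ^ i)) 6 (res 3 m + 5 * n) (z ^ 50445) (by norm_num)
    (fun i _ p hp => by
      obtain ⟨h1, h2, _⟩ := hm p (hBm i p hp).1
      refine ⟨h1, h2, fun h => ?_, (hA p h1).1⟩
      have := Nat.le_of_dvd (by norm_num) h
      interval_cases p
      · norm_num at h
      · norm_num at h1)
    (fun i _ j _ hij => disjoint_left.2 fun p h1 h2 =>
      hij ((mem_filter.1 h1).2.symm.trans (mem_filter.1 h2).2))
    (fun i _ => even_two_mul _)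
    (fun i _ => by
      have h1 := hsum i
      have h2 : Real.exp (-2) ≤ 1 / 2 := by
        rw [Real.exp_neg, inv_eq_one_div, div_le_div_iff₀ (Real.exp_pos _) (by norm_num)]
        linarith [Real.add_one_le_exp 2]
      have h3 : Real.exp (-3) ≤ 1 / 4 := by
        rw [Real.exp_neg, inv_eq_one_div, div_le_div_iff₀ (Real.exp_pos _) (by norm_num)]
        linarith [Real.add_one_le_exp 3]
      refine le_trans ?_ (mul_le_mul h3 (pow_le_pow_left₀ (Real.exp_pos _).le h2 i)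
        (by positivity) (by norm_num))
      rw [← Real.exp_nat_mul, ← Real.exp_add]
      refine Real.exp_le_exp.2 ?_
      push_cast
      linarith)
    (by
      rw [← mul_sum]
      have := sum_geometric_two_le J
      linarith)
    (fun i _ => by
      have := Real.one_le_exp (show 0 ≤ l / 2 ^ i by positivity)
      linarith)
    (fun i _ => by
      have h1 : (B i).card ≤ ⌊Real.exp (l / 2 ^ i)⌋₊ := by
        have := card_le_card (show B i ⊆ Icc 1 ⌊Real.exp (l / 2 ^ i)⌋₊ from fun p hp =>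
          mem_Icc.2 ⟨(hm p (hBm i p hp).1).1.one_le, (hBm i p hp).2.2⟩)
        simpa using this
      have h2 : ((B i).card : ℝ) ≤ Real.exp (l / 2 ^ i) :=
        (Nat.cast_le.2 h1).trans (Nat.floor_le (Real.exp_pos _).le)
      linarith)
  have hV : ∏ i ∈ range J, ∏ p ∈ B i, (1 - (2 : ℝ) / p) = ∏ p ∈ P, (1 - (2 : ℝ) / p) :=
    prod_fiberwise_of_maps_to (fun p hp => mem_range.2 (hix p hp).1) _
  have hV2 := dens_lower hz4
  have hE : ∏ i ∈ range J, (2 * (2 * Real.exp (l / 2 ^ i))) ^ (2 * (3151 + i) + 1) ≤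
      (z : ℝ) ^ 50440 := by
    calc _ ≤ ∏ i ∈ range J, Real.exp (4 * l * ((6303 + 2 * i) / 2 ^ i)) := by
          refine prod_le_prod (fun i _ => by positivity) fun i hi => ?_
          have h1 : (2 : ℝ) ^ (i + 1) ≤ 2 ^ J := pow_le_pow_right₀ (by norm_num) (mem_range.1 hi)
          have h2 : 1 / 2 ≤ l / 2 ^ i := by
            rw [div_le_div_iff₀ (by norm_num) (by positivity)]
            rw [pow_succ] at h1
            linarith
          have h3 : 2 * (2 * Real.exp (l / 2 ^ i)) ≤ Real.exp (4 * (l / 2 ^ i)) := by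
            have h4 : (4 : ℝ) ≤ Real.exp (3 * (l / 2 ^ i)) := by
              rw [← Real.log_le_iff_le_exp (by norm_num), show (4 : ℝ) = 2 ^ 2 by norm_num,
                Real.log_pow]
              push_cast
              linarith [Real.log_two_lt_d9]
            rw [show 4 * (l / 2 ^ i) = 3 * (l / 2 ^ i) + l / 2 ^ i by ring, Real.exp_add]
            nlinarith [Real.exp_pos (l / 2 ^ i)]
          refine (pow_le_pow_left₀ (by positivity) h3 _).trans (le_of_eq ?_)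
          rw [← Real.exp_nat_mul]
          congr 1
          push_cast
          ring
      _ = Real.exp (4 * l * ∑ i ∈ range J, (6303 + 2 * (i : ℝ)) / 2 ^ i) := by
          rw [mul_sum, Real.exp_sum]
      _ ≤ Real.exp ((50440 : ℕ) * l) := by
          refine Real.exp_le_exp.2 ?_
          rw [sum_geo]
          have : 0 ≤ (2 * 6303 + 4 * (J : ℝ) + 4) / 2 ^ J := by positivity
          push_cast
          nlinarith
      _ = _ := by rw [Real.exp_nat_mul, hl, Real.exp_log (by linarith)]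
  have hcard : (1 + ((range J).card : ℝ)) ≤ 4 * l := by
    rw [card_range]
    have : ((J + 1 : ℕ) : ℝ) ≤ ((2 ^ J : ℕ) : ℝ) := Nat.cast_le.2 Nat.lt_two_pow_self
    push_cast at this
    linarith
  have hsub : ((range (z ^ 50445)).filter fun t => t ≡ res 3 m + 5 * n [MOD 6] ∧
      ∀ i ∈ range J, ∀ p ∈ B i, t % p ∉ A p) ⊆ (range (z ^ 50445)).filter fun t =>
      ∀ p : ℕ, p.Prime → p ≤ z → ¬ p ∣ (n + t) ^ 2 + m := by
    intro t ht
    obtain ⟨h1, h2, h3⟩ := mem_filter.1 ht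
    refine mem_filter.2 ⟨h1, fun p hp hpz hd => ?_⟩
    by_cases h4 : 4 < p
    · have h5 : p ∈ P := mem_filter.2 ⟨mem_Ioc.2 ⟨h4, hpz⟩, hp⟩
      exact h3 (ix p) (mem_range.2 (hix p h5).1) p (mem_filter.2 ⟨h5, rfl⟩) ((hA p hp).2 t hd)
    · have h5 : p ≤ 3 := by
        have : p ≠ 4 := fun h => by rw [h] at hp; norm_num at hp
        omega
      refine not_dvd_of_res (z := 3) hp h5 ?_ hd
      have : Nat.factorial 3 = 6 := rfl
      rw [this]
      unfold Nat.ModEq at h2 ⊢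
      omega
  refine le_trans ?_ (hs.trans (Nat.cast_le.2 (card_le_card hsub)))
  rw [hV]
  have e1 : Real.exp (-2) / (315 * l) ^ 2 = c₀ / l ^ 2 := by rw [hc₀]; field_simp
  rw [e1] at hV2
  set Z : ℝ := (z : ℝ) ^ 50440 with hZ
  have hZ0 : 0 < Z := by positivity
  have e2 : (z : ℝ) ^ 50445 = Z * (z : ℝ) ^ 5 := by rw [hZ, ← pow_add]
  have h1 := mul_le_mul hcard hE (prod_nonneg fun i _ => by positivity) (by positivity)
  have h2 : 4 * l * Z ≤ c₀ / 24 * (Z * (z : ℝ) ^ 5) / l ^ 2 := by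
    rw [le_div_iff₀ (by positivity)]
    rw [div_le_iff₀ hc₀0] at hzc
    have h3 : l ^ 3 ≤ (z : ℝ) ^ 4 :=
      (pow_le_pow_left₀ (by linarith) hlz 3).trans (pow_le_pow_right₀ (by linarith) (by norm_num))
    have h4 : 96 * l ^ 3 ≤ (z * c₀) * (z : ℝ) ^ 4 := mul_le_mul hzc h3 (by positivity) (by positivity)
    nlinarith [mul_le_mul_of_nonneg_left h4 hZ0.le]
  have h3 := mul_le_mul_of_nonneg_left hV2 (show 0 ≤ Z * (z : ℝ) ^ 5 / 6 by positivity)
  have e3 : Z * (z : ℝ) ^ 5 / 6 * (c₀ / l ^ 2) = 4 * (c₀ / 24 * (Z * (z : ℝ) ^ 5) / l ^ 2) := by ring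
  push_cast
  rw [e2]
  linarith

end Pool.Agent.MP_c6d393_nt.R

end

section

set_option autoImplicit false

open Finset Filter

namespace Pool.Agent.MP_c6d393_nt.R

variable {f : ℕ → ℕ}

theorem sum_eighth {y : ℕ} (hy : 1 ≤ y) (Z : ℕ) :
    ∑ n ∈ Ioc y Z, ((n : ℝ) ^ (9 / 8 : ℝ))⁻¹ ≤ 8 * ((y : ℝ) ^ (1 / 8 : ℝ))⁻¹ := by
  have key : ∀ k : ℕ, ∑ n ∈ Ioc y (y + k), ((n : ℝ) ^ (9 / 8 : ℝ))⁻¹ ≤
      8 * (((y : ℝ) ^ (1 / 8 : ℝ))⁻¹ - (((y + k : ℕ) : ℝ) ^ (1 / 8 : ℝ))⁻¹) := by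
    intro k
    induction k with
    | zero => simp
    | succ k ih =>
      rw [← add_assoc, sum_Ioc_succ_top (by omega)]
      set u := y + k with hu
      have hu0 : (0 : ℝ) < u := by exact_mod_cast (show 0 < u by omega)
      set a : ℝ := ((u + 1 : ℕ) : ℝ) ^ (1 / 8 : ℝ) with ha
      set b : ℝ := (u : ℝ) ^ (1 / 8 : ℝ) with hb
      have a8 : a ^ 8 = ((u + 1 : ℕ) : ℝ) := by
        rw [ha, ← Real.rpow_natCast, ← Real.rpow_mul (by positivity)]; norm_num
      have a9 : ((u + 1 : ℕ) : ℝ) ^ (9 / 8 : ℝ) = a ^ 9 := by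
        rw [ha, ← Real.rpow_natCast, ← Real.rpow_mul (by positivity)]; norm_num
      have b8 : b ^ 8 = u := by
        rw [hb, ← Real.rpow_natCast, ← Real.rpow_mul (by positivity)]; norm_num
      have a0 : 0 < a := by positivity
      have b0 : 0 < b := by positivity
      have ab : b ≤ a := Real.rpow_le_rpow (by positivity) (by push_cast; linarith) (by norm_num)
      have h1 : a ^ 8 - b ^ 8 = 1 := by rw [a8, b8]; push_cast; ring
      have h2 := abs_pow_sub_pow_le a b 8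
      rw [h1, abs_one, abs_of_nonneg (sub_nonneg.2 ab), abs_of_pos a0, abs_of_pos b0,
        max_eq_left ab] at h2
      have h3 : (a ^ 9)⁻¹ ≤ 8 * (b⁻¹ - a⁻¹) := by
        have e : 8 * (b⁻¹ - a⁻¹) = (a - b) * 8 * a ^ 7 / (a ^ 8 * b) := by field_simp
        rw [e, inv_eq_one_div]
        refine div_le_div₀ (by positivity) (by simpa using h2) (by positivity) ?_
        rw [pow_succ a 8]
        exact mul_le_mul_of_nonneg_left ab (by positivity)
      rw [a9]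
      linarith
  rcases le_or_gt y Z with h | h
  · obtain ⟨k, rfl⟩ := Nat.exists_eq_add_of_le h
    have h1 := key k
    have h2 : 0 ≤ (((y + k : ℕ) : ℝ) ^ (1 / 8 : ℝ))⁻¹ := by positivity
    linarith
  · rw [Ioc_eq_empty (by omega), sum_empty]; positivity

open scoped Classical in
theorem tail (hf : Path f) (h0 : f 0 = 0) {z s : ℕ} (hz : 2 ≤ z) (hs : 1 ≤ s) :
    (((range (s ^ 2)).filter fun n => n ≠ 0 ∧ ∃ p : ℕ, p.Prime ∧ z < p ∧
      p ^ 3 ∣ n ^ 2 + f n).card : ℝ) ≤ 338 * (s : ℝ) ^ 2 * ((z : ℝ) ^ (1 / 8 : ℝ))⁻¹ +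
        14 * ((z : ℝ) ^ 4 * s) * Nat.primeCounting (z ^ 4 * s) := by
  set v := z ^ 4 with hv
  have hv1 : 1 ≤ v := Nat.one_le_pow _ _ (by omega)
  have hz1 : (1 : ℝ) ≤ z := by exact_mod_cast (show 1 ≤ z by omega)
  have hs1 : (1 : ℝ) ≤ s := by exact_mod_cast hs
  set P1 := (Ioc z (s / v)).filter Nat.Prime with hP1
  set P2 := (Nat.primesLE (v * s)).filter fun p => z < p ∧ s < p * v with hP2
  set P3 := Ioc (v * s) (2 * (s ^ 2) ^ 2) with hP3
  set H : ℕ → Finset ℕ := fun p => (range (s ^ 2)).filter fun n => p ^ 3 ∣ n ^ 2 + f n with hH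
  set H' : ℕ → Finset ℕ := fun p => (range (s ^ 2)).filter fun n => n ≠ 0 ∧ p ^ 3 ∣ n ^ 2 + f n
    with hH'
  have hsub : ((range (s ^ 2)).filter fun n => n ≠ 0 ∧ ∃ p : ℕ, p.Prime ∧ z < p ∧
      p ^ 3 ∣ n ^ 2 + f n) ⊆ P1.biUnion H ∪ P2.biUnion H ∪ P3.biUnion H' := by
    intro n hn
    obtain ⟨h1, h2, p, hp, h3, h4⟩ := mem_filter.1 hn
    simp only [mem_union, mem_biUnion]
    by_cases c1 : p * v ≤ s
    · exact Or.inl (Or.inl ⟨p, mem_filter.2 ⟨mem_Ioc.2 ⟨h3, (Nat.le_div_iff_mul_le hv1).2 c1⟩, hp⟩,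
        mem_filter.2 ⟨h1, h4⟩⟩)
    by_cases c2 : p ≤ v * s
    · exact Or.inl (Or.inr ⟨p, mem_filter.2 ⟨Nat.mem_primesLE.2 ⟨c2, hp⟩, h3, by omega⟩,
        mem_filter.2 ⟨h1, h4⟩⟩)
    · refine Or.inr ⟨p, mem_Ioc.2 ⟨by omega, ?_⟩, mem_filter.2 ⟨h1, h2, h4⟩⟩
      obtain ⟨i, hi, e⟩ := hf.step 0 n
      rw [zero_add, h0, zero_add] at e
      have h5 := Nat.le_of_dvd (Nat.add_pos_left (pow_pos (Nat.pos_of_ne_zero h2) 2) _)
        ((dvd_pow_self p (by norm_num)).trans h4)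
      have h6 := mem_range.1 h1
      nlinarith
  have hc : ((range (s ^ 2)).filter fun n => n ≠ 0 ∧ ∃ p : ℕ, p.Prime ∧ z < p ∧
      p ^ 3 ∣ n ^ 2 + f n).card ≤
      ∑ p ∈ P1, (H p).card + ∑ p ∈ P2, (H p).card + ∑ p ∈ P3, (H' p).card :=
    (card_le_card hsub).trans ((card_union_le _ _).trans (Nat.add_le_add
      ((card_union_le _ _).trans (Nat.add_le_add card_biUnion_le card_biUnion_le)) card_biUnion_le))
  have hzz : (z : ℝ)⁻¹ ≤ ((z : ℝ) ^ (1 / 8 : ℝ))⁻¹ := by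
    refine inv_anti₀ (by positivity) ?_
    conv_rhs => rw [← Real.rpow_one (z : ℝ)]
    exact Real.rpow_le_rpow_of_exponent_le hz1 (by norm_num)
  have b1 : ∑ p ∈ P1, ((H p).card : ℝ) ≤ 28 * (s : ℝ) ^ 2 * (12 * ((z : ℝ) ^ (1 / 8 : ℝ))⁻¹) := by
    refine (sum_le_sum fun p hp => hits_mid' (s := s) hf (mem_filter.1 hp).2 ?_ ?_).trans ?_
    · have := (mem_Ioc.1 (mem_filter.1 hp).1).1; omega
    · exact (mem_Ioc.1 (mem_filter.1 hp).1).2.trans (Nat.div_le_self _ _)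
    rw [← mul_sum, sum_add_distrib, ← sum_div]
    refine mul_le_mul_of_nonneg_left ?_ (by positivity)
    have a1 : ∑ p ∈ P1, ((p : ℝ) ^ (9 / 8 : ℝ))⁻¹ ≤ 8 * ((z : ℝ) ^ (1 / 8 : ℝ))⁻¹ :=
      (sum_le_sum_of_subset_of_nonneg (filter_subset _ _) fun p _ _ => by positivity).trans
        (sum_eighth (by omega) _)
    have a2 : ∑ p ∈ P1, (p : ℝ) ^ (1 / 4 : ℝ) / p ≤ 4 * ((s / v : ℕ) : ℝ) ^ (1 / 4 : ℝ) :=
      (sum_le_sum_of_subset_of_nonneg (fun p hp => mem_range.2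
        (Nat.lt_succ_of_le (mem_Ioc.1 (mem_filter.1 hp).1).2)) fun p _ _ => by positivity).trans
        (sum_quarter _)
    have a3 : ((s / v : ℕ) : ℝ) ^ (1 / 4 : ℝ) ≤ (s : ℝ) ^ (1 / 4 : ℝ) * (z : ℝ)⁻¹ := by
      refine (Real.rpow_le_rpow (by positivity) (cast_div_le' s v) (by norm_num)).trans
        (le_of_eq ?_)
      rw [Real.div_rpow (by positivity) (by positivity), hv, Nat.cast_pow, ← Real.rpow_natCast,
        ← Real.rpow_mul (by positivity), div_eq_mul_inv]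
      norm_num
    have a4 : (∑ p ∈ P1, (p : ℝ) ^ (1 / 4 : ℝ) / p) / (s : ℝ) ^ (1 / 4 : ℝ) ≤ 4 * (z : ℝ)⁻¹ := by
      rw [div_le_iff₀ (by positivity)]
      linarith
    linarith
  have b2 : ∑ p ∈ P2, ((H p).card : ℝ) ≤
      14 * ((z : ℝ) ^ 4 * s) * Nat.primeCounting (v * s) := by
    have a1 := sum_le_card_nsmul P2 (fun p => ((H p).card : ℝ)) (14 * ((v : ℝ) * s)) fun p hp => by
      obtain ⟨h1, h2, h3⟩ := mem_filter.1 hp
      obtain ⟨h4, h5⟩ := Nat.mem_primesLE.1 h1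
      exact hits_top hf h5 (by omega) hv1 hs h3 h4
    have a2 : (P2.card : ℝ) ≤ Nat.primeCounting (v * s) := by
      rw [← Nat.primesLE_card_eq_primeCounting]
      exact Nat.cast_le.2 (card_filter_le _ _)
    rw [nsmul_eq_mul, mul_comm] at a1
    have e : (v : ℝ) = (z : ℝ) ^ 4 := by rw [hv, Nat.cast_pow]
    rw [← e]
    exact a1.trans (mul_le_mul_of_nonneg_left a2 (by positivity))
  have b3 : ∑ p ∈ P3, ((H' p).card : ℝ) ≤ 2 * (s : ℝ) ^ 2 * ((z : ℝ) ^ (1 / 8 : ℝ))⁻¹ := by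
    have hvs : 0 < v * s := Nat.mul_pos hv1 hs
    have hvs' : (0 : ℝ) < ((v * s : ℕ) : ℝ) := by exact_mod_cast hvs
    have a1 : ∀ p ∈ P3, ((H' p).card : ℝ) ≤
        2 * ((s : ℝ) ^ 2) ^ 2 * ((v * s : ℕ) : ℝ)⁻¹ * ((p : ℝ) ^ 2)⁻¹ := fun p hp => by
      have h1 := (mem_Ioc.1 hp).1
      have h2 : ((v * s : ℕ) : ℝ) ≤ p := by exact_mod_cast h1.le
      have h3 : (0 : ℝ) < p := hvs'.trans_le h2
      refine (Nat.cast_le.2 (card_large hf h0 (pow_pos (by omega) 3) (s ^ 2))).trans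
        ((cast_div_le' _ _).trans ?_)
      have e : ((2 * (s ^ 2) ^ 2 : ℕ) : ℝ) / ((p ^ 3 : ℕ) : ℝ) =
          2 * ((s : ℝ) ^ 2) ^ 2 * (p : ℝ)⁻¹ * ((p : ℝ) ^ 2)⁻¹ := by push_cast; field_simp
      rw [e]
      gcongr
    refine (sum_le_sum a1).trans ?_
    rw [← mul_sum]
    refine (mul_le_mul_of_nonneg_left (sum_inv_sq _ _ hvs.ne') (by positivity)).trans ?_
    have e : 2 * ((s : ℝ) ^ 2) ^ 2 * ((v * s : ℕ) : ℝ)⁻¹ * ((v * s : ℕ) : ℝ)⁻¹ =
        2 * (s : ℝ) ^ 2 * ((z : ℝ) ^ 8)⁻¹ := by rw [hv]; push_cast; field_simp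
    rw [e]
    refine mul_le_mul_of_nonneg_left (le_trans (inv_anti₀ (by positivity) ?_) hzz) (by positivity)
    exact le_self_pow₀ hz1 (by norm_num)
  have hc' := (Nat.cast_le (α := ℝ)).2 hc
  push_cast at hc'
  linarith

open scoped Classical in
theorem rough (hf : Path f) {L : ℕ} (hL : 0 < L) (x : ℕ) (Q : ℕ → Prop) {d : ℝ} (hd : 0 ≤ d)
    (h : ∀ m n : ℕ, d ≤ (((range L).filter fun t => Q ((n + t) ^ 2 + m)).card : ℝ)) :
    (((x / L : ℕ) : ℝ) - f x) * d ≤ (((range x).filter fun n => Q (n ^ 2 + f n)).card : ℝ) := by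
  set C := (range (x / L)).filter fun k => ¬ f (k * L) ≠ f ((k + 1) * L) with hC
  have h1 := card_jump hf L (x / L)
  have h2 : f (x / L * L) ≤ f x := hf.mono (Nat.div_mul_le_self _ _)
  have h3 := card_filter_add_card_filter_not (s := range (x / L))
    (fun k => f (k * L) ≠ f ((k + 1) * L))
  rw [card_range, ← hC] at h3
  have h4 : ((x / L : ℕ) : ℝ) - f x ≤ C.card := by
    have : x / L ≤ C.card + f x := by omega
    have h5 := (Nat.cast_le (α := ℝ)).2 this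
    rw [Nat.cast_add] at h5
    linarith
  set T : ℕ → Finset ℕ := fun k => (range L).filter fun t => Q ((k * L + t) ^ 2 + f (k * L))
    with hT
  have hdiv : ∀ k t, t < L → (k * L + t) / L = k := fun k t ht => by
    rw [mul_comm k L, Nat.mul_add_div hL, Nat.div_eq_of_lt ht, add_zero]
  have h5 : (C.sigma T).card ≤ ((range x).filter fun n => Q (n ^ 2 + f n)).card := by
    refine card_le_card_of_injOn (fun a => a.1 * L + a.2) ?_ ?_
    · rintro ⟨k, t⟩ ha
      obtain ⟨a1, a2⟩ := mem_sigma.1 (mem_coe.1 ha)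
      obtain ⟨a3, a4⟩ := mem_filter.1 a1
      obtain ⟨a5, a6⟩ := mem_filter.1 a2
      rw [mem_range] at a3 a5
      simp only at a3 a4 a5 a6
      have a7 := const_block hf (n := k * L + t) hL (by rw [hdiv k t a5]; exact not_not.1 a4)
      rw [hdiv k t a5] at a7
      refine mem_coe.2 (mem_filter.2 ⟨mem_range.2 ?_, by simpa only [a7] using a6⟩)
      have a8 : (k + 1) * L ≤ x / L * L := Nat.mul_le_mul_right _ a3
      have a9 := Nat.div_mul_le_self x L
      rw [add_mul, one_mul] at a8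
      simp only
      omega
    · rintro ⟨k, t⟩ ha ⟨k', t'⟩ hb hab
      have a1 := mem_range.1 (mem_filter.1 (mem_sigma.1 (mem_coe.1 ha)).2).1
      have a2 := mem_range.1 (mem_filter.1 (mem_sigma.1 (mem_coe.1 hb)).2).1
      simp only at a1 a2 hab
      obtain rfl : k = k' := by rw [← hdiv k t a1, hab, hdiv k' t' a2]
      obtain rfl : t = t' := by omega
      rfl
  rw [card_sigma] at h5
  have h6 := card_nsmul_le_sum C (fun k => ((T k).card : ℝ)) d fun k _ => h _ _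
  rw [nsmul_eq_mul] at h6
  have h7 := (Nat.cast_le (α := ℝ)).2 h5
  push_cast at h7
  exact (mul_le_mul_of_nonneg_right h4 hd).trans (h6.trans h7)

theorem cheb : ∃ N : ℕ, ∀ n, N ≤ n → (Nat.primeCounting n : ℝ) * Real.log n ≤ 3 * n := by
  have h1 := tendsto_natCast_atTop_atTop.eventually
    (Chebyshev.eventually_primeCounting_le (ε := 1) one_pos)
  obtain ⟨N, hN⟩ := eventually_atTop.1 h1
  refine ⟨max N 2, fun n hn => ?_⟩
  have g1 := hN n ((le_max_left _ _).trans hn)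
  rw [Nat.floor_natCast] at g1
  have h2 : (2 : ℝ) ≤ n := by exact_mod_cast (le_max_right _ _).trans hn
  rw [le_div_iff₀ (Real.log_pos (by linarith))] at g1
  have h3 : Real.log 4 ≤ 2 := by
    rw [show (4 : ℝ) = 2 ^ 2 by norm_num, Real.log_pow]
    push_cast
    linarith [Real.log_two_lt_d9]
  nlinarith

open scoped Classical in
theorem main : ∃ c : ℝ, 0 < c ∧ ∃ z₀ x₀ : ℕ, 2 ≤ z₀ ∧ ∀ x z : ℕ, x₀ ≤ x → z₀ ≤ z →
    (z : ℝ) ^ 100890 ≤ Real.log x → c * x / (Real.log z) ^ 2 ≤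
      (((range x).filter fun n => ∀ p : ℕ, p.Prime → (p ≤ z → ¬ p ∣ n ^ 2 + Nat.primeCounting n) ∧
        ¬ p ^ 3 ∣ n ^ 2 + Nat.primeCounting n).card : ℝ) := by
  obtain ⟨c, hc, z₁, hz₁⟩ := sift
  obtain ⟨N, hN⟩ := cheb
  have hev : ∀ᶠ z : ℕ in atTop, 1024 * 1689 * 4 / c ≤ (z : ℝ) ^ (1 / 16 : ℝ) :=
    ((tendsto_rpow_atTop (by norm_num)).comp tendsto_natCast_atTop_atTop).eventually_ge_atTop _
  obtain ⟨z₂, hz₂⟩ := eventually_atTop.1 hev
  refine ⟨c / 4, by positivity, max (max z₁ z₂) 12, max (N ^ 2) 1,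
    le_trans (by norm_num) (le_max_right _ _), fun x z hx hz hzx => ?_⟩
  have z1 : z₁ ≤ z := (le_max_left _ _).trans ((le_max_left _ _).trans hz)
  have z2 := hz₂ z ((le_max_right _ _).trans ((le_max_left _ _).trans hz))
  have z3 : 12 ≤ z := (le_max_right _ _).trans hz
  have z4 : (12 : ℝ) ≤ z := by exact_mod_cast z3
  have x1 : 1 ≤ x := (le_max_right _ _).trans hx
  have x2 : N ^ 2 ≤ x := (le_max_left _ _).trans hx
  have x3 : (1 : ℝ) ≤ x := by exact_mod_cast x1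
  have hl1 : 1 < Real.log z := one_lt_log (by omega)
  have hlx : Real.log x ≤ x := (Real.log_le_sub_one_of_pos (by linarith)).trans (by linarith)
  obtain ⟨L, hL⟩ : ∃ L, L = z ^ 50445 := ⟨_, rfl⟩
  have hLr : (L : ℝ) = (z : ℝ) ^ 50445 := by rw [hL, Nat.cast_pow]
  have L1 : (z : ℝ) ^ 9 ≤ L := hLr ▸ pow_le_pow_right₀ (by linarith) (by norm_num)
  have L0 : (z : ℝ) ≤ (z : ℝ) ^ 9 := le_self_pow₀ (by linarith) (by norm_num)
  have L2 : (L : ℝ) ^ 2 ≤ Real.log x := by rwa [hLr, ← pow_mul]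
  have L3 : (12 : ℝ) ≤ L := by linarith
  have L4 : 0 < L := by exact_mod_cast (show (0 : ℝ) < L by linarith)
  have r1 := rough path_pi L4 x (fun v => ∀ p : ℕ, p.Prime → p ≤ z → ¬ p ∣ v)
    (d := c * L / Real.log z ^ 2) (by positivity) fun m n => by
      have := hz₁ z z1 m n
      rwa [← hLr, ← hL] at this
  have r2 : (x : ℝ) / 2 ≤ (((x / L : ℕ) : ℝ) - Nat.primeCounting x) * L := by
    have a1 : (x : ℝ) < ((x / L : ℕ) : ℝ) * L + L := by exact_mod_cast Nat.lt_div_mul_add L4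
    have a2 := hN x ((Nat.le_self_pow (by norm_num) N).trans x2)
    have a3 : (Nat.primeCounting x : ℝ) * L ^ 2 ≤ 3 * x :=
      (mul_le_mul_of_nonneg_left L2 (by positivity)).trans a2
    have a4 : (Nat.primeCounting x : ℝ) * L * 12 ≤ Nat.primeCounting x * L * L :=
      mul_le_mul_of_nonneg_left L3 (by positivity)
    have a5 : 12 * (L : ℝ) ≤ L * L := mul_le_mul_of_nonneg_right L3 (by positivity)
    linarith
  have r3 : c * x / Real.log z ^ 2 / 2 ≤
      (((x / L : ℕ) : ℝ) - Nat.primeCounting x) * (c * L / Real.log z ^ 2) := by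
    have := mul_le_mul_of_nonneg_right r2 (show 0 ≤ c / Real.log z ^ 2 by positivity)
    calc _ = (x : ℝ) / 2 * (c / Real.log z ^ 2) := by ring
      _ ≤ _ := this
      _ = _ := by ring
  obtain ⟨s, hs⟩ : ∃ s, s = Nat.sqrt x + 1 := ⟨_, rfl⟩
  have s1 : x < s ^ 2 := hs ▸ Nat.lt_succ_sqrt' x
  have s2 : 1 ≤ s := by omega
  have s3 : s ^ 2 ≤ 4 * x := by
    have a1 := Nat.sqrt_le' x
    have a2 : 0 < Nat.sqrt x := Nat.sqrt_pos.2 x1
    have a3 := Nat.le_self_pow two_ne_zero (Nat.sqrt x)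
    rw [hs, add_sq]; omega
  have s4 : N ≤ s := (Nat.pow_lt_pow_iff_left (n := 2) (by norm_num)).1 (x2.trans_lt s1) |>.le
  have s5 : (s : ℝ) ^ 2 ≤ 4 * x := by exact_mod_cast s3
  have s6 : (1 : ℝ) ≤ s := by exact_mod_cast s2
  have t1 := tail path_pi Nat.primeCounting_zero (z := z) (by omega) s2
  set y : ℝ := ((z : ℝ) ^ (1 / 8 : ℝ))⁻¹ with hy
  have y0 : 0 < y := by positivity
  have y1 : 1 ≤ z * y := by
    rw [hy, ← div_eq_mul_inv, one_le_div (by positivity)]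
    conv_rhs => rw [← Real.rpow_one (z : ℝ)]
    exact Real.rpow_le_rpow_of_exponent_le (by linarith) (by norm_num)
  have t2 : 14 * ((z : ℝ) ^ 4 * s) * Nat.primeCounting (z ^ 4 * s) ≤ 84 * (s : ℝ) ^ 2 * y := by
    have a0 : s ≤ z ^ 4 * s := Nat.le_mul_of_pos_left _ (pow_pos (by omega) 4)
    have a1 := hN (z ^ 4 * s) (s4.trans a0)
    have a2 : Real.log x ≤ 2 * Real.log (z ^ 4 * s : ℕ) := by
      have b1 : Real.log x ≤ Real.log ((s : ℝ) ^ 2) :=
        Real.log_le_log (by linarith) (by exact_mod_cast s1.le)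
      have b2 : Real.log s ≤ Real.log (z ^ 4 * s : ℕ) :=
        Real.log_le_log (by linarith) (by exact_mod_cast a0)
      rw [Real.log_pow] at b1
      push_cast at b1 b2 ⊢
      linarith
    have a3 : (z : ℝ) ^ 9 ≤ 2 * Real.log (z ^ 4 * s : ℕ) :=
      (L1.trans (le_self_pow₀ (by linarith) two_ne_zero)).trans (L2.trans a2)
    set Q : ℝ := ((Nat.primeCounting (z ^ 4 * s) : ℕ) : ℝ) with hQ
    have a4 : 0 ≤ Q := by positivity
    have a5 : Q * (z : ℝ) ^ 9 ≤ 6 * ((z : ℝ) ^ 4 * s) := by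
      have := mul_le_mul_of_nonneg_left a3 a4
      push_cast at a1 this
      linarith
    have a6 : Q * (z : ℝ) ^ 5 ≤ 6 * s := by
      refine le_of_mul_le_mul_right ?_ (show 0 < (z : ℝ) ^ 4 by positivity)
      linarith
    have a7 : Q * (z : ℝ) ^ 4 ≤ 6 * s * y :=
      calc Q * (z : ℝ) ^ 4 ≤ Q * (z : ℝ) ^ 4 * (z * y) := le_mul_of_one_le_right (by positivity) y1
        _ = Q * (z : ℝ) ^ 5 * y := by ring
        _ ≤ _ := mul_le_mul_of_nonneg_right a6 y0.le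
    linarith [mul_le_mul_of_nonneg_left a7 (show 0 ≤ 14 * (s : ℝ) by positivity)]
  have t3 : 1 ≤ x * y := y1.trans (mul_le_mul_of_nonneg_right
    ((L0.trans (L1.trans (le_self_pow₀ (by linarith) two_ne_zero))).trans (L2.trans hlx)) y0.le)
  have t4 : 1689 * (x * y) ≤ c * x / Real.log z ^ 2 / 4 := by
    have a1 := Real.log_le_rpow_div (show (0 : ℝ) ≤ z by linarith) (show (0 : ℝ) < 1 / 32 by norm_num)
    set u : ℝ := (z : ℝ) ^ (1 / 32 : ℝ) with hu
    have u0 : 0 < u := by positivity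
    have e1 : (z : ℝ) ^ (1 / 16 : ℝ) = u ^ 2 := by
      rw [hu, ← Real.rpow_natCast, ← Real.rpow_mul (by positivity)]; norm_num
    have e2 : y * u ^ 4 = 1 := by
      rw [hy, hu, ← Real.rpow_natCast, ← Real.rpow_mul (by positivity)]
      norm_num
      exact inv_mul_cancel₀ (by positivity)
    have a2 : Real.log z ^ 2 ≤ 1024 * u ^ 2 :=
      (pow_le_pow_left₀ (by linarith) a1 2).trans (le_of_eq (by ring))
    rw [e1, div_le_iff₀ hc] at z2
    have a3 : 4 * 1689 * y * Real.log z ^ 2 ≤ c :=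
      calc 4 * 1689 * y * Real.log z ^ 2 ≤ 4 * 1689 * y * (1024 * u ^ 2) :=
            mul_le_mul_of_nonneg_left a2 (by positivity)
        _ = (1024 * 1689 * 4) * (y * u ^ 2) := by ring
        _ ≤ (u ^ 2 * c) * (y * u ^ 2) := mul_le_mul_of_nonneg_right z2 (by positivity)
        _ = c * (y * u ^ 4) := by ring
        _ = c := by rw [e2, mul_one]
    rw [le_div_iff₀ (by norm_num), le_div_iff₀ (by positivity)]
    linarith [mul_le_mul_of_nonneg_right a3 (show (0 : ℝ) ≤ x by linarith)]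
  set R := (range x).filter fun n => ∀ p : ℕ, p.Prime → p ≤ z → ¬ p ∣ n ^ 2 + Nat.primeCounting n
    with hR
  set G := (range x).filter fun n => ∀ p : ℕ, p.Prime →
    (p ≤ z → ¬ p ∣ n ^ 2 + Nat.primeCounting n) ∧ ¬ p ^ 3 ∣ n ^ 2 + Nat.primeCounting n with hG
  set D := (range (s ^ 2)).filter fun n => n ≠ 0 ∧ ∃ p : ℕ, p.Prime ∧ z < p ∧
    p ^ 3 ∣ n ^ 2 + Nat.primeCounting n with hD
  have hsub : R ⊆ G ∪ D := by
    intro n hn
    obtain ⟨h1, h2⟩ := mem_filter.1 hn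
    by_cases h3 : ∃ p : ℕ, p.Prime ∧ p ^ 3 ∣ n ^ 2 + Nat.primeCounting n
    · obtain ⟨p, hp, h4⟩ := h3
      refine mem_union_right _ (mem_filter.2 ⟨mem_range.2 ((mem_range.1 h1).trans s1), ?_, p, hp,
        not_le.1 fun h => h2 p hp h ((dvd_pow_self p (by norm_num)).trans h4), h4⟩)
      rintro rfl
      exact h2 2 Nat.prime_two (by omega) (by simp)
    · exact mem_union_left _ (mem_filter.2 ⟨h1, fun p hp => ⟨h2 p hp, fun h => h3 ⟨p, hp, h⟩⟩⟩)
  have hcard := (Nat.cast_le (α := ℝ)).2 ((card_le_card hsub).trans (card_union_le _ _))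
  push_cast at hcard
  have t5 := mul_le_mul_of_nonneg_right s5 y0.le
  have e : c / 4 * x / Real.log z ^ 2 = c * x / Real.log z ^ 2 / 4 := by ring
  rw [e]
  have r4 := r3.trans r1
  linarith

end Pool.Agent.MP_c6d393_nt.R

end
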