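import Pool.Agent.Mg.Fc7a479.G6d35dc

set_option linter.all false

section

/-!
Means of periodic functions and one block of the sieve.
-/

set_option autoImplicit false

open Finset

noncomputable section

namespace Pool.Agent.MP_cebb75_nt.X

/-- periodicity -/
def Per (q : ℕ) (f : ℕ → ℝ) : Prop := ∀ n, f (n % q) = f n

theorem Per.of_dvd {q N : ℕ} {f : ℕ → ℝ} (h : Per q f) (hd : q ∣ N) : Per N f := fun n => by
  rw [← h (n % N), Nat.mod_mod_of_dvd _ hd, h]

theorem av_mul {p N : ℕ} (co : p.Coprime N) (hp : 0 < p) (hN : 0 < N) {f g : ℕ → ℝ}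
    (hf : Per p f) (hg : Per N g) : av (p * N) (fun n => f n * g n) = av p f * av N g := by
  have h := sum_crt co hp hN fun c m => f c * g m
  simp only [hf _, hg _] at h
  rw [av, h, av, av, ← sum_mul_sum, Nat.cast_mul, div_mul_div_comm]

theorem av_prod {ι : Type*} (s : Finset ι) (q : ι → ℕ) (f : ι → ℕ → ℝ) (hq : ∀ i ∈ s, 0 < q i)
    (co : ∀ i ∈ s, ∀ j ∈ s, i ≠ j → (q i).Coprime (q j)) (hf : ∀ i ∈ s, Per (q i) (f i)) :
    av (∏ i ∈ s, q i) (fun n => ∏ i ∈ s, f i n) = ∏ i ∈ s, av (q i) (f i) := by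
  classical
  induction s using Finset.induction_on with
  | empty => simp [av]
  | insert j s hj ih =>
    simp only [prod_insert hj]
    rw [av_mul (Nat.Coprime.prod_right fun i hi => co j (mem_insert_self _ _) i
        (mem_insert_of_mem hi) fun h => hj (h ▸ hi)) (hq j (mem_insert_self _ _))
      (prod_pos fun i hi => hq i (mem_insert_of_mem hi)) (hf j (mem_insert_self _ _))
      (g := fun n => ∏ i ∈ s, f i n) fun n => prod_congr rfl fun i hi =>
        (hf i (mem_insert_of_mem hi)).of_dvd (dvd_prod_of_mem _ hi) n,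
      ih (fun i hi => hq i (mem_insert_of_mem hi))
        (fun i hi k hk => co i (mem_insert_of_mem hi) k (mem_insert_of_mem hk))
        fun i hi => hf i (mem_insert_of_mem hi)]

theorem av_mono {N : ℕ} {f g : ℕ → ℝ} (h : ∀ n, f n ≤ g n) : av N f ≤ av N g :=
  div_le_div_of_nonneg_right (sum_le_sum fun n _ => h n) (by positivity)

theorem av_add (N : ℕ) (f g : ℕ → ℝ) : av N (fun n => f n + g n) = av N f + av N g := by
  simp [av, sum_add_distrib, add_div]

theorem av_sum {ι : Type*} (N : ℕ) (s : Finset ι) (f : ι → ℕ → ℝ) :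
    av N (fun n => ∑ i ∈ s, f i n) = ∑ i ∈ s, av N (f i) := by
  simp only [av]
  rw [sum_comm, sum_div]

theorem av_ind {d : ℕ} (hd : 0 < d) (a : ℕ) : av d (ind d a) = 1 / d := by
  rw [av, sum_ind d a d hd, Nat.div_self hd, Nat.mod_self, if_neg (by omega)]
  simp

theorem per_ind (d a : ℕ) : Per d (ind d a) := fun n =>
  if_congr (by rw [Nat.ModEq, Nat.ModEq, Nat.mod_mod]) rfl rfl

/-- indicator of the forbidden classes -/
def chi (K p n : ℕ) : ℝ := if n % p ∈ Icc 1 K then 1 else 0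

/-- number of primes of the block at which the class is forbidden -/
def ww (B : Finset ℕ) (K n : ℕ) : ℕ := (B.filter fun p => n % p ∈ Icc 1 K).card

theorem per_chi (K p : ℕ) : Per p (chi K p) := fun n => by simp only [chi, Nat.mod_mod]

theorem chi_eq {K p : ℕ} (h : K < p) : chi K p = ∑ c ∈ Icc 1 K, ind p c := by
  funext n
  rw [Finset.sum_apply]
  have : ∀ c ∈ Icc 1 K, ind p c n = if n % p = c then 1 else 0 := fun c hc =>
    if_congr (by
      rw [Nat.ModEq, Nat.mod_eq_of_lt (show c < p by have := mem_Icc.1 hc; omega)]) rfl rfl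
  rw [sum_congr rfl this, sum_ite_eq, chi]

theorem av_chi {K p : ℕ} (h : K < p) : av p (chi K p) = K / p := by
  have h1 := av_sum p (Icc 1 K) fun c => ind p c
  have h2 : chi K p = fun n => ∑ c ∈ Icc 1 K, ind p c n := by
    rw [chi_eq h]; funext n; rw [Finset.sum_apply]
  rw [h2, h1, sum_congr rfl fun c _ => av_ind (by omega) c]
  simp [div_eq_mul_inv]

theorem ww_per (B : Finset ℕ) (K n : ℕ) : ww B K (n % ∏ p ∈ B, p) = ww B K n := by
  unfold ww
  congr 1
  refine filter_congr fun p hp => ?_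
  rw [Nat.mod_mod_of_dvd _ (dvd_prod_of_mem _ hp)]

theorem choose_ww (B : Finset ℕ) (K j n : ℕ) :
    ((ww B K n).choose j : ℝ) = ∑ D ∈ powersetCard j B, ∏ p ∈ D, chi K p n := by
  rw [ww, ← card_powersetCard]
  have h1 : powersetCard j (B.filter fun p => n % p ∈ Icc 1 K) =
      (powersetCard j B).filter fun D => ∀ p ∈ D, n % p ∈ Icc 1 K := by
    ext D
    simp only [mem_powersetCard, mem_filter, subset_iff]
    exact ⟨fun h => ⟨⟨fun _ hy => (h.1 hy).1, h.2⟩, fun _ hy => (h.1 hy).2⟩,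
      fun h => ⟨fun y hy => ⟨h.1.1 hy, h.2 y hy⟩, h.1.2⟩⟩
  rw [h1, card_filter]
  push_cast
  refine sum_congr rfl fun D _ => ?_
  simp only [chi]
  rw [prod_boole]

variable {B : Finset ℕ} {K : ℕ}

theorem av_primes (hB : ∀ p ∈ B, p.Prime) (f : ℕ → ℕ → ℝ) (hf : ∀ p ∈ B, Per p (f p)) :
    av (∏ p ∈ B, p) (fun n => ∏ p ∈ B, f p n) = ∏ p ∈ B, av p (f p) :=
  av_prod B (fun p => p) f (fun p hp => (hB p hp).pos)
    (fun p hp q hq h => (Nat.coprime_primes (hB p hp) (hB q hq)).2 h) hf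

theorem av_one {p : ℕ} (hp : 0 < p) : av p (fun _ => 1) = 1 := by
  have : (p : ℝ) ≠ 0 := by positivity
  simp [av, this]

theorem av_choose (hB : ∀ p ∈ B, p.Prime ∧ K < p) (j : ℕ) :
    av (∏ p ∈ B, p) (fun n => ((ww B K n).choose j : ℝ)) =
      ∑ D ∈ powersetCard j B, ∏ p ∈ D, (K : ℝ) / p := by
  simp only [choose_ww]
  rw [av_sum]
  refine sum_congr rfl fun D hD => ?_
  have hDB := (mem_powersetCard.1 hD).1
  have h1 := av_primes (fun p hp => (hB p hp).1)
    (fun p => if p ∈ D then chi K p else fun _ => 1) fun p _ => by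
      split_ifs
      · exact per_chi K p
      · exact fun _ => rfl
  have h2 : ∀ n, ∏ p ∈ B, (if p ∈ D then chi K p else fun _ => 1) n = ∏ p ∈ D, chi K p n := by
    intro n
    simp only [ite_apply]
    rw [prod_ite_mem, inter_eq_right.2 hDB]
  have h3 : ∏ p ∈ B, av p (if p ∈ D then chi K p else fun _ => 1) = ∏ p ∈ D, (K : ℝ) / p := by
    have : ∀ p ∈ B, av p (if p ∈ D then chi K p else fun _ => 1) =
        if p ∈ D then (K : ℝ) / p else 1 := fun p hp => by
      split_ifs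
      · exact av_chi (hB p hp).2
      · exact av_one (hB p hp).1.pos
    rw [prod_congr rfl this, prod_ite_mem, inter_eq_right.2 hDB]
  simp only [h2] at h1
  rw [h1, h3]

/-- indicator of zero -/
def XX (w : ℕ) : ℝ := if w = 0 then 1 else 0

theorem av_XX (hB : ∀ p ∈ B, p.Prime ∧ K < p) :
    av (∏ p ∈ B, p) (fun n => XX (ww B K n)) = ∏ p ∈ B, (1 - (K : ℝ) / p) := by
  have h1 := av_primes (fun p hp => (hB p hp).1) (fun p n => 1 - chi K p n)
    fun p _ n => by simp only [per_chi K p n]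
  have h2 : ∀ n, ∏ p ∈ B, (1 - chi K p n) = XX (ww B K n) := by
    intro n
    have : ∀ p ∈ B, 1 - chi K p n = if n % p ∉ Icc 1 K then 1 else 0 := fun p _ => by
      unfold chi; split_ifs <;> simp_all
    rw [prod_congr rfl this, prod_boole, XX, ww]
    refine if_congr ?_ rfl rfl
    rw [card_eq_zero, filter_eq_empty_iff]
  simp only [h2] at h1
  rw [h1]
  refine prod_congr rfl fun p hp => ?_
  have h3 := av_add p (fun n => 1 - chi K p n) (chi K p)
  simp only [sub_add_cancel] at h3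
  rw [av_one (hB p hp).1.pos, av_chi (hB p hp).2] at h3
  linarith

/-- truncated inclusion and exclusion -/
def UU (h w : ℕ) : ℝ := ∑ j ∈ range (h + 1), (-1) ^ j * (w.choose j : ℝ)

theorem UU_bounds {h : ℕ} (he : Even h) (w : ℕ) :
    XX w ≤ UU h w ∧ UU h w ≤ XX w + (w.choose (h + 1) : ℝ) := by
  cases w with
  | zero =>
    have : UU h 0 = 1 := by
      rw [UU, sum_range_succ']
      simp
    simp [this, XX]
  | succ w =>
    have h1 := Int.alternating_sum_range_choose_eq_choose (n := w) (m := h)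
    have h2 : UU h (w + 1) = (w.choose h : ℝ) := by
      rw [he.neg_one_pow, one_mul] at h1
      rw [UU]
      exact_mod_cast h1
    rw [h2, XX, if_neg (by omega), Nat.choose_succ_succ']
    push_cast
    constructor
    · positivity
    · have : (0 : ℝ) ≤ w.choose (h + 1) := by positivity
      linarith

theorem XX_nonneg (w : ℕ) : 0 ≤ XX w := by unfold XX; split_ifs <;> norm_num

theorem esymm_le (u : ℕ → ℝ) (hu : ∀ p ∈ B, 0 ≤ u p) (j : ℕ) :
    ∑ D ∈ powersetCard j B, ∏ p ∈ D, u p ≤ Real.exp (3 * ∑ p ∈ B, u p - j) := by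
  have h1 : Real.exp j * ∑ D ∈ powersetCard j B, ∏ p ∈ D, u p ≤ Real.exp (3 * ∑ p ∈ B, u p) := by
    calc _ = ∑ D ∈ powersetCard j B, ∏ p ∈ D, Real.exp 1 * u p := by
          rw [mul_sum]
          refine sum_congr rfl fun D hD => ?_
          rw [prod_mul_distrib, prod_const, (mem_powersetCard.1 hD).2, ← Real.exp_nat_mul, mul_one]
      _ ≤ ∑ D ∈ B.powerset, ∏ p ∈ D, Real.exp 1 * u p :=
          sum_le_sum_of_subset_of_nonneg (fun D hD => mem_powerset.2 (mem_powersetCard.1 hD).1)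
            fun D hD _ => prod_nonneg fun p hp =>
              mul_nonneg (Real.exp_pos 1).le (hu p (mem_powerset.1 hD hp))
      _ = ∏ p ∈ B, (1 + Real.exp 1 * u p) := (prod_one_add _).symm
      _ ≤ _ := by
          rw [mul_sum, Real.exp_sum]
          refine prod_le_prod (fun p hp => by have := hu p hp; positivity) fun p hp => ?_
          have := hu p hp
          nlinarith [Real.add_one_le_exp (3 * u p), Real.exp_one_lt_d9]
  rw [Real.exp_sub, le_div_iff₀ (Real.exp_pos _), mul_comm]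
  exact h1

theorem prod_ge_exp (u : ℕ → ℝ) (hu : ∀ p ∈ B, 0 ≤ u p ∧ u p ≤ 1 / 2) :
    Real.exp (-(2 * ∑ p ∈ B, u p)) ≤ ∏ p ∈ B, (1 - u p) := by
  rw [mul_sum, ← sum_neg_distrib, Real.exp_sum]
  refine prod_le_prod (fun p _ => (Real.exp_pos _).le) fun p hp => ?_
  obtain ⟨h1, h2⟩ := hu p hp
  rw [Real.exp_neg, inv_le_comm₀ (Real.exp_pos _) (by linarith), inv_eq_one_div,
    div_le_iff₀ (by linarith)]
  nlinarith [Real.add_one_le_exp (2 * u p)]

variable {N x : ℕ}

theorem mult_choose_ww (hB : ∀ p ∈ B, K < p ∧ p ∣ N) (j : ℕ) :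
    Mult N x (fun n => ((ww B K n).choose j : ℝ)) (((B.card : ℝ) * K) ^ j) := by
  have h0 : (fun n => ((ww B K n).choose j : ℝ)) =
      ∑ D ∈ powersetCard j B, ∏ p ∈ D, chi K p := by
    funext n
    rw [choose_ww, Finset.sum_apply]
    exact sum_congr rfl fun D _ => (Finset.prod_apply _ _ _).symm
  rw [h0]
  refine (Mult.sum _ _ (fun _ => (K : ℝ) ^ j) fun D hD => ?_).mono ?_
  · have := Mult.prod (N := N) (x := x) D (fun p => chi K p) (fun _ => K) fun p hp => by
      have h1 := hB p ((mem_powersetCard.1 hD).1 hp)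
      rw [chi_eq h1.1]
      have := Mult.sum (N := N) (x := x) (Icc 1 K) (fun c => ind p c) (fun _ => 1) fun c _ =>
        Mult.atom (Or.inr ⟨p, c, h1.2, rfl⟩)
      simpa using this
    rwa [prod_const, (mem_powersetCard.1 hD).2] at this
  · rw [sum_const, card_powersetCard, nsmul_eq_mul, mul_pow]
    refine mul_le_mul_of_nonneg_right ?_ (by positivity)
    exact_mod_cast Nat.choose_le_pow _ _

theorem mult_UU (hB : ∀ p ∈ B, K < p ∧ p ∣ N) (h : ℕ) (G : ℝ) (hG1 : 1 ≤ G)
    (hG : (B.card : ℝ) * K ≤ G) :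
    Mult N x (fun n => UU h (ww B K n)) ((2 * G) ^ (h + 1)) := by
  have h1 : (fun n => UU h (ww B K n)) = ∑ j ∈ range (h + 1),
      ((-1 : ℝ) ^ j) • fun n => ((ww B K n).choose j : ℝ) := by
    funext n
    simp only [UU, Finset.sum_apply, Pi.smul_apply, smul_eq_mul]
  rw [h1]
  refine (Mult.sum _ _ _ fun j _ => (mult_choose_ww hB j).smul _).mono ?_
  have h2 := sum_le_card_nsmul (range (h + 1))
    (fun j => |(-1 : ℝ) ^ j| * ((B.card : ℝ) * K) ^ j) (G ^ (h + 1)) (fun j hj => by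
      rw [abs_neg_one_pow, one_mul]
      exact (pow_le_pow_left₀ (by positivity) hG j).trans
        (pow_le_pow_right₀ hG1 (mem_range.1 hj).le))
  refine h2.trans ?_
  rw [card_range, nsmul_eq_mul, mul_pow]
  refine mul_le_mul_of_nonneg_right ?_ (by positivity)
  exact_mod_cast (Nat.lt_two_pow_self (n := h + 1)).le

theorem Mult_abs (hN : 0 < N) {g : ℕ → ℝ} {M : ℝ} (hg : Mult N x g M) :
    |∑ n ∈ range x, g n - x * av N g| ≤ M := by
  have := hg 1 1 (fun h hh => by rw [one_mul]; exact atom_disc hN x hh) 1 (Atom.one N)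
  rwa [mul_one, mul_one, mul_one, Dsc] at this

end Pool.Agent.MP_cebb75_nt.X

end
end

section

/-!
The block sieve: upper and lower bounds.
-/

set_option autoImplicit false

open Finset

noncomputable section

namespace Pool.Agent.MP_cebb75_nt.X

theorem prod_lower {ι : Type*} [DecidableEq ι] (s : Finset ι) (a b c : ι → ℝ)
    (ha : ∀ i ∈ s, 0 ≤ a i) (hab : ∀ i ∈ s, a i ≤ b i) (hc : ∀ i ∈ s, b i ≤ a i + c i) :
    ∏ i ∈ s, b i - ∑ l ∈ s, c l * ∏ i ∈ s.erase l, b i ≤ ∏ i ∈ s, a i := by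
  induction s using Finset.induction_on with
  | empty => simp
  | insert j s hj ih =>
    have ih' := ih (fun i hi => ha i (mem_insert_of_mem hi))
      (fun i hi => hab i (mem_insert_of_mem hi)) fun i hi => hc i (mem_insert_of_mem hi)
    have h1 := ha j (mem_insert_self _ _)
    have h2 := hab j (mem_insert_self _ _)
    have h3 := hc j (mem_insert_self _ _)
    have hb : ∀ i ∈ s, 0 ≤ b i := fun i hi =>
      (ha i (mem_insert_of_mem hi)).trans (hab i (mem_insert_of_mem hi))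
    have h4 : ∑ l ∈ s, c l * ∏ i ∈ (insert j s).erase l, b i =
        b j * ∑ l ∈ s, c l * ∏ i ∈ s.erase l, b i := by
      rw [mul_sum]
      refine sum_congr rfl fun l hl => ?_
      rw [erase_insert_of_ne (show j ≠ l from fun h => hj (h ▸ hl)), prod_insert (by simp [hj])]
      ring
    have h5 : 0 ≤ ∑ l ∈ s, c l * ∏ i ∈ s.erase l, b i :=
      sum_nonneg fun l hl => mul_nonneg
        (by linarith [hab l (mem_insert_of_mem hl), hc l (mem_insert_of_mem hl)])
        (prod_nonneg fun i hi => hb i (mem_of_mem_erase hi))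
    have h6 : 0 ≤ ∏ i ∈ s, b i := prod_nonneg hb
    rw [prod_insert hj, prod_insert hj, sum_insert hj, erase_insert hj, h4]
    nlinarith [mul_le_mul_of_nonneg_left ih' h1, mul_le_mul_of_nonneg_right h3 h6,
      mul_le_mul_of_nonneg_right h2 h5]

/-- no forbidden class in any block -/
def Sv (I : Finset ℕ) (B : ℕ → Finset ℕ) (K : ℕ → ℕ) (n : ℕ) : Prop :=
  ∀ i ∈ I, ∀ p ∈ B i, n % p ∉ Icc 1 (K i)

/-- the expected density -/
def VV (I : Finset ℕ) (B : ℕ → Finset ℕ) (K : ℕ → ℕ) : ℝ :=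
  ∏ i ∈ I, ∏ p ∈ B i, (1 - (K i : ℝ) / p)

open scoped Classical in
theorem sieve (I : Finset ℕ) (B : ℕ → Finset ℕ) (K h : ℕ → ℕ) (δ G : ℕ → ℝ) (M a x : ℕ)
    (hM : 0 < M) (hB : ∀ i ∈ I, ∀ p ∈ B i, p.Prime ∧ 2 * K i < p ∧ ¬ p ∣ M)
    (hd : ∀ i ∈ I, ∀ j ∈ I, i ≠ j → Disjoint (B i) (B j)) (he : ∀ i ∈ I, Even (h i))
    (hδ : ∀ i ∈ I, Real.exp (5 * ∑ p ∈ B i, (K i : ℝ) / p - (h i + 1)) ≤ δ i)
    (hδs : ∑ i ∈ I, δ i ≤ 1 / 2) (hG1 : ∀ i ∈ I, 1 ≤ G i)
    (hG : ∀ i ∈ I, ((B i).card : ℝ) * K i ≤ G i) :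
    (((range x).filter fun n => n ≡ a [MOD M] ∧ Sv I B K n).card : ℝ) ≤
        2 * (x / M * VV I B K) + ∏ i ∈ I, (2 * G i) ^ (h i + 1) ∧
      x / M * VV I B K / 2 - (1 + I.card) * ∏ i ∈ I, (2 * G i) ^ (h i + 1) ≤
        (((range x).filter fun n => n ≡ a [MOD M] ∧ Sv I B K n).card : ℝ) := by
  set q : ℕ → ℕ := fun i => ∏ p ∈ B i, p with hq
  set N := M * ∏ i ∈ I, q i with hN
  have hq0 : ∀ i ∈ I, 0 < q i := fun i hi => prod_pos fun p hp => (hB i hi p hp).1.pos
  have hQ0 : 0 < ∏ i ∈ I, q i := prod_pos hq0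
  have hN0 : 0 < N := Nat.mul_pos hM hQ0
  have hco : ∀ i ∈ I, ∀ j ∈ I, i ≠ j → (q i).Coprime (q j) := fun i hi j hj hij =>
    Nat.Coprime.prod_left fun p hp => Nat.Coprime.prod_right fun r hr =>
      (Nat.coprime_primes (hB i hi p hp).1 (hB j hj r hr).1).2 fun hpr =>
        disjoint_left.1 (hd i hi j hj hij) hp (hpr ▸ hr)
  have hcoM : M.Coprime (∏ i ∈ I, q i) := Nat.Coprime.prod_right fun i hi =>
    Nat.Coprime.prod_right fun p hp =>
      ((Nat.Prime.coprime_iff_not_dvd (hB i hi p hp).1).2 (hB i hi p hp).2.2).symm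
  have hB1 : ∀ i ∈ I, ∀ p ∈ B i, p.Prime ∧ K i < p := fun i hi p hp =>
    ⟨(hB i hi p hp).1, by have := (hB i hi p hp).2.1; omega⟩
  have hB2 : ∀ i ∈ I, ∀ p ∈ B i, K i < p ∧ p ∣ N := fun i hi p hp =>
    ⟨(hB1 i hi p hp).2, ((dvd_prod_of_mem _ hp).trans (dvd_prod_of_mem q hi)).mul_left M⟩
  have hav : ∀ F : ℕ → ℕ → ℝ, av N (fun n => ind M a n * ∏ i ∈ I, F i (ww (B i) (K i) n)) =
      1 / M * ∏ i ∈ I, av (q i) fun n => F i (ww (B i) (K i) n) := by
    intro F
    have hp : ∀ i ∈ I, Per (q i) fun n => F i (ww (B i) (K i) n) := fun i _ n => by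
      simp only [hq, ww_per]
    rw [hN, av_mul hcoM hM hQ0 (per_ind M a)
      (g := fun n => ∏ i ∈ I, F i (ww (B i) (K i) n)) fun n => prod_congr rfl fun i hi =>
        (hp i hi).of_dvd (dvd_prod_of_mem _ hi) n, av_ind hM, av_prod I q _ hq0 hco hp]
  have hmu : ∀ (F : ℕ → ℕ → ℝ), (∀ i ∈ I, Mult N x (fun n => F i (ww (B i) (K i) n))
      ((2 * G i) ^ (h i + 1))) →
      |∑ n ∈ range x, ind M a n * ∏ i ∈ I, F i (ww (B i) (K i) n) -
        x * (1 / M * ∏ i ∈ I, av (q i) fun n => F i (ww (B i) (K i) n))| ≤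
        ∏ i ∈ I, (2 * G i) ^ (h i + 1) := by
    intro F hF
    have h1 := (Mult.atom (x := x) (Or.inr ⟨M, a, Dvd.intro _ hN.symm, rfl⟩ : Atom N (ind M a))).mul
      (Mult.prod I _ _ hF)
    have h2 := Mult_abs hN0 h1
    rw [one_mul] at h2
    have h3 : (ind M a * ∏ i ∈ I, fun n => F i (ww (B i) (K i) n)) =
        fun n => ind M a n * ∏ i ∈ I, F i (ww (B i) (K i) n) := by
      funext n; simp [Finset.prod_apply]
    rwa [h3, hav F] at h2
  set V : ℕ → ℝ := fun i => ∏ p ∈ B i, (1 - (K i : ℝ) / p) with hV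
  set u : ℕ → ℝ := fun i => av (q i) fun n => UU (h i) (ww (B i) (K i) n) with hu
  set c : ℕ → ℝ := fun i => av (q i) fun n => ((ww (B i) (K i) n).choose (h i + 1) : ℝ) with hc
  have hKp : ∀ i ∈ I, ∀ p ∈ B i, 0 ≤ (K i : ℝ) / p ∧ (K i : ℝ) / p ≤ 1 / 2 := fun i hi p hp => by
    have h1 : ((2 * K i : ℕ) : ℝ) < p := by exact_mod_cast (hB i hi p hp).2.1
    push_cast at h1
    have h2 : (0 : ℝ) ≤ K i := by positivity
    exact ⟨by positivity, by rw [div_le_div_iff₀ (by linarith) (by norm_num)]; linarith⟩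
  have hV0 : ∀ i ∈ I, 0 ≤ V i := fun i hi => prod_nonneg fun p hp => by linarith [(hKp i hi p hp).2]
  have hδ0 : ∀ i ∈ I, 0 ≤ δ i := fun i hi => (Real.exp_pos _).le.trans (hδ i hi)
  have hcV : ∀ i ∈ I, c i ≤ δ i * V i := fun i hi => by
    have h1 := esymm_le (B := B i) (fun p => (K i : ℝ) / p) (fun p hp => (hKp i hi p hp).1) (h i + 1)
    have h2 := prod_ge_exp (B := B i) (fun p => (K i : ℝ) / p) (hKp i hi)
    simp only [hc, hq]
    rw [av_choose (hB1 i hi)]
    refine h1.trans (le_trans (le_of_eq ?_)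
      (mul_le_mul (hδ i hi) h2 (Real.exp_pos _).le (hδ0 i hi)))
    rw [← Real.exp_add]
    congr 1
    push_cast
    ring
  have hVu : ∀ i ∈ I, V i ≤ u i := fun i hi => by
    simp only [hV, hu, hq]
    rw [← av_XX (hB1 i hi)]
    exact av_mono fun n => (UU_bounds (he i hi) _).1
  have huV : ∀ i ∈ I, u i ≤ V i + c i := fun i hi => by
    simp only [hV, hu, hc, hq]
    rw [← av_XX (hB1 i hi), ← av_add]
    exact av_mono fun n => (UU_bounds (he i hi) _).2
  have hcard : (((range x).filter fun n => n ≡ a [MOD M] ∧ Sv I B K n).card : ℝ) =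
      ∑ n ∈ range x, ind M a n * ∏ i ∈ I, XX (ww (B i) (K i) n) := by
    rw [card_filter]
    push_cast
    refine sum_congr rfl fun n _ => ?_
    simp only [XX, ind]
    rw [prod_boole, ite_zero_mul_ite_zero, one_mul]
    refine if_congr (and_congr_right fun _ => forall₂_congr fun i _ => ?_) rfl rfl
    rw [ww, card_eq_zero, filter_eq_empty_iff]
  have hind : ∀ n, 0 ≤ ind M a n := fun n => by unfold ind; split_ifs <;> norm_num
  have hU := hmu (fun i w => UU (h i) w) fun i hi => mult_UU (hB2 i hi) _ _ (hG1 i hi) (hG i hi)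
  have hxM : (0 : ℝ) ≤ x / M := by positivity
  have hu0 : ∀ i ∈ I, 0 ≤ u i := fun i hi => (hV0 i hi).trans (hVu i hi)
  rw [hcard]
  constructor
  · have h1 : ∑ n ∈ range x, ind M a n * ∏ i ∈ I, XX (ww (B i) (K i) n) ≤
        ∑ n ∈ range x, ind M a n * ∏ i ∈ I, UU (h i) (ww (B i) (K i) n) :=
      sum_le_sum fun n _ => mul_le_mul_of_nonneg_left
        (prod_le_prod (fun i _ => XX_nonneg _) fun i hi => (UU_bounds (he i hi) _).1) (hind n)
    have h2 : ∏ i ∈ I, u i ≤ 2 * VV I B K := by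
      calc _ ≤ ∏ i ∈ I, (Real.exp (δ i) * V i) := prod_le_prod hu0 fun i hi => by
            nlinarith [huV i hi, hcV i hi, Real.add_one_le_exp (δ i), hV0 i hi]
        _ = Real.exp (∑ i ∈ I, δ i) * VV I B K := by rw [prod_mul_distrib, Real.exp_sum]; rfl
        _ ≤ _ := by
            refine mul_le_mul_of_nonneg_right ?_ (prod_nonneg hV0)
            rw [← Real.le_log_iff_exp_le (by norm_num)]
            linarith [Real.log_two_gt_d9]
    have h3 := mul_le_mul_of_nonneg_left h2 hxM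
    have h4 := (abs_le.1 hU).2
    have h5 : (x : ℝ) * (1 / M * ∏ i ∈ I, u i) = x / M * ∏ i ∈ I, u i := by ring
    simp only [← hu] at h4
    linarith
  · set E := ∏ i ∈ I, (2 * G i) ^ (h i + 1) with hE
    have h1 : ∀ l ∈ I, ∑ n ∈ range x, ind M a n * (((ww (B l) (K l) n).choose (h l + 1) : ℝ) *
        ∏ i ∈ I.erase l, UU (h i) (ww (B i) (K i) n)) ≤ x / M * (δ l * ∏ i ∈ I, u i) + E := by
      intro l hl
      have h2 := hmu (fun i w => if i = l then (w.choose (h l + 1) : ℝ) else UU (h i) w)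
        fun i hi => by
          split_ifs with hil
          · subst hil
            refine (mult_choose_ww (hB2 i hi) _).mono (pow_le_pow_left₀ (by positivity) ?_ _)
            linarith [hG i hi, hG1 i hi]
          · exact mult_UU (hB2 i hi) _ _ (hG1 i hi) (hG i hi)
      simp only [← mul_prod_erase I _ hl, if_true] at h2
      have h3 : ∀ n, ∏ i ∈ I.erase l, (if i = l then ((ww (B i) (K i) n).choose (h l + 1) : ℝ)
          else UU (h i) (ww (B i) (K i) n)) = ∏ i ∈ I.erase l, UU (h i) (ww (B i) (K i) n) :=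
        fun n => prod_congr rfl fun i hi => if_neg (ne_of_mem_erase hi)
      have h4 : ∏ i ∈ I.erase l, av (q i) (fun n => if i = l then
          ((ww (B i) (K i) n).choose (h l + 1) : ℝ) else UU (h i) (ww (B i) (K i) n)) =
          ∏ i ∈ I.erase l, u i := prod_congr rfl fun i hi => by
        simp only [if_neg (ne_of_mem_erase hi), hu]
      simp only [h3, h4] at h2
      have h5 := (abs_le.1 h2).2
      have h6 : c l * ∏ i ∈ I.erase l, u i ≤ δ l * ∏ i ∈ I, u i := by
        rw [← mul_prod_erase I _ hl, ← mul_assoc]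
        exact mul_le_mul_of_nonneg_right ((hcV l hl).trans
          (mul_le_mul_of_nonneg_left (hVu l hl) (hδ0 l hl)))
          (prod_nonneg fun i hi => hu0 i (mem_of_mem_erase hi))
      have h7 := mul_le_mul_of_nonneg_left h6 hxM
      have h8 : (x : ℝ) * (1 / M * (c l * ∏ i ∈ I.erase l, u i)) =
          x / M * (c l * ∏ i ∈ I.erase l, u i) := by ring
      have h9 : E = (2 * G l) ^ (h l + 1) * ∏ i ∈ I.erase l, (2 * G i) ^ (h i + 1) :=
        (mul_prod_erase I _ hl).symm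
      simp only [hc] at h7 h8
      linarith
    have h2 := sum_le_sum h1
    rw [sum_comm, sum_add_distrib, ← mul_sum, ← sum_mul, sum_const, nsmul_eq_mul] at h2
    have h3 : ∑ n ∈ range x, (ind M a n * ∏ i ∈ I, UU (h i) (ww (B i) (K i) n) -
        ∑ l ∈ I, ind M a n * (((ww (B l) (K l) n).choose (h l + 1) : ℝ) *
        ∏ i ∈ I.erase l, UU (h i) (ww (B i) (K i) n))) ≤
        ∑ n ∈ range x, ind M a n * ∏ i ∈ I, XX (ww (B i) (K i) n) := by
      refine sum_le_sum fun n _ => ?_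
      rw [← mul_sum, ← mul_sub]
      exact mul_le_mul_of_nonneg_left (prod_lower I _ _ _ (fun i _ => XX_nonneg _)
        (fun i hi => (UU_bounds (he i hi) _).1) fun i hi => (UU_bounds (he i hi) _).2) (hind n)
    rw [sum_sub_distrib] at h3
    have h4 := (abs_le.1 hU).1
    simp only [← hu] at h4
    have h5 : (x : ℝ) * (1 / M * ∏ i ∈ I, u i) = x / M * ∏ i ∈ I, u i := by ring
    have h6 : VV I B K ≤ ∏ i ∈ I, u i := prod_le_prod hV0 hVu
    have h7 := mul_le_mul_of_nonneg_left h6 hxM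
    have h8 := mul_le_mul_of_nonneg_left
      (mul_le_mul_of_nonneg_right hδs (prod_nonneg hu0)) hxM
    linarith

end Pool.Agent.MP_cebb75_nt.X

end
end
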