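import Mathlib
import Pool.Agent.Mg.Fc6d393p.Gd22e41

set_option linter.all false

section

/-!
Arrays with the shift property: basic facts on the missing differences, and the statements of the
steps of the asymptotic prime power theorem.
-/

set_option autoImplicit false
open Finset

namespace Pool.Agent.MP_dcfa1b_co.Pp

section base
variable {A : Type*} [AddCommGroup A] [Fintype A] [DecidableEq A]

/-- the rows `j` such that `j` and `j + a` carry a dot -/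
def rowS (a : A) : Finset A := (univ.erase 0).filter (fun j => j + a ≠ 0)

lemma mem_rowS {a j : A} : j ∈ rowS a ↔ j ≠ 0 ∧ j + a ≠ 0 := by simp [rowS]

lemma sum_rowS {T : Type*} [AddCommGroup T] {a : A} (ha : a ≠ 0) (F : A → T) :
    ∑ j ∈ rowS a, F j = ∑ j, F j - F 0 - F (-a) := by
  have : rowS a = (univ.erase 0).erase (-a) := by
    ext j; simp [mem_rowS, add_eq_zero_iff_eq_neg, and_comm]
  rw [this, sum_erase_eq_sub (mem_erase.2 ⟨neg_ne_zero.2 ha, mem_univ _⟩),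
    sum_erase_eq_sub (mem_univ _)]

lemma card_rowS {a : A} (ha : a ≠ 0) : (rowS a).card + 2 = Fintype.card A := by
  have := sum_rowS ha (fun _ => (1 : ℤ))
  simp only [sum_const, nsmul_eq_mul, mul_one, card_univ] at this
  omega

/-- the missing difference in row `a` -/
def gam (f : A ≃ A) (a : A) : A := ∑ c, c + f a - f (-a)

lemma row (f : A ≃ A) (f0 : f 0 = 0) {a : A} (ha : a ≠ 0)
    (hinj : Set.InjOn (fun j => f (j + a) - f j) (rowS a)) :
    gam f a ∉ (rowS a).image (fun j => f (j + a) - f j) ∧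
      insert (gam f a) ((rowS a).image (fun j => f (j + a) - f j)) = univ.erase 0 := by
  have hsub : (rowS a).image (fun j => f (j + a) - f j) ⊆ univ.erase 0 := by
    intro y hy
    obtain ⟨x, -, rfl⟩ := mem_image.1 hy
    refine mem_erase.2 ⟨fun e => ha ?_, mem_univ _⟩
    simpa using f.injective (sub_eq_zero.1 e)
  obtain ⟨g, hg1, hg2⟩ := exists_eq_insert_iff.2 ⟨hsub, by
    have := card_rowS ha
    have h2 := card_erase_add_one (mem_univ (0 : A))
    rw [card_univ] at h2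
    rw [card_image_of_injOn hinj]; omega⟩
  have h1 : ∑ c ∈ univ.erase (0 : A), c = ∑ c, c := by rw [sum_erase_eq_sub (mem_univ _), sub_zero]
  rw [← hg2, sum_insert hg1, sum_image hinj, sum_rowS ha, sum_sub_distrib,
    Fintype.sum_equiv (Equiv.addRight a) (fun j => f (j + a)) f (fun _ => rfl)] at h1
  have : g = gam f a := by
    rw [gam, ← h1]; simp [f0]; abel
  rw [← this]
  exact ⟨hg1, hg2⟩

/-- the weak form of the modular Costas property -/
def Ws (f : A ≃ A) : Prop := f 0 = 0 ∧ ∀ i j k m, i ≠ 0 → j ≠ 0 → k ≠ 0 → m ≠ 0 → i ≠ j →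
  i - j = k - m → f i - f j = f k - f m → i = k ∨ (m = i ∧ k = j)

/-- the modular Costas property -/
def Sd (f : A ≃ A) : Prop := f 0 = 0 ∧ ∀ i j k m, i ≠ 0 → j ≠ 0 → k ≠ 0 → m ≠ 0 → i ≠ j →
  i - j = k - m → f i - f j = f k - f m → i = k

omit [Fintype A] [DecidableEq A] in
lemma ne0 {f : A ≃ A} (f0 : f 0 = 0) {i : A} (hi : i ≠ 0) : f i ≠ 0 :=
  fun e => hi (f.injective (e.trans f0.symm))

omit [Fintype A] [DecidableEq A] in
lemma Sd.symm {f : A ≃ A} (h : Sd f) : Sd f.symm := by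
  have g0 : f.symm 0 = 0 := by rw [Equiv.symm_apply_eq, h.1]
  refine ⟨g0, fun i j k m hi hj hk hm hij e1 e2 => f.symm.injective ?_⟩
  exact h.2 _ _ _ _ (ne0 g0 hi) (ne0 g0 hj) (ne0 g0 hk) (ne0 g0 hm)
    (fun e => hij (f.symm.injective e)) e2 (by simpa using e1)

lemma Sd.injOn {f : A ≃ A} (h : Sd f) {a : A} (ha : a ≠ 0) :
    Set.InjOn (fun j => f (j + a) - f j) (rowS a) := by
  intro i hi j hj e
  obtain ⟨a1, a2⟩ := mem_rowS.1 hi
  obtain ⟨b1, b2⟩ := mem_rowS.1 hj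
  exact add_right_cancel (h.2 (i + a) i (j + a) j a2 a1 b2 b1 (by simpa using ha) (by abel) e)

lemma Ws.sd {f : A ≃ A} (h : Ws f) {o : A} (ho : ∑ c, c = o)
    (two : ∀ i : A, i + i = 0 → i = 0 ∨ i = o) : Sd f := by
  refine ⟨h.1, fun i j k m hi hj hk hm hij e1 e2 => ?_⟩
  rcases h.2 i j k m hi hj hk hm hij e1 e2 with e | ⟨rfl, rfl⟩
  · exact e
  exfalso
  have c1 : m - k = o := (two _ (by rw [← sub_eq_zero] at e1; rw [← e1]; abel)).resolve_left
    (sub_ne_zero.2 hij)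
  have c2 : f m - f k = o := (two _ (by rw [← sub_eq_zero] at e2; rw [← e2]; abel)).resolve_left
    (sub_ne_zero.2 fun e => hij (f.injective e))
  have o0 : o ≠ 0 := c1 ▸ sub_ne_zero.2 hij
  have key : ∀ i a, i ≠ 0 → i + a ≠ 0 → f (i + a) - f i = o →
      a ∈ (fun c => f.symm (c + o) - f.symm c) '' (rowS o) := by
    intro i a h1 h2 h3
    have h4 : f i + o = f (i + a) := by rw [← h3]; abel
    refine ⟨f i, mem_coe.2 (mem_rowS.2 ⟨ne0 h.1 h1, h4 ▸ ne0 h.1 h2⟩), ?_⟩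
    simp [h4]
  have hs : Set.SurjOn (fun c => f.symm (c + o) - f.symm c) (rowS o) (univ.erase (0 : A)) := by
    intro a ha
    have ha0 : a ≠ 0 := ne_of_mem_erase (mem_coe.1 ha)
    by_cases hao : a = o
    · have : k + a = m := by rw [hao, ← c1]; abel
      exact key k a hk (this ▸ hi) (this ▸ c2)
    have h2 : a + a ≠ 0 := fun e => (two a e).elim ha0 hao
    have hinj : Set.InjOn (fun j => f (j + a) - f j) (rowS a) := by
      intro i hi j hj e
      obtain ⟨a1, a2⟩ := mem_rowS.1 hi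
      obtain ⟨b1, b2⟩ := mem_rowS.1 hj
      rcases h.2 (i + a) i (j + a) j a2 a1 b2 b1 (by simpa using ha0) (by abel) e with e | ⟨e1, e2⟩
      · exact add_right_cancel e
      · exact absurd (by rw [e1, add_assoc] at e2; simpa using e2) h2
    have : o ∈ insert (gam f a) ((rowS a).image (fun j => f (j + a) - f j)) := by
      rw [(row f h.1 ha0 hinj).2]; exact mem_erase.2 ⟨o0, mem_univ _⟩
    rcases mem_insert.1 this with e | e
    · rw [gam, ho, add_sub_assoc, left_eq_add, sub_eq_zero] at e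
      exact absurd (add_eq_zero_iff_eq_neg.2 (f.injective e)) h2
    · obtain ⟨i, hi, e⟩ := mem_image.1 e
      exact key i a (mem_rowS.1 hi).1 (mem_rowS.1 hi).2 e
  have := card_le_card_of_surjOn _ hs
  have h2 := card_erase_add_one (mem_univ (0 : A))
  have h3 := card_rowS o0
  rw [card_univ] at h2
  omega

lemma Sd.gam_iff {f : A ≃ A} (h : Sd f) {a c : A} (ha : a ≠ 0) :
    c = gam f a ↔ c ≠ 0 ∧ ∀ j, j ≠ 0 → j + a ≠ 0 → f (j + a) - f j ≠ c := by
  obtain ⟨h1, h2⟩ := row f h.1 ha (h.injOn ha)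
  constructor
  · rintro rfl
    refine ⟨ne_of_mem_erase (h2 ▸ mem_insert_self _ _), fun j a1 a2 e => h1 ?_⟩
    exact mem_image.2 ⟨j, mem_rowS.2 ⟨a1, a2⟩, e⟩
  · rintro ⟨c0, hc⟩
    have : c ∈ insert (gam f a) ((rowS a).image (fun j => f (j + a) - f j)) := by
      rw [h2]; exact mem_erase.2 ⟨c0, mem_univ _⟩
    refine (mem_insert.1 this).resolve_right fun e => ?_
    obtain ⟨i, hi, e⟩ := mem_image.1 e
    exact hc i (mem_rowS.1 hi).1 (mem_rowS.1 hi).2 e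

lemma Sd.gam_symm {f : A ≃ A} (h : Sd f) {c : A} (hc : c ≠ 0) :
    gam f.symm c ≠ 0 ∧ gam f (gam f.symm c) = c := by
  obtain ⟨h1, h2⟩ := (h.symm.gam_iff hc).1 rfl
  refine ⟨h1, ((h.gam_iff h1).2 ⟨hc, fun j a1 a2 e => ?_⟩).symm⟩
  have e' : f j + c = f (j + gam f.symm c) := (sub_eq_iff_eq_add'.1 e).symm
  exact h2 (f j) (ne0 h.1 a1) (e' ▸ ne0 h.1 a2) (by rw [e']; simp)

omit [DecidableEq A] in
lemma two_sum : (∑ c : A, c) + ∑ c : A, c = 0 := by
  have := Fintype.sum_equiv (Equiv.neg A) (fun c => -c) (fun c => c) (fun _ => rfl)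
  rw [sum_neg_distrib] at this
  exact neg_eq_iff_add_eq_zero.1 this

end base

/-- all prime factors of `h` are at most `R` -/
def Sm (R h : ℕ) : Prop := ∀ r : ℕ, r.Prime → r ∣ h → r ≤ R

open Classical in
/-- the number of `N` in `[1, x]` with the property `E` -/
noncomputable def cnt (x : ℕ) (E : ℕ → Prop) : ℝ := (((Icc 1 x).filter E).card : ℝ)

/-- the arithmetic consequences of the multiplier theorem -/
def Good (N : ℕ) : Prop :=
  (∀ p e m k : ℕ, p.Prime → p ∣ N + 1 → N = e * m → m ≤ e → p ^ k ≡ 1 [MOD e] →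
    p ^ k ≡ 1 [MOD N]) ∧
  ∀ p₁ p₂ T : ℕ, p₁.Prime → p₂.Prime → p₁ ∣ N + 1 → p₂ ∣ N + 1 → N ≤ T ^ 4 →
    ∃ a b : ℕ, a ≤ 2 * T ∧ b ≤ 2 * T ∧ ¬ (a = T ∧ b = T) ∧
      p₁ ^ a * p₂ ^ b ≡ (p₁ * p₂) ^ T [MOD N]

/-- small numbers -/
def E0 (x B N : ℕ) : Prop := N * B ≤ x

/-- a large square divisor -/
def E1 (R N : ℕ) : Prop := ∃ r : ℕ, R < r ∧ r ^ 2 ∣ N

/-- a small multiplicative order -/
def E2 (y N : ℕ) : Prop := ∃ p l k : ℕ, p.Prime ∧ l.Prime ∧ p ∣ N + 1 ∧ l ∣ N ∧ p ^ 2 ≤ N + 1 ∧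
  l ^ 2 ≤ N ∧ y ^ 4 < l ∧ 1 ≤ k ∧ k ^ 4 ≤ l ∧ p ^ k ≡ 1 [MOD l]

/-- two shifted primes with a large common divisor -/
def E3 (R N : ℕ) : Prop := ∃ r l l' : ℕ, R < r ∧ l.Prime ∧ l'.Prime ∧ l ≠ l' ∧ l ∣ N ∧ l' ∣ N ∧
  r ∣ l - 1 ∧ r ∣ l' - 1

/-- a shifted prime with a large smooth divisor -/
def E4 (R y N : ℕ) : Prop := ∃ l h : ℕ, l.Prime ∧ l ∣ N ∧ h ∣ l - 1 ∧ Sm R h ∧ y < h

/-- a large smooth divisor -/
def E5 (Y B N : ℕ) : Prop := ∃ c : ℕ, c ∣ N ∧ Sm Y c ∧ B < c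

/-- a short multiplicative relation modulo a large prime factor -/
def E6 (x z B T N : ℕ) : Prop := ∃ p₁ p₂ a b l : ℕ, p₁.Prime ∧ p₂.Prime ∧ p₁ ≠ p₂ ∧ p₁ ≤ z ∧
  p₂ ≤ z ∧ a ≤ 2 * T ∧ b ≤ 2 * T ∧ ¬ (a = T ∧ b = T) ∧ l.Prime ∧ l ∣ N ∧ x < l * B ^ 2 ∧
  p₁ ^ a * p₂ ^ b ≡ (p₁ * p₂) ^ T [MOD l]

/-- the sifted numbers -/
def EA (Y z N : ℕ) : Prop := (∀ l : ℕ, l.Prime → Y < l → l ≤ z → ¬ l ∣ N) ∧
  ∀ p₁ p₂ : ℕ, p₁.Prime → p₂.Prime → Y < p₁ → Y < p₂ → p₁ ≤ z → p₂ ≤ z → p₁ ∣ N + 1 →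
    p₂ ∣ N + 1 → p₁ = p₂

/-- the gap theorem -/
def StGap : Prop := ∀ (N : ℕ) [NeZero N] (f : ZMod N ≃ ZMod N) (d : ZMod N), Sd f →
  (univ.filter fun a => a ≠ 0 ∧ gam f a ≠ d * a).card = 0 ∨
    N ≤ 4 * (univ.filter fun a => a ≠ 0 ∧ gam f a ≠ d * a).card + 2

/-- the multiplier theorem -/
def StMul : Prop := ∀ (N : ℕ) [NeZero N] (f : ZMod N ≃ ZMod N) (d : ZMod N) (p : ℕ), Sd f →
  IsUnit d → (∀ a, a ≠ 0 → gam f a = d * a) → p.Prime → p ∣ N + 1 →
  ∀ x, f ((p : ZMod N) * x) = (p : ZMod N) * f x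

/-- the two order restrictions -/
def StT : Prop := ∀ (N : ℕ) [NeZero N] (f : ZMod N ≃ ZMod N), Sd f →
  (∀ p : ℕ, p.Prime → p ∣ N + 1 → ∀ x, f ((p : ZMod N) * x) = (p : ZMod N) * f x) → Good N

/-- the covering -/
def StCov : Prop := ∀ x R y z B T N : ℕ, R ≤ y ^ 4 → B ^ 2 ≤ x → z * B ^ 2 ≤ x → x ≤ T ^ 4 →
  1 ≤ N → N ≤ x → ¬ IsPrimePow (N + 1) → Good N →
  E0 x B N ∨ E1 R N ∨ E2 y N ∨ E3 R N ∨ E4 R y N ∨ E5 (y ^ 4) B N ∨ E6 x z B T N ∨ EA (y ^ 4) z N

/-- three easy counts -/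
def St013 : Prop := (∀ x B : ℕ, 1 ≤ B → cnt x (E0 x B) ≤ x / B) ∧
  (∀ x R : ℕ, 1 ≤ R → cnt x (E1 R) ≤ x / R) ∧
  ∀ x R : ℕ, 1 ≤ R → cnt x (E3 R) ≤ x * (1 + Real.log x) ^ 2 / R

/-- small orders are rare -/
def St2 : Prop := ∀ x y : ℕ, 1 ≤ y → cnt x (E2 y) ≤ 10 * x * (1 + Real.log x) ^ 2 / y

/-- the two counts by the method of Rankin -/
def St45 : Prop := (∀ (x R y : ℕ) (t : ℝ), 1 ≤ R → 1 ≤ y → 0 < t → t ≤ 1 / 2 →
    cnt x (E4 R y) ≤ x * (1 + Real.log x) *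
      ((y : ℝ) ^ (-t) * Real.exp (4 * (R : ℝ) ^ t * (1 + Real.log R)))) ∧
  ∀ (x Y B : ℕ) (t : ℝ), 1 ≤ Y → 1 ≤ B → 0 < t → t ≤ 1 / 2 →
    cnt x (E5 Y B) ≤ x * ((B : ℝ) ^ (-t) * Real.exp (4 * (Y : ℝ) ^ t * (1 + Real.log Y)))

/-- short relations are rare -/
def St6 : Prop := ∀ x z B T : ℕ,
  cnt x (E6 x z B T) ≤ 4 * (z : ℝ) ^ 3 * T * (2 * T + 1) ^ 2 * (B : ℝ) ^ 2

/-- the sieve bound -/
def StA : Prop := ∀ (x Y z h : ℕ) (c : ℝ), 4 ≤ Y → 1 ≤ z → 0 ≤ c →
  30 * Real.log Y * Real.exp c ≤ Real.log z → Even h → 10 * (c + 1) ≤ h →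
  cnt x (EA Y z) ≤ 4 * (x + 3) * (c + 2) * Real.exp (-2 * c) + (z + 1) * (4 * (z : ℝ)) ^ (h + 1)

end Pool.Agent.MP_dcfa1b_co.Pp

end

section

/-! The gap theorem for the missing differences. -/

set_option autoImplicit false
open Finset

namespace Pool.Agent.MP_dcfa1b_co.Pp

namespace Gap

/-- the code of a pair -/
def Rl {N : ℕ} [NeZero N] (f : ZMod N ≃ ZMod N) (E : ZMod N → ZMod N) (p : ZMod N × ZMod N) :
    ZMod N ⊕ ZMod N ⊕ ZMod N × ZMod N ⊕ ZMod N × ZMod N × Bool → Prop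
  | .inl x => x = p.1 ∧ E p.1 = f p.2
  | .inr (.inl a) => a = p.1 - p.2 ∧ E p.1 - f p.2 = gam f a
  | .inr (.inr (.inl c)) => c.1 = p.1 ∧ ∃ z, z ≠ 0 ∧ c.2 - z = c.1 - p.2 ∧
      f c.2 - f z = E c.1 - f p.2
  | .inr (.inr (.inr c)) => c.1 = p.1 ∧ ∃ y, y ≠ 0 ∧ y - c.2.1 = c.1 - p.2 ∧
      f y - f c.2.1 = E c.1 - f p.2 ∧ c.2.2 = decide (p.2.val < y.val)

end Gap

theorem s_Gap : StGap := by
  intro N _ f d h
  obtain ⟨E, hE⟩ : ∃ E : ZMod N → ZMod N, ∀ x, E x = f (-x) + d * x + ∑ c, c := ⟨_, fun _ => rfl⟩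
  have e1 : ∀ x, gam f x = d * x ↔ E x = f x := fun x => by
    have t := two_sum (A := ZMod N)
    rw [hE, gam]
    exact ⟨fun e => by linear_combination t - e, fun e => by linear_combination t - e⟩
  have SE : ∀ x x₁ y y₁ : ZMod N, x ≠ 0 → x₁ ≠ 0 → y ≠ 0 → y₁ ≠ 0 → x ≠ x₁ → x - x₁ = y - y₁ →
      E x - E x₁ = E y - E y₁ → x = y := fun x x₁ y y₁ a1 a2 a3 a4 a5 a6 a7 => by
    simp only [hE] at a7
    exact neg_injective (h.2 _ _ _ _ (neg_ne_zero.2 a1) (neg_ne_zero.2 a2) (neg_ne_zero.2 a3)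
      (neg_ne_zero.2 a4) (neg_injective.ne a5) (by linear_combination -a6)
      (by linear_combination a7 - d * a6))
  obtain ⟨W, hW⟩ : ∃ W, W = univ.filter fun a => a ≠ 0 ∧ gam f a ≠ d * a := ⟨_, rfl⟩
  obtain ⟨V, hV⟩ : ∃ V, V = univ.filter fun a => a ≠ 0 ∧ E a = f a := ⟨_, rfl⟩
  have mW : ∀ a, a ∈ W ↔ a ≠ 0 ∧ E a ≠ f a := fun a => by simp [hW, e1]
  have mV : ∀ a, a ∈ V ↔ a ≠ 0 ∧ E a = f a := fun a => by simp [hV]
  have c1 : N ≤ W.card + V.card + 1 := by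
    have t : (univ : Finset (ZMod N)) ⊆ insert 0 (W ∪ V) := fun a _ => by
      simp only [mem_insert, mem_union, mW, mV]
      tauto
    have t1 := card_le_card t
    have t2 := card_insert_le 0 (W ∪ V)
    have t3 := card_union_le W V
    rw [card_univ, ZMod.card] at t1
    omega
  have key := card_le_card_of_forall_subsingleton (Gap.Rl f E) (s := W ×ˢ V)
    (t := W.disjSum (W.disjSum (W.offDiag.disjSum (W ×ˢ W ×ˢ univ)))) ?_ ?_
  · rw [← hW]
    simp only [card_product, card_disjSum, offDiag_card, card_univ, Fintype.card_bool] at key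
    refine (Nat.eq_zero_or_pos W.card).imp_right fun w0 => ?_
    have t1 : W.card ≤ W.card * W.card := Nat.le_mul_self _
    have t2 : W.card * V.card ≤ W.card * (3 * W.card + 1) := by
      rw [← mul_assoc] at key
      rw [mul_add, mul_left_comm]
      omega
    have t3 := Nat.le_of_mul_le_mul_left t2 w0
    omega
  · rintro ⟨x, x₁⟩ hp
    obtain ⟨hx, hx₁⟩ : x ∈ W ∧ x₁ ∈ V := mem_product.1 hp
    obtain ⟨a1, a2⟩ := (mW x).1 hx
    obtain ⟨b1, b2⟩ := (mV x₁).1 hx₁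
    have hne : x ≠ x₁ := fun e => a2 (e ▸ b2)
    have a0 := sub_ne_zero.2 hne
    by_cases g1 : E x = f x₁
    · exact ⟨.inl x, inl_mem_disjSum.2 hx, rfl, g1⟩
    by_cases g2 : E x - f x₁ = gam f (x - x₁)
    · refine ⟨.inr (.inl (x - x₁)), inr_mem_disjSum.2 (inl_mem_disjSum.2 ((mW _).2
        ⟨a0, fun e => hne (neg_injective (f.injective ?_))⟩)), rfl, g2⟩
      rw [(e1 _).2 e, ← b2, hE, hE] at g2
      linear_combination g2
    obtain ⟨j, j1, j2, j3⟩ : ∃ j, j ≠ 0 ∧ j + (x - x₁) ≠ 0 ∧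
        f (j + (x - x₁)) - f j = E x - f x₁ := by
      by_contra hc
      exact g2 ((h.gam_iff a0).2 ⟨sub_ne_zero.2 g1, fun j u1 u2 u3 => hc ⟨j, u1, u2, u3⟩⟩)
    by_cases g3 : j + (x - x₁) ∈ W
    · refine ⟨.inr (.inr (.inl (x, j + (x - x₁)))), inr_mem_disjSum.2 (inr_mem_disjSum.2
        (inl_mem_disjSum.2 (mem_offDiag.2 ⟨hx, g3, fun e => a2 ?_⟩))), rfl, j, j1,
        add_sub_cancel_left _ _, j3⟩
      have e' : x = j + (x - x₁) := e
      have e2 : j = x₁ := by linear_combination -e'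
      rw [← e', e2] at j3
      linear_combination -j3
    by_cases g4 : j ∈ W
    · exact ⟨.inr (.inr (.inr (x, j, _))), inr_mem_disjSum.2 (inr_mem_disjSum.2
        (inr_mem_disjSum.2 (mem_product.2 ⟨hx, mem_product.2 ⟨g4, mem_univ _⟩⟩))), rfl, _, j2,
        add_sub_cancel_left _ _, j3, rfl⟩
    have u1 : E (j + (x - x₁)) = f (j + (x - x₁)) := not_not.1 fun e => g3 ((mW _).2 ⟨j2, e⟩)
    have u2 : E j = f j := not_not.1 fun e => g4 ((mW _).2 ⟨j1, e⟩)
    exact absurd (SE _ _ _ _ a1 b1 j2 j1 hne (add_sub_cancel_left _ _).symm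
      (by rw [u1, u2, j3, b2]) ▸ hx) g3
  · rintro c hc ⟨x, x₁⟩ ⟨hp, r⟩ ⟨x', x₂⟩ ⟨hq, r'⟩
    obtain ⟨hx, hx₁⟩ : x ∈ W ∧ x₁ ∈ V := mem_product.1 hp
    obtain ⟨hx', hx₂⟩ : x' ∈ W ∧ x₂ ∈ V := mem_product.1 hq
    obtain ⟨a1, a2⟩ := (mW x).1 hx
    obtain ⟨b1, b2⟩ := (mV x₁).1 hx₁
    obtain ⟨b3, b4⟩ := (mV x₂).1 hx₂
    rcases c with c | c | ⟨c, y⟩ | ⟨c, z, β⟩
    · obtain ⟨rfl, s⟩ : c = x ∧ E x = f x₁ := r
      obtain ⟨rfl, s'⟩ : c = x' ∧ E x' = f x₂ := r'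
      rw [f.injective (s.symm.trans s')]
    · obtain ⟨t, s⟩ : c = x - x₁ ∧ E x - f x₁ = gam f c := r
      obtain ⟨t', s'⟩ : c = x' - x₂ ∧ E x' - f x₂ = gam f c := r'
      obtain rfl := SE x x₁ x' x₂ a1 b1 ((mW x').1 hx').1 b3 (fun e => a2 (e ▸ b2))
        (t.symm.trans t') (by rw [b2, b4, s, s'])
      rw [sub_right_injective (t.symm.trans t')]
    · obtain ⟨rfl, z, s1, s2, s3⟩ : c = x ∧ ∃ z, z ≠ 0 ∧ y - z = c - x₁ ∧
        f y - f z = E c - f x₁ := r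
      obtain ⟨rfl, z', t1, t2, t3⟩ : c = x' ∧ ∃ z, z ≠ 0 ∧ y - z = c - x₂ ∧
        f y - f z = E c - f x₂ := r'
      have hy : c ≠ y := (mem_offDiag.1 (inl_mem_disjSum.1 (inr_mem_disjSum.1
        (inr_mem_disjSum.1 hc)))).2.2
      obtain rfl := h.2 z x₁ z' x₂ s1 b1 t1 b3 (fun e => hy (by linear_combination -s2 - e))
        (by linear_combination t2 - s2) (by linear_combination t3 - s3)
      rw [sub_right_injective (s2.symm.trans t2)]
    · obtain ⟨rfl, y, s1, s2, s3, s4⟩ : c = x ∧ ∃ y, y ≠ 0 ∧ y - z = c - x₁ ∧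
        f y - f z = E c - f x₁ ∧ β = decide (x₁.val < y.val) := r
      obtain ⟨rfl, y', t1, t2, t3, t4⟩ : c = x' ∧ ∃ y, y ≠ 0 ∧ y - z = c - x₂ ∧
        f y - f z = E c - f x₂ ∧ β = decide (x₂.val < y.val) := r'
      by_cases g : y = y'
      · rw [sub_right_injective (s2.symm.trans (g ▸ t2))]
      obtain rfl := h.2 y y' x₂ x₁ s1 t1 b3 b1 g (by linear_combination s2 - t2)
        (by linear_combination s3 - t3)
      obtain rfl : x₁ = y' := by linear_combination s2 - t2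
      have u := decide_eq_decide.1 (s4.symm.trans t4)
      exact absurd (ZMod.val_injective N (by omega)) g

end Pool.Agent.MP_dcfa1b_co.Pp

end

section

/-! The multiplier theorem. -/

set_option autoImplicit false
open Finset

namespace Pool.Agent.MP_dcfa1b_co.Pp

namespace Mul

theorem frob {G ι : Type} [AddCommGroup G] [Fintype G] (S : Finset ι) (e : ι → G) (p : ℕ)
    [Fact p.Prime] (φ : G → ZMod p) (g : G) :
    (fun (ψ : G → ZMod p) (g : G) => ∑ x ∈ S, ψ (-e x + g))^[p] φ g =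
      ∑ x ∈ S, φ (-(p • e x) + g) := by
  have : CharP (AddMonoidAlgebra (ZMod p) G) p :=
    charP_of_injective_algebraMap (algebraMap (ZMod p) _).injective p
  have h1 : ∀ (e : ι → G) (y : AddMonoidAlgebra (ZMod p) G) (g : G),
      ((∑ x ∈ S, AddMonoidAlgebra.single (e x) (1 : ZMod p)) * y).coeff g =
        ∑ x ∈ S, y.coeff (-e x + g) := fun e y g => by
    rw [sum_mul, AddMonoidAlgebra.coeff_sum, Finsupp.finsetSum_apply]
    exact sum_congr rfl fun x _ => by rw [AddMonoidAlgebra.coeff_single_mul_apply, one_mul]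
  have h2 : ∀ (j : ℕ) (y : AddMonoidAlgebra (ZMod p) G),
      ⇑((∑ x ∈ S, AddMonoidAlgebra.single (e x) (1 : ZMod p)) ^ j * y).coeff =
        (fun (ψ : G → ZMod p) (g : G) => ∑ x ∈ S, ψ (-e x + g))^[j] y.coeff := fun j y => by
    induction j with
    | zero => rw [pow_zero, one_mul]; rfl
    | succ j ih =>
      rw [pow_succ', mul_assoc, Function.iterate_succ_apply', ← ih]
      exact funext fun g => h1 e _ g
  have h3 := congrFun (h2 p (AddMonoidAlgebra.ofCoeff (Finsupp.equivFunOnFinite.symm φ))) g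
  rw [sum_pow_char] at h3
  simp only [AddMonoidAlgebra.single_pow, one_pow] at h3
  rw [h1] at h3
  exact h3.symm

variable {A : Type} [CommRing A] [Fintype A] [DecidableEq A] {R : Type} [CommRing R]

omit [CommRing A] in
theorem all (ψ : A → A) (h : Function.Injective ψ) (t : A) :
    ∑ x, (if ψ x = t then 1 else 0 : R) = 1 := by
  rw [Fintype.sum_bijective ψ (Finite.injective_iff_bijective.1 h) _
    (fun c => if c = t then (1 : R) else 0) fun _ => rfl]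
  simp

theorem line (ψ : A → A) (h : Function.Injective ψ) (t : A) :
    ∑ x ∈ univ.erase 0, (if ψ x = t then 1 else 0 : R) = 1 - if ψ 0 = t then 1 else 0 := by
  rw [sum_erase_eq_sub (mem_univ _), all ψ h]

theorem line' (ψ : A → A) (h : Set.InjOn ψ (univ.erase (0 : A) : Finset A)) : ∃ c, ∀ t,
    ∑ x ∈ univ.erase 0, (if ψ x = t then 1 else 0 : R) = 1 - if c = t then 1 else 0 := by
  obtain ⟨c, h1, h2⟩ := exists_eq_insert_iff.2 ⟨subset_univ ((univ.erase (0 : A)).image ψ), by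
    rw [card_image_of_injOn h, card_erase_add_one (mem_univ _)]⟩
  refine ⟨c, fun t => ?_⟩
  have h3 := all (R := R) (fun x : A => x) (fun _ _ h => h) t
  rw [← h2, sum_insert h1, sum_image h] at h3
  exact eq_sub_of_add_eq' h3

theorem cst (hN : (Fintype.card A : R) = -1) (r : R) : ∑ _x ∈ univ.erase (0 : A), r = -2 * r := by
  rw [sum_erase_eq_sub (mem_univ _), sum_const, card_univ, nsmul_eq_mul, hN]
  ring

theorem base {f : A ≃ A} {d : A} (h : Sd f) (hg : ∀ a, a ≠ 0 → gam f a = d * a)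
    (hN : (Fintype.card A : R) = -1) (a b : A) :
    ∑ x ∈ univ.erase 0, ∑ y ∈ univ.erase 0, (if x - y = a ∧ f x - f y = b then 1 else 0 : R) =
      1 - ((if 0 = b then 1 else 0) + (if 0 = a then 1 else 0) +
        if 0 = b - d * a then 1 else 0) := by
  rcases eq_or_ne a 0 with rfl | ha
  · have h1 : ∀ x ∈ univ.erase (0 : A), ∑ y ∈ univ.erase 0,
        (if x - y = 0 ∧ f x - f y = b then 1 else 0 : R) = if 0 = b then 1 else 0 := by
      intro x hx
      rw [sum_eq_single_of_mem x hx fun y _ hy => if_neg fun e => hy (sub_eq_zero.1 e.1).symm]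
      simp
    rw [sum_congr rfl h1, cst hN, mul_zero, sub_zero, if_pos rfl]
    ring
  · have h1 : ∀ y ∈ univ.erase (0 : A), ∑ x ∈ univ.erase 0,
        (if x - y = a ∧ f x - f y = b then 1 else 0 : R) =
          if y + a ≠ 0 then (if f (y + a) - f y = b then 1 else 0) else 0 := by
      intro y _
      by_cases hy : y + a = 0
      · rw [if_neg (not_not.2 hy)]
        exact sum_eq_zero fun x hx => if_neg fun e =>
          ne_of_mem_erase hx ((sub_eq_iff_eq_add'.1 e.1).trans hy)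
      · rw [if_pos hy, sum_eq_single_of_mem (y + a) (mem_erase.2 ⟨hy, mem_univ _⟩)
          fun x _ hx => if_neg fun e => hx (sub_eq_iff_eq_add'.1 e.1)]
        simp
    obtain ⟨r1, r2⟩ := row f h.1 ha (h.injOn ha)
    have h2 := line (R := R) (fun x : A => x) (fun _ _ h => h) b
    rw [← r2, sum_insert r1, sum_image (h.injOn ha), hg a ha] at h2
    rw [sum_comm, sum_congr rfl h1, ← sum_filter, if_neg ha.symm]
    have h3 : (0 = b - d * a) ↔ (d * a = b) := by rw [eq_comm, sub_eq_zero, eq_comm]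
    simp only [h3]
    rw [rowS] at h2
    linear_combination h2

theorem step {f : A ≃ A} {d c : A} (f0 : f 0 = 0) (hN : (Fintype.card A : R) = -1)
    (hc : ∀ t, ∑ x ∈ univ.erase 0, (if f x - d * x = t then 1 else 0 : R) =
      1 - if c = t then 1 else 0) (φ : A × A → R)
    (h0 : ∀ g : A × A, φ g = 1 - ((if 0 = g.2 then 1 else 0) + (if 0 = g.1 then 1 else 0) +
      if 0 = g.2 - d * g.1 then 1 else 0)) (j : ℕ) (g : A × A) :
    (fun (ψ : A × A → R) (g : A × A) => ∑ x ∈ univ.erase (0 : A), ψ (-(x, f x) + g))^[j] φ g =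
      4 * (-2) ^ j - 3 * (-1) ^ j - (-1) ^ j * ((if 0 = g.2 then 1 else 0) +
        (if 0 = g.1 then 1 else 0) + if j * c = g.2 - d * g.1 then 1 else 0) := by
  induction j generalizing g with
  | zero => rw [Function.iterate_zero_apply, h0, Nat.cast_zero, zero_mul]; ring
  | succ j ih =>
    rw [Function.iterate_succ_apply']
    simp only [ih]
    have e1 : ∀ x : A, (0 = (-(x, f x) + g).2) ↔ (f x = g.2) := fun x => by
      rw [Prod.snd_add, Prod.snd_neg, eq_neg_add_iff_add_eq, add_zero]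
    have e2 : ∀ x : A, (0 = (-(x, f x) + g).1) ↔ (x = g.1) := fun x => by
      rw [Prod.fst_add, Prod.fst_neg, eq_neg_add_iff_add_eq, add_zero]
    have e3 : ∀ x : A, (j * c = (-(x, f x) + g).2 - d * (-(x, f x) + g).1) ↔
        (f x - d * x = g.2 - d * g.1 - j * c) := fun x => by
      rw [Prod.snd_add, Prod.snd_neg, Prod.fst_add, Prod.fst_neg]
      exact ⟨fun h => by linear_combination h, fun h => by linear_combination h⟩
    have e4 : (((j + 1 : ℕ) : A) * c = g.2 - d * g.1) ↔ (c = g.2 - d * g.1 - j * c) := by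
      rw [Nat.cast_succ]
      exact ⟨fun h => by linear_combination h, fun h => by linear_combination h⟩
    simp only [e1, e2, e3, e4]
    rw [sum_sub_distrib, cst hN, ← mul_sum, sum_add_distrib, sum_add_distrib, hc,
      line f f.injective, line (fun x : A => x) (fun _ _ h => h), f0]
    ring

theorem key {f : A ≃ A} {d : A} (h : Sd f) (hg : ∀ a, a ≠ 0 → gam f a = d * a) (p : ℕ)
    [Fact p.Prime] (hN : (Fintype.card A : ZMod p) = -1) : ∃ c : A, ∀ a b : A,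
    ∑ x ∈ univ.erase 0, ∑ y ∈ univ.erase 0,
      (if p * x - y = a ∧ p * f x - f y = b then 1 else 0 : ZMod p) =
      1 - ((if 0 = b then 1 else 0) + (if 0 = a then 1 else 0) +
        if c = b - d * a then 1 else 0) := by
  obtain ⟨c, hc⟩ := line' (R := ZMod p) (fun x => f x - d * x) fun x hx y hy e => by
    by_contra hne
    have ha : x - y ≠ 0 := sub_ne_zero.2 hne
    refine ((h.gam_iff ha).1 (hg _ ha).symm).2 y (ne_of_mem_erase hy)
      (by rw [add_sub_cancel]; exact ne_of_mem_erase hx) ?_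
    rw [add_sub_cancel]
    linear_combination e
  obtain ⟨k, hk⟩ : ∃ k, p = k + 1 := ⟨p - 1, by have := (Fact.out : p.Prime).pos; omega⟩
  refine ⟨k * c, fun a b => ?_⟩
  have h1 := frob (univ.erase (0 : A)) (fun x => (x, f x)) p
    (fun g => ∑ y ∈ univ.erase (0 : A), if -y = g.1 ∧ -f y = g.2 then 1 else 0) (a, b)
  have h2 := step h.1 hN hc (fun g => ∑ x ∈ univ.erase (0 : A), ∑ y ∈ univ.erase (0 : A),
    if -y = (-(x, f x) + g).1 ∧ -f y = (-(x, f x) + g).2 then 1 else 0) (fun g => by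
      rw [← base h hg hN]
      refine sum_congr rfl fun x _ => sum_congr rfl fun y _ => if_congr (and_congr ?_ ?_) rfl rfl
      · rw [Prod.fst_add, Prod.fst_neg, eq_neg_add_iff_add_eq, sub_eq_add_neg]
      · rw [Prod.snd_add, Prod.snd_neg, eq_neg_add_iff_add_eq, sub_eq_add_neg]) k (a, b)
  have h3 : ∀ (T : (A × A → ZMod p) → A × A → ZMod p) φ, T^[p] φ = T^[k] (T φ) := fun T φ =>
    (congrArg (fun n => T^[n] φ) hk).trans (Function.iterate_succ_apply T k φ)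
  have h4 : ∀ z : ZMod p, z ^ k * z = z := fun z => by rw [← pow_succ, ← hk, ZMod.pow_card]
  rw [h3, h2] at h1
  have h5 : (-1 : ZMod p) ^ k = 1 := by linear_combination -h4 (-1)
  rw [h5] at h1
  refine Eq.trans (sum_congr rfl fun x _ => sum_congr rfl fun y _ =>
    if_congr (and_congr ?_ ?_) rfl rfl) (h1.symm.trans (by linear_combination -2 * h4 (-2)))
  · rw [Prod.fst_add, Prod.fst_neg, eq_neg_add_iff_add_eq, sub_eq_add_neg, Prod.smul_fst,
      nsmul_eq_mul]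
  · rw [Prod.snd_add, Prod.snd_neg, eq_neg_add_iff_add_eq, sub_eq_add_neg, Prod.smul_snd,
      nsmul_eq_mul]

end Mul

open _root_.Pool.Agent.MP_dcfa1b_co.Pp.Mul in
theorem s_Mul : StMul := by
  intro N _ f d p h hd hg hp hdv x
  have := Fact.mk hp
  obtain ⟨m, hm⟩ := hdv
  have hN : (Fintype.card (ZMod N) : ZMod p) = -1 := by
    have := congrArg (Nat.cast : ℕ → ZMod p) hm
    rw [Nat.cast_mul, ZMod.natCast_self, zero_mul, Nat.cast_succ] at this
    rw [ZMod.card]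
    exact eq_neg_of_add_eq_zero_left this
  have hu : IsUnit (p : ZMod N) := by
    have := congrArg (Nat.cast : ℕ → ZMod N) hm
    rw [Nat.cast_mul, Nat.cast_succ, ZMod.natCast_self, zero_add] at this
    exact IsUnit.of_mul_eq_one _ this.symm
  obtain ⟨c, hc⟩ := key h hg p hN
  rcases eq_or_ne x 0 with rfl | hx
  · rw [mul_zero, h.1, mul_zero]
  by_contra hne
  obtain ⟨b, hb⟩ : ∃ b, b = (p : ZMod N) * f x - f (p * x) := ⟨_, rfl⟩
  have b0 : 0 ≠ b := fun e => hne (sub_eq_zero.1 (hb ▸ e.symm)).symm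
  obtain ⟨z, hz⟩ : ∃ z : ZMod N → ℤ, ∀ a, z a = ∑ x ∈ univ.erase 0, ∑ y ∈ univ.erase 0,
    (if p * x - y = a ∧ p * f x - f y = b then 1 else 0 : ℤ) := ⟨_, fun _ => rfl⟩
  obtain ⟨u, hu'⟩ : ∃ u : ZMod N → ℤ, ∀ a, u a = 1 - ((if 0 = a then 1 else 0) +
    if c = b - d * a then 1 else 0) := ⟨_, fun _ => rfl⟩
  have z0 : ∀ a, 0 ≤ z a := fun a => by
    rw [hz]
    exact sum_nonneg fun _ _ => sum_nonneg fun _ _ => by split_ifs <;> norm_num
  have h1 : ∀ a, 0 ≤ z a - u a := fun a => by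
    have e1 : ((z a - u a : ℤ) : ZMod p) = 0 := by
      have := hc a b
      rw [if_neg b0, zero_add] at this
      rw [hz, hu']
      push_cast
      rw [this, sub_self]
    have e2 : u a ≤ 1 := by
      rw [hu']
      split_ifs <;> norm_num
    by_contra e3
    have e4 : z a - u a = -1 := by have := z0 a; omega
    rw [e4, Int.cast_neg, Int.cast_one, neg_eq_zero] at e1
    exact one_ne_zero e1
  have h2 : ∑ a, z a = Fintype.card (ZMod N) - 2 := by
    have e1 : ∀ x y : ZMod N, ∑ a, (if p * x - y = a ∧ p * f x - f y = b then 1 else 0 : ℤ) =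
        if p * f x - f y = b then 1 else 0 := fun x y => by
      rw [Fintype.sum_eq_single (p * x - y) fun a ha => if_neg fun e => ha e.1.symm]
      simp
    have e2 : ∀ x : ZMod N, ∑ y ∈ univ.erase 0, (if p * f x - f y = b then 1 else 0 : ℤ) =
        1 - if p * f x = b then 1 else 0 := fun x => by
      rw [line (fun y => p * f x - f y) fun _ _ e => f.injective (sub_right_injective e), h.1,
        sub_zero]
    simp only [hz]
    rw [sum_comm, sum_congr rfl fun x _ => sum_comm]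
    simp only [e1, e2]
    rw [sum_sub_distrib, line (fun x => p * f x) fun _ _ e => f.injective (hu.mul_left_cancel e),
      h.1, mul_zero, if_neg b0, sum_erase_eq_sub (mem_univ _), sum_const, card_univ]
    simp only [nsmul_eq_mul]
    ring
  have h3 : ∑ a, u a = Fintype.card (ZMod N) - 2 := by
    simp only [hu', eq_comm (a := c), eq_comm (a := (0 : ZMod N))]
    rw [sum_sub_distrib, sum_add_distrib, all (fun a => a) fun _ _ e => e,
      all (fun a => b - d * a) fun _ _ e => hd.mul_left_cancel (sub_right_injective e),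
      sum_const, card_univ]
    simp only [nsmul_eq_mul]
    ring
  have h4 := (sum_eq_zero_iff_of_nonneg fun a _ => h1 a).1
    (by rw [sum_sub_distrib, h2, h3, sub_self]) 0 (mem_univ _)
  have h5 : u 0 ≤ 0 := by
    rw [hu', if_pos rfl]
    split_ifs <;> norm_num
  have h6 : 1 ≤ z 0 := by
    have px : (p : ZMod N) * x ≠ 0 := fun e => hx (hu.mul_left_cancel (e.trans (mul_zero _).symm))
    rw [hz]
    refine le_trans (le_trans ?_ (single_le_sum (fun _ _ => by split_ifs <;> norm_num)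
      (mem_erase.2 ⟨px, mem_univ _⟩))) (single_le_sum (fun _ _ => sum_nonneg fun _ _ => by
        split_ifs <;> norm_num) (mem_erase.2 ⟨hx, mem_univ _⟩))
    rw [if_pos ⟨sub_self _, hb.symm⟩]
  omega

end Pool.Agent.MP_dcfa1b_co.Pp

end

section

/-! The two order restrictions that follow from the multiplier theorem. -/

set_option autoImplicit false
open Finset

namespace Pool.Agent.MP_dcfa1b_co.Pp

namespace T

variable {N : ℕ}

/-- multipliers -/
def Mu (f : ZMod N ≃ ZMod N) (t : ZMod N) : Prop := IsUnit t ∧ ∀ x, f (t * x) = t * f x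

theorem Mu.mul {f : ZMod N ≃ ZMod N} {s t : ZMod N} (hs : Mu f s) (ht : Mu f t) : Mu f (s * t) :=
  ⟨hs.1.mul ht.1, fun x => by rw [mul_assoc, hs.2, ht.2, mul_assoc]⟩

theorem Mu.pow {f : ZMod N ≃ ZMod N} {t : ZMod N} (ht : Mu f t) (k : ℕ) : Mu f (t ^ k) := by
  induction k with
  | zero => exact ⟨by simp, fun x => by simp⟩
  | succ k ih => rw [pow_succ]; exact ih.mul ht

theorem unit {p : ℕ} (hp : p ∣ N + 1) : IsUnit (p : ZMod N) := by
  obtain ⟨c, hc⟩ := hp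
  refine IsUnit.of_mul_eq_one (c : ZMod N) ?_
  rw [← Nat.cast_mul, ← hc]
  simp

theorem one [NeZero N] {f : ZMod N ≃ ZMod N} (h : Sd f) {t u : ZMod N} (ht : Mu f t) {e m : ℕ}
    (hN : N = e * m) (hm : m ≤ e) (hu : t - 1 = e * u) : t = 1 := by
  by_contra h1
  have m0 : m ≠ 0 := fun h => NeZero.ne N (by rw [hN, h, mul_zero])
  have em : (e : ZMod N) * m = 0 := by rw [← Nat.cast_mul, ← hN, ZMod.natCast_self]
  have d1 : ∀ j : ℕ, t * (1 + m * j) - (1 + m * j) = t - 1 := fun j => by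
    linear_combination (m * j : ZMod N) * hu + (u * j) * em
  have d2 : ∀ j : ℕ, t * (1 + m * j) ≠ 1 + m * j := fun j hj =>
    h1 (sub_eq_zero.1 ((d1 j).symm.trans (sub_eq_zero.2 hj)))
  have d3 : ∀ j : ℕ, (1 + m * j : ZMod N) ≠ 0 := fun j hj => d2 j (by rw [hj, mul_zero])
  have d4 : ∀ j : ℕ, t * (1 + m * j) ≠ 0 := fun j hj => d3 j (ht.1.mul_right_eq_zero.1 hj)
  have d5 : ∀ x, f (t * x) - f x = e * (((u * f x).val % m : ℕ) : ZMod N) := fun x => by
    have a1 : (m : ZMod N) * (((u * f x).val / m : ℕ) : ZMod N) +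
        (((u * f x).val % m : ℕ) : ZMod N) = u * f x := by
      rw [← Nat.cast_mul, ← Nat.cast_add, Nat.div_add_mod, ZMod.natCast_zmod_val]
    rw [ht.2]
    linear_combination f x * hu - (e : ZMod N) * a1 + (((u * f x).val / m : ℕ) : ZMod N) * em
  have := card_le_card_of_injOn (s := range e) (t := Ico 1 m)
    (fun j : ℕ => (u * f (1 + m * j)).val % m) (fun j _ => ?_) fun j hj j' hj' he => ?_
  · rw [card_range, Nat.card_Ico] at this
    omega
  · refine mem_coe.2 (mem_Ico.2 ⟨Nat.pos_of_ne_zero fun h0 => ?_, Nat.mod_lt _ (by omega)⟩)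
    have := d5 (1 + m * j)
    replace h0 : (u * f (1 + m * j)).val % m = 0 := h0
    rw [h0, Nat.cast_zero, mul_zero, sub_eq_zero] at this
    exact d2 j (f.injective this)
  · have a1 := h.2 _ _ _ _ (d4 j) (d3 j) (d4 j') (d3 j') (d2 j) ((d1 j).trans (d1 j').symm)
      (by rw [d5, d5]; exact congrArg (fun i : ℕ => (e : ZMod N) * i) he)
    have a2 := add_left_cancel (ht.1.mul_left_cancel a1)
    rw [← Nat.cast_mul, ← Nat.cast_mul, ZMod.natCast_eq_natCast_iff, hN, mul_comm e] at a2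
    exact (a2.mul_left_cancel' m0).eq_of_lt_of_lt (mem_range.1 hj) (mem_range.1 hj')

theorem two [NeZero N] {f : ZMod N ≃ ZMod N} (h : Sd f) (h1 : N ≠ 1) {ι : Type} (S : Finset ι)
    (φ : ι → ZMod N) (hφ : ∀ i, Mu f (φ i)) (hi : Set.InjOn φ S) :
    S.card * S.card < N + S.card := by
  classical
  have : Nontrivial (ZMod N) := ZMod.nontrivial_iff.2 h1
  have a1 : ∀ i, f (φ i) = φ i * f 1 := fun i => by rw [← (hφ i).2, mul_one]
  have := card_le_card_of_injOn (s := S.offDiag) (t := univ.erase 0)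
    (fun q => φ q.1 - φ q.2) (fun q hq => ?_) fun q hq q' hq' he => ?_
  · rw [offDiag_card, card_erase_of_mem (mem_univ _), card_univ, ZMod.card] at this
    have := NeZero.pos N
    omega
  · obtain ⟨b1, b2, b3⟩ := mem_offDiag.1 hq
    exact mem_coe.2 (mem_erase.2 ⟨sub_ne_zero.2 fun e => b3 (hi b1 b2 e), mem_univ _⟩)
  · obtain ⟨b1, b2, b3⟩ := mem_offDiag.1 hq
    obtain ⟨c1, c2, -⟩ := mem_offDiag.1 hq'
    replace he : φ q.1 - φ q.2 = φ q'.1 - φ q'.2 := he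
    have a2 := h.2 _ _ _ _ (hφ _).1.ne_zero (hφ _).1.ne_zero (hφ _).1.ne_zero (hφ _).1.ne_zero
      (fun e => b3 (hi b1 b2 e)) he (by rw [a1, a1, a1, a1, ← sub_mul, ← sub_mul, he])
    rw [a2, sub_right_inj] at he
    exact Prod.ext (hi b1 c1 a2) (hi b2 c2 he)

end T

theorem s_T : StT := by
  intro N _ f h hp
  have mu : ∀ p : ℕ, p.Prime → p ∣ N + 1 → T.Mu f p := fun p h1 h2 => ⟨T.unit h2, hp p h1 h2⟩
  refine ⟨fun p e m k h1 h2 hN hm hk => ?_, fun p₁ p₂ t h1 h2 d1 d2 hT => ?_⟩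
  · obtain ⟨c, hc⟩ := hk.symm.dvd
    have a1 := congrArg (Int.cast : ℤ → ZMod N) hc
    push_cast at a1
    have a2 := T.one h ((mu p h1 h2).pow k) hN hm a1
    rw [← ZMod.natCast_eq_natCast_iff]
    push_cast
    exact a2
  · have N0 := NeZero.pos N
    have t0 : t ≠ 0 := by
      rintro rfl
      omega
    by_cases hN : N = 1
    · exact ⟨0, 0, by omega, by omega, by omega, hN ▸ Nat.modEq_one⟩
    by_cases hi : Set.InjOn (fun q : ℕ × ℕ => (p₁ : ZMod N) ^ q.1 * (p₂ : ZMod N) ^ q.2)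
        (range (t + 1) ×ˢ range (t + 1) : Finset (ℕ × ℕ))
    · have := T.two h hN _ _
        (fun q : ℕ × ℕ => ((mu p₁ h1 d1).pow q.1).mul ((mu p₂ h2 d2).pow q.2)) hi
      rw [card_product, card_range] at this
      have e : (t + 1) * (t + 1) * ((t + 1) * (t + 1)) =
          t ^ 4 + (t + 1) * (t + 1) + (4 * t ^ 3 + 5 * t ^ 2 + 2 * t) := by ring
      omega
    · unfold Set.InjOn at hi
      push Not at hi
      obtain ⟨⟨a, b⟩, hq, ⟨a', b'⟩, hq', he, hne⟩ := hi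
      simp only [mem_coe, mem_product, mem_range] at hq hq' he
      obtain ⟨r, hr⟩ := Nat.exists_eq_add_of_le (Nat.le_of_lt_succ hq'.1)
      obtain ⟨s, hs⟩ := Nat.exists_eq_add_of_le (Nat.le_of_lt_succ hq'.2)
      refine ⟨a + r, b + s, by omega, by omega, fun hh => hne (Prod.ext ?_ ?_), ?_⟩
      · show a = a'
        omega
      · show b = b'
        omega
      · rw [← ZMod.natCast_eq_natCast_iff]
        push_cast
        have e1 : (p₁ : ZMod N) ^ t = p₁ ^ a' * p₁ ^ r := by rw [← pow_add, ← hr]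
        have e2 : (p₂ : ZMod N) ^ t = p₂ ^ b' * p₂ ^ s := by rw [← pow_add, ← hs]
        rw [mul_pow, e1, e2, pow_add, pow_add]
        linear_combination ((p₁ : ZMod N) ^ r * (p₂ : ZMod N) ^ s) * he

end Pool.Agent.MP_dcfa1b_co.Pp

end

section

/-! The exceptional sets cover the orders that are not prime powers minus one. -/

set_option autoImplicit false
open Finset

namespace Pool.Agent.MP_dcfa1b_co.Pp

namespace Cov

lemma dvd_totient {r e : ℕ} (hr : r.Prime) (he : e ≠ 0) (h : r ∣ e.totient) :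
    r ^ 2 ∣ e ∨ ∃ l : ℕ, l.Prime ∧ l ∣ e ∧ r ∣ l - 1 := by
  rw [Nat.totient_eq_prod_factorization he, Finsupp.prod] at h
  obtain ⟨q, hq, h⟩ := hr.prime.exists_mem_finset_dvd h
  rw [Nat.support_factorization] at hq
  have hp := Nat.prime_of_mem_primeFactors hq
  rcases (Nat.Prime.dvd_mul hr).1 h with h | h
  · left
    have h1 : r = q := (Nat.prime_dvd_prime_iff_eq hr hp).1 (hr.dvd_of_dvd_pow h)
    subst h1
    rw [hr.pow_dvd_iff_le_factorization he]
    by_contra hc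
    rw [show e.factorization r - 1 = 0 by omega, pow_zero, Nat.dvd_one] at h
    exact hr.one_lt.ne' h
  · exact Or.inr ⟨q, hp, Nat.dvd_of_mem_primeFactors hq, h⟩

lemma lt_sq {R y N l : ℕ} (hR : R ≤ y ^ 4) (hN : 1 ≤ N) (hp : ¬ (N + 1).Prime) (hG : Good N)
    (h1 : ¬ E1 R N) (h2 : ¬ E2 y N) (h3 : ¬ E3 R N) (h4 : ¬ E4 R y N) (hl : l.Prime) (hd : l ∣ N)
    (hy : y ^ 4 < l) : N < l ^ 2 := by
  by_contra hc
  rw [not_lt] at hc
  have pp : (N + 1).minFac.Prime := Nat.minFac_prime (by omega)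
  have pd : (N + 1).minFac ∣ N + 1 := Nat.minFac_dvd _
  have ps : (N + 1).minFac ^ 2 ≤ N + 1 := Nat.minFac_sq_le_self (by omega) hp
  generalize (N + 1).minFac = p at pp pd ps
  have pc : p.Coprime N :=
    Nat.Coprime.coprime_dvd_left pd (by simp)
  obtain ⟨e, he⟩ : ∃ e, N = e * l := ⟨N / l, (Nat.div_mul_cancel hd).symm⟩
  have eN : e ∣ N := ⟨l, he⟩
  have e0 : e ≠ 0 := fun h => by simp [h] at he; omega
  have le : l ≤ e := by
    rw [he, pow_two] at hc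
    exact Nat.le_of_mul_le_mul_right hc hl.pos
  have nd : ¬ l ∣ e := fun h => h1 ⟨l, by omega, by
    rw [he, pow_two]
    exact Nat.mul_dvd_mul_right h l⟩
  have a1 : p ^ e.totient ≡ 1 [MOD l] :=
    (hG.1 p e l _ pp pd he le (Nat.ModEq.pow_totient (pc.coprime_dvd_right eN))).of_dvd hd
  have := Fact.mk hl
  have cast : ∀ k : ℕ, p ^ k ≡ 1 [MOD l] ↔ (p : ZMod l) ^ k = 1 := fun k => by
    rw [← ZMod.natCast_eq_natCast_iff]
    push_cast
    rfl
  have p0 : (p : ZMod l) ≠ 0 := fun h => by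
    have := (ZMod.natCast_eq_zero_iff p l).1 h
    exact hl.one_lt.ne' (Nat.eq_one_of_dvd_coprimes pc this hd)
  have k1 : orderOf (p : ZMod l) ∣ e.totient := orderOf_dvd_of_pow_eq_one ((cast _).1 a1)
  have k2 : orderOf (p : ZMod l) ∣ l - 1 :=
    orderOf_dvd_of_pow_eq_one (ZMod.pow_card_sub_one_eq_one p0)
  have k3 : p ^ orderOf (p : ZMod l) ≡ 1 [MOD l] := (cast _).2 (pow_orderOf_eq_one _)
  generalize orderOf (p : ZMod l) = k at k1 k2 k3
  have k4 : 1 ≤ k := Nat.pos_of_dvd_of_pos k1 (Nat.totient_pos.2 (Nat.pos_of_ne_zero e0))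
  have k5 : y < k := by
    by_contra h
    have := Nat.pow_le_pow_left (not_lt.1 h) 4
    exact h2 ⟨p, l, k, pp, hl, pd, hd, ps, hc, hy, k4, by omega, k3⟩
  have k6 : ¬ Sm R k := fun h => h4 ⟨l, k, hl, hd, k2, h, k5⟩
  unfold Sm at k6
  push Not at k6
  obtain ⟨r, r1, r2, r3⟩ := k6
  rcases dvd_totient r1 e0 (r2.trans k1) with h | ⟨q, q1, q2, q3⟩
  · exact h1 ⟨r, r3, h.trans eN⟩
  · exact h3 ⟨r, l, q, r3, hl, q1, fun h => nd (h ▸ q2), hd, q2.trans eN, r2.trans k2, q3⟩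

end Cov

theorem s_Cov : StCov := by
  intro x R y z B T N hR hB hz hT hN hx hp hG
  by_contra hc
  simp only [not_or] at hc
  obtain ⟨h0, h1, h2, h3, h4, h5, h6, hA⟩ := hc
  have key : ∀ l : ℕ, l.Prime → l ∣ N → y ^ 4 < l → N < l ^ 2 := fun l a b c =>
    Cov.lt_sq hR hN (fun h => hp h.isPrimePow) hG h1 h2 h3 h4 a b c
  have a0 : x < N * B := not_le.1 h0
  have a1 : B < N := by
    rw [pow_two] at hB
    exact Nat.lt_of_mul_lt_mul_right (hB.trans_lt a0)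
  have a2 : ¬ Sm (y ^ 4) N := fun h => h5 ⟨N, dvd_rfl, h, a1⟩
  unfold Sm at a2
  push Not at a2
  obtain ⟨q, q1, q2, q3⟩ := a2
  obtain ⟨c, hc⟩ := id q2
  have c1 : c ∣ N := ⟨q, by rw [hc, mul_comm]⟩
  have c2 : Sm (y ^ 4) c := fun r r1 r2 => by
    by_contra h
    have b1 := key q q1 q2 q3
    have b2 := key r r1 (r2.trans c1) (not_le.1 h)
    have b3 : q * r ≤ N := Nat.le_of_dvd hN (hc ▸ Nat.mul_dvd_mul_left q r2)
    nlinarith
  have c3 : c ≤ B := not_lt.1 fun h => h5 ⟨c, c1, c2, h⟩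
  have c4 : x < q * B ^ 2 := by
    refine a0.trans_le ?_
    rw [hc, pow_two, ← mul_assoc]
    exact Nat.mul_le_mul_right B (Nat.mul_le_mul_left q c3)
  refine hA ⟨fun l l1 l2 l3 l4 => ?_, fun p₁ p₂ b1 b2 _ _ b3 b4 b5 b6 => ?_⟩
  · rw [hc] at l4
    rcases (Nat.Prime.dvd_mul l1).1 l4 with h | h
    · rw [(Nat.prime_dvd_prime_iff_eq l1 q1).1 h] at l3
      exact absurd (c4.trans_le (Nat.mul_le_mul_right _ l3)) (not_lt.2 hz)
    · exact absurd (c2 l l1 h) (not_le.2 l2)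
  · by_contra h
    obtain ⟨a, b, d1, d2, d3, d4⟩ := hG.2 p₁ p₂ T b1 b2 b5 b6 (hx.trans hT)
    exact h6 ⟨p₁, p₂, a, b, q, b1, b2, h, b3, b4, d1, d2, d3, q1, q2, c4, d4.of_dvd q2⟩

end Pool.Agent.MP_dcfa1b_co.Pp

end

section

/-! Three easy counts. -/

set_option autoImplicit false
open Finset

namespace Pool.Agent.MP_dcfa1b_co.Pp.C013

lemma cover {ι : Type} (S : Finset ι) (D : ι → ℕ) (x : ℕ) (E : ℕ → Prop)
    (h : ∀ N, 1 ≤ N → N ≤ x → E N → ∃ i ∈ S, D i ∣ N) : cnt x E ≤ ∑ i ∈ S, (x : ℝ) / D i := by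
  classical
  have h1 : (Icc 1 x).filter E ⊆ S.biUnion fun i => (Ioc 0 x).filter fun N => D i ∣ N := by
    intro N hN
    obtain ⟨h2, h3⟩ := mem_filter.1 hN
    obtain ⟨h4, h5⟩ := mem_Icc.1 h2
    obtain ⟨i, hi, hd⟩ := h N h4 h5 h3
    exact mem_biUnion.2 ⟨i, hi, mem_filter.2 ⟨mem_Ioc.2 ⟨h4, h5⟩, hd⟩⟩
  have h2 := (card_le_card h1).trans card_biUnion_le
  refine (Nat.cast_le.2 h2).trans ?_
  rw [Nat.cast_sum]
  refine sum_le_sum fun i _ => ?_
  rw [Nat.Ioc_filter_dvd_card_eq_div]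
  exact Nat.cast_div_le

lemma sq {R : ℕ} (x : ℕ) (hR : 1 ≤ R) : ∑ r ∈ Ioc R x, ((r : ℝ) ^ 2)⁻¹ ≤ (R : ℝ)⁻¹ := by
  rcases le_total R x with h | h
  · have := sum_Ioc_inv_sq_le_sub (α := ℝ) (by omega : R ≠ 0) h
    have h2 : (0 : ℝ) ≤ (x : ℝ)⁻¹ := by positivity
    linarith
  · rw [Ioc_eq_empty_of_le h, sum_empty]
    positivity

lemma har (x : ℕ) : ∑ j ∈ Icc 1 x, (j : ℝ)⁻¹ ≤ 1 + Real.log x := by
  have := harmonic_le_one_add_log x
  rw [harmonic_eq_sum_Icc] at this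
  push_cast at this
  exact this

lemma c0 (x B : ℕ) (hB : 1 ≤ B) : cnt x (E0 x B) ≤ x / B := by
  classical
  have h1 : (Icc 1 x).filter (E0 x B) ⊆ Icc 1 (x / B) := fun N hN =>
    mem_Icc.2 ⟨(mem_Icc.1 (mem_filter.1 hN).1).1,
      (Nat.le_div_iff_mul_le hB).2 (mem_filter.1 hN).2⟩
  have h2 := card_le_card h1
  rw [Nat.card_Icc, Nat.add_sub_cancel] at h2
  exact (Nat.cast_le.2 h2).trans Nat.cast_div_le

lemma c1 (x R : ℕ) (hR : 1 ≤ R) : cnt x (E1 R) ≤ x / R := by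
  refine (cover (Ioc R x) (fun r => r ^ 2) x _ ?_).trans ?_
  · rintro N h1 h2 ⟨r, hr, hd⟩
    have := Nat.le_of_dvd h1 hd
    exact ⟨r, mem_Ioc.2 ⟨hr, by nlinarith⟩, hd⟩
  · simp only [div_eq_mul_inv, Nat.cast_pow]
    rw [← mul_sum]
    exact mul_le_mul_of_nonneg_left (sq x hR) (by positivity)

lemma sh {r l N x : ℕ} (hl : l.Prime) (hd : l ∣ N) (h1 : 1 ≤ N) (h2 : N ≤ x) (hr : r ∣ l - 1) :
    r ≤ x ∧ ∃ j ∈ Icc 1 x, l = 1 + r * j := by
  obtain ⟨j, hj⟩ := hr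
  have h3 := hl.two_le
  have h4 := Nat.le_of_dvd h1 hd
  have h5 : 0 < r * j := by omega
  have h6 : r ≤ r * j := Nat.le_mul_of_pos_right _ (Nat.pos_of_mul_pos_left h5)
  have h7 : j ≤ r * j := Nat.le_mul_of_pos_left _ (Nat.pos_of_mul_pos_right h5)
  exact ⟨by omega, j, mem_Icc.2 ⟨Nat.pos_of_mul_pos_left h5, by omega⟩, by omega⟩

lemma c3 (x R : ℕ) (hR : 1 ≤ R) : cnt x (E3 R) ≤ x * (1 + Real.log x) ^ 2 / R := by
  refine (cover (Ioc R x ×ˢ (Icc 1 x ×ˢ Icc 1 x))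
    (fun t => (1 + t.1 * t.2.1) * (1 + t.1 * t.2.2)) x _ ?_).trans ?_
  · rintro N h1 h2 ⟨r, l, l', hr, hl, hl', hne, hd, hd', e, e'⟩
    obtain ⟨a, j, hj, rfl⟩ := sh hl hd h1 h2 e
    obtain ⟨-, j', hj', rfl⟩ := sh hl' hd' h1 h2 e'
    exact ⟨(r, j, j'), mem_product.2 ⟨mem_Ioc.2 ⟨hr, a⟩, mem_product.2 ⟨hj, hj'⟩⟩,
      ((Nat.coprime_primes hl hl').2 hne).mul_dvd_of_dvd_of_dvd hd hd'⟩
  · have h1 : ∀ t ∈ Ioc R x ×ˢ (Icc 1 x ×ˢ Icc 1 x),
        (x : ℝ) / ((1 + t.1 * t.2.1) * (1 + t.1 * t.2.2) : ℕ) ≤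
          x * (((t.1 : ℝ) ^ 2)⁻¹ * ((t.2.1 : ℝ)⁻¹ * (t.2.2 : ℝ)⁻¹)) := by
      rintro ⟨r, j, j'⟩ ht
      simp only [mem_product, mem_Ioc, mem_Icc] at ht
      have a1 : (0 : ℝ) < r := by exact_mod_cast (by omega : 0 < r)
      have a2 : (0 : ℝ) < j := by exact_mod_cast (by omega : 0 < j)
      have a3 : (0 : ℝ) < j' := by exact_mod_cast (by omega : 0 < j')
      rw [← mul_inv, ← mul_inv, ← div_eq_mul_inv]
      push_cast
      refine div_le_div_of_nonneg_left (by positivity) (by positivity) ?_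
      have := mul_pos a1 a2
      have := mul_pos a1 a3
      nlinarith
    refine (sum_le_sum h1).trans ?_
    rw [← mul_sum, sum_product]
    simp only [← mul_sum]
    rw [← sum_mul, sum_product]
    simp only [← mul_sum]
    rw [← sum_mul, mul_div_assoc, div_eq_inv_mul, pow_two (1 + Real.log x)]
    have a1 := sq x hR
    have a2 := har x
    have a3 : (0 : ℝ) ≤ ∑ j ∈ Icc 1 x, (j : ℝ)⁻¹ := by positivity
    have a4 := a3.trans a2
    gcongr

end Pool.Agent.MP_dcfa1b_co.Pp.C013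

namespace Pool.Agent.MP_dcfa1b_co.Pp

theorem s_C013 : St013 := ⟨C013.c0, C013.c1, C013.c3⟩

end Pool.Agent.MP_dcfa1b_co.Pp

end

section

/-! Two counts by the method of Rankin. -/

set_option autoImplicit false
open Finset

namespace Pool.Agent.MP_dcfa1b_co.Pp

namespace C45

lemma harm (x : ℕ) : ∑ j ∈ Icc 1 x, (j : ℝ)⁻¹ ≤ 1 + Real.log x := by
  have h := harmonic_le_one_add_log x
  rw [harmonic_eq_sum_Icc] at h
  push_cast at h
  exact h

lemma mult (x c : ℕ) {s : ℝ} (hs : 0 < s) (hc : s ≤ c) :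
    (((Icc 1 x).filter (c ∣ ·)).card : ℝ) ≤ x * s⁻¹ := by
  have e : Icc 1 x = Ioc 0 x := by
    ext n
    simp only [mem_Icc, mem_Ioc]
    omega
  rw [e, Nat.Ioc_filter_dvd_card_eq_div, ← div_eq_mul_inv]
  exact Nat.cast_div_le.trans (div_le_div_of_nonneg_left (Nat.cast_nonneg x) hs hc)

lemma small {p : ℕ} (hp : p.Prime) {t : ℝ} (ht : t ≤ 1 / 2) : (p : ℝ) ^ (t - 1) ≤ 3 / 4 := by
  have h2 : (2 : ℝ) ≤ p := by exact_mod_cast hp.two_le
  have h3 : (p : ℝ) ^ (t - 1) ≤ (2 : ℝ) ^ (t - 1) :=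
    Real.rpow_le_rpow_of_nonpos two_pos h2 (by linarith)
  have h4 : (2 : ℝ) ^ (t - 1) ≤ (2 : ℝ) ^ (-(1 / 2) : ℝ) :=
    Real.rpow_le_rpow_of_exponent_le one_le_two (by linarith)
  have h5 : ((2 : ℝ) ^ (-(1 / 2) : ℝ)) ^ 2 = 1 / 2 := by
    rw [← Real.rpow_natCast, ← Real.rpow_mul two_pos.le]
    norm_num
  have h6 : (0 : ℝ) ≤ (2 : ℝ) ^ (-(1 / 2) : ℝ) := by positivity
  nlinarith

lemma euler {R : ℕ} {t : ℝ} (ht0 : 0 < t) (ht : t ≤ 1 / 2) (H : Finset ℕ)
    (hH : ∀ h ∈ H, 0 < h ∧ Sm R h) :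
    ∑ h ∈ H, (h : ℝ) ^ (t - 1) ≤ Real.exp (4 * (R : ℝ) ^ t * (1 + Real.log R)) := by
  let f : ℕ →* ℝ :=
    { toFun := fun n => (n : ℝ) ^ (t - 1)
      map_one' := by simp
      map_mul' := fun a b => by
        rw [Nat.cast_mul, Real.mul_rpow (Nat.cast_nonneg a) (Nat.cast_nonneg b)] }
  have hf : ∀ n, f n = (n : ℝ) ^ (t - 1) := fun _ => rfl
  have h0 : ∀ n, 0 ≤ f n := fun n => by rw [hf]; positivity
  have h1 := (EulerProduct.summable_and_hasSum_smoothNumbers_prod_primesBelow_geometric (f := f)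
    (fun {p} hp => by
      rw [Real.norm_of_nonneg (h0 p), hf]
      linarith [small hp ht]) (R + 1)).2
  have h2 := sum_le_hasSum (H.subtype (· ∈ (R + 1).smoothNumbers)) (fun i _ => h0 i) h1
  rw [Finset.sum_subtype_of_mem (fun n => f n) (fun h hh => Nat.mem_smoothNumbers'.2
    fun p hp hd => Nat.lt_succ_of_le ((hH h hh).2 p hp hd))] at h2
  refine h2.trans ?_
  calc ∏ p ∈ (R + 1).primesBelow, (1 - f p)⁻¹
      ≤ ∏ p ∈ (R + 1).primesBelow, Real.exp (4 * (R : ℝ) ^ t * (p : ℝ)⁻¹) := by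
        refine prod_le_prod (fun p hp => ?_) fun p hp => ?_
        · have := small (Nat.prime_of_mem_primesBelow hp) ht
          rw [← hf] at this
          exact inv_nonneg.2 (by linarith)
        · have hp' := Nat.prime_of_mem_primesBelow hp
          have h3 := small hp' ht
          rw [← hf] at h3
          have h4 := h0 p
          have hp0 : (0 : ℝ) < p := by exact_mod_cast hp'.pos
          have h5 : f p ≤ (R : ℝ) ^ t * (p : ℝ)⁻¹ := by
            rw [hf, Real.rpow_sub_one hp0.ne', div_eq_mul_inv]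
            refine mul_le_mul_of_nonneg_right (Real.rpow_le_rpow hp0.le ?_ ht0.le) (by positivity)
            exact_mod_cast Nat.lt_succ_iff.1 (Nat.lt_of_mem_primesBelow hp)
          have h6 : (1 - f p)⁻¹ ≤ 1 + 4 * f p := by
            rw [inv_le_iff_one_le_mul₀ (by linarith)]
            nlinarith
          have h7 := Real.add_one_le_exp (4 * (R : ℝ) ^ t * (p : ℝ)⁻¹)
          linarith
    _ = Real.exp (4 * (R : ℝ) ^ t * ∑ p ∈ (R + 1).primesBelow, (p : ℝ)⁻¹) := by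
        rw [← Real.exp_sum, mul_sum]
    _ ≤ _ := by
        refine Real.exp_le_exp.2 (mul_le_mul_of_nonneg_left (le_trans ?_ (harm R)) (by positivity))
        refine sum_le_sum_of_subset_of_nonneg (fun p hp => mem_Icc.2
          ⟨(Nat.prime_of_mem_primesBelow hp).one_le,
            Nat.lt_succ_iff.1 (Nat.lt_of_mem_primesBelow hp)⟩) fun _ _ _ => by positivity

lemma rankin {R b : ℕ} {t : ℝ} (hb : 1 ≤ b) (ht0 : 0 < t) (ht : t ≤ 1 / 2) (H : Finset ℕ)
    (hH : ∀ h ∈ H, Sm R h ∧ b < h) :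
    ∑ h ∈ H, (h : ℝ)⁻¹ ≤ (b : ℝ) ^ (-t) * Real.exp (4 * (R : ℝ) ^ t * (1 + Real.log R)) := by
  have hb0 : (0 : ℝ) < b := by exact_mod_cast hb
  refine le_trans ?_ (mul_le_mul_of_nonneg_left
    (euler ht0 ht H fun h hh => ⟨by have := (hH h hh).2; omega, (hH h hh).1⟩) (by positivity))
  rw [mul_sum]
  refine sum_le_sum fun h hh => ?_
  have h1 : (b : ℝ) ≤ h := by exact_mod_cast (hH h hh).2.le
  have h2 : (0 : ℝ) < h := hb0.trans_le h1
  have h3 : (h : ℝ)⁻¹ = (h : ℝ) ^ (-t) * (h : ℝ) ^ (t - 1) := by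
    rw [← Real.rpow_add h2, show -t + (t - 1) = -1 by ring, Real.rpow_neg_one]
  rw [h3]
  exact mul_le_mul_of_nonneg_right (Real.rpow_le_rpow_of_nonpos hb0 h1 (by linarith))
    (by positivity)

end C45

open C45 in
theorem s_C45 : St45 := by
  classical
  refine ⟨fun x R y t _ hy ht0 ht => ?_, fun x Y B t _ hB ht0 ht => ?_⟩
  · set H := (Icc 1 x).filter fun h => Sm R h ∧ y < h with hH
    have h1 : (Icc 1 x).filter (E4 R y) ⊆ (H ×ˢ Icc 1 x).biUnion fun q =>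
        (Icc 1 x).filter ((1 + q.1 * q.2) ∣ ·) := by
      intro N hN
      obtain ⟨hN1, l, h, hl, hlN, ⟨j, hj⟩, hs, hyh⟩ := mem_filter.1 hN
      have a1 := hl.two_le
      have a2 : l ≤ x := (Nat.le_of_dvd (mem_Icc.1 hN1).1 hlN).trans (mem_Icc.1 hN1).2
      have a3 : 0 < h * j := by omega
      have a4 : 0 < j := Nat.pos_of_mul_pos_left a3
      have a5 : 0 < h := by omega
      have a6 : h ≤ h * j := Nat.le_mul_of_pos_right h a4
      have a7 : j ≤ h * j := Nat.le_mul_of_pos_left j a5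
      refine mem_biUnion.2 ⟨(h, j), mem_product.2 ⟨mem_filter.2 ⟨mem_Icc.2 ⟨a5, by omega⟩, hs, hyh⟩,
        mem_Icc.2 ⟨a4, by omega⟩⟩, mem_filter.2 ⟨hN1, ?_⟩⟩
      rw [show 1 + h * j = l by omega]
      exact hlN
    have h2 : cnt x (E4 R y) ≤ ∑ q ∈ H ×ˢ Icc 1 x,
        (((Icc 1 x).filter ((1 + q.1 * q.2) ∣ ·)).card : ℝ) := by
      have := (card_le_card h1).trans card_biUnion_le
      unfold cnt
      exact_mod_cast this
    have h3 : ∑ q ∈ H ×ˢ Icc 1 x, (((Icc 1 x).filter ((1 + q.1 * q.2) ∣ ·)).card : ℝ) ≤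
        ∑ q ∈ H ×ˢ Icc 1 x, (x : ℝ) * ((q.1 : ℝ)⁻¹ * (q.2 : ℝ)⁻¹) := by
      refine sum_le_sum fun q hq => ?_
      obtain ⟨b1, b2⟩ := mem_product.1 hq
      have b3 : (0 : ℝ) < q.1 := by exact_mod_cast (mem_Icc.1 (mem_filter.1 b1).1).1
      have b4 : (0 : ℝ) < q.2 := by exact_mod_cast (mem_Icc.1 b2).1
      rw [← mul_inv]
      exact mult x _ (mul_pos b3 b4) (by push_cast; linarith)
    refine (h2.trans h3).trans ?_
    rw [← mul_sum, sum_product' H (Icc 1 x) fun a b => (a : ℝ)⁻¹ * (b : ℝ)⁻¹, ← sum_mul_sum,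
      mul_assoc, mul_comm (1 + Real.log x)]
    refine mul_le_mul_of_nonneg_left (mul_le_mul (rankin hy ht0 ht H fun h hh =>
      (mem_filter.1 hh).2) (harm x) (sum_nonneg fun _ _ => by positivity) (by positivity))
      (Nat.cast_nonneg x)
  · set H := (Icc 1 x).filter fun h => Sm Y h ∧ B < h with hH
    have h1 : (Icc 1 x).filter (E5 Y B) ⊆ H.biUnion fun c => (Icc 1 x).filter (c ∣ ·) := by
      intro N hN
      obtain ⟨hN1, c, hc, hs, hBc⟩ := mem_filter.1 hN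
      have a2 : c ≤ x := (Nat.le_of_dvd (mem_Icc.1 hN1).1 hc).trans (mem_Icc.1 hN1).2
      exact mem_biUnion.2 ⟨c, mem_filter.2 ⟨mem_Icc.2 ⟨by omega, a2⟩, hs, hBc⟩,
        mem_filter.2 ⟨hN1, hc⟩⟩
    have h2 : cnt x (E5 Y B) ≤ ∑ c ∈ H, (((Icc 1 x).filter (c ∣ ·)).card : ℝ) := by
      have := (card_le_card h1).trans card_biUnion_le
      unfold cnt
      exact_mod_cast this
    have h3 : ∑ c ∈ H, (((Icc 1 x).filter (c ∣ ·)).card : ℝ) ≤ ∑ c ∈ H, (x : ℝ) * (c : ℝ)⁻¹ :=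
      sum_le_sum fun c hc =>
        mult x c (by exact_mod_cast (mem_Icc.1 (mem_filter.1 hc).1).1) le_rfl
    rw [← mul_sum] at h3
    exact (h2.trans h3).trans (mul_le_mul_of_nonneg_left
      (rankin hB ht0 ht H fun h hh => (mem_filter.1 hh).2) (Nat.cast_nonneg x))

end Pool.Agent.MP_dcfa1b_co.Pp

end

section

/-! The sieve bound. -/

set_option autoImplicit false
open Finset

namespace Pool.Agent.MP_dcfa1b_co.Pp

namespace CA

/-- the sifted set for a modulus and a block -/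
def SS (x M : ℕ) (B : Finset ℕ) : Finset ℕ :=
  (Icc 1 x).filter fun N => M ∣ N + 1 ∧ ∀ p ∈ B, ¬ p ∣ N ∧ ¬ p ∣ N + 1

theorem one (x z h M : ℕ) (B : Finset ℕ) (c : ℝ) (hM : 0 < M)
    (hB : ∀ p ∈ B, p.Prime ∧ 4 < p ∧ ¬ p ∣ M) (he : Even h) (hz : 1 ≤ z) (hc : B.card ≤ z)
    (h1 : 10 * ∑ p ∈ B, 1 / (p : ℝ) ≤ h) (h2 : c - 1 / 5 ≤ ∑ p ∈ B, 1 / (p : ℝ)) :
    ((SS x M B).card : ℝ) ≤
      4 * (x + 3) * Real.exp (-2 * c) * (1 / M) + (4 * (z : ℝ)) ^ (h + 1) := by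
  classical
  have z1 : (1 : ℝ) ≤ z := by exact_mod_cast hz
  have c1 : (B.card : ℝ) ≤ z := by exact_mod_cast hc
  have e1 : ∑ p ∈ B, ((2 : ℕ) : ℝ) / p = 2 * ∑ p ∈ B, 1 / (p : ℝ) := by
    rw [mul_sum]
    exact sum_congr rfl fun p _ => by push_cast; ring
  have key := (MP_cebb75_nt.X.sieve {0} (fun _ => B) (fun _ => 2) (fun _ => h) (fun _ => 1 / 2)
    (fun _ => 2 * z) M 1 (x + 3) hM (fun _ _ => hB) (fun i hi j hj e => by simp_all)
    (fun _ _ => he) (fun _ _ => by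
      rw [e1]
      refine (Real.exp_le_exp.2 (by linarith : _ ≤ (-1 : ℝ))).trans ?_
      rw [Real.exp_neg, ← one_div]
      exact one_div_le_one_div_of_le two_pos (by linarith [Real.add_one_le_exp (1 : ℝ)]))
    (by simp) (fun _ _ => by linarith) (fun _ _ => by push_cast; linarith)).1
  have hV : MP_cebb75_nt.X.VV {0} (fun _ => B) (fun _ => 2) ≤ 2 * Real.exp (-2 * c) := by
    rw [MP_cebb75_nt.X.VV, prod_singleton]
    calc _ ≤ ∏ p ∈ B, Real.exp (-(((2 : ℕ) : ℝ) / p)) := prod_le_prod (fun p hp => by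
            have : (4 : ℝ) < p := by exact_mod_cast (hB p hp).2.1
            rw [sub_nonneg, div_le_one (by linarith)]
            push_cast
            linarith) fun p _ => by linarith [Real.add_one_le_exp (-(((2 : ℕ) : ℝ) / p))]
      _ ≤ Real.exp (2 / 5) * Real.exp (-2 * c) := by
          rw [← Real.exp_sum, sum_neg_distrib, e1, ← Real.exp_add]
          exact Real.exp_le_exp.2 (by linarith)
      _ ≤ _ := by
          refine mul_le_mul_of_nonneg_right ?_ (Real.exp_pos _).le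
          have := Real.exp_bound_div_one_sub_of_interval (by norm_num : (0 : ℝ) ≤ 2 / 5)
            (by norm_num)
          linarith [show (1 : ℝ) / (1 - 2 / 5) ≤ 2 by norm_num]
  rw [prod_singleton] at key
  refine le_trans (le_trans (Nat.cast_le.2 (card_le_card_of_injOn (· + 2) (fun N hN => ?_)
    fun a _ b _ e => by simpa using e)) key) ?_
  · obtain ⟨a1, a2, a3⟩ := mem_filter.1 (mem_coe.1 hN)
    have := (mem_Icc.1 a1).2
    refine mem_coe.2 ((@mem_filter _ _ (_) _ _).2 ⟨mem_range.2 (show N + 2 < x + 3 by omega),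
      ((Nat.modEq_iff_dvd' (show 1 ≤ N + 2 by omega)).2 a2).symm, fun i _ p hp hm => ?_⟩)
    have e := Nat.div_add_mod (N + 2) p
    have : 1 ≤ (N + 2) % p ∧ (N + 2) % p ≤ 2 := mem_Icc.1 hm
    by_cases e2 : (N + 2) % p = 1
    · exact (a3 p hp).2 ⟨(N + 2) / p, by omega⟩
    · exact (a3 p hp).1 ⟨(N + 2) / p, by omega⟩
  · have := mul_le_mul_of_nonneg_left hV (by positivity : (0 : ℝ) ≤ ((x + 3 : ℕ) : ℝ) / M)
    rw [show (2 : ℝ) * (2 * z) = 4 * z by ring]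
    push_cast at this ⊢
    rw [div_eq_mul_one_div] at this ⊢
    linarith

end CA

open CA in
theorem s_CA : StA := by
  classical
  intro x Y z h c hY hz hc hl he hh
  have Y0 : 0 < 30 * Real.log Y :=
    mul_pos (by norm_num) (Real.log_pos (by exact_mod_cast (by omega : 1 < Y)))
  obtain ⟨P, hP, s1, s2⟩ := MP_cebb75_nt.exists_sub (MP_fdd1d3_nt.PP Y z) (fun p => 1 / (p : ℝ))
    (fun p hp => by
      rw [div_le_one (by exact_mod_cast ((MP_fdd1d3_nt.mem_PP _ _ _).1 hp).2.pos)]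
      exact_mod_cast ((MP_fdd1d3_nt.mem_PP _ _ _).1 hp).2.pos) c hc
    (Real.exp_le_exp.1 (le_of_mul_le_mul_left
      (hl.trans (MP_cebb75_nt.mertens_low Y z (by omega))) Y0))
  have hp : ∀ p ∈ P, (Y < p ∧ p ≤ z) ∧ p.Prime := fun p h => (MP_fdd1d3_nt.mem_PP _ _ _).1 (hP h)
  have cP : P.card ≤ z := by
    refine (card_le_card (fun p h => mem_Icc.2 ⟨(hp p h).2.pos, (hp p h).1.2⟩ :
      P ⊆ Icc 1 z)).trans (by simp)
  have cov : ∀ N ∈ Icc 1 x, EA Y z N → N ∈ SS x 1 P ∪ P.biUnion fun p => SS x p (P.erase p) := by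
    rintro N hN ⟨a1, a2⟩
    by_cases e : ∃ p ∈ P, p ∣ N + 1
    · obtain ⟨p, b1, b2⟩ := e
      refine mem_union_right _ (mem_biUnion.2 ⟨p, b1, mem_filter.2 ⟨hN, b2, fun q hq => ?_⟩⟩)
      obtain ⟨q1, q2⟩ := mem_erase.1 hq
      exact ⟨a1 q (hp q q2).2 (hp q q2).1.1 (hp q q2).1.2, fun e => q1 (a2 q p (hp q q2).2
        (hp p b1).2 (hp q q2).1.1 (hp p b1).1.1 (hp q q2).1.2 (hp p b1).1.2 e b2)⟩
    · exact mem_union_left _ (mem_filter.2 ⟨hN, one_dvd _, fun q hq =>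
        ⟨a1 q (hp q hq).2 (hp q hq).1.1 (hp q hq).1.2, fun e' => e ⟨q, hq, e'⟩⟩⟩)
  have h0 := one x z h 1 P c one_pos (fun p h => ⟨(hp p h).2, by have := (hp p h).1.1; omega,
    (hp p h).2.not_dvd_one⟩) he hz cP (by linarith) (by linarith)
  have h1 : ∑ p ∈ P, ((SS x p (P.erase p)).card : ℝ) ≤ ∑ p ∈ P,
      (4 * (x + 3) * Real.exp (-2 * c) * (1 / p) + (4 * (z : ℝ)) ^ (h + 1)) :=
    sum_le_sum fun p b => by
      have p5 : (5 : ℝ) ≤ p := by exact_mod_cast (by have := (hp p b).1.1; omega : 5 ≤ p)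
      have p6 := one_div_le_one_div_of_le (by norm_num) p5
      have p7 : (0 : ℝ) ≤ 1 / p := by positivity
      refine one x z h p _ c (hp p b).2.pos (fun q hq => ?_) he hz (card_erase_le.trans cP)
        (by rw [sum_erase_eq_sub b]; linarith) (by rw [sum_erase_eq_sub b]; linarith)
      obtain ⟨q1, q2⟩ := mem_erase.1 hq
      exact ⟨(hp q q2).2, by have := (hp q q2).1.1; omega,
        fun e => q1 ((Nat.prime_dvd_prime_iff_eq (hp q q2).2 (hp p b).2).1 e)⟩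
  have h2 : cnt x (EA Y z) ≤ (SS x 1 P).card + ∑ p ∈ P, ((SS x p (P.erase p)).card : ℝ) := by
    rw [cnt]
    exact_mod_cast (card_le_card fun N hN => cov N ((@mem_filter _ _ (_) _ _).1 hN).1
      ((@mem_filter _ _ (_) _ _).1 hN).2).trans
      ((card_union_le _ _).trans (Nat.add_le_add_left card_biUnion_le _))
  rw [sum_add_distrib, ← mul_sum, sum_const, nsmul_eq_mul] at h1
  have h3 := mul_le_mul_of_nonneg_left s2
    (by positivity : (0 : ℝ) ≤ 4 * (x + 3) * Real.exp (-2 * c))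
  have h4 := mul_le_mul_of_nonneg_right (Nat.cast_le (α := ℝ).2 cP)
    (by positivity : (0 : ℝ) ≤ (4 * (z : ℝ)) ^ (h + 1))
  rw [Nat.cast_one] at h0
  linarith

end Pool.Agent.MP_dcfa1b_co.Pp

end
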