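import Pool.Agent.Mg.Fc6d393p.G6695fa

set_option linter.all false

section

/-!
The choice of the parameters.
-/

set_option autoImplicit false
open Finset Real

namespace Pool.Agent.MP_dcfa1b_co.Pp

lemma cnt_or (x : ℕ) (E F : ℕ → Prop) : cnt x (fun N => E N ∨ F N) ≤ cnt x E + cnt x F := by
  classical
  unfold cnt
  rw [← Nat.cast_add, Nat.cast_le]
  refine le_trans (card_le_card fun N hN => ?_) (card_union_le _ _)
  simp only [mem_filter, mem_union] at hN ⊢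
  tauto

lemma cnt_mono (x : ℕ) (E F : ℕ → Prop) (h : ∀ N, 1 ≤ N → N ≤ x → E N → F N) :
    cnt x E ≤ cnt x F := by
  classical
  unfold cnt
  refine Nat.cast_le.2 (card_le_card fun N hN => ?_)
  obtain ⟨h1, h2⟩ := mem_filter.1 hN
  exact mem_filter.2 ⟨h1, h N (mem_Icc.1 h1).1 (mem_Icc.1 h1).2 h2⟩

lemma ceil_exp (a : ℝ) (ha : 0 ≤ a) :
    ∃ y : ℕ, exp a ≤ y ∧ (y : ℝ) ≤ exp (a + 1) ∧ a ≤ log y ∧ log y ≤ a + 1 ∧ 1 ≤ y := by
  have h1 := one_le_exp ha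
  have h2 := Nat.le_ceil (exp a)
  have h3 := (Nat.ceil_lt_add_one (exp_pos a).le).le
  have h4 : (⌈exp a⌉₊ : ℝ) ≤ exp (a + 1) := by
    rw [exp_add]
    nlinarith [add_one_le_exp (1 : ℝ)]
  refine ⟨_, h2, h4, ?_, ?_, by exact_mod_cast h1.trans h2⟩
  · rwa [le_log_iff_exp_le (by linarith)]
  · rwa [log_le_iff_le_exp (by linarith)]

/-- all the steps -/
structure Steps : Prop where
  cov : StCov
  c013 : St013
  c2 : St2
  c45 : St45
  c6 : St6
  cA : StA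

lemma Steps.total (H : Steps) (x R y z B T h : ℕ) (t t' c : ℝ) (h1 : R ≤ y ^ 4)
    (h2 : z * B ^ 2 ≤ x) (h3 : x ≤ T ^ 4) (hR : 1 ≤ R) (hy : 2 ≤ y) (hz : 1 ≤ z) (hB : 1 ≤ B)
    (ht : 0 < t) (ht2 : t ≤ 1 / 2) (ht' : 0 < t') (ht2' : t' ≤ 1 / 2) (hc : 0 ≤ c)
    (hc2 : 30 * log ((y ^ 4 : ℕ) : ℝ) * exp c ≤ log z) (he : Even h) (hh : 10 * (c + 1) ≤ h) :
    cnt x (fun N => ¬ IsPrimePow (N + 1) ∧ Good N) ≤ x / B + (x / R +
      (10 * x * (1 + log x) ^ 2 / y + (x * (1 + log x) ^ 2 / R + (x * (1 + log x) *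
      ((y : ℝ) ^ (-t) * exp (4 * (R : ℝ) ^ t * (1 + log R))) +
      (x * ((B : ℝ) ^ (-t') * exp (4 * ((y ^ 4 : ℕ) : ℝ) ^ t' * (1 + log ((y ^ 4 : ℕ) : ℝ)))) +
      (4 * (z : ℝ) ^ 3 * T * (2 * T + 1) ^ 2 * (B : ℝ) ^ 2 +
      (4 * (x + 3) * (c + 2) * exp (-2 * c) + (z + 1) * (4 * (z : ℝ)) ^ (h + 1)))))))) := by
  have hY : 4 ≤ y ^ 4 := le_trans (by norm_num) (Nat.pow_le_pow_left hy 4)
  refine (cnt_mono x _ _ fun N a b e =>
    H.cov x R y z B T N h1 (le_trans (by nlinarith) h2) h2 h3 a b e.1 e.2).trans ?_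
  refine (cnt_or _ _ _).trans (add_le_add (H.c013.1 x B hB) ?_)
  refine (cnt_or _ _ _).trans (add_le_add (H.c013.2.1 x R hR) ?_)
  refine (cnt_or _ _ _).trans (add_le_add (H.c2 x y (by omega)) ?_)
  refine (cnt_or _ _ _).trans (add_le_add (H.c013.2.2 x R hR) ?_)
  refine (cnt_or _ _ _).trans (add_le_add (H.c45.1 x R y t hR (by omega) ht ht2) ?_)
  refine (cnt_or _ _ _).trans (add_le_add (H.c45.2 x _ B t' (by omega) hB ht' ht2') ?_)
  refine (cnt_or _ _ _).trans (add_le_add (H.c6 x z B T) ?_)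
  exact H.cA x _ z h c hY hz hc hc2 he hh

lemma c_le (k : ℝ) (n : ℕ) (h : k ≤ 2 ^ n) : k ≤ exp n := by
  refine h.trans ?_
  rw [← mul_one (n : ℝ), exp_nat_mul]
  exact pow_le_pow_left₀ (by norm_num) (by linarith [add_one_le_exp (1 : ℝ)]) n

/-- the scales -/
structure Ch (l r t u L : ℝ) : Prop where
  l0 : 2 ≤ l
  l2 : l ≤ r
  r1 : 10 ^ 8 ≤ r
  t1 : 10 ^ 8 * r ≤ t
  u1 : 10 ^ 8 * t ≤ u
  L1 : 10 ^ 8 * u ≤ L
  L2 : 1 + L ≤ exp (1 + l)

lemma key {a L l : ℝ} (ha : a ≤ L - 2 * l) : exp a ≤ exp L * exp (-2 * l) := by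
  rw [← exp_add]; exact exp_le_exp.2 (by linarith)

lemma dv (a : ℝ) {b : ℝ} {n : ℕ} (hn : exp b ≤ n) : exp a / n ≤ exp (a - b) := by
  rw [exp_sub]; gcongr

variable {l r t u L : ℝ}

lemma Ch.e0 (C : Ch l r t u L) {B : ℕ} (B1 : exp (L / 16) ≤ B) :
    exp L / B ≤ exp L * exp (-2 * l) := by
  obtain ⟨l0, l2, r1, t1, u1, L1, -⟩ := C
  exact (dv _ B1).trans (key (by linarith))

lemma Ch.e1 (C : Ch l r t u L) {R : ℕ} (R1 : exp (5 * l) ≤ R) :
    exp L / R ≤ exp L * exp (-2 * l) := by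
  obtain ⟨l0, -⟩ := C
  exact (dv _ R1).trans (key (by linarith))

lemma Ch.e2 (C : Ch l r t u L) {y : ℕ} (y1 : exp t ≤ y) :
    10 * exp L * (1 + L) ^ 2 / y ≤ exp L * exp (-2 * l) := by
  obtain ⟨l0, l2, r1, t1, u1, L1, L2⟩ := C
  refine le_trans ?_ ((dv (4 + L + (2 : ℕ) * (1 + l)) y1).trans (key (by push_cast; linarith)))
  rw [exp_add, exp_add, exp_nat_mul]
  have := c_le 10 4 (by norm_num)
  gcongr
  · exact_mod_cast this
  · linarith

lemma Ch.e3 (C : Ch l r t u L) {R : ℕ} (R1 : exp (5 * l) ≤ R) :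
    exp L * (1 + L) ^ 2 / R ≤ exp L * exp (-2 * l) := by
  obtain ⟨l0, l2, r1, t1, u1, L1, L2⟩ := C
  refine le_trans ?_ ((dv (L + (2 : ℕ) * (1 + l)) R1).trans (key (by push_cast; linarith)))
  rw [exp_add, exp_nat_mul]
  gcongr
  linarith

lemma Ch.e4 (C : Ch l r t u L) {y R : ℕ} {M s : ℝ} (hM : 1 ≤ M) (hs : 10000 * M ^ 2 ≤ s)
    (hr : r = s ^ 2) (ht : t = r ^ 2) (hl2 : l = 4 * M * log s) (y0 : (0 : ℝ) < y)
    (R0 : (0 : ℝ) < R) (y3 : t ≤ log y) (R4 : log R ≤ 5 * l + 1) :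
    exp L * (1 + L) * ((y : ℝ) ^ (-(1 / (10 * M))) *
      exp (4 * (R : ℝ) ^ (1 / (10 * M)) * (1 + log R))) ≤ exp L * exp (-2 * l) := by
  obtain ⟨l0, l2, r1, -, -, -, L2⟩ := C
  have s1 : 1 ≤ s := by nlinarith
  have s0 : 0 < s := by linarith
  have l1 : l ≤ 4 * M * s := by
    have : log s ≤ s := by linarith [log_le_sub_one_of_pos s0]
    rw [hl2]; gcongr
  have a1 : (y : ℝ) ^ (-(1 / (10 * M))) ≤ exp (-(1000 * M * s * r)) := by
    rw [rpow_def_of_pos y0]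
    refine exp_le_exp.2 ?_
    rw [mul_neg, neg_le_neg_iff, mul_one_div, le_div_iff₀ (by positivity)]
    refine le_trans ?_ y3
    have h1 : 0 ≤ s * r := by rw [hr]; positivity
    calc _ = 10000 * M ^ 2 * (s * r) := by ring
      _ ≤ s * (s * r) := by gcongr
      _ = t := by rw [ht, hr]; ring
  have a2 : (R : ℝ) ^ (1 / (10 * M)) ≤ 3 * r := by
    rw [rpow_def_of_pos R0]
    calc _ ≤ exp (1 + (2 : ℕ) * log s) := by
          refine exp_le_exp.2 ?_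
          rw [mul_one_div, div_le_iff₀ (by positivity)]
          push_cast
          linarith
      _ ≤ _ := by
          rw [exp_add, exp_nat_mul, exp_log s0, hr]
          gcongr
          linarith [exp_one_lt_d9]
  have a3 : 4 * (R : ℝ) ^ (1 / (10 * M)) * (1 + log R) ≤ 4 * (3 * r) * (2 + 20 * M * s) := by
    have : 0 ≤ log (R : ℝ) := log_natCast_nonneg R
    exact mul_le_mul (by linarith) (by linarith) (by linarith) (by linarith)
  refine le_trans ?_ (key (a := L + (1 + l) + (-(1000 * M * s * r) +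
    4 * (3 * r) * (2 + 20 * M * s))) ?_)
  · rw [exp_add, exp_add, exp_add (-(1000 * M * s * r))]
    gcongr
  · have : 1 * r ≤ M * s * r :=
      mul_le_mul_of_nonneg_right (one_le_mul_of_one_le_of_one_le hM s1) (by linarith)
    linarith

lemma Ch.e5 (C : Ch l r t u L) {Y B : ℕ} (hL : L = u * t) (Y0 : (0 : ℝ) < Y) (B0 : (0 : ℝ) < B)
    (hY : log Y ≤ 8 * t) (B3 : L / 16 ≤ log B) :
    exp L * ((B : ℝ) ^ (-(1 / (8 * t))) * exp (4 * (Y : ℝ) ^ (1 / (8 * t)) * (1 + log Y))) ≤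
      exp L * exp (-2 * l) := by
  obtain ⟨l0, l2, r1, t1, u1, -⟩ := C
  have t0 : 0 < t := by linarith
  have a1 : (B : ℝ) ^ (-(1 / (8 * t))) ≤ exp (-(u / 128)) := by
    rw [rpow_def_of_pos B0]
    refine exp_le_exp.2 ?_
    rw [mul_neg, neg_le_neg_iff, mul_one_div, le_div_iff₀ (by positivity)]
    linarith
  have a2 : (Y : ℝ) ^ (1 / (8 * t)) ≤ 3 := by
    rw [rpow_def_of_pos Y0]
    refine le_trans (exp_le_exp.2 ?_) (exp_one_lt_d9.le.trans (by norm_num))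
    rw [mul_one_div, div_le_iff₀ (by positivity)]
    linarith
  have a3 : 4 * (Y : ℝ) ^ (1 / (8 * t)) * (1 + log Y) ≤ 4 * 3 * (1 + 8 * t) := by
    have : 0 ≤ log (Y : ℝ) := log_natCast_nonneg _
    gcongr
  refine le_trans ?_ (key (a := L + (-(u / 128) + 4 * 3 * (1 + 8 * t))) (by linarith))
  rw [exp_add, exp_add (-(u / 128))]
  gcongr

lemma Ch.e6 (C : Ch l r t u L) {z T B : ℕ} (z2 : (z : ℝ) ≤ exp (u + 1))
    (T2 : (T : ℝ) ≤ exp (L / 4 + 1)) (T5 : 1 ≤ T) (B2 : (B : ℝ) ≤ exp (L / 16 + 1)) :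
    4 * (z : ℝ) ^ 3 * T * (2 * T + 1) ^ 2 * (B : ℝ) ^ 2 ≤ exp L * exp (-2 * l) := by
  obtain ⟨l0, l2, r1, t1, u1, L1, -⟩ := C
  have a1 : 2 * (T : ℝ) + 1 ≤ exp (2 + (L / 4 + 1)) := by
    have h1 : (1 : ℝ) ≤ T := by exact_mod_cast T5
    have h2 := c_le 3 2 (by norm_num)
    rw [exp_add]
    calc _ ≤ 3 * (T : ℝ) := by linarith
      _ ≤ _ := by gcongr; exact_mod_cast h2
  refine le_trans ?_ (key (a := 2 + (3 : ℕ) * (u + 1) + (L / 4 + 1) + (2 : ℕ) * (2 + (L / 4 + 1)) +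
    (2 : ℕ) * (L / 16 + 1)) (by push_cast; linarith))
  rw [exp_add, exp_add, exp_add, exp_add 2, exp_nat_mul, exp_nat_mul, exp_nat_mul]
  have := c_le 4 2 (by norm_num)
  gcongr
  exact_mod_cast this

lemma Ch.e7 (C : Ch l r t u L) {z h : ℕ} (hL : L = u * t) (z2 : (z : ℝ) ≤ exp (u + 1))
    (z5 : 1 ≤ z) (hh : (h : ℝ) ≤ 10 * r + 12) :
    (z + 1) * (4 * (z : ℝ)) ^ (h + 1) ≤ exp L * exp (-2 * l) := by
  obtain ⟨l0, l2, r1, t1, u1, -⟩ := C
  have h1 : (1 : ℝ) ≤ z := by exact_mod_cast z5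
  have a1 : 4 * (z : ℝ) ≤ exp (2 + (u + 1)) := by
    rw [exp_add]
    have := c_le 4 2 (by norm_num)
    gcongr
    exact_mod_cast this
  refine le_trans ?_ (key (a := (h + 1 + 1 : ℕ) * (2 + (u + 1))) ?_)
  · rw [exp_nat_mul, pow_succ' _ (h + 1)]
    gcongr
    linarith
  · have a2 : ((h + 1 + 1 : ℕ) : ℝ) * (2 + (u + 1)) ≤ (11 * r) * (2 * u) :=
      mul_le_mul (by push_cast; linarith) (by linarith) (by linarith) (by linarith)
    have a3 : u * (10 ^ 8 * r) ≤ u * t := mul_le_mul_of_nonneg_left t1 (by linarith)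
    have a4 : r * 1 ≤ r * u := mul_le_mul_of_nonneg_left (by linarith) (by linarith)
    linarith

lemma Ch.e8 (C : Ch l r t u L) {v c : ℝ} (hL : L = u * t) (hu : u = v * t) (hl : L = exp l)
    (hc : exp c = v / 240) (c0 : 0 ≤ c) (c1 : c ≤ l) :
    4 * (exp L + 3) * (c + 2) * exp (-2 * c) ≤ exp L * (r * r * t ^ 4 / 2) * exp (-2 * l) := by
  obtain ⟨l0, l2, r1, t1, u1, L1, -⟩ := C
  have v0 : v ≠ 0 := by rintro rfl; linarith [exp_pos c]
  have a1 : exp (-2 * c) = 57600 * (t ^ 4 * exp (-2 * l)) := by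
    rw [show -2 * c = -((2 : ℕ) * c) by push_cast; ring, exp_neg, exp_nat_mul, hc,
      show -2 * l = -((2 : ℕ) * l) by push_cast; ring, exp_neg, exp_nat_mul, ← hl, hL, hu]
    have : t ≠ 0 := by linarith
    field_simp
    norm_num
  clear hL hu hl hc
  have a2 : (3 : ℝ) ≤ exp L := by linarith [add_one_le_exp L]
  have a4 : 0 ≤ t ^ 4 * exp (-2 * l) := by positivity
  have r0 : 0 ≤ r := by linarith
  rw [a1]
  calc _ ≤ 4 * (2 * exp L) * (2 * r) * (57600 * (t ^ 4 * exp (-2 * l))) := by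
        gcongr <;> linarith
    _ = 921600 * (exp L * r * (t ^ 4 * exp (-2 * l))) := by ring
    _ ≤ (r / 2) * (exp L * r * (t ^ 4 * exp (-2 * l))) :=
        mul_le_mul_of_nonneg_right (by linarith) (by positivity)
    _ = _ := by ring

lemma ch_of {M s v : ℝ} (hM : 1 ≤ M) (hs : 10000 * M ^ 2 ≤ s) (hr : r = s ^ 2) (ht : t = r ^ 2)
    (hv : t ≤ v) (hu : u = v * t) (hL : L = u * t) (hl : L = exp l) (hl2 : l = 4 * M * log s) :
    Ch l r t u L := by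
  have s1 : 10000 ≤ s := by nlinarith
  have sM : 10000 * M ≤ s := by nlinarith
  have lg1 : log s ≤ s := by linarith [log_le_sub_one_of_pos (show 0 < s by linarith)]
  have l1 : l ≤ 4 * M * s := by rw [hl2]; gcongr
  have l2 : l ≤ r := by rw [hr]; nlinarith only [l1, sM, s1]
  have r1 : 10 ^ 8 ≤ r := by rw [hr]; nlinarith only [s1]
  have t1 : 10 ^ 8 * r ≤ t := by rw [ht]; nlinarith only [r1]
  have u1 : 10 ^ 8 * t ≤ u := by rw [hu]; nlinarith only [r1, t1, hv]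
  have L1 : 10 ^ 8 * u ≤ L := by rw [hL]; nlinarith only [r1, t1, u1]
  refine ⟨exp_le_exp.1 ?_, l2, r1, t1, u1, L1, ?_⟩
  · rw [← hl, show (2 : ℝ) = 1 + 1 by norm_num, exp_add]
    nlinarith only [exp_pos 1, exp_one_lt_d9, r1, t1, u1, L1]
  · rw [exp_add, ← hl]
    nlinarith only [add_one_le_exp (1 : ℝ), r1, t1, u1, L1]

lemma Steps.asy (H : Steps) (M s v l : ℝ) (x : ℕ) (hM : 1 ≤ M) (hs : 10000 * M ^ 2 ≤ s)
    (hv : s ^ 4 ≤ v) (hx : (x : ℝ) = exp (v * s ^ 8)) (hl : v * s ^ 8 = exp l)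
    (hl2 : l = 4 * M * log s) :
    cnt x (fun N => ¬ IsPrimePow (N + 1) ∧ Good N) ≤ x * s ^ 20 * exp (-2 * l) := by
  obtain ⟨r, hr⟩ : ∃ r, r = s ^ 2 := ⟨_, rfl⟩
  obtain ⟨t, ht⟩ : ∃ t, t = r ^ 2 := ⟨_, rfl⟩
  have t2 : t = s ^ 4 := by rw [ht, hr]; ring
  obtain ⟨u, hu⟩ : ∃ u, u = v * t := ⟨_, rfl⟩
  obtain ⟨L, hL⟩ : ∃ L, L = u * t := ⟨_, rfl⟩
  have hL2 : v * s ^ 8 = L := by rw [hL, hu, t2]; ring
  rw [hL2] at hx hl
  rw [← t2] at hv
  have C := ch_of hM hs hr ht hv hu hL hl hl2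
  have a3 : s ^ 20 = r * r * t ^ 4 := by rw [ht, hr]; ring
  have lx : log x = L := by rw [hx, log_exp]
  have l0 := C.l0
  have l2 := C.l2
  have r1 := C.r1
  have t1 := C.t1
  have u1 := C.u1
  have L1 := C.L1
  have q1 : 0 ≤ t := by linarith only [r1, t1]
  have q2 : 0 ≤ u := by linarith only [q1, u1]
  have q3 : 0 ≤ L := by linarith only [q2, L1]
  have q4 : 240 ≤ v := by linarith only [r1, t1, hv]
  obtain ⟨y, y1, y2, y3, y4, -⟩ := ceil_exp t q1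
  obtain ⟨z, z1, z2, z3, z4, z5⟩ := ceil_exp u q2
  obtain ⟨R, R1, R2, R3, R4, R5⟩ := ceil_exp (5 * l) (by linarith only [l0])
  obtain ⟨B, B1, B2, B3, B4, B5⟩ := ceil_exp (L / 16) (by linarith only [q3])
  obtain ⟨T, T1, T2, T3, T4, T5⟩ := ceil_exp (L / 4) (by linarith only [q3])
  have y5 : 2 ≤ y := by
    have : (2 : ℝ) ≤ y := by linarith only [add_one_le_exp t, y1, r1, t1]
    exact_mod_cast this
  have hc : exp (log (v / 240)) = v / 240 := exp_log (by linarith only [q4])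
  have c0 : 0 ≤ log (v / 240) := log_nonneg (by linarith only [q4])
  have c1 : log (v / 240) ≤ l := by
    rw [log_le_iff_le_exp (by linarith only [q4]), ← hl]
    have : v * 1 ≤ v * t :=
      mul_le_mul_of_nonneg_left (by linarith only [r1, t1]) (by linarith only [q4])
    linarith only [this, hu, L1, q4]
  generalize log (v / 240) = c at hc c0 c1
  have hY : log ((y ^ 4 : ℕ) : ℝ) ≤ 8 * t := by
    rw [Nat.cast_pow, log_pow]; push_cast; linarith only [y4, r1, t1]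
  have hh : ((2 * ⌈5 * (c + 1)⌉₊ : ℕ) : ℝ) ≤ 10 * r + 12 := by
    have := (Nat.ceil_lt_add_one (show 0 ≤ 5 * (c + 1) by linarith only [c0])).le
    push_cast; linarith only [this, c1, l2]
  refine (H.total x R y z B T (2 * ⌈5 * (c + 1)⌉₊) (1 / (10 * M)) (1 / (8 * t)) c ?_ ?_ ?_ R5 y5 z5
    B5 (by positivity) (one_div_le_one_div_of_le two_pos (by linarith only [hM]))
    (one_div_pos.2 (by linarith only [r1, t1]))
    (one_div_le_one_div_of_le two_pos (by linarith only [r1, t1])) c0 ?_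
    (even_two_mul _) ?_).trans ?_
  · have : (R : ℝ) ≤ (y : ℝ) ^ 4 := calc
      _ ≤ exp (5 * l + 1) := R2
      _ ≤ exp t ^ 4 := by
        rw [← exp_nat_mul]; exact exp_le_exp.2 (by push_cast; linarith only [l2, r1, t1])
      _ ≤ _ := pow_le_pow_left₀ (exp_pos _).le y1 4
    exact_mod_cast this
  · have : (z : ℝ) * (B : ℝ) ^ 2 ≤ x := calc
      _ ≤ exp (u + 1) * exp (L / 16 + 1) ^ 2 := by gcongr
      _ ≤ _ := by
        rw [hx, ← exp_nat_mul, ← exp_add]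
        exact exp_le_exp.2 (by push_cast; linarith only [r1, t1, u1, L1])
    exact_mod_cast this
  · have : (x : ℝ) ≤ (T : ℝ) ^ 4 := calc
      _ = exp (L / 4) ^ 4 := by rw [hx, ← exp_nat_mul]; congr 1; push_cast; ring
      _ ≤ _ := pow_le_pow_left₀ (exp_pos _).le T1 4
    exact_mod_cast this
  · calc _ ≤ 30 * (8 * t) * exp c := by gcongr
      _ = u := by rw [hc, hu]; ring
      _ ≤ _ := z3
  · have := Nat.le_ceil (5 * (c + 1))
    push_cast; linarith only [this]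
  have e9 : 16 * (exp L * exp (-2 * l)) ≤ r * r * t ^ 4 * (exp L * exp (-2 * l)) := by
    refine mul_le_mul_of_nonneg_right ?_ (by positivity)
    calc (16 : ℝ) = 4 * 4 * 1 ^ 4 := by norm_num
      _ ≤ _ := by gcongr <;> linarith only [r1, t1]
  rw [lx, hx, a3]
  linarith only [e9, C.e0 B1, C.e1 R1, C.e2 y1, C.e3 R1,
    C.e4 hM hs hr ht hl2 (y := y) (R := R) (by positivity) (by positivity) y3 R4,
    C.e5 hL (Y := y ^ 4) (B := B) (by positivity) (by positivity) hY B3, C.e6 z2 T2 T5 B2,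
    C.e7 hL z2 z5 hh, C.e8 hL hu hl hc c0 c1]

/-- the bound for the numbers with the two properties -/
lemma Steps.ev (H : Steps) (ε : ℝ) (h0 : 0 < ε) (h1 : ε ≤ 1) : ∃ x₀ : ℕ, ∀ x : ℕ, x₀ ≤ x →
    cnt (x + 1) (fun N => ¬ IsPrimePow (N + 1) ∧ Good N) ≤ x / log x ^ (2 - ε) ∧ 1 ≤ log x := by
  have hM : 10 ≤ 10 / ε := by rw [le_div_iff₀ h0]; linarith
  have hMe : 10 / ε * ε = 10 := div_mul_cancel₀ _ h0.ne'
  generalize 10 / ε = M at hM hMe
  have lgM : 1 ≤ log (10000 * M ^ 2) := by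
    rw [le_log_iff_exp_le (by positivity)]
    nlinarith [exp_one_lt_d9]
  obtain ⟨x₀, -, -, b, -, b1⟩ := ceil_exp (exp (4 * M * log (10000 * M ^ 2))) (exp_pos _).le
  refine ⟨x₀, fun x hx => ?_⟩
  have x1 : (1 : ℝ) ≤ x := by exact_mod_cast b1.trans hx
  have c1 : exp (4 * M * log (10000 * M ^ 2)) ≤ log x :=
    b.trans (log_le_log (by positivity) (by exact_mod_cast hx))
  have c0 : 0 < log (x : ℝ) := (exp_pos _).trans_le c1
  have c2 : 4 * M * log (10000 * M ^ 2) ≤ log (log x) := by rwa [le_log_iff_exp_le c0]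
  have c3 : log (x : ℝ) ≤ log ((x + 1 : ℕ) : ℝ) := log_le_log (by linarith) (by push_cast; linarith)
  have c4 : log (log (x : ℝ)) ≤ log (log ((x + 1 : ℕ) : ℝ)) := log_le_log c0 c3
  refine ⟨?_, le_trans (one_le_exp (by positivity)) c1⟩
  obtain ⟨l, hl⟩ : ∃ l, l = log (log ((x + 1 : ℕ) : ℝ)) := ⟨_, rfl⟩
  have e1 : log ((x + 1 : ℕ) : ℝ) = exp l := by rw [hl, exp_log (c0.trans_le c3)]
  rw [← hl] at c4
  have M0 : 0 < 4 * M := by linarith
  have e2 : log ((x + 1 : ℕ) : ℝ) / exp (l / (4 * M)) ^ 8 * exp (l / (4 * M)) ^ 8 =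
      log ((x + 1 : ℕ) : ℝ) := div_mul_cancel₀ _ (by positivity)
  have c5 : 4 * M ≤ log (log x) := by nlinarith
  refine (H.asy M (exp (l / (4 * M))) (log ((x + 1 : ℕ) : ℝ) / exp (l / (4 * M)) ^ 8) l (x + 1)
    (by linarith) ?_ ?_ ?_ ?_ ?_).trans ?_
  · rw [← log_le_iff_le_exp (by positivity), le_div_iff₀ M0]
    linarith
  · rw [le_div_iff₀ (by positivity), ← pow_add, ← exp_nat_mul, e1]
    refine exp_le_exp.2 ?_
    rw [mul_div_assoc', div_le_iff₀ M0]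
    push_cast
    nlinarith
  · rw [e2, exp_log (by positivity)]
  · rw [e2, e1]
  · rw [log_exp]; field_simp
  · rw [rpow_def_of_pos c0, div_eq_mul_inv (x : ℝ), ← exp_neg, ← exp_nat_mul, mul_assoc, ← exp_add]
    have d1 : ((20 : ℕ) : ℝ) * (l / (4 * M)) = ε / 2 * l := by
      push_cast; field_simp; linear_combination (-4 * l) * hMe
    rw [d1]
    generalize log (log (x : ℝ)) = k at *
    calc _ ≤ (2 * x) * exp (-1 + -(k * (2 - ε))) := by
          refine mul_le_mul (by push_cast; linarith) (exp_le_exp.2 ?_) (exp_pos _).le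
            (by positivity)
          nlinarith [mul_le_mul_of_nonneg_left c4 (show 0 ≤ 2 - ε / 2 by linarith),
            mul_le_mul_of_nonneg_left c5 h0.le]
      _ ≤ _ := by
          rw [exp_add]
          have : exp (-1) ≤ 1 / 2 := by linarith [exp_neg_one_lt_d9]
          calc _ = (2 * exp (-1)) * (x * exp (-(k * (2 - ε)))) := by ring
            _ ≤ 1 * (x * exp (-(k * (2 - ε)))) := by gcongr; linarith
            _ = _ := one_mul _

end Pool.Agent.MP_dcfa1b_co.Pp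

end

section

/-! Small multiplicative orders are rare. -/

set_option autoImplicit false
open Finset

namespace Pool.Agent.MP_dcfa1b_co.Pp

namespace C2

lemma cls (x p l : ℕ) (hc : Nat.Coprime p l) (h0 : 0 < p * l) (hx : p * l ≤ x) :
    (((Icc 1 x).filter fun N => l ∣ N ∧ p ∣ N + 1).card : ℝ) ≤ 2 * x / (p * l) := by
  have h1 : ((Icc 1 x).filter fun N => l ∣ N ∧ p ∣ N + 1).card ≤ (range (x / (p * l) + 1)).card := by
    refine card_le_card_of_injOn (fun N => N / (p * l)) (fun N hN => ?_) (fun N hN N' hN' e => ?_)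
    · have := (mem_Icc.1 (mem_filter.1 hN).1).2
      exact mem_coe.2 (mem_range.2 (Nat.lt_succ_of_le (Nat.div_le_div_right this)))
    · obtain ⟨-, a1, a2⟩ := mem_filter.1 hN
      obtain ⟨-, b1, b2⟩ := mem_filter.1 hN'
      have m1 : N ≡ N' [MOD l] :=
        ((Nat.modEq_zero_iff_dvd.2 a1).trans (Nat.modEq_zero_iff_dvd.2 b1).symm)
      have m2 : N ≡ N' [MOD p] := Nat.ModEq.add_right_cancel' 1
        ((Nat.modEq_zero_iff_dvd.2 a2).trans (Nat.modEq_zero_iff_dvd.2 b2).symm)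
      have m3 : N % (p * l) = N' % (p * l) := (Nat.modEq_and_modEq_iff_modEq_mul hc).1 ⟨m2, m1⟩
      have e' : N / (p * l) = N' / (p * l) := e
      rw [← Nat.div_add_mod N (p * l), ← Nat.div_add_mod N' (p * l), m3, e']
  rw [card_range] at h1
  have hp : (0 : ℝ) < (p : ℝ) * l := by exact_mod_cast h0
  have h2 : ((x / (p * l) : ℕ) : ℝ) ≤ x / (p * l) := by
    have := Nat.cast_div_le (α := ℝ) (m := x) (n := p * l)
    rwa [Nat.cast_mul] at this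
  have h3 : (1 : ℝ) ≤ x / (p * l) := by
    rw [le_div_iff₀ hp, one_mul]
    exact_mod_cast hx
  have h4 : (((Icc 1 x).filter fun N => l ∣ N ∧ p ∣ N + 1).card : ℝ) ≤
      ((x / (p * l) : ℕ) : ℝ) + 1 := by exact_mod_cast h1
  rw [mul_div_assoc]
  linarith

lemma pf (m x k : ℕ) (h : m ≤ x ^ k) :
    (m.primeFactors.card : ℝ) ≤ 2 * k * Real.log x := by
  have hl : 0 ≤ Real.log x := Real.log_natCast_nonneg x
  rcases m.eq_zero_or_pos with rfl | hm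
  · simp only [Nat.primeFactors_zero, card_empty, Nat.cast_zero]
    positivity
  have h1 : 2 ^ m.primeFactors.card ≤ x ^ k :=
    (pow_card_le_prod _ _ _ fun q hq => (Nat.prime_of_mem_primeFactors hq).two_le).trans
      ((Nat.le_of_dvd hm (Nat.prod_primeFactors_dvd m)).trans h)
  have h2 : (2 : ℝ) ^ m.primeFactors.card ≤ (x : ℝ) ^ k := by exact_mod_cast h1
  have h3 := Real.log_le_log (by positivity) h2
  rw [Real.log_pow, Real.log_pow] at h3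
  have h4 := Real.log_two_gt_d9
  have h5 : (0 : ℝ) ≤ m.primeFactors.card := Nat.cast_nonneg _
  nlinarith

lemma s1 (x : ℕ) : ∑ p ∈ Icc 1 x, (p : ℝ)⁻¹ ≤ 1 + Real.log x := by
  have := harmonic_le_one_add_log x
  rw [harmonic_eq_sum_Icc] at this
  simpa using this

lemma s2 (x : ℕ) : ∑ k ∈ Icc 1 x, ((k : ℝ) ^ 2)⁻¹ ≤ 2 := by
  rcases x.eq_zero_or_pos with rfl | hx
  · simp
  have h1 := sum_Ioc_inv_sq_le_sub (α := ℝ) one_ne_zero hx
  have h2 : Icc 1 x = insert 1 (Ioc 1 x) := by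
    ext k
    simp only [mem_Icc, mem_insert, mem_Ioc]
    omega
  rw [h2, sum_insert (by simp)]
  have h3 : (0 : ℝ) ≤ (x : ℝ)⁻¹ := by positivity
  simp only [Nat.cast_one, inv_one, one_pow] at h1 ⊢
  linarith

/-- the admissible primes `l` -/
def L (x y p k : ℕ) : Finset ℕ :=
  (p ^ k - 1).primeFactors.filter fun l => Nat.Coprime p l ∧ y * k ^ 3 ≤ l ∧ p * l ≤ x

lemma cover {x y N : ℕ} (hN : N ∈ Icc 1 x) (h : E2 y N) :
    ∃ p ∈ Icc 1 x, ∃ k ∈ Icc 1 x, ∃ l ∈ L x y p k, l ∣ N ∧ p ∣ N + 1 := by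
  obtain ⟨p, l, k, hp, hl, h1, h2, h3, h4, h5, h6, h7, h8⟩ := h
  obtain ⟨-, hx⟩ := mem_Icc.1 hN
  have a1 : p * l ≤ x := by
    by_contra hc
    have c1 : (x + 1) ^ 2 ≤ (p * l) ^ 2 := Nat.pow_le_pow_left (by omega) 2
    have c2 : p ^ 2 * l ^ 2 ≤ (x + 1) * x := Nat.mul_le_mul (by omega) (by omega)
    nlinarith
  have a2 : p ≤ x := (Nat.le_mul_of_pos_right p hl.pos).trans a1
  have a3 : l ≤ x := (Nat.le_mul_of_pos_left l hp.pos).trans a1
  have a4 : k ≤ x := ((Nat.le_self_pow (by norm_num) k).trans h7).trans a3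
  have a5 : y * k ^ 3 ≤ l := by
    rcases le_total k y with c | c
    · have : y * k ^ 3 ≤ y * y ^ 3 := Nat.mul_le_mul_left y (Nat.pow_le_pow_left c 3)
      nlinarith
    · have : y * k ^ 3 ≤ k * k ^ 3 := Nat.mul_le_mul_right _ c
      nlinarith
  have a6 : 1 < p ^ k := Nat.one_lt_pow (by omega) hp.one_lt
  have a7 : l ∣ p ^ k - 1 := (Nat.modEq_iff_dvd' a6.le).1 h8.symm
  have a8 : Nat.Coprime p l := by
    refine (Nat.coprime_primes hp hl).2 ?_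
    rintro rfl
    exact hp.one_lt.ne' (Nat.dvd_one.1 ((Nat.dvd_add_right h2).1 h1))
  exact ⟨p, mem_Icc.2 ⟨hp.pos, a2⟩, k, mem_Icc.2 ⟨h6, a4⟩, l,
    mem_filter.2 ⟨Nat.mem_primeFactors.2 ⟨hl, a7, by omega⟩, a8, a5, a1⟩, h2, h1⟩

lemma inner {x y p k : ℕ} (hy : 1 ≤ y) (hp : p ∈ Icc 1 x) (hk : k ∈ Icc 1 x) :
    ∑ l ∈ L x y p k, (((Icc 1 x).filter fun N => l ∣ N ∧ p ∣ N + 1).card : ℝ) ≤
      4 * x * Real.log x / y * ((p : ℝ)⁻¹ * ((k : ℝ) ^ 2)⁻¹) := by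
  obtain ⟨p1, p2⟩ := mem_Icc.1 hp
  obtain ⟨k1, -⟩ := mem_Icc.1 hk
  have hp' : (0 : ℝ) < p := by exact_mod_cast p1
  have hk' : (0 : ℝ) < k := by exact_mod_cast k1
  have hy' : (0 : ℝ) < y := by exact_mod_cast hy
  have h1 : ∀ l ∈ L x y p k, (((Icc 1 x).filter fun N => l ∣ N ∧ p ∣ N + 1).card : ℝ) ≤
      2 * x / (p * (y * k ^ 3)) := fun l hl => by
    obtain ⟨a, b, c, d⟩ := mem_filter.1 hl
    have e := (Nat.prime_of_mem_primeFactors a).pos
    refine (cls x p l b (Nat.mul_pos p1 e) d).trans ?_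
    have c' : (y : ℝ) * k ^ 3 ≤ l := by exact_mod_cast c
    gcongr
  have h2 : ((L x y p k).card : ℝ) ≤ 2 * k * Real.log x := by
    refine le_trans ?_ (pf (p ^ k - 1) x k
      ((Nat.sub_le _ _).trans (Nat.pow_le_pow_left p2 k)))
    exact_mod_cast card_filter_le _ _
  refine (sum_le_card_nsmul _ _ _ h1).trans ?_
  rw [nsmul_eq_mul]
  refine (mul_le_mul_of_nonneg_right h2 (by positivity)).trans (le_of_eq ?_)
  field_simp
  ring

end C2

theorem s_C2 : St2 := by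
  classical
  intro x y hy
  have hy' : (0 : ℝ) < y := by exact_mod_cast hy
  have hl : 0 ≤ Real.log x := Real.log_natCast_nonneg x
  have h1 : (Icc 1 x).filter (E2 y) ⊆ (Icc 1 x).biUnion fun p => (Icc 1 x).biUnion fun k =>
      (C2.L x y p k).biUnion fun l => (Icc 1 x).filter fun N => l ∣ N ∧ p ∣ N + 1 := by
    intro N hN
    obtain ⟨a, b⟩ := mem_filter.1 hN
    obtain ⟨p, hp, k, hk, l, hl, c⟩ := C2.cover a b
    exact mem_biUnion.2 ⟨p, hp, mem_biUnion.2 ⟨k, hk, mem_biUnion.2 ⟨l, hl, mem_filter.2 ⟨a, c⟩⟩⟩⟩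
  have h2 : ((Icc 1 x).filter (E2 y)).card ≤ ∑ p ∈ Icc 1 x, ∑ k ∈ Icc 1 x, ∑ l ∈ C2.L x y p k,
      ((Icc 1 x).filter fun N => l ∣ N ∧ p ∣ N + 1).card :=
    (card_le_card h1).trans (card_biUnion_le.trans (sum_le_sum fun p _ =>
      card_biUnion_le.trans (sum_le_sum fun k _ => card_biUnion_le)))
  have h3 : cnt x (E2 y) ≤ ∑ p ∈ Icc 1 x, ∑ k ∈ Icc 1 x, ∑ l ∈ C2.L x y p k,
      (((Icc 1 x).filter fun N => l ∣ N ∧ p ∣ N + 1).card : ℝ) := by
    unfold cnt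
    exact_mod_cast h2
  have h4 : cnt x (E2 y) ≤ 4 * x * Real.log x / y *
      ((∑ p ∈ Icc 1 x, (p : ℝ)⁻¹) * ∑ k ∈ Icc 1 x, ((k : ℝ) ^ 2)⁻¹) := by
    rw [sum_mul_sum, mul_sum]
    refine h3.trans (sum_le_sum fun p hp => ?_)
    rw [mul_sum]
    exact sum_le_sum fun k hk => C2.inner hy hp hk
  have h5 : (∑ p ∈ Icc 1 x, (p : ℝ)⁻¹) * ∑ k ∈ Icc 1 x, ((k : ℝ) ^ 2)⁻¹ ≤ (1 + Real.log x) * 2 :=
    mul_le_mul (C2.s1 x) (C2.s2 x) (sum_nonneg fun k _ => by positivity) (by positivity)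
  refine h4.trans ((mul_le_mul_of_nonneg_left h5 (by positivity)).trans ?_)
  rw [div_mul_eq_mul_div]
  have hx : (0 : ℝ) ≤ x := Nat.cast_nonneg x
  refine div_le_div_of_nonneg_right ?_ hy'.le
  nlinarith [mul_nonneg hx hl, mul_nonneg hx (mul_nonneg hl hl)]

end Pool.Agent.MP_dcfa1b_co.Pp

end

section

/-! Short multiplicative relations modulo a large prime factor are rare. -/

set_option autoImplicit false
open Finset

namespace Pool.Agent.MP_dcfa1b_co.Pp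

namespace C6

/-- the difference of the two sides of a relation -/
def V (T p q a b : ℕ) : ℕ := (((p * q) ^ T : ℕ) - ((p ^ a * q ^ b : ℕ) : ℤ)).natAbs

lemma V_ne {T p q a b : ℕ} (hp : p.Prime) (hq : q.Prime) (h : p ≠ q) (hab : ¬ (a = T ∧ b = T)) :
    V T p q a b ≠ 0 := by
  intro e
  rw [V, Int.natAbs_eq_zero, sub_eq_zero, Nat.cast_inj] at e
  have e' := congrArg Nat.factorization e
  rw [mul_pow, Nat.factorization_mul (pow_ne_zero _ hp.ne_zero) (pow_ne_zero _ hq.ne_zero),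
    Nat.factorization_mul (pow_ne_zero _ hp.ne_zero) (pow_ne_zero _ hq.ne_zero),
    hp.factorization_pow, hp.factorization_pow, hq.factorization_pow, hq.factorization_pow] at e'
  have e1 := DFunLike.congr_fun e' p
  have e2 := DFunLike.congr_fun e' q
  simp [h, h.symm] at e1 e2
  exact hab ⟨e1.symm, e2.symm⟩

lemma card_le {T z p q a b : ℕ} (hp1 : 1 ≤ p) (hp : p ≤ z) (hq : q ≤ z) (ha : a ≤ 2 * T)
    (hb : b ≤ 2 * T) : (V T p q a b).primeFactors.card ≤ 4 * T * z := by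
  rcases eq_or_ne (V T p q a b) 0 with h0 | h0
  · simp [h0]
  have hz : 1 ≤ z := hp1.trans hp
  have h1 : 2 ^ (V T p q a b).primeFactors.card ≤ V T p q a b :=
    (pow_card_le_prod _ (fun l => l) 2 fun l hl => (Nat.prime_of_mem_primeFactors hl).two_le).trans
      (Nat.le_of_dvd (Nat.pos_of_ne_zero h0) (Nat.prod_primeFactors_dvd _))
  have h2 : p ^ a * q ^ b ≤ z ^ (4 * T) := by
    rw [show 4 * T = 2 * T + 2 * T by ring, pow_add]
    exact Nat.mul_le_mul ((Nat.pow_le_pow_left hp a).trans (Nat.pow_le_pow_right hz ha))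
      ((Nat.pow_le_pow_left hq b).trans (Nat.pow_le_pow_right hz hb))
  have h3 : (p * q) ^ T ≤ z ^ (4 * T) := by
    refine (Nat.pow_le_pow_left (Nat.mul_le_mul hp hq) T).trans ?_
    rw [← sq, ← pow_mul]
    exact Nat.pow_le_pow_right hz (by omega)
  have h4 : V T p q a b ≤ z ^ (4 * T) := by
    rw [V]
    omega
  have h5 : z ^ (4 * T) ≤ 2 ^ (4 * T * z) := by
    rw [mul_comm (4 * T) z, pow_mul 2 z]
    exact Nat.pow_le_pow_left Nat.lt_two_pow_self.le _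
  exact (Nat.pow_le_pow_iff_right one_lt_two).1 (h1.trans (h4.trans h5))

end C6

open C6 in
theorem s_C6 : St6 := by
  classical
  intro x z B T
  have hsub : (Icc 1 x).filter (E6 x z B T) ⊆
      ((Icc 1 z ×ˢ Icc 1 z) ×ˢ (range (2 * T + 1) ×ˢ range (2 * T + 1))).biUnion fun t =>
        ((V T t.1.1 t.1.2 t.2.1 t.2.2).primeFactors.filter fun l => x < l * B ^ 2).biUnion fun l =>
          (Ioc 0 x).filter fun N => l ∣ N := by
    intro N hN
    obtain ⟨hN1, p, q, a, b, l, hp, hq, hpq, hpz, hqz, ha, hb, hab, hl, hlN, hx, hm⟩ :=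
      mem_filter.1 hN
    refine mem_biUnion.2 ⟨((p, q), (a, b)), ?_, mem_biUnion.2 ⟨l, mem_filter.2 ⟨?_, hx⟩, ?_⟩⟩
    · simp only [mem_product, mem_Icc, mem_range]
      exact ⟨⟨⟨hp.one_le, hpz⟩, hq.one_le, hqz⟩, by omega, by omega⟩
    · exact Nat.mem_primeFactors.2 ⟨hl, Int.natCast_dvd.1 hm.dvd, V_ne hp hq hpq hab⟩
    · rw [mem_Icc] at hN1
      exact mem_filter.2 ⟨mem_Ioc.2 hN1, hlN⟩
  have hc := (card_le_card hsub).trans (card_biUnion_le_card_mul _ _ (4 * T * z * B ^ 2) (by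
    rintro ⟨⟨p, q⟩, a, b⟩ ht
    simp only [mem_product, mem_Icc, mem_range] at ht
    refine (card_biUnion_le_card_mul _ _ (B ^ 2) fun l hl => ?_).trans (Nat.mul_le_mul_right _ ?_)
    · rw [Nat.Ioc_filter_dvd_card_eq_div]
      exact (Nat.div_lt_of_lt_mul (mem_filter.1 hl).2).le
    · exact (card_filter_le _ _).trans
        (card_le ht.1.1.1 ht.1.1.2 ht.1.2.2 (Nat.lt_succ_iff.1 ht.2.1) (Nat.lt_succ_iff.1 ht.2.2))))
  simp only [card_product, Nat.card_Icc, card_range, Nat.add_sub_cancel] at hc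
  have hc' : cnt x (E6 x z B T) ≤ ((z * z * ((2 * T + 1) * (2 * T + 1)) * (4 * T * z * B ^ 2) : ℕ) : ℝ) := by
    rw [cnt, Nat.cast_le]
    convert hc
  refine hc'.trans_eq ?_
  push_cast
  ring

end Pool.Agent.MP_dcfa1b_co.Pp

end

section

/-!
From arrays with the shift property to the cyclic group, and the two theorems.
-/

set_option autoImplicit false
open Finset

namespace Pool.Agent.MP_dcfa1b_co.Pp

lemma mod_two (N x : ℕ) (hx : x < 2 * N) : (x % N = x ∧ x < N) ∨ (x % N + N = x ∧ N ≤ x) := by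
  by_cases h : x < N
  · left; exact ⟨Nat.mod_eq_of_lt h, h⟩
  · right
    refine ⟨?_, by omega⟩
    rw [Nat.mod_eq_sub_mod (by omega), Nat.mod_eq_of_lt (by omega)]
    omega

lemma shift (N i j k l : ℕ) (hi : i < N) (hj : j < N) (hk : k < N) (hl : l < N)
    (h : i + l ≡ k + j [MOD N]) (hne : ¬ (l = i ∧ k = j)) :
    ∃ s : ℕ, (((i + s) % N : ℕ) : ℤ) - (((j + s) % N : ℕ) : ℤ) =
      (((k + s) % N : ℕ) : ℤ) - (((l + s) % N : ℕ) : ℤ) := by
  have h1 := mod_two N (i + l) (by omega)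
  have h2 := mod_two N (k + j) (by omega)
  unfold Nat.ModEq at h
  have key : ∀ y, y ≤ N → (i + l = k + j ∧ y = N ∨
      (i + l = k + j + N ∧ ((j < y ∧ y ≤ i ∧ (y ≤ k ∨ l < y)) ∨ (k < y ∧ y ≤ l ∧ (y ≤ j ∨ i < y)))) ∨
      (i + l + N = k + j ∧ ((i < y ∧ y ≤ j ∧ (y ≤ l ∨ k < y)) ∨ (l < y ∧ y ≤ k ∧ (y ≤ i ∨ j < y))))) →
      ∃ s : ℕ, (((i + s) % N : ℕ) : ℤ) - (((j + s) % N : ℕ) : ℤ) =
        (((k + s) % N : ℕ) : ℤ) - (((l + s) % N : ℕ) : ℤ) := by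
    intro y hy hc
    refine ⟨N - y, ?_⟩
    have a1 := mod_two N (i + (N - y)) (by omega)
    have a2 := mod_two N (j + (N - y)) (by omega)
    have a3 := mod_two N (k + (N - y)) (by omega)
    have a4 := mod_two N (l + (N - y)) (by omega)
    generalize (i + (N - y)) % N = b1 at *
    generalize (j + (N - y)) % N = b2 at *
    generalize (k + (N - y)) % N = b3 at *
    generalize (l + (N - y)) % N = b4 at *
    clear h h1 h2 hne
    rcases hc with hc | ⟨hc, hc2 | hc2⟩ | ⟨hc, hc2 | hc2⟩ <;> omega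
  have h3 : i + l = k + j ∨ i + l = k + j + N ∨ i + l + N = k + j := by omega
  clear h h1 h2
  rcases h3 with h3 | h3 | h3
  · exact key N le_rfl (Or.inl ⟨h3, rfl⟩)
  · rcases lt_trichotomy i l with c | c | c
    · exact key l (by omega) (Or.inr (Or.inl ⟨h3, by omega⟩))
    · rcases lt_trichotomy j k with c' | c' | c'
      · exact key k (by omega) (Or.inr (Or.inl ⟨h3, by omega⟩))
      · omega
      · exact key j (by omega) (Or.inr (Or.inl ⟨h3, by omega⟩))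
    · exact key i (by omega) (Or.inr (Or.inl ⟨h3, by omega⟩))
  · rcases lt_trichotomy j k with c | c | c
    · exact key k (by omega) (Or.inr (Or.inr ⟨h3, by omega⟩))
    · rcases lt_trichotomy i l with c' | c' | c'
      · exact key l (by omega) (Or.inr (Or.inr ⟨h3, by omega⟩))
      · omega
      · exact key i (by omega) (Or.inr (Or.inr ⟨h3, by omega⟩))
    · exact key j (by omega) (Or.inr (Or.inr ⟨h3, by omega⟩))

lemma transfer (n N : ℕ) (hN : n + 1 = N) (f : Equiv.Perm (Fin n))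
    (hS : ∀ s t : ℕ, ∀ i j k l : Fin n, i ≠ j → k ≠ l →
        (((((i : ℕ) + 1 + s) % (n + 1) : ℕ) : ℤ) - ((((j : ℕ) + 1 + s) % (n + 1) : ℕ) : ℤ)
            = ((((k : ℕ) + 1 + s) % (n + 1) : ℕ) : ℤ) - ((((l : ℕ) + 1 + s) % (n + 1) : ℕ) : ℤ) ∧
         ((((f i : ℕ) + 1 + t) % (n + 1) : ℕ) : ℤ) - ((((f j : ℕ) + 1 + t) % (n + 1) : ℕ) : ℤ)
            = ((((f k : ℕ) + 1 + t) % (n + 1) : ℕ) : ℤ) - ((((f l : ℕ) + 1 + t) % (n + 1) : ℕ) : ℤ)) →
        i = k ∧ j = l) :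
    ∃ F : ZMod N ≃ ZMod N, Ws F ∧
      (∀ i : Fin n, F (((i : ℕ) + 1 : ℕ) : ZMod N) = (((f i : ℕ) + 1 : ℕ) : ZMod N)) ∧
      (∀ a : ZMod N, a ≠ 0 → ∃ i : Fin n, a = (((i : ℕ) + 1 : ℕ) : ZMod N)) ∧
      ∀ i : Fin n, (((i : ℕ) + 1 : ℕ) : ZMod N) ≠ 0 := by
  subst hN
  have vl : ∀ i : Fin n, (((i : ℕ) + 1 : ℕ) : ZMod (n + 1)).val = i + 1 :=
    fun i => ZMod.val_cast_of_lt (by omega)
  have nz : ∀ i : Fin n, (((i : ℕ) + 1 : ℕ) : ZMod (n + 1)) ≠ 0 := by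
    intro i e
    have := vl i
    rw [e, ZMod.val_zero] at this
    omega
  have sj : ∀ a : ZMod (n + 1), a ≠ 0 → ∃ i : Fin n, a = (((i : ℕ) + 1 : ℕ) : ZMod (n + 1)) := by
    intro a ha
    have h1 := ZMod.val_lt a
    have h2 := (ZMod.val_ne_zero a).2 ha
    refine ⟨⟨a.val - 1, by omega⟩, ?_⟩
    rw [show a.val - 1 + 1 = a.val by omega, ZMod.natCast_zmod_val]
  let ι : Fin n ≃ {a : ZMod (n + 1) // a ≠ 0} := Equiv.ofBijective (fun i => ⟨_, nz i⟩)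
    ⟨fun i j h => by
      have := congrArg (fun a : {a : ZMod (n + 1) // a ≠ 0} => a.1.val) h
      simp only [vl] at this
      exact Fin.ext (by omega),
    fun a => by
      obtain ⟨i, hi⟩ := sj a.1 a.2
      exact ⟨i, Subtype.ext hi.symm⟩⟩
  have hF : ∀ i : Fin n, f.extendDomain ι (((i : ℕ) + 1 : ℕ) : ZMod (n + 1)) =
      (((f i : ℕ) + 1 : ℕ) : ZMod (n + 1)) := fun i => f.extendDomain_apply_image ι i
  refine ⟨f.extendDomain ι, ⟨f.extendDomain_apply_not_subtype ι (by simp),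
    fun a b c d ha hb hc hd hab e1 e2 => ?_⟩, hF, sj, nz⟩
  obtain ⟨i, rfl⟩ := sj a ha
  obtain ⟨j, rfl⟩ := sj b hb
  obtain ⟨k, rfl⟩ := sj c hc
  obtain ⟨m, rfl⟩ := sj d hd
  have hij : i ≠ j := by rintro rfl; exact hab rfl
  have hkm : k ≠ m := by rintro rfl; exact hab (by rwa [sub_self, sub_eq_zero] at e1)
  by_cases hex : m = i ∧ k = j
  · right; rw [hex.1, hex.2]; exact ⟨rfl, rfl⟩
  left
  rw [hF, hF, hF, hF] at e2
  rw [sub_eq_sub_iff_add_eq_add, ← Nat.cast_add, ← Nat.cast_add,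
    ZMod.natCast_eq_natCast_iff] at e1 e2
  obtain ⟨s, hs⟩ := shift (n + 1) _ _ _ _ (by omega) (by omega) (by omega) (by omega) e1
    (fun hh => hex ⟨Fin.ext (by omega), Fin.ext (by omega)⟩)
  obtain ⟨t, ht⟩ := shift (n + 1) _ _ _ _ (by omega) (by omega) (by omega) (by omega) e2
    (fun hh => hex ⟨f.injective (Fin.ext (by omega)), f.injective (Fin.ext (by omega))⟩)
  rw [(hS s t i j k m hij hkm ⟨hs, ht⟩).1]

lemma two_zmod (N : ℕ) [NeZero N] (i : ZMod N) (h : i + i = 0) : i = 0 ∨ i = ∑ c, c := by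
  refine or_iff_not_imp_left.2 fun h0 => ?_
  have hi := ((ZMod.neg_eq_self_iff i).1 (neg_eq_iff_add_eq_zero.2 h)).resolve_left h0
  rw [← add_sum_erase _ _ (mem_univ i), ← add_sum_erase _ _ (mem_erase.2 ⟨Ne.symm h0, mem_univ _⟩),
    sum_involution (fun a _ => -a) (fun a _ => add_neg_cancel a) ?_ ?_ (fun a _ => neg_neg a)]
  · simp
  · intro a ha _ e
    obtain ⟨a0, ai⟩ := mem_erase.1 ha
    have := ((ZMod.neg_eq_self_iff a).1 e).resolve_left a0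
    exact (mem_erase.1 ai).1 (ZMod.val_injective _ (by omega))
  · intro a ha
    obtain ⟨a0, ai⟩ := mem_erase.1 ha
    refine mem_erase.2 ⟨neg_ne_zero.2 a0, mem_erase.2 ⟨fun e => (mem_erase.1 ai).1 ?_, mem_univ _⟩⟩
    rw [← neg_neg a, e, neg_eq_iff_add_eq_zero, h]

/-- the shift property -/
def Sh (n : ℕ) (f : Equiv.Perm (Fin n)) : Prop :=
  ∀ s t : ℕ, ∀ i j k m : Fin n, i ≠ j → k ≠ m →
    (((((i : ℕ) + 1 + s) % (n + 1) : ℕ) : ℤ) - ((((j : ℕ) + 1 + s) % (n + 1) : ℕ) : ℤ)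
        = ((((k : ℕ) + 1 + s) % (n + 1) : ℕ) : ℤ) - ((((m : ℕ) + 1 + s) % (n + 1) : ℕ) : ℤ) ∧
     ((((f i : ℕ) + 1 + t) % (n + 1) : ℕ) : ℤ) - ((((f j : ℕ) + 1 + t) % (n + 1) : ℕ) : ℤ)
        = ((((f k : ℕ) + 1 + t) % (n + 1) : ℕ) : ℤ) - ((((f m : ℕ) + 1 + t) % (n + 1) : ℕ) : ℤ)) →
    i = k ∧ j = m

/-- the pairs of dots on a line of slope `d` -/
def Pd (n : ℕ) (f : Equiv.Perm (Fin n)) (d : ℕ) : Set (Fin n × Fin n) :=
  {p | p.1 ≠ p.2 ∧ ((f p.1 : ℕ) : ℤ) - ((f p.2 : ℕ) : ℤ) ≡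
    (d : ℤ) * (((p.1 : ℕ) : ℤ) - ((p.2 : ℕ) : ℤ)) [ZMOD ((n : ℤ) + 1)]}

lemma bridge (n : ℕ) (f : Equiv.Perm (Fin n)) (hS : Sh n f) (d : ℕ) (hd : d.Coprime (n + 1)) :
    ∃ F : ZMod (n + 1) ≃ ZMod (n + 1), Sd F ∧ (Pd n f d).ncard =
      (univ.filter fun a => a ≠ 0 ∧ gam F a ≠ (d : ZMod (n + 1)) * a).card := by
  obtain ⟨F, hW, hF, sj, nz⟩ := transfer n (n + 1) rfl f hS
  have sd := hW.sd rfl (two_zmod (n + 1))
  have inj : ∀ i j : Fin n, (((i : ℕ) + 1 : ℕ) : ZMod (n + 1)) = (((j : ℕ) + 1 : ℕ) : ZMod (n + 1)) →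
      i = j := fun i j e => by
    have := congrArg ZMod.val e
    rw [ZMod.val_cast_of_lt (by omega), ZMod.val_cast_of_lt (by omega)] at this
    exact Fin.ext (by omega)
  have mem : ∀ i j : Fin n, (i, j) ∈ Pd n f d ↔ i ≠ j ∧
      F (((i : ℕ) + 1 : ℕ) : ZMod (n + 1)) - F (((j : ℕ) + 1 : ℕ) : ZMod (n + 1)) =
        d * ((((i : ℕ) + 1 : ℕ) : ZMod (n + 1)) - (((j : ℕ) + 1 : ℕ) : ZMod (n + 1))) := by
    intro i j
    rw [hF, hF, Pd, Set.mem_ofPred_eq, show (n : ℤ) + 1 = ((n + 1 : ℕ) : ℤ) by push_cast; rfl,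
      ← ZMod.intCast_eq_intCast_iff]
    push_cast
    rw [add_sub_add_right_eq_sub, add_sub_add_right_eq_sub]
  refine ⟨F, sd, ?_⟩
  rw [← Set.ncard_coe_finset]
  refine Set.ncard_congr (fun p _ => (((p.1 : ℕ) + 1 : ℕ) : ZMod (n + 1)) -
    (((p.2 : ℕ) + 1 : ℕ) : ZMod (n + 1))) ?_ ?_ ?_
  · rintro ⟨i, j⟩ h
    obtain ⟨h1, h2⟩ := (mem i j).1 h
    have h3 := sub_ne_zero.2 fun e => h1 (inj i j e)
    refine mem_coe.2 (mem_filter.2 ⟨mem_univ _, h3, fun e => ?_⟩)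
    refine ((sd.gam_iff h3).1 e.symm).2 _ (nz j) ?_ ?_
    · rw [add_sub_cancel]; exact nz i
    · rw [add_sub_cancel]; exact h2
  · rintro ⟨i, j⟩ ⟨k, m⟩ h h' e
    obtain ⟨h1, h2⟩ := (mem i j).1 h
    obtain ⟨-, h4⟩ := (mem k m).1 h'
    have e1 := sd.2 _ _ _ _ (nz i) (nz j) (nz k) (nz m) (fun e => h1 (inj i j e)) e
      (by rw [h2, h4]; exact congrArg _ e)
    obtain rfl := inj _ _ e1
    obtain rfl := inj _ _ (sub_right_injective e)
    rfl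
  · intro a ha
    obtain ⟨-, a0, h1⟩ := mem_filter.1 (mem_coe.1 ha)
    have h2 : (d : ZMod (n + 1)) * a ≠ 0 := fun e =>
      a0 (((ZMod.isUnit_iff_coprime d (n + 1)).2 hd).mul_right_eq_zero.1 e)
    have h3 := mt (sd.gam_iff (c := d * a) a0).2 (Ne.symm h1)
    push Not at h3
    obtain ⟨j, j0, j1, e⟩ := h3 h2
    obtain ⟨i, hi⟩ := sj _ j1
    obtain ⟨j, rfl⟩ := sj _ j0
    have e2 : (((i : ℕ) + 1 : ℕ) : ZMod (n + 1)) - (((j : ℕ) + 1 : ℕ) : ZMod (n + 1)) = a := by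
      rw [← hi, add_sub_cancel_left]
    refine ⟨(i, j), (mem i j).2 ⟨?_, by rw [e2, ← hi]; exact e⟩, e2⟩
    rintro rfl
    exact a0 (by rw [← e2, sub_self])

theorem gap (n : ℕ) (f : Equiv.Perm (Fin n)) (hS : Sh n f) (d : ℕ) (hd : d.Coprime (n + 1)) :
    (Pd n f d).ncard = 0 ∨ n ≤ 4 * (Pd n f d).ncard + 1 := by
  obtain ⟨F, sd, e⟩ := bridge n f hS d hd
  rw [e]
  exact (s_Gap (n + 1) F d sd).imp id (by omega)

theorem good (n : ℕ) (f : Equiv.Perm (Fin n)) (hS : Sh n f) (d : ℕ) (hd : d.Coprime (n + 1))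
    (h : (Pd n f d).ncard = 0) : Good (n + 1) := by
  obtain ⟨F, sd, e⟩ := bridge n f hS d hd
  rw [e, card_eq_zero, filter_eq_empty_iff] at h
  exact s_T (n + 1) F sd fun p hp hp2 => s_Mul (n + 1) F d p sd
    ((ZMod.isUnit_iff_coprime d (n + 1)).2 hd)
    (fun a ha => by_contra fun e => h (mem_univ a) ⟨ha, e⟩) hp hp2

theorem count (Q : ℕ → Prop) (hQ : ∀ n, Q n → Good (n + 1)) (ε : ℝ) (hε : 0 < ε) :
    ∃ x₀ : ℕ, ∀ x : ℕ, x₀ ≤ x →
      ({n : ℕ | n ≤ x ∧ ¬ IsPrimePow (n + 2) ∧ Q n}.ncard : ℝ) ≤ x / Real.log x ^ (2 - ε) := by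
  classical
  obtain ⟨x₀, h⟩ := Steps.ev ⟨s_Cov, s_C013, s_C2, s_C45, s_C6, s_CA⟩ (min ε 1)
    (lt_min hε one_pos) (min_le_right _ _)
  refine ⟨x₀, fun x hx => ?_⟩
  obtain ⟨h1, h2⟩ := h x hx
  refine le_trans ?_ (h1.trans ?_)
  · rw [cnt, Nat.cast_le, ← Set.ncard_coe_finset]
    refine Set.ncard_le_ncard_of_injOn (fun n => n + 1) ?_ (fun a _ b _ e => by simpa using e)
      (Finset.finite_toSet _)
    rintro n ⟨a, b, c⟩
    simp only [coe_filter, mem_Icc, Set.mem_ofPred_eq]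
    exact ⟨by omega, b, hQ n c⟩
  · have := Real.rpow_le_rpow_of_exponent_le h2 (show 2 - ε ≤ 2 - min ε 1 by
      linarith [min_le_left ε 1])
    gcongr

end Pool.Agent.MP_dcfa1b_co.Pp

end
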