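import Pool.Agent.Mg.Fc6d393p.Gc6db37

set_option linter.all false

/-!
Choice of the parameters and the weighted first moment over the shifts.
-/

set_option autoImplicit false

open Finset Filter

noncomputable section

namespace Pool.Agent.MP_cebb75_nt.Y

open MP_fdd1d3_nt X

theorem le_max_pow {η C k : ℝ} (h0 : 0 < η) (h1 : η ≤ 1) (hk : 0 < k) :
    C * k ^ (1 - η) ≤ max k ((max C 1) ^ (1 / η)) := by
  have hD1 : 1 ≤ max C 1 := le_max_right _ _
  have hD0 : 0 < max C 1 := by linarith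
  refine (mul_le_mul_of_nonneg_right (le_max_left C 1) (by positivity)).trans ?_
  set D := max C 1
  rcases le_total k (D ^ (1 / η)) with h | h
  · refine le_trans ?_ (le_max_right _ _)
    refine (mul_le_mul_of_nonneg_left (Real.rpow_le_rpow hk.le h (by linarith)) hD0.le).trans
      (le_of_eq ?_)
    rw [← Real.rpow_mul hD0.le, ← Real.rpow_one_add' hD0.le]
    · congr 1
      field_simp
      ring
    · have : 0 ≤ 1 / η * (1 - η) := mul_nonneg (by positivity) (by linarith)
      linarith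
  · refine le_trans ?_ (le_max_left _ _)
    have h2 := Real.rpow_le_rpow (by positivity) h h0.le
    rw [← Real.rpow_mul hD0.le, one_div_mul_cancel h0.ne', Real.rpow_one] at h2
    refine (mul_le_mul_of_nonneg_right h2 (by positivity)).trans (le_of_eq ?_)
    rw [← Real.rpow_add hk]
    simp

theorem exists_good (η z γ s : ℝ) (h0 : 0 < η) (h1 : η ≤ 1 / 10)
    (hz1 : 1 < z) (hz3 : z ≤ 3) (hγ : 0 ≤ γ) (hs : 1 ≤ s)
    (hg : (z - γ + 10 * η) * Real.log 2 ≤ (1 - 10 * η) * s * Real.log z) :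
    ∃ C : ℝ, ∀ κ : ℕ → ℕ, (∀ i : ℕ, 1 ≤ i → (i : ℝ) ^ s ≤ κ i) → ∀ N : ℕ, ∃ n : ℕ, N < n ∧
      ∀ I : ℕ, 1 ≤ I → (((Icc 1 I).filter fun i => κ i < n ∧
        max (κ i : ℝ) C < ((n - κ i).divisors.card : ℝ)).card : ℝ) < (I : ℝ) ^ γ := by
  classical
  have hsum : Summable fun r : ℕ => (r : ℝ) ^ (-(1 + η)) :=
    Real.summable_nat_rpow.2 (by linarith)
  set Z := ∑' r : ℕ, (r : ℝ) ^ (-(1 + η)) + 1 with hZ
  have hZ1 : 1 ≤ Z := le_add_of_nonneg_left (tsum_nonneg fun r => by positivity)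
  obtain ⟨C, X₀, hC0, hC⟩ := one_shift η (1 / (96 * Z)) z γ s h0 h1 (by positivity)
    (by rw [div_le_one (by positivity)]; linarith) hz1 hz3 hγ hs hg
  obtain ⟨C1, hC11, hC1⟩ := MP_2a1f0e_nt.divisor_bound (ε := 1 / 40) (by norm_num)
  refine ⟨(max C 1) ^ (1 / η), fun κ hκ N => ?_⟩
  have hX : Tendsto (fun x : ℕ => Real.log x) atTop atTop :=
    Real.tendsto_log_atTop.comp tendsto_natCast_atTop_atTop
  obtain ⟨x, hx1, hx2, hx3, hx5, hx4⟩ := ((hX.eventually_ge_atTop X₀).and
    ((hX.eventually_ge_atTop 40).and ((hX.eventually_ge_atTop (16 * (N + 2))).and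
    ((hX.eventually_ge_atTop (40 * C1)).and
    (((tendsto_rpow_atTop (show 0 < η / 2 by positivity)).comp hX).eventually_ge_atTop
      (6000 / η)))))).exists
  set X := Real.log x with hXd
  have hx0 : (0 : ℝ) < x := by
    rcases Nat.eq_zero_or_pos x with h | h
    · rw [h] at hXd
      simp at hXd
      linarith
    · exact_mod_cast h
  have hxe : (x : ℝ) = Real.exp X := (Real.exp_log hx0).symm
  obtain ⟨y, m, hy, hK, hyX, ht1, ht2⟩ := params η X h0 h1 (by linarith) hx4
  obtain ⟨O, hO, hO2⟩ := exists_O h1 hy hK κ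
  set S := SO O y m x with hS
  set Q := Qm η y m x with hQ
  have hQ1 : x * Real.exp (-(X / 40)) ≤ Q :=
    le_trans (mul_le_mul_of_nonneg_left (Real.exp_le_exp.2 (by linarith)) hx0.le)
      (Qm_lower h0 h1 hy hK x)
  have hQ2 : Real.exp (39 / 40 * X) ≤ Q := by
    refine le_trans (le_of_eq ?_) hQ1
    rw [hxe, ← Real.exp_add]; congr 1; ring
  have hQ0 : 0 < Q := (Real.exp_pos _).trans_le hQ2
  have hE : Real.exp (300 / η * (2 ^ m * Real.log y)) ≤ Real.exp (X / 10) := by
    rw [Real.exp_le_exp]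
    refine (mul_le_mul_of_nonneg_left ht2 (by positivity)).trans (le_of_eq ?_)
    field_simp
    norm_num
  have hlow : Q / 4 ≤ S.card := by
    refine le_trans ?_ (SO_lower h0 h1 hy hK hO x)
    have hyR : (2 : ℝ) ≤ y := by exact_mod_cast hy
    have hl1 : 1 / 2 ≤ Real.log y :=
      le_trans (by linarith [Real.log_two_gt_d9]) (Real.log_le_log (by norm_num) hyR)
    have h2 : (m : ℝ) ≤ 2 ^ m := by exact_mod_cast (Nat.lt_two_pow_self (n := m)).le
    have h3 : (m : ℝ) ≤ X / 10 := by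
      have h4 := mul_le_mul_of_nonneg_left hl1 (show (0 : ℝ) ≤ 2 ^ m by positivity)
      have h5 := mul_le_mul_of_nonneg_right h1 (show 0 ≤ X by linarith)
      linarith only [h2, h4, h5, ht2, hx2]
    have h4 : (1 + m : ℝ) ≤ Real.exp (X / 10) := by linarith [Real.add_one_le_exp (X / 10)]
    have h5 := mul_le_mul h4 hE (Real.exp_pos _).le (Real.exp_pos _).le
    have h6 : Real.exp (39 / 40 * X) =
        Real.exp (31 / 40 * X) * (Real.exp (X / 10) * Real.exp (X / 10)) := by
      rw [← Real.exp_add, ← Real.exp_add]; congr 1; ring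
    have h7 := mul_le_mul_of_nonneg_right (show 4 ≤ Real.exp (31 / 40 * X) by
      linarith only [Real.add_one_le_exp (31 / 40 * X), hx2])
      (show 0 ≤ Real.exp (X / 10) * Real.exp (X / 10) by positivity)
    linarith only [h5, h6, h7, hQ2]
  have hSx : S ⊆ range x := filter_subset _ _
  have hk := hC x y S (primorial y) Q hx1 hSx hQ1
    (fun p hp hyp hd => by have := hp.dvd_primorial_iff.1 hd; omega)
    (fun d k g hd hdX hg hgk => by
      refine (SO_upper h0 h1 hy hK hO x hd k g (by linarith only [hg]) hgk).trans ?_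
      have hdR : (0 : ℝ) < d := by exact_mod_cast hd
      have h2 : (d : ℝ) ≤ Real.exp (2 / 5 * X) := (Real.log_le_iff_le_exp hdR).1 hdX
      have h3 : 1 ≤ g * (1 + 2 * η) ^ d.primeFactors.card :=
        one_le_mul_of_one_le_of_one_le hg (one_le_pow₀ (by linarith only [h0]))
      have h4 : Real.exp (X / 10) ≤ Q * (g * (1 + 2 * η) ^ d.primeFactors.card / d) := by
        rw [← mul_div_assoc, le_div_iff₀ hdR]
        calc _ ≤ Real.exp (X / 10) * Real.exp (2 / 5 * X) := by gcongr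
          _ ≤ Real.exp (39 / 40 * X) := by
              rw [← Real.exp_add, Real.exp_le_exp]; linarith only [hx2]
          _ ≤ _ := hQ2.trans (le_mul_of_one_le_right hQ0.le h3)
      linarith only [h4, hE])
  set T := (Icc 1 x).filter fun i : ℕ => Real.log (κ i) ≤ X / 20 with hT
  set E : ℕ → ℕ → Prop := fun i n => κ i < n ∧
    C * (κ i : ℝ) ^ (1 - η) < ((n - κ i).divisors.card : ℝ) with hEd
  set Bd := S.filter fun n => 1 ≤ ∑ i ∈ T, if E i n then (i : ℝ) ^ (-γ) else 0 with hBd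
  have hbad : (Bd.card : ℝ) ≤ Q / 8 := by
    refine (card_le_sum_ind S _ T (fun i => (i : ℝ) ^ (-γ)) E (fun i _ => by positivity)
      fun n _ hn => hn).trans ?_
    have h2 : ∑ k ∈ T, (k : ℝ) ^ (-(1 + η)) ≤ Z :=
      (hsum.sum_le_tsum _ fun r _ => by positivity).trans (by linarith only [hZ])
    refine (sum_le_sum (g := fun i : ℕ => 12 * Q * (1 / (96 * Z)) * (i : ℝ) ^ (-(1 + η)))
      fun i hi => ?_).trans ?_
    · have hi1 := (mem_Icc.1 (mem_filter.1 hi).1).1
      have hiR : (0 : ℝ) < i := by exact_mod_cast hi1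
      refine (mul_le_mul_of_nonneg_left (hk i (κ i) hi1 (hκ i hi1) (mem_filter.1 hi).2
        fun n hn p hkn hp hd => (SO_primes h0 h1 hy hK hO2 hn hi1 hkn hp hd).imp_right fun h =>
          ⟨h.1, lt_of_le_of_lt (div_le_div_of_nonneg_right ht1 (by positivity)) h.2⟩)
        (by positivity)).trans (le_of_eq ?_)
      rw [mul_left_comm, ← Real.rpow_add hiR]
      congr 2
      ring
    · rw [← mul_sum]
      refine (mul_le_mul_of_nonneg_left h2 (by positivity)).trans (le_of_eq ?_)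
      field_simp
      norm_num
  have hex : ¬ S ⊆ Bd ∪ range (N + 1) := fun h => by
    have h2 := (card_le_card h).trans (card_union_le _ _)
    rw [card_range] at h2
    have h3 : (S.card : ℝ) ≤ Bd.card + (N + 1) := by exact_mod_cast h2
    linarith only [h3, hbad, hlow, hQ2, hx3, Real.add_one_le_exp (39 / 40 * X), hx2]
  obtain ⟨n, hnS, hn⟩ := not_subset.1 hex
  rw [mem_union, not_or, mem_range] at hn
  refine ⟨n, by omega, fun I hI => ?_⟩
  have hnx := mem_range.1 (hSx hnS)
  have hf : ∑ i ∈ T, (if E i n then (i : ℝ) ^ (-γ) else 0) < 1 :=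
    not_le.1 fun h => hn.1 (mem_filter.2 ⟨hnS, h⟩)
  have hIR : (0 : ℝ) < I := by exact_mod_cast hI
  set F := (Icc 1 I).filter fun i => κ i < n ∧
    max (κ i : ℝ) ((max C 1) ^ (1 / η)) < ((n - κ i).divisors.card : ℝ) with hF
  have hFT : F ⊆ T.filter fun i => E i n := fun i hi => by
    obtain ⟨h2, h3, h4⟩ := mem_filter.1 hi
    have hi1 := (mem_Icc.1 h2).1
    have hiR : (1 : ℝ) ≤ i := by exact_mod_cast hi1
    have hik : (i : ℝ) ≤ κ i := le_trans (by
      simpa using Real.rpow_le_rpow_of_exponent_le hiR hs) (hκ i hi1)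
    have hik' : i ≤ κ i := by exact_mod_cast hik
    have hk0 : (0 : ℝ) < κ i := by linarith only [hiR, hik]
    refine mem_filter.2 ⟨mem_filter.2 ⟨mem_Icc.2 ⟨hi1, by omega⟩, ?_⟩, h3,
      (le_max_pow h0 (by linarith only [h1]) hk0).trans_lt h4⟩
    by_contra hkX
    have h5 : ((n - κ i : ℕ) : ℝ) ≤ x := by exact_mod_cast (by omega : n - κ i ≤ x)
    have h6 : ((n - κ i : ℕ) : ℝ) ^ (1 / 40 : ℝ) ≤ Real.exp (X / 40) := by
      refine (Real.rpow_le_rpow (by positivity) h5 (by norm_num)).trans (le_of_eq ?_)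
      rw [Real.rpow_def_of_pos hx0, ← hXd]
      congr 1
      ring
    have h7 : C1 ≤ Real.exp (X / 40) := by linarith only [hx5, Real.add_one_le_exp (X / 40)]
    have h8 := (hC1 (n - κ i)).trans (mul_le_mul h7 h6 (by positivity) (Real.exp_pos _).le)
    rw [← Real.exp_add] at h8
    have h9 : Real.exp (X / 40 + X / 40) < κ i :=
      (Real.lt_log_iff_exp_lt hk0).1 (by linarith only [not_le.1 hkX])
    linarith only [h8, h9, h4, le_max_left (κ i : ℝ) ((max C 1) ^ (1 / η))]
  have h2 : (F.card : ℝ) * (I : ℝ) ^ (-γ) < 1 := by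
    refine lt_of_le_of_lt ?_ hf
    rw [← sum_filter, ← nsmul_eq_mul]
    refine le_trans (card_nsmul_le_sum F (fun i => (i : ℝ) ^ (-γ)) _ fun i hi => ?_)
      (sum_le_sum_of_subset_of_nonneg hFT fun i _ _ => by positivity)
    have h3 := mem_Icc.1 (mem_filter.1 hi).1
    exact Real.rpow_le_rpow_of_nonpos (by exact_mod_cast h3.1) (by exact_mod_cast h3.2)
      (by linarith only [hγ])
  rwa [Real.rpow_neg hIR.le, ← div_eq_mul_inv, div_lt_one (by positivity)] at h2

theorem exists_z {γ s : ℝ} (hγ : 0 ≤ γ) (hs : 1 ≤ s)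
    (h : s / Real.log 2 * Real.log (Real.exp 1 * Real.log 2 / s) < γ) :
    ∃ η z : ℝ, 0 < η ∧ η ≤ 1 / 10 ∧ 1 < z ∧ z ≤ 3 ∧
      (z - γ + 10 * η) * Real.log 2 ≤ (1 - 10 * η) * s * Real.log z := by
  have h2 : 0 < Real.log 2 := Real.log_pos (by norm_num)
  have h3 : Real.log 2 < 1 := by linarith [Real.log_two_lt_d9]
  have he : Real.exp 1 ≤ 3 := by linarith [Real.exp_one_lt_d9]
  obtain ⟨z, hz1, hz3, hz⟩ : ∃ z : ℝ, 1 < z ∧ z ≤ 3 ∧
      (z - γ) * Real.log 2 < s * Real.log z := by
    rcases le_or_gt s (Real.exp 1 * Real.log 2) with h4 | h4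
    · refine ⟨s / Real.log 2, by rw [lt_div_iff₀ h2]; linarith,
        le_trans (by rwa [div_le_iff₀ h2]) he, ?_⟩
      have h5 : Real.log (Real.exp 1 * Real.log 2 / s) = 1 - Real.log (s / Real.log 2) := by
        rw [Real.log_div (by positivity) (by positivity), Real.log_div (by positivity) h2.ne',
          Real.log_mul (by positivity) h2.ne', Real.log_exp]
        ring
      rw [h5, div_mul_eq_mul_div, div_lt_iff₀ h2] at h
      rw [sub_mul, div_mul_cancel₀ _ h2.ne']
      linarith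
    · refine ⟨Real.exp 1, by linarith [Real.exp_one_gt_d9], he, ?_⟩
      rw [Real.log_exp]
      linarith [mul_nonneg hγ h2.le]
  have hl : 0 < Real.log z := Real.log_pos hz1
  have h5 : 0 < 10 * (Real.log 2 + s * Real.log z) := by positivity
  refine ⟨min (1 / 10) ((s * Real.log z - (z - γ) * Real.log 2) /
    (10 * (Real.log 2 + s * Real.log z))), z, lt_min (by norm_num) (div_pos (by linarith) h5),
    min_le_left _ _, hz1, hz3, ?_⟩
  have h6 := (le_div_iff₀ h5).1 (min_le_right (1 / 10) ((s * Real.log z - (z - γ) * Real.log 2) /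
    (10 * (Real.log 2 + s * Real.log z))))
  linarith

end Pool.Agent.MP_cebb75_nt.Y
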