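import Pool.Agent.Mg.Fc6d393p.G240184
import Pool.Agent.Mg.Fc6d393p.G3cf575

set_option linter.all false

section

/-!
The sifted set for an arbitrary sequence of shifts, and the tilted tail bound.
-/

set_option autoImplicit false

open Finset

noncomputable section

namespace Pool.Agent.MP_cebb75_nt.Y

open MP_fdd1d3_nt X

open scoped Classical in
/-- the sifted set -/
def SO (O : ℕ → ℕ → Finset ℕ) (y m x : ℕ) : Finset ℕ :=
  (range x).filter fun n => n ≡ 0 [MOD primorial y] ∧ SvO (range m) (BB y) O n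

variable {η : ℝ} {y m : ℕ} {O : ℕ → ℕ → Finset ℕ}

theorem exists_O (h1 : η ≤ 1 / 10) (hy : 2 ≤ y) (hK : ((2 : ℝ) ^ (1 - η)) ^ m ≤ η * y)
    (κ : ℕ → ℕ) : ∃ O : ℕ → ℕ → Finset ℕ,
      (∀ j, ∀ p ∈ BB y j, O j p ⊆ range p ∧ (O j p).card = KK η m j) ∧
      ∀ j, ∀ p ∈ BB y j, ∀ i ∈ Icc 1 (KK η m j), κ i % p ∈ O j p := by
  have h : ∀ j p : ℕ, ∃ U : Finset ℕ, p ∈ BB y j → (U ⊆ range p ∧ U.card = KK η m j) ∧
      ∀ i ∈ Icc 1 (KK η m j), κ i % p ∈ U := by
    intro j p
    by_cases hp : p ∈ BB y j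
    · have h2 := BB_mem hy hp
      have h3 : KK η m j ≤ p := by
        have h4 : (y : ℝ) < p := by exact_mod_cast h2.2
        have h5 : (0 : ℝ) ≤ y := by positivity
        have h6 : (KK η m j : ℝ) ≤ p := by nlinarith [KK_le' h1 hK j]
        exact_mod_cast h6
      obtain ⟨U, a1, a2, a3⟩ := exists_subsuperset_card_eq
        (s := (Icc 1 (KK η m j)).image fun i => κ i % p) (t := range p) (n := KK η m j)
        (fun c hc => by
          obtain ⟨i, -, rfl⟩ := mem_image.1 hc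
          exact mem_range.2 (Nat.mod_lt _ h2.1.pos))
        (card_image_le.trans (by simp)) (by rwa [card_range])
      exact ⟨U, fun _ => ⟨⟨a2, a3⟩, fun i hi => a1 (mem_image_of_mem _ hi)⟩⟩
    · exact ⟨∅, fun h => absurd h hp⟩
  choose U hU using h
  exact ⟨U, fun j p hp => (hU j p hp).1, fun j p hp => (hU j p hp).2⟩

theorem SO_lower (h0 : 0 < η) (h1 : η ≤ 1 / 10) (hy : 2 ≤ y)
    (hK : ((2 : ℝ) ^ (1 - η)) ^ m ≤ η * y)
    (hO : ∀ j, ∀ p ∈ BB y j, O j p ⊆ range p ∧ (O j p).card = KK η m j) (x : ℕ) :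
    Qm η y m x / 2 - (1 + m) * Real.exp (300 / η * (2 ^ m * Real.log y)) ≤ (SO O y m x).card :=
  (concO h0 h1 hy hK (BB y) O (primorial y) 0 x (primorial_pos y) (fun _ => Subset.refl _)
    (fun j p hp hd => by
      have := BB_mem hy hp
      have := this.1.dvd_primorial_iff.1 hd
      omega) hO).2

theorem SO_upper (h0 : 0 < η) (h1 : η ≤ 1 / 10) (hy : 2 ≤ y)
    (hK : ((2 : ℝ) ^ (1 - η)) ^ m ≤ η * y)
    (hO : ∀ j, ∀ p ∈ BB y j, O j p ⊆ range p ∧ (O j p).card = KK η m j)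
    (x : ℕ) {d : ℕ} (hd : 0 < d) (k : ℕ) (g : ℝ)
    (hg0 : 0 ≤ g) (hg : (primorial y).gcd d ∣ k → ((primorial y).gcd d : ℝ) ≤ g) :
    (((SO O y m x).filter fun n => n ≡ k [MOD d]).card : ℝ) ≤
      2 * Qm η y m x * (g * (1 + 2 * η) ^ d.primeFactors.card / d) +
        Real.exp (300 / η * (2 ^ m * Real.log y)) := by
  classical
  have hW := primorial_pos y
  have hV := VV_nonneg h0 h1 hy hK
  have hQ : 0 ≤ Qm η y m x := mul_nonneg (by positivity) hV
  rcases ((SO O y m x).filter fun n => n ≡ k [MOD d]).eq_empty_or_nonempty with he | ⟨a, ha⟩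
  · rw [he, card_empty, Nat.cast_zero]
    positivity
  obtain ⟨ha1, ha2⟩ := mem_filter.1 ha
  have ha3 := (mem_filter.1 ha1).2.1
  have hgk : (primorial y).gcd d ∣ k := by
    have h2 := (ha3.of_dvd (Nat.gcd_dvd_left _ d)).symm.trans (ha2.of_dvd (Nat.gcd_dvd_right _ d))
    exact (Nat.modEq_zero_iff_dvd).1 h2.symm
  have hc := (concO h0 h1 hy hK (fun j => (BB y j).filter fun p => ¬ p ∣ d) O
    ((primorial y).lcm d) a x (Nat.lcm_pos hW hd) (fun _ => filter_subset _ _)
    (fun j p hp hdv => by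
      obtain ⟨h2, h3⟩ := mem_filter.1 hp
      have h4 := BB_mem hy h2
      rcases (h4.1.dvd_mul).1 (hdv.trans (Nat.lcm_dvd_mul _ _)) with h | h
      · have := h4.1.dvd_primorial_iff.1 h
        omega
      · exact h3 h) hO).1
  refine le_trans (Nat.cast_le.2 (card_le_card fun n hn => ?_)) (hc.trans ?_)
  · obtain ⟨h2, h3⟩ := mem_filter.1 hn
    obtain ⟨h4, h5, h6⟩ := mem_filter.1 h2
    exact mem_filter.2 ⟨h4, Nat.mod_lcm (h5.trans ha3.symm) (h3.trans ha2.symm),
      fun j hj p hp => h6 j hj p (mem_filter.1 hp).1⟩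
  · have h2 := VV_omit h0 h1 hy hK hd
    have h3 : (((primorial y).gcd d : ℕ) : ℝ) * ((primorial y).lcm d : ℕ) =
        (primorial y : ℕ) * (d : ℝ) := by exact_mod_cast Nat.gcd_mul_lcm _ _
    have h4 : (0 : ℝ) < ((primorial y).lcm d : ℕ) := by exact_mod_cast Nat.lcm_pos hW hd
    have h5 : (0 : ℝ) < (primorial y : ℕ) := by exact_mod_cast hW
    have h6 : (0 : ℝ) < d := by exact_mod_cast hd
    have h7 : (x : ℝ) / ((primorial y).lcm d : ℕ) ≤ x / (primorial y : ℕ) * (g / d) := by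
      rw [div_mul_div_comm, ← h3, div_le_div_iff₀ h4 (by rw [h3]; positivity)]
      have := mul_le_mul_of_nonneg_left (hg hgk)
        (show (0 : ℝ) ≤ x * ((primorial y).lcm d : ℕ) by positivity)
      nlinarith
    have h8 := mul_le_mul h7 h2 (prod_nonneg fun j _ => prod_nonneg fun p hp => by
      linarith [(Kp_le h0 h1 hy hK (mem_filter.1 hp).1).2]) (by positivity)
    have h9 : x / (primorial y : ℕ) * (g / d) *
        (VV (range m) (BB y) (KK η m) * (1 + 2 * η) ^ d.primeFactors.card) =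
        Qm η y m x * (g * (1 + 2 * η) ^ d.primeFactors.card / d) := by unfold Qm; ring
    linarith

theorem SO_primes (h0 : 0 < η) (h1 : η ≤ 1 / 10) (hy : 2 ≤ y)
    (hK : ((2 : ℝ) ^ (1 - η)) ^ m ≤ η * y) {κ : ℕ → ℕ}
    (hO : ∀ j, ∀ p ∈ BB y j, ∀ i ∈ Icc 1 (KK η m j), κ i % p ∈ O j p)
    {x n k p : ℕ} (hn : n ∈ SO O y m x) (hk : 1 ≤ k)
    (hkn : κ k < n) (hp : p.Prime) (hd : p ∣ n - κ k) :
    p ∣ κ k ∨ (y < p ∧ 2 ^ m * Real.log y / (k : ℝ) ^ (1 + 2 * η) < Real.log p) := by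
  classical
  obtain ⟨-, h2, h3⟩ := mem_filter.1 hn
  by_cases hpy : p ≤ y
  · left
    have h4 : p ∣ n := (hp.dvd_primorial_iff.2 hpy).trans ((Nat.modEq_zero_iff_dvd).1 h2)
    exact (Nat.dvd_sub_iff_right hkn.le h4).1 hd
  right
  push Not at hpy
  refine ⟨hpy, ?_⟩
  have hyR : (2 : ℝ) ≤ y := by exact_mod_cast hy
  have hly : 0 < Real.log y := Real.log_pos (by linarith)
  have hkR : (1 : ℝ) ≤ k := by exact_mod_cast hk
  have hk1 : (1 : ℝ) ≤ (k : ℝ) ^ (1 + 2 * η) := Real.one_le_rpow hkR (by linarith)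
  have hlog : ∀ j, y ^ 2 ^ j < p → 2 ^ j * Real.log y < Real.log p := fun j hj => by
    have h4 : ((y ^ 2 ^ j : ℕ) : ℝ) < p := by exact_mod_cast hj
    have h5 := Real.log_lt_log (by positivity) h4
    rw [Nat.cast_pow, Real.log_pow] at h5
    exact_mod_cast h5
  by_cases hpm : y ^ 2 ^ m < p
  · exact lt_of_le_of_lt (div_le_self (by positivity) hk1) (hlog m hpm)
  have hex : ∃ j, p ≤ y ^ 2 ^ j := ⟨m, by omega⟩
  have hj0 : Nat.find hex ≠ 0 := fun h => by
    have := Nat.find_spec hex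
    rw [h] at this
    simp at this
    omega
  obtain ⟨j, hj⟩ := Nat.exists_eq_succ_of_ne_zero hj0
  have hj1 : p ≤ y ^ 2 ^ (j + 1) := by have := Nat.find_spec hex; rwa [hj] at this
  have hj2 : y ^ 2 ^ j < p := by have := Nat.find_min hex (m := j) (by omega); omega
  have hj3 : j < m := by have := Nat.find_min' hex (m := m) (by omega); omega
  have hpB : p ∈ BB y j := (mem_PP _ _ _).2 ⟨⟨hj2, hj1⟩, hp⟩
  have hkK : KK η m j < k := by
    by_contra hh
    push Not at hh
    apply h3 j (mem_range.2 hj3) p hpB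
    have h7 : κ k ≡ n [MOD p] := (Nat.modEq_iff_dvd' hkn.le).2 hd
    rw [← h7]
    exact hO j p hpB k (mem_Icc.2 ⟨hk, hh⟩)
  have h4 : ((2 : ℝ) ^ (1 - η)) ^ (m - j) < k := (Nat.floor_lt (by positivity)).1 hkK
  have h5 : (2 : ℝ) ^ (m - j) ≤ (k : ℝ) ^ (1 + 2 * η) := by
    refine le_trans ?_ (Real.rpow_le_rpow (by positivity) h4.le (by linarith))
    rw [← Real.rpow_natCast, ← Real.rpow_natCast, ← Real.rpow_mul (x := 2) (by norm_num),
      ← Real.rpow_mul (x := 2) (by norm_num)]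
    refine Real.rpow_le_rpow_of_exponent_le (by norm_num) ?_
    have h6 : (0 : ℝ) ≤ ((m - j : ℕ) : ℝ) := by positivity
    nlinarith [mul_nonneg h6 (show 0 ≤ η * (1 - 2 * η) by nlinarith)]
  refine lt_of_le_of_lt ?_ (hlog j hj2)
  rw [div_le_iff₀ (by linarith), show (2 : ℝ) ^ m = 2 ^ j * 2 ^ (m - j) by
    rw [← pow_add]; congr 1; omega]
  have := mul_le_mul_of_nonneg_left h5 (show 0 ≤ 2 ^ j * Real.log y by positivity)
  linarith

theorem bad1z (S P : Finset ℕ) (k : ℕ) (Q θ X J z : ℝ) (hz : 1 ≤ z)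
    (hQ : 0 ≤ Q) (hθ0 : 1 ≤ θ) (hθ : θ ≤ 2)
    (hX : 0 < X) (hP : ∀ p ∈ P, p.Prime ∧ Real.log p ≤ X / 20)
    (hcnt : ∀ T ⊆ P, ∑ p ∈ T, Real.log p ≤ X / 10 →
      ((S.filter fun n => n ≡ k [MOD ∏ p ∈ T, p]).card : ℝ) ≤
        Q * (θ ^ T.card / ((∏ p ∈ T, p : ℕ) : ℝ))) :
    ((S.filter fun n => k < n ∧ J ≤ ((P.filter fun p => p ∣ n - k).card : ℝ)).card : ℝ) ≤
      Q * (Real.exp (-(J * Real.log z)) * ∑ T ∈ P.powerset, ((z - 1) * θ) ^ T.card /
          ((∏ p ∈ T, p : ℕ) : ℝ) +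
        ∑ T ∈ P.powerset, (if X / 20 ≤ ∑ p ∈ T, Real.log p then
          2 ^ T.card / ((∏ p ∈ T, p : ℕ) : ℝ) else 0)) := by
  classical
  have he : 0 ≤ z - 1 := by linarith
  set c : Finset ℕ → ℝ := fun T => Real.exp (-(J * Real.log z)) * (z - 1) ^ T.card +
    if X / 20 ≤ ∑ p ∈ T, Real.log p then 1 else 0 with hc
  have hc0 : ∀ T, 0 ≤ c T := fun T => by
    simp only [hc]
    split_ifs <;> positivity
  set I := P.powerset.filter fun T : Finset ℕ => ∑ p ∈ T, Real.log p ≤ X / 10 with hI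
  refine (card_le_sum_ind S _ I c (fun T n => n ≡ k [MOD ∏ p ∈ T, p]) (fun T _ => hc0 T)
    fun n _ hn => ?_).trans ?_
  · obtain ⟨hkn, hJ⟩ := hn
    set R := P.filter fun p => p ∣ n - k with hR
    have hsub : ∀ T ⊆ R, n ≡ k [MOD ∏ p ∈ T, p] := fun T hT =>
      ((Nat.modEq_iff_dvd' hkn.le).2 (Finset.prod_primes_dvd _
        (fun p hp => (hP p (mem_filter.1 (hT hp)).1).1.prime)
        fun p hp => (mem_filter.1 (hT hp)).2)).symm
    have hnn : ∀ T ∈ I, 0 ≤ if n ≡ k [MOD ∏ p ∈ T, p] then c T else 0 := fun T _ => by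
      split_ifs; exacts [hc0 T, le_rfl]
    by_cases hs : ∑ p ∈ R, Real.log p ≤ X / 10
    · have h1 : R.powerset ⊆ I := fun T hT => mem_filter.2
        ⟨mem_powerset.2 ((mem_powerset.1 hT).trans (filter_subset _ _)),
          (sum_le_sum_of_subset_of_nonneg (mem_powerset.1 hT)
            fun p _ _ => Real.log_natCast_nonneg p).trans hs⟩
      refine le_trans ?_ (sum_le_sum_of_subset_of_nonneg h1 fun T hT _ => hnn T hT)
      calc (1 : ℝ) ≤ Real.exp (-(J * Real.log z)) * (1 + (z - 1)) ^ R.card := by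
            rw [add_sub_cancel, ← Real.exp_log (show 0 < z ^ R.card by positivity), Real.log_pow,
              ← Real.exp_add]
            refine Real.one_le_exp ?_
            linarith [mul_le_mul_of_nonneg_right hJ (Real.log_nonneg hz)]
        _ = ∑ T ∈ R.powerset, Real.exp (-(J * Real.log z)) * (z - 1) ^ T.card := by
            rw [← prod_const, prod_one_add, mul_sum]
            simp only [prod_const]
        _ ≤ _ := sum_le_sum fun T hT => by
            rw [if_pos (hsub T (mem_powerset.1 hT))]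
            simp only [hc]
            split_ifs <;> linarith
    · push Not at hs
      obtain ⟨T, hT, h1, h2⟩ := exists_sub R (fun p => Real.log p / (X / 20)) (fun p hp => by
        rw [div_le_one (by positivity)]
        exact (hP p (mem_filter.1 hp).1).2) 1 zero_le_one (by
          rw [← sum_div, le_div_iff₀ (by positivity)]
          linarith)
      rw [← sum_div] at h1 h2
      rw [le_div_iff₀ (by positivity)] at h1
      rw [div_le_iff₀ (by positivity)] at h2
      have h3 : T ∈ I := mem_filter.2 ⟨mem_powerset.2 (hT.trans (filter_subset _ _)), by linarith⟩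
      refine le_trans ?_ (single_le_sum hnn h3)
      rw [if_pos (hsub T hT)]
      simp only [hc]
      rw [if_pos (by linarith)]
      exact le_add_of_nonneg_left (by positivity)
  · rw [mul_sum, ← sum_add_distrib, mul_sum]
    refine le_trans (sum_le_sum fun T hT => mul_le_mul_of_nonneg_left
      (hcnt T (mem_powerset.1 (mem_filter.1 hT).1) (mem_filter.1 hT).2) (hc0 T))
      ((sum_le_sum_of_subset_of_nonneg (filter_subset _ _) fun T _ _ =>
        mul_nonneg (hc0 T) (by positivity)).trans (sum_le_sum fun T _ => ?_))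
    rw [mul_left_comm]
    refine mul_le_mul_of_nonneg_left ?_ hQ
    simp only [hc]
    rw [add_mul]
    refine add_le_add (le_of_eq (by rw [mul_pow]; ring)) ?_
    split_ifs
    · rw [one_mul]
      gcongr
    · simp

theorem tiltz (P : Finset ℕ) (c : ℝ) (hc : 0 ≤ c) (hP : ∀ p ∈ P, 2 ≤ p) :
    ∑ T ∈ P.powerset, c ^ T.card / ((∏ p ∈ T, p : ℕ) : ℝ) ≤
      Real.exp (c * (Real.log (∏ p ∈ P, (1 + 1 / (p : ℝ))) + 1)) := by
  have h3 : ∑ D ∈ P.powerset, c ^ D.card / ((∏ p ∈ D, p : ℕ) : ℝ) =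
      ∏ p ∈ P, (1 + c * (1 / (p : ℝ))) := by
    rw [prod_one_add]
    refine sum_congr rfl fun s _ => ?_
    simp [prod_mul_distrib, div_eq_mul_inv]
  have h4 : ∑ p ∈ P, ((p : ℝ) ^ 2)⁻¹ ≤ 1 := by
    have h5 := sum_Ioc_inv_sq_le_sub (α := ℝ) (k := 1) (n := P.sup id + 1) one_ne_zero (by omega)
    refine (sum_le_sum_of_subset_of_nonneg (fun p hp => mem_Ioc.2
      ⟨hP p hp, (le_sup (f := id) hp).trans (Nat.le_succ _)⟩) fun p _ _ => by positivity).trans
      (h5.trans ?_)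
    rw [Nat.cast_one, inv_one]
    exact sub_le_self _ (by positivity)
  have h5 : ∑ p ∈ P, 1 / (p : ℝ) ≤ Real.log (∏ p ∈ P, (1 + 1 / (p : ℝ))) + 1 := by
    rw [Real.log_prod fun p _ => by positivity]
    refine le_trans ?_ (add_le_add_right h4 _)
    rw [← sum_add_distrib]
    refine sum_le_sum fun p hp => ?_
    have h6 : (2 : ℝ) ≤ p := by exact_mod_cast hP p hp
    have h7 := Real.one_sub_inv_le_log_of_pos (show 0 < 1 + 1 / (p : ℝ) by positivity)
    have h8 : 1 / (p : ℝ) ≤ 1 - (1 + 1 / (p : ℝ))⁻¹ + ((p : ℝ) ^ 2)⁻¹ := by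
      rw [← sub_nonneg]
      have : 1 - (1 + 1 / (p : ℝ))⁻¹ + ((p : ℝ) ^ 2)⁻¹ - 1 / (p : ℝ) =
          1 / ((p : ℝ) ^ 2 * (p + 1)) := by
        field_simp
        ring
      rw [this]
      positivity
    linarith
  rw [h3]
  refine le_trans ?_ (Real.exp_le_exp.2 (mul_le_mul_of_nonneg_left h5 hc))
  rw [mul_sum, Real.exp_sum]
  exact prod_le_prod (fun p _ => by positivity) fun p _ => by
    linarith [Real.add_one_le_exp (c * (1 / (p : ℝ)))]

end Pool.Agent.MP_cebb75_nt.Y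

end
end

section

/-!
One shift of the sequence: the bad integers are a small part of the sifted set.
-/

set_option autoImplicit false

open Finset Filter

noncomputable section

namespace Pool.Agent.MP_cebb75_nt.Y

open MP_fdd1d3_nt X

theorem expo_z {η z γ s Λ L : ℝ} (h0 : 0 < η) (h1 : η ≤ 1 / 10) (hz1 : 1 < z) (hz3 : z ≤ 3)
    (hg : (z - γ + 10 * η) * Real.log 2 ≤ (1 - 10 * η) * s * Real.log z) (hΛ : 0 ≤ Λ)
    (hL : s * Λ ≤ L) :
    ((1 + η - γ) * Λ + (z - 1) * (1 + 2 * η) * ((1 + 2 * η) * Λ)) / Real.log z * Real.log 2 ≤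
      (1 - 10 * η) * L := by
  have hl : 0 < Real.log z := Real.log_pos hz1
  have h2 : 0 < Real.log 2 := Real.log_pos (by norm_num)
  rw [div_mul_eq_mul_div, div_le_iff₀ hl]
  have h3 : (z - 1) * ((1 + 2 * η) * (1 + 2 * η)) ≤ z - 1 + 9 * η := by
    have h4 : (1 + 2 * η) * (1 + 2 * η) ≤ 1 + 4.4 * η := by nlinarith
    nlinarith [mul_le_mul_of_nonneg_left h4 (show 0 ≤ z - 1 by linarith)]
  have h4 := mul_le_mul_of_nonneg_right h3 (mul_nonneg hΛ h2.le)
  have h5 := mul_le_mul_of_nonneg_right hg hΛ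
  have h6 := mul_le_mul_of_nonneg_left hL
    (mul_nonneg (show 0 ≤ 1 - 10 * η by linarith) hl.le)
  linarith

open scoped Classical in
theorem one_shift (η ε z γ s : ℝ) (h0 : 0 < η) (h1 : η ≤ 1 / 10) (hε0 : 0 < ε) (hε1 : ε ≤ 1)
    (hz1 : 1 < z) (hz3 : z ≤ 3) (hγ : 0 ≤ γ) (hs : 1 ≤ s)
    (hg : (z - γ + 10 * η) * Real.log 2 ≤ (1 - 10 * η) * s * Real.log z) :
    ∃ C X₀ : ℝ, 0 < C ∧ ∀ (x y : ℕ) (S : Finset ℕ) (W : ℕ) (Q : ℝ), X₀ ≤ Real.log x →
      S ⊆ range x → x * Real.exp (-(Real.log x / 40)) ≤ Q →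
      (∀ p : ℕ, p.Prime → y < p → ¬ p ∣ W) →
      (∀ d k : ℕ, ∀ g : ℝ, 0 < d → Real.log d ≤ 2 / 5 * Real.log x → 1 ≤ g →
        (W.gcd d ∣ k → (W.gcd d : ℝ) ≤ g) →
        ((S.filter fun n => n ≡ k [MOD d]).card : ℝ) ≤
          3 * Q * (g * (1 + 2 * η) ^ d.primeFactors.card / d)) →
      ∀ i k : ℕ, 1 ≤ i → (i : ℝ) ^ s ≤ k → Real.log k ≤ Real.log x / 20 →
        (∀ n ∈ S, ∀ p : ℕ, k < n → p.Prime → p ∣ n - k → p ∣ k ∨
          (y < p ∧ η / 6000 * Real.log x / (i : ℝ) ^ (1 + 2 * η) < Real.log p)) →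
        ((S.filter fun n => k < n ∧ C * (k : ℝ) ^ (1 - η) <
          ((n - k).divisors.card : ℝ)).card : ℝ) ≤ 12 * Q * ε * (i : ℝ) ^ (-(1 + η - γ)) := by
  obtain ⟨C2, hC21, hC2⟩ := MP_2a1f0e_nt.divisor_bound (ε := 1 / 2) (by norm_num)
  obtain ⟨C4, hC41, hC4⟩ := MP_2a1f0e_nt.divisor_bound (ε := η / 24) (by positivity)
  obtain ⟨C5, hC51, hC5⟩ := MP_2a1f0e_nt.divisor_bound h0
  have hsum : Summable fun r : ℕ => (r : ℝ) ^ (-(5 / 4) : ℝ) :=
    Real.summable_nat_rpow.2 (by norm_num)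
  set Z := ∑' r : ℕ, (r : ℝ) ^ (-(5 / 4) : ℝ) + 1 with hZ
  have hZ1 : 1 ≤ Z := le_add_of_nonneg_left (tsum_nonneg fun r => by positivity)
  set c3 := Real.log (315 * (6000 / η)) with hc3
  have hη' : 1 ≤ 6000 / η := by rw [le_div_iff₀ h0]; linarith
  have hc30 : 0 ≤ c3 := Real.log_nonneg (by linarith)
  set e := -Real.log ε with he
  have he0 : 0 ≤ e := by have := Real.log_nonpos hε0.le hε1; linarith
  have heε : Real.exp (-e) = ε := by rw [he, neg_neg, Real.exp_log hε0]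
  set θ := 1 + 2 * η with hθ
  set cc := (z - 1) * θ with hcc
  have hcc0 : 0 ≤ cc := mul_nonneg (by linarith only [hz1]) (by linarith only [hθ, h0])
  have hlz : 0 < Real.log z := Real.log_pos hz1
  set c := 10 / η with hc
  have hc2 : 2 ≤ c := by rw [hc, le_div_iff₀ h0]; linarith
  set u0 := 2 + 12 * Real.exp c + 2 * c3 + e with hu0
  have hu2 : 2 ≤ u0 := by linarith [Real.exp_pos c]
  set a := C2 * Z / ε with ha
  have ha0 : 0 < a := by positivity
  refine ⟨C4 * a ^ (η / 3) * C5 * 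
    Real.exp (((cc * (c3 + 1) + e) / Real.log z + 10 * u0) * Real.log 2),
    max (20 * u0) (40 * (Z / ε)), by positivity, ?_⟩
  intro x y S W Q hX hS hQ hW hcnt i k hi hik hkX hpr
  have hX1 : 20 * u0 ≤ Real.log x := (le_max_left _ _).trans hX
  have hX2 : 40 * (Z / ε) ≤ Real.log x := (le_max_right _ _).trans hX
  have hx2 : 2 ≤ x := by
    by_contra hh
    have : x = 0 ∨ x = 1 := by omega
    rcases this with h | h <;> simp [h] at hX1 <;> linarith
  set X := Real.log x with hXd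
  have hX0 : 0 < X := by linarith
  have hQ0 : 0 ≤ Q := le_trans (by positivity) hQ
  have hiR : (1 : ℝ) ≤ i := by exact_mod_cast hi
  have hik' : (i : ℝ) ≤ k := le_trans (by
    simpa using Real.rpow_le_rpow_of_exponent_le hiR hs) hik
  have hkR : (1 : ℝ) ≤ k := hiR.trans hik'
  have hk : 1 ≤ k := by exact_mod_cast hkR
  set Λ := Real.log i with hΛ
  have hΛ0 : 0 ≤ Λ := Real.log_nonneg hiR
  have hpowi : ∀ r : ℝ, (i : ℝ) ^ r = Real.exp (r * Λ) := fun r => by
    rw [Real.rpow_def_of_pos (by linarith), mul_comm]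
  set L := Real.log k with hL
  have hL0 : 0 ≤ L := Real.log_nonneg hkR
  have hpow : ∀ s : ℝ, (k : ℝ) ^ s = Real.exp (s * L) := fun s => by
    rw [Real.rpow_def_of_pos (by linarith), mul_comm]
  have hΛL : Λ ≤ L := Real.log_le_log (by linarith) hik'
  have hsΛ : s * Λ ≤ L := by
    rw [hL, Real.le_log_iff_exp_le (by linarith), ← hpowi]; exact hik
  set u := η * L + u0 with hu
  have hηL : 0 ≤ η * L := by positivity
  have hηL' : η * L ≤ 1 / 10 * L := mul_le_mul_of_nonneg_right h1 hL0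
  have hu3 : 2 ≤ u := by linarith only [hu, hηL, hu2]
  have hu4 : 10 * u ≤ X := by linarith only [hu, hηL', hkX, hX1, hX0]
  set l := X / (10 * u) with hl
  have hl1 : 1 ≤ l := by rw [hl, le_div_iff₀ (by linarith)]; linarith
  have hl2 : l ≤ X / 20 := div_le_div_of_nonneg_left hX0.le (by norm_num) (by linarith)
  set t := η / 6000 * X / (i : ℝ) ^ θ with ht
  have hkθ : 1 ≤ (i : ℝ) ^ θ := Real.one_le_rpow hiR (by linarith)
  set P := (PP y x).filter fun p : ℕ => t < Real.log p ∧ Real.log p ≤ l with hP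
  have hPm : ∀ p ∈ P, ((y < p ∧ p ≤ x) ∧ p.Prime) ∧ t < Real.log p ∧ Real.log p ≤ l :=
    fun p hp => ⟨(mem_PP _ _ _).1 (mem_filter.1 hp).1, (mem_filter.1 hp).2⟩
  have hPi' : ∏ p ∈ P, (1 + 1 / (p : ℝ)) ≤ Real.exp (c3 + θ * Λ) := by
    refine (prodP x hx2 t (by positivity) ((div_le_self (by positivity) hkθ).trans
      (mul_le_of_le_one_left hX0.le (by linarith only [h1])))
      P fun p hp => ⟨(hPm p hp).1.2, (hPm p hp).1.1.2, (hPm p hp).2.1⟩).trans (le_of_eq ?_)
    rw [Real.exp_add, ← hpowi, hc3, Real.exp_log (by positivity), ht, ← hXd]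
    field_simp
  have hPi : ∏ p ∈ P, (1 + 1 / (p : ℝ)) ≤ Real.exp (c3 + θ * L) :=
    hPi'.trans (Real.exp_le_exp.2 (by
      linarith only [mul_le_mul_of_nonneg_left hΛL (show 0 ≤ θ by linarith only [hθ, h0])]))
  have hPi0 : 0 ≤ ∏ p ∈ P, (1 + 1 / (p : ℝ)) := prod_nonneg fun p _ => by positivity
  set J := ((1 + η - γ) * Λ + cc * (c3 + θ * Λ + 1) + e) / Real.log z with hJ
  set R := (a * k ^ 3) ^ 4 with hR
  have hak : 0 < a * (k : ℝ) ^ 3 := by positivity
  have hb1 := bad1z S P k (3 * Q) θ X J z hz1.le (by positivity) (by linarith) (by linarith) hX0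
    (fun p hp => ⟨(hPm p hp).1.2, (hPm p hp).2.2.trans hl2⟩) fun T hT hTs => by
      have h2 : ∀ p ∈ T, p.Prime := fun p hp => (hPm p (hT hp)).1.2
      have h3 := hcnt (∏ p ∈ T, p) k 1 (prod_pos fun p hp => (h2 p hp).pos) (by
        rw [Nat.cast_prod, Real.log_prod fun p hp => by exact_mod_cast (h2 p hp).ne_zero]
        linarith) le_rfl fun _ => by
          rw [Nat.Coprime.prod_right fun p hp => ((Nat.Prime.coprime_iff_not_dvd (h2 p hp)).2
            (hW p (h2 p hp) (hPm p (hT hp)).1.1.1)).symm]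
          simp
      rwa [Nat.primeFactors_prod h2, one_mul] at h3
  have hb2 := bad2 S x k (3 * Q) X R C2 Z (by positivity) (by positivity) (by linarith) hS hC2
    ((hsum.sum_le_tsum _ fun r _ => by positivity).trans (by linarith)) fun r hr hrX => by
      have h3 := hcnt (r ^ 2) k k (by positivity) (by
        rw [Nat.cast_pow, Real.log_pow]; push_cast; linarith) hkR
        fun h => by exact_mod_cast Nat.le_of_dvd hk h
      rw [Nat.primeFactors_pow r two_ne_zero, Nat.cast_pow] at h3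
      refine h3.trans ?_
      gcongr
      linarith
  set w := ε * (k : ℝ) ^ (-(1 + η)) with hw
  have hw' : w = Real.exp (-e - (1 + η) * L) := by
    rw [hw, hpow, ← heε, ← Real.exp_add]; congr 1; ring
  set v := ε * (i : ℝ) ^ (-(1 + η - γ)) with hv
  have hv' : v = Real.exp (-e - (1 + η - γ) * Λ) := by
    rw [hv, hpowi, ← heε, ← Real.exp_add]; congr 1; ring
  have hwv : w ≤ v := by
    rw [hw', hv', Real.exp_le_exp]
    linarith only [mul_nonneg hγ hΛ0, mul_le_mul_of_nonneg_left hΛL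
      (show 0 ≤ 1 + η by linarith only [h0])]
  have s1 : Real.exp (-(J * Real.log z)) *
      ∑ T ∈ P.powerset, cc ^ T.card / ((∏ p ∈ T, p : ℕ) : ℝ) ≤ v := by
    have h2 : Real.log (∏ p ∈ P, (1 + 1 / (p : ℝ))) ≤ c3 + θ * Λ :=
      (Real.log_le_iff_le_exp (prod_pos fun p _ => by positivity)).2 hPi'
    refine (mul_le_mul_of_nonneg_left ((tiltz P cc hcc0 fun p hp => (hPm p hp).1.2.two_le).trans
      (Real.exp_le_exp.2 (mul_le_mul_of_nonneg_left (add_le_add_left h2 1) hcc0)))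
      (Real.exp_pos _).le).trans (le_of_eq ?_)
    rw [← Real.exp_add, hv', hJ, div_mul_cancel₀ _ hlz.ne']
    congr 1
    ring
  have s2 := (rankin P l c (X / 20) hl1 (by linarith)
    fun p hp => ⟨(hPm p hp).1.2, (hPm p hp).2.2⟩).trans
    (show _ ≤ w by
      refine (mul_le_mul_of_nonneg_left (pow_le_pow_left₀ hPi0 hPi 2) (Real.exp_pos _).le).trans ?_
      have h2 : c * (X / 20) / l = 5 * L + c * u0 / 2 := by
        rw [hl, hu, hc]
        field_simp
        ring
      rw [← Real.exp_nat_mul, ← Real.exp_add, hw', Real.exp_le_exp, h2, hu0]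
      push_cast
      have h3 := mul_nonneg (show 0 ≤ c - 2 by linarith only [hc2])
        (show 0 ≤ 2 * c3 + e by linarith only [hc30, he0])
      have h4 : θ * L = L + 2 * (η * L) := by rw [hθ]; ring
      linarith only [h3, h4, hηL', hL0, hc2])
  have hw2 : ε / (k : ℝ) ^ 2 ≤ w := by
    rw [hw, div_eq_mul_inv, ← Real.rpow_natCast, ← Real.rpow_neg (by linarith)]
    exact mul_le_mul_of_nonneg_left
      (Real.rpow_le_rpow_of_exponent_le hkR (by push_cast; linarith)) hε0.le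
  have s3 : 3 * Q * k * C2 * R ^ (-(1 / 4) : ℝ) * Z ≤ 3 * Q * w := by
    have h2 : R ^ (-(1 / 4) : ℝ) = (a * k ^ 3)⁻¹ := by
      rw [hR, ← Real.rpow_natCast, ← Real.rpow_mul hak.le, ← Real.rpow_neg_one]; norm_num
    refine le_trans (le_of_eq ?_) (mul_le_mul_of_nonneg_left hw2 (by positivity))
    rw [h2, ha]
    field_simp
  have s4 : 2 * x * Real.exp (-(3 / 20 * X)) * Z ≤ 3 * Q * w := by
    have h2 : Z ≤ ε * Real.exp (X / 40) := by
      rw [← div_le_iff₀' hε0]
      linarith [Real.add_one_le_exp (X / 40)]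
    have h3 : ε * Real.exp (-(X / 10)) ≤ w := by
      rw [hw, hpow]
      refine mul_le_mul_of_nonneg_left (Real.exp_le_exp.2 ?_) hε0.le
      linarith only [hηL', hkX, hL0]
    calc _ ≤ 3 * x * Real.exp (-(3 / 20 * X)) * (ε * Real.exp (X / 40)) := by gcongr; norm_num
      _ = 3 * (x * Real.exp (-(X / 40))) * (ε * Real.exp (-(X / 10))) := by
          have : Real.exp (-(3 / 20 * X)) * Real.exp (X / 40) =
              Real.exp (-(X / 40)) * Real.exp (-(X / 10)) := by
            rw [← Real.exp_add, ← Real.exp_add]; congr 1; ring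
          linear_combination 3 * x * ε * this
      _ ≤ _ := by gcongr
  refine le_trans (Nat.cast_le.2 ((card_le_card (t :=
    (S.filter fun n => k < n ∧ J ≤ ((P.filter fun p => p ∣ n - k).card : ℝ)) ∪
      S.filter fun n => k < n ∧ ∃ r : ℕ, R < r ∧ r ^ 2 ∣ n - k) fun n hn => ?_).trans
    (card_union_le _ _))) ?_
  · obtain ⟨hnS, hkn, hbad⟩ := mem_filter.1 hn
    by_contra hh
    simp only [mem_union, mem_filter, hnS, hkn, true_and, not_or, not_le, not_exists,
      not_and] at hh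
    have hnx := mem_range.1 (hS hnS)
    have h2 := tau_pt (n - k) k (by omega) hk P X l J R C4 (η / 24) (by linarith) (by positivity)
      (by linarith) hC4 (Real.log_le_log (by exact_mod_cast (by omega : 0 < n - k))
        (by exact_mod_cast (by omega : n - k ≤ x)))
      (fun r hr => by by_contra h; exact hh.2 r (not_le.1 h) hr)
      (fun p hp hd => by
        rcases hpr n hnS p hkn hp hd with h | h
        · exact Or.inl h
        · right
          by_cases h3 : Real.log p ≤ l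
          · exact Or.inl (mem_filter.2 ⟨(mem_PP _ _ _).2 ⟨⟨h.1, by
              have := Nat.le_of_dvd (by omega) hd
              omega⟩, hp⟩, h.2, h3⟩)
          · exact Or.inr (not_le.1 h3)) hh.1.le
    refine absurd (hbad.trans_le h2) (not_lt.2 ?_)
    have h3 : (R ^ 2) ^ (η / 24) = a ^ (η / 3) * Real.exp (η * L) := by
      rw [hR, ← pow_mul, ← Real.rpow_natCast, ← Real.rpow_mul hak.le,
        Real.mul_rpow ha0.le (by positivity), ← Real.rpow_natCast (k : ℝ),
        ← Real.rpow_mul (by linarith), hpow]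
      congr 2 <;> push_cast <;> ring
    have h4 : X / l = 10 * u := by rw [hl]; field_simp
    have h5 := hC5 k
    rw [hpow] at h5
    rw [h3, h4, hpow]
    have h6 : η * L + η * L + (J + 10 * u) * Real.log 2 ≤
        ((cc * (c3 + 1) + e) / Real.log z + 10 * u0) * Real.log 2 + (1 - η) * L := by
      have h8 := expo_z h0 h1 hz1 hz3 hg hΛ0 hsΛ
      have h9 : J = ((1 + η - γ) * Λ + (z - 1) * (1 + 2 * η) * ((1 + 2 * η) * Λ)) / Real.log z +
          (cc * (c3 + 1) + e) / Real.log z := by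
        rw [hJ, hcc, hθ, ← add_div]; congr 1; ring
      have h10 := mul_le_mul_of_nonneg_left (show Real.log 2 ≤ 7 / 10 by
        linarith only [Real.log_two_lt_d9]) hηL
      rw [h9, hu]
      linarith only [h8, h10]
    calc C4 * (a ^ (η / 3) * Real.exp (η * L)) *
          (k.divisors.card * Real.exp ((J + 10 * u) * Real.log 2))
        ≤ C4 * (a ^ (η / 3) * Real.exp (η * L)) *
          (C5 * Real.exp (η * L) * Real.exp ((J + 10 * u) * Real.log 2)) := by gcongr
      _ = C4 * a ^ (η / 3) * C5 * Real.exp (η * L + η * L + (J + 10 * u) * Real.log 2) := by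
          rw [Real.exp_add, Real.exp_add]; ring
      _ ≤ C4 * a ^ (η / 3) * C5 * Real.exp (((cc * (c3 + 1) + e) / Real.log z + 10 * u0) *
          Real.log 2 + (1 - η) * L) := by gcongr
      _ = _ := by rw [Real.exp_add]; ring
  · push_cast
    have h2 := mul_le_mul_of_nonneg_left (add_le_add s1 s2) (show 0 ≤ 3 * Q by positivity)
    rw [add_mul] at hb2
    have h3 : 12 * Q * ε * (i : ℝ) ^ (-(1 + η - γ)) = 12 * Q * v := by rw [hv]; ring
    have h4 := mul_le_mul_of_nonneg_left hwv hQ0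
    rw [h3]
    linarith only [hb1, hb2, h2, s3, s4, h4]

end Pool.Agent.MP_cebb75_nt.Y

end
end
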